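import Pool.Agent.Work.MP_916cc8_co.Bd.B01
import Pool.Agent.Work.MP_916cc8_co.Stmts

/-! Bundle of small proof modules (one section per former module). -/

section

/-! Two surfaces meet in at most three non-degenerate points. -/

set_option autoImplicit false

namespace Pool.Agent.Work.MP_916cc8_co

namespace K24aux

/-- two vectors parallel to a nonzero vector are parallel -/
theorem par {u1 u2 v1 v2 w1 w2 : ℝ} (hu : u1 ≠ 0 ∨ u2 ≠ 0) (h1 : u1 * v2 - u2 * v1 = 0)
    (h2 : u1 * w2 - u2 * w1 = 0) : v1 * w2 - v2 * w1 = 0 := by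
  rcases hu with h | h
  · have : u1 * (v1 * w2 - v2 * w1) = 0 := by linear_combination v1 * h2 - w1 * h1
    exact (mul_eq_zero.1 this).resolve_left h
  · have : u2 * (v1 * w2 - v2 * w1) = 0 := by linear_combination v2 * h2 - w2 * h1
    exact (mul_eq_zero.1 this).resolve_left h

/-- the algebraic core -/
theorem core (a1 a2 c1 c2 b1 b2 d1 d2 q1 q2 r1 r2 lam S1 S2 R1 R2 : ℝ)
    (hx : ¬(a1 = b1 ∧ a2 = b2 ∧ c1 = d1 ∧ c2 = d2)) (hqr : r1 - q1 ≠ 0 ∨ r2 - q2 ≠ 0)
    (hS1 : S1 = 2 + ((q1 - a1) * (a2 - c2) - (q2 - a2) * (a1 - c1)))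
    (hS2 : S2 = 2 + ((q1 - b1) * (b2 - d2) - (q2 - b2) * (b1 - d1)))
    (hR1 : R1 = 2 + ((r1 - a1) * (a2 - c2) - (r2 - a2) * (a1 - c1)))
    (hR2 : R2 = 2 + ((r1 - b1) * (b2 - d2) - (r2 - b2) * (b1 - d1)))
    (hl1 : S1 = lam * S2) (hl2 : R1 = lam * R2)
    (E1 : lam * S2 * (c1 - d1) + 2 * (q1 - a1) - 2 * lam * (q1 - b1) = 0)
    (E2 : lam * S2 * (c2 - d2) + 2 * (q2 - a2) - 2 * lam * (q2 - b2) = 0)
    (G1 : lam * R2 * (c1 - d1) + 2 * (r1 - a1) - 2 * lam * (r1 - b1) = 0)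
    (G2 : lam * R2 * (c2 - d2) + 2 * (r2 - a2) - 2 * lam * (r2 - b2) = 0)
    (hS : S1 ≠ 0) (hn : S1 ≠ 2) : False := by
  have hlam : lam ≠ 0 := by
    rintro rfl
    apply hS
    rw [hl1, zero_mul]
  have F1 : lam * (R2 - S2) * (c1 - d1) = 2 * (lam - 1) * (r1 - q1) := by
    linear_combination G1 - E1
  have F2 : lam * (R2 - S2) * (c2 - d2) = 2 * (lam - 1) * (r2 - q2) := by
    linear_combination G2 - E2
  have hc2 : (r1 - q1) * (b2 - d2) - (r2 - q2) * (b1 - d1) = R2 - S2 := by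
    rw [hR2, hS2]; ring
  have hc1 : (r1 - q1) * (a2 - c2) - (r2 - q2) * (a1 - c1) = lam * (R2 - S2) := by
    have : lam * (R2 - S2) = R1 - S1 := by rw [hl1, hl2]; ring
    rw [this, hR1, hS1]; ring
  by_cases h1 : lam = 1
  · subst h1
    by_cases hz : c1 - d1 = 0 ∧ c2 - d2 = 0
    · apply hx
      refine ⟨?_, ?_, by linarith [hz.1], by linarith [hz.2]⟩
      · have := E1
        rw [hz.1] at this
        linarith
      · have := E2
        rw [hz.2] at this
        linarith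
    · have hz' : c1 - d1 ≠ 0 ∨ c2 - d2 ≠ 0 := by
        by_contra hc
        push Not at hc
        exact hz hc
      have hRS : R2 - S2 = 0 := by
        rcases hz' with h | h
        · have : (R2 - S2) * (c1 - d1) = 0 := by linear_combination F1
          exact (mul_eq_zero.1 this).resolve_right h
        · have : (R2 - S2) * (c2 - d2) = 0 := by linear_combination F2
          exact (mul_eq_zero.1 this).resolve_right h
      rw [hRS] at hc1 hc2
      rw [mul_zero] at hc1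
      -- s z' = 2 z
      have hsz1 : S2 * (c1 - d1) = 2 * (a1 - b1) := by linear_combination E1
      have hsz2 : S2 * (c2 - d2) = 2 * (a2 - b2) := by linear_combination E2
      have hS2n : S2 - 2 ≠ 0 := by
        intro h
        apply hn
        rw [hl1]
        linarith
      -- z' is parallel to e
      have hez : (r1 - q1) * (c2 - d2) - (r2 - q2) * (c1 - d1) = 0 := by
        have : (S2 - 2) * ((r1 - q1) * (c2 - d2) - (r2 - q2) * (c1 - d1)) = 0 := by
          linear_combination (r1 - q1) * hsz2 - (r2 - q2) * hsz1 + 2 * hc1 - 2 * hc2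
        exact (mul_eq_zero.1 this).resolve_left hS2n
      have hez2 : (r1 - q1) * (a2 - b2) - (r2 - q2) * (a1 - b1) = 0 := by
        linear_combination (S2 * hez - (r1 - q1) * hsz2 + (r2 - q2) * hsz1) / 2
      have hzw : (a1 - b1) * (b2 - d2) - (a2 - b2) * (b1 - d1) = 0 := par hqr hez2 hc2
      have hz'w : (c1 - d1) * (a2 - c2) - (c2 - d2) * (a1 - c1) = 0 := par hqr hez hc1
      -- cr (q - a) z' = 0
      have hq : (c1 - d1) * (q2 - a2) - (c2 - d2) * (q1 - a1) = 0 := by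
        have hS12 : S1 = S2 := by linarith
        have : (S2 - 2) * ((c1 - d1) * (q2 - a2) - (c2 - d2) * (q1 - a1)) = 0 := by
          linear_combination (q2 - a2) * hsz1 - (q1 - a1) * hsz2 - 2 * hS12 + 2 * hS1 - 2 * hS2
            - 2 * hzw
        exact (mul_eq_zero.1 this).resolve_left hS2n
      have := par hz' hq hz'w
      apply hn
      rw [hS1]
      linarith
  · have hl1' : lam - 1 ≠ 0 := sub_ne_zero.2 h1
    have hRS : R2 - S2 ≠ 0 := by
      intro h
      rw [h, mul_zero, zero_mul] at F1 F2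
      rcases hqr with h2 | h2
      · exact (mul_ne_zero (mul_ne_zero two_ne_zero hl1') h2) F1.symm
      · exact (mul_ne_zero (mul_ne_zero two_ne_zero hl1') h2) F2.symm
    have k2 : lam * ((c1 - d1) * (b2 - d2) - (c2 - d2) * (b1 - d1)) = 2 * (lam - 1) := by
      apply mul_left_cancel₀ hRS
      linear_combination (b2 - d2) * F1 - (b1 - d1) * F2 + 2 * (lam - 1) * hc2
    have k1 : (c1 - d1) * (a2 - c2) - (c2 - d2) * (a1 - c1) = 2 * (lam - 1) := by
      apply mul_left_cancel₀ (mul_ne_zero hlam hRS)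
      linear_combination (a2 - c2) * F1 - (a1 - c1) * F2 + 2 * (lam - 1) * hc1
    have k3 : lam * ((a1 - b1) * (a2 - c2) - (a2 - b2) * (a1 - c1)) = 2 * (lam - 1) := by
      linear_combination (-(a2 - c2) * E1 + (a1 - c1) * E2 + lam * S2 * k1
        - 2 * (1 - lam) * hS1 + 2 * (1 - lam) * hl1) / 2
    have k4 : (a1 - b1) * (b2 - d2) - (a2 - b2) * (b1 - d1) = 2 * (lam - 1) := by
      linear_combination (-(b2 - d2) * E1 + (b1 - d1) * E2 + S2 * k2
        - 2 * (1 - lam) * hS2) / 2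
    have key : (lam - 1) ^ 2 = 0 := by
      linear_combination (-(lam * k1) + k3 + k2 - lam * k4) / 4
    exact hl1' (pow_eq_zero_iff (two_ne_zero) |>.1 key)

/-- the matrix of a surface -/
noncomputable def MM (x : Pt × Pt) : Matrix (Fin 3) (Fin 3) ℝ :=
  !![2 + x.2.1 * (x.1.2 - x.2.2), - x.2.1 * (x.1.1 - x.2.1),
      x.2.1 * (2 - x.1.1 * (x.1.2 - x.2.2) + x.1.2 * (x.1.1 - x.2.1)) - 2 * x.1.1;
    x.2.2 * (x.1.2 - x.2.2), 2 - x.2.2 * (x.1.1 - x.2.1),
      x.2.2 * (2 - x.1.1 * (x.1.2 - x.2.2) + x.1.2 * (x.1.1 - x.2.1)) - 2 * x.1.2;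
    x.1.2 - x.2.2, - (x.1.1 - x.2.1), 2 - x.1.1 * (x.1.2 - x.2.2) + x.1.2 * (x.1.1 - x.2.1)]

theorem MM_det (x : Pt × Pt) : (MM x).det = 8 := by
  unfold MM
  rw [Matrix.det_fin_three]
  simp
  ring

/-- the denominator -/
noncomputable def sd (x y : Pt × Pt) : ℝ := 2 + cr (y.1 - x.1) (x.1 - x.2)

theorem MM_mul {x y : Pt × Pt} (h : Rel x y) :
    Matrix.mulVec (MM x) ![y.1.1, y.1.2, 1] = sd x y • ![y.2.1, y.2.2, 1] := by
  obtain ⟨h1, h2, h3, h4⟩ := rel_iff.1 h
  unfold MM sd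
  simp only [cr, Prod.fst_sub, Prod.snd_sub] at h3 h4 ⊢
  ext i
  fin_cases i
  · simp [Matrix.mulVec, dotProduct, Fin.sum_univ_three]
    linear_combination (-1) * h3
  · simp [Matrix.mulVec, dotProduct, Fin.sum_univ_three]
    linear_combination (-1) * h4
  · simp [Matrix.mulVec, dotProduct, Fin.sum_univ_three]
    ring

end K24aux

open K24aux

theorem K24_proof : K24 := by
  classical
  intro x₁ x₂ hx Y hY
  by_contra hcard
  push Not at hcard
  set N : Matrix (Fin 3) (Fin 3) ℝ := (MM x₂)⁻¹ * MM x₁ with hN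
  have hdet : IsUnit (MM x₂).det := by
    rw [MM_det]
    exact isUnit_iff_ne_zero.2 (by norm_num)
  -- the ratios are eigenvalues
  have hroot : ∀ y ∈ Y, sd x₁ y / sd x₂ y ∈ N.charpoly.roots.toFinset := by
    intro y hy
    have r1 := (hY y hy).1.1
    have r2 := (hY y hy).2.1
    have hs2 : sd x₂ y ≠ 0 := rel_den r2
    rw [Multiset.mem_toFinset, Polynomial.mem_roots (Matrix.charpoly_monic N).ne_zero,
      Polynomial.IsRoot.def, Matrix.eval_charpoly]
    apply Matrix.exists_mulVec_eq_zero_iff.1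
    refine ⟨![y.1.1, y.1.2, 1], ?_, ?_⟩
    · intro h
      have := congrFun h 2
      simp at this
    · rw [Matrix.sub_mulVec, sub_eq_zero, hN, ← Matrix.mulVec_mulVec, MM_mul r1]
      have e2 := MM_mul r2
      have e3 : ![y.2.1, y.2.2, 1] = (sd x₂ y)⁻¹ • Matrix.mulVec (MM x₂) ![y.1.1, y.1.2, 1] := by
        rw [e2, smul_smul, inv_mul_cancel₀ hs2, one_smul]
      rw [e3, Matrix.mulVec_smul, Matrix.mulVec_smul, Matrix.mulVec_mulVec,
        Matrix.nonsing_inv_mul _ hdet, Matrix.one_mulVec, smul_smul, div_eq_mul_inv]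
      simp
  have hdeg : (N.charpoly.roots.toFinset).card ≤ 3 := by
    refine le_trans (Multiset.toFinset_card_le _) ?_
    refine le_trans (Polynomial.card_roots' _) ?_
    rw [Matrix.charpoly_natDegree_eq_dim]
    simp
  obtain ⟨y, hy, y', hy', hne, heq⟩ := Finset.exists_ne_map_eq_of_card_lt_of_maps_to
    (lt_of_le_of_lt hdeg hcard) (f := fun y => sd x₁ y / sd x₂ y) hroot
  have r1 := (hY y hy).1
  have r2 := (hY y hy).2
  have r1' := (hY y' hy').1
  have r2' := (hY y' hy').2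
  have hs2 : sd x₂ y ≠ 0 := rel_den r2.1
  have hs2' : sd x₂ y' ≠ 0 := rel_den r2'.1
  have hs1 : sd x₁ y ≠ 0 := rel_den r1.1
  have hq : y.1 ≠ y'.1 := fun h => hne (rel_unique r1.1 r1'.1 h)

  set lam := sd x₁ y / sd x₂ y with hlam
  have hl1 : sd x₁ y = lam * sd x₂ y := by
    rw [hlam, div_mul_cancel₀ _ hs2]
  have hl2 : sd x₁ y' = lam * sd x₂ y' := by
    rw [heq, div_mul_cancel₀ _ hs2']
  obtain ⟨-, -, A1, A2⟩ := rel_iff.1 r1.1
  obtain ⟨-, -, A3, A4⟩ := rel_iff.1 r2.1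
  obtain ⟨-, -, B1, B2⟩ := rel_iff.1 r1'.1
  obtain ⟨-, -, B3, B4⟩ := rel_iff.1 r2'.1
  change sd x₁ y * _ = _ at A1 A2
  change sd x₂ y * _ = _ at A3 A4
  change sd x₁ y' * _ = _ at B1 B2
  change sd x₂ y' * _ = _ at B3 B4
  refine core x₁.1.1 x₁.1.2 x₁.2.1 x₁.2.2 x₂.1.1 x₂.1.2 x₂.2.1 x₂.2.2 y.1.1 y.1.2 y'.1.1 y'.1.2
    lam (sd x₁ y) (sd x₂ y) (sd x₁ y') (sd x₂ y') ?_ ?_ ?_ ?_ ?_ ?_ hl1 hl2 ?_ ?_ ?_ ?_ hs1 ?_
  · rintro ⟨h1, h2, h3, h4⟩
    apply hx
    ext
    · exact h1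
    · exact h2
    · exact h3
    · exact h4
  · have := sub_ne_zero_pt hq
    simpa using this
  · unfold sd cr
    simp
  · unfold sd cr
    simp
  · unfold sd cr
    simp
  · unfold sd cr
    simp
  · linear_combination (-1) * A1 + lam * A3 + (y.2.1 - x₁.2.1) * hl1
  · linear_combination (-1) * A2 + lam * A4 + (y.2.2 - x₁.2.2) * hl1
  · linear_combination (-1) * B1 + lam * B3 + (y'.2.1 - x₁.2.1) * hl2
  · linear_combination (-1) * B2 + lam * B4 + (y'.2.2 - x₁.2.2) * hl2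
  · intro h
    apply r1.2
    unfold sd at h
    simp only [cr, Prod.fst_sub, Prod.snd_sub] at h ⊢
    linear_combination (-1) * h

end Pool.Agent.Work.MP_916cc8_co

end

section

/-! Dual of K24 by reflection. -/

set_option autoImplicit false

namespace Pool.Agent.Work.MP_916cc8_co

namespace K42aux

/-- the reflection -/
def rho (u : Pt) : Pt := (u.1, -u.2)

theorem rho_rho (u : Pt) : rho (rho u) = u := by
  unfold rho
  ext <;> simp

theorem rho_inj {u v : Pt} (h : rho u = rho v) : u = v := by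
  rw [← rho_rho u, h, rho_rho]

/-- the reflection on pairs -/
def tau (x : Pt × Pt) : Pt × Pt := (rho x.1, rho x.2)

theorem tau_inj : Function.Injective tau := by
  intro x y h
  unfold tau at h
  ext1
  · exact rho_inj (congrArg Prod.fst h)
  · exact rho_inj (congrArg Prod.snd h)

theorem mem_top_rho (p q z : Pt) : z ∈ top (rho q) (rho p) ↔ rho z ∈ top p q := by
  rw [mem_top, mem_top]
  simp only [cr, rho, Prod.fst_sub, Prod.snd_sub]
  constructor <;> intro h <;> linarith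

theorem rel_tau {x y : Pt × Pt} (h : Rel x y) : Rel (tau y) (tau x) := by
  obtain ⟨h1, h2, h3⟩ := h
  refine ⟨fun h => h1 (rho_inj h).symm, fun h => h2 (rho_inj h).symm, ?_⟩
  ext z
  show z ∈ top (rho y.1) (rho x.1) ↔ z ∈ top (rho y.2) (rho x.2)
  rw [mem_top_rho, mem_top_rho, h3]

theorem nrel_tau {x y : Pt × Pt} (h : NRel x y) : NRel (tau y) (tau x) := by
  refine ⟨rel_tau h.1, ?_⟩
  have hd := rel_den h.1
  obtain ⟨h1, h2, h3, h4⟩ := rel_iff.1 h.1
  have hne := h.2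
  intro h0
  apply hne
  set s := 2 + cr (y.1 - x.1) (x.1 - x.2) with hs
  simp only [tau, rho, cr, Prod.fst_sub, Prod.snd_sub] at h0 ⊢
  have : s * ((y.1.1 - x.1.1) * (x.2.2 - x.1.2) - (y.1.2 - x.1.2) * (x.2.1 - x.1.1)) = 0 := by
    linear_combination s * h0 - (y.1.1 - x.1.1) * h4 + (y.1.2 - x.1.2) * h3
  exact (mul_eq_zero.1 this).resolve_left hd

end K42aux

open K42aux in
theorem K42_proof (h : K24) : K42 := by
  intro y₁ y₂ hne X hX
  classical
  have h1 := h (tau y₁) (tau y₂) (fun e => hne (tau_inj e)) (X.image tau) (by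
    intro y hy
    obtain ⟨x, hx, rfl⟩ := Finset.mem_image.1 hy
    exact ⟨nrel_tau (hX x hx).1, nrel_tau (hX x hx).2⟩)
  rwa [Finset.card_image_of_injective _ tau_inj] at h1

end Pool.Agent.Work.MP_916cc8_co

end

section

/-!
Local identity of Ky Fan's lemma (item LOC).
-/

set_option autoImplicit false

namespace Pool.Agent.Work.MP_916cc8_co

namespace LOCaux

open scoped Classical in
/-- alternating sign word beginning with `e` -/
def altW (e : Bool) {k : ℕ} (w : Fin k → Bool) : Prop :=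
  ∀ i : Fin k, w i = xor e (decide (i.val % 2 = 1))

theorem altW_succ (e : Bool) {k : ℕ} (w : Fin (k + 1) → Bool) :
    altW e w ↔ w 0 = e ∧ altW (!e) (fun i => w i.succ) := by
  have hd : ∀ i : Fin k, decide ((i.succ : Fin (k + 1)).val % 2 = 1)
      = !decide (i.val % 2 = 1) := by
    intro i
    rcases Nat.mod_two_eq_zero_or_one i.val with h | h
    · have h1 : (i.val + 1) % 2 = 1 := by omega
      rw [Fin.val_succ, h1, h]; rfl
    · have h1 : (i.val + 1) % 2 = 0 := by omega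
      rw [Fin.val_succ, h1, h]; rfl
  unfold altW
  rw [Fin.forall_fin_succ]
  refine and_congr ?_ ?_
  · simp
  · refine forall_congr' fun i => ?_
    rw [hd i]
    cases e <;> cases decide (i.val % 2 = 1) <;> simp

open scoped Classical in
theorem word (k : ℕ) : ∀ (w : Fin (k + 1) → Bool) (e : Bool),
    (∑ j : Fin (k + 1), (if altW e (fun i => w (j.succAbove i)) then (1 : ZMod 2) else 0)) =
      (if altW e w then 1 else 0) + (if altW (!e) w then 1 else 0) := by
  induction k with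
  | zero =>
    intro w e
    have h1 : ∀ j : Fin 1, altW e (fun i : Fin 0 => w (j.succAbove i)) := by
      intro j i; exact i.elim0
    have h2 : ∀ e' : Bool, altW e' w ↔ w 0 = e' := by
      intro e'
      rw [altW_succ]
      constructor
      · intro h; exact h.1
      · intro h; exact ⟨h, fun i => i.elim0⟩
    simp only [h1, h2]
    cases e <;> cases w 0 <;> simp
  | succ k ih =>
    intro w e
    rw [Fin.sum_univ_succ]
    have h0 : (fun i => w ((0 : Fin (k + 2)).succAbove i)) = fun i => w i.succ := by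
      funext i; simp
    rw [h0]
    have h1 : ∀ j : Fin (k + 1), altW e (fun i => w (j.succ.succAbove i)) ↔
        (w 0 = e ∧ altW (!e) (fun i => (fun i' : Fin (k + 1) => w i'.succ) (j.succAbove i))) := by
      intro j
      rw [altW_succ]
      simp
    simp only [h1]
    have h2 := ih (fun i' : Fin (k + 1) => w i'.succ) (!e)
    have h3 : ∀ e' : Bool, altW e' w ↔
        (w 0 = e' ∧ altW (!e') (fun i' : Fin (k + 1) => w i'.succ)) := fun e' => altW_succ e' w
    simp only [h3]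
    rw [Bool.not_not] at h2 ⊢
    by_cases hw : w 0 = e
    · have hw' : ¬ (w 0 = !e) := by rw [hw]; cases e <;> simp
      simp only [hw, true_and] at *
      rw [h2]
      have hne : ¬ (e = !e) := by cases e <;> simp
      simp only [hne, false_and, if_false, add_zero]
      generalize (if altW e fun i' : Fin (k + 1) => w i'.succ then (1 : ZMod 2) else 0) = a
      generalize (if altW (!e) fun i' : Fin (k + 1) => w i'.succ then (1 : ZMod 2) else 0) = b
      revert a b; decide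
    · have hw' : w 0 = !e := by
        revert hw; cases e <;> cases w 0 <;> simp
      have hne : ¬ ((!e) = e) := by cases e <;> simp
      simp only [hw', hne, false_and, if_false, Finset.sum_const_zero, add_zero, zero_add,
        true_and]

theorem alt_sorted {m k : ℕ} (s : Bool) (ℓ : Fin k → Lab m)
    (h : StrictMono (fun i => (ℓ i).1)) : Alt s ℓ ↔ altW s (fun i => (ℓ i).2) := by
  constructor
  · rintro ⟨π, h1, h2⟩
    have h3 : (fun i => (ℓ (π i)).1) = fun i => (ℓ i).1 := by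
      refine (h1.range_inj h).1 ?_
      ext y
      constructor
      · rintro ⟨i, rfl⟩; exact ⟨π i, rfl⟩
      · rintro ⟨i, rfl⟩; exact ⟨π.symm i, by simp⟩
    have h4 : ∀ i, π i = i := fun i => h.injective (congrFun h3 i)
    intro i
    have := h2 i
    rw [h4 i] at this
    exact this
  · intro h1
    exact ⟨1, h, h1⟩

theorem alt_perm {m k : ℕ} (s : Bool) (ℓ : Fin k → Lab m) (σ : Equiv.Perm (Fin k)) :
    Alt s (fun i => ℓ (σ i)) ↔ Alt s ℓ := by
  constructor
  · rintro ⟨π, h1, h2⟩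
    exact ⟨σ * π, h1, h2⟩
  · rintro ⟨π, h1, h2⟩
    refine ⟨σ⁻¹ * π, ?_, ?_⟩
    · simpa using h1
    · simpa using h2

theorem facet_perm {k : ℕ} (π : Equiv.Perm (Fin (k + 1))) (j : Fin (k + 1)) :
    ∃ σ : Equiv.Perm (Fin k), ∀ i, π (j.succAbove i) = (π j).succAbove (σ i) := by
  have h : ∀ i : Fin k, ∃ z, (π j).succAbove z = π (j.succAbove i) := by
    intro i
    refine Fin.exists_succAbove_eq ?_
    intro h
    exact Fin.succAbove_ne j i (π.injective h)
  choose g hg using h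
  have hinj : Function.Injective g := by
    intro a b hab
    have : π (j.succAbove a) = π (j.succAbove b) := by rw [← hg a, ← hg b, hab]
    exact Fin.succAbove_right_injective (π.injective this)
  refine ⟨Equiv.ofBijective g (Finite.injective_iff_bijective.1 hinj), fun i => ?_⟩
  exact (hg i).symm

theorem alt_inj {m k : ℕ} {s : Bool} {ℓ : Fin k → Lab m} (h : Alt s ℓ) :
    Function.Injective ℓ := by
  obtain ⟨π, h1, -⟩ := h
  intro a b hab
  have : π.symm a = π.symm b := by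
    apply h1.injective
    simp [hab]
  exact π.symm.injective this

end LOCaux

open LOCaux in
theorem LOC_proof : LOC := by
  classical
  intro m k ℓ hℓ
  by_cases hinj : Function.Injective ℓ
  · -- distinct labels
    have hinj1 : Function.Injective (fun i => (ℓ i).1) := by
      intro a b hab
      by_contra hne
      have hne' : ℓ a ≠ ℓ b := fun h => hne (hinj h)
      have h2 : (ℓ a).2 ≠ (ℓ b).2 := fun h => hne' (Prod.ext hab h)
      apply hℓ a b
      refine Prod.ext hab ?_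
      show (ℓ a).2 = !(ℓ b).2
      revert h2
      cases (ℓ a).2 <;> cases (ℓ b).2 <;> simp
    obtain ⟨π, hπ⟩ : ∃ π : Equiv.Perm (Fin (k + 1)), StrictMono (fun i => (ℓ (π i)).1) := by
      refine ⟨Tuple.sort (fun i => (ℓ i).1), ?_⟩
      exact (Tuple.monotone_sort (fun i => (ℓ i).1)).strictMono_of_injective
        (hinj1.comp (Tuple.sort (fun i => (ℓ i).1)).injective)
    have hsum : (∑ j : Fin (k + 1),
        (if Alt true (fun i => ℓ (j.succAbove i)) then (1 : ZMod 2) else 0)) =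
        ∑ j : Fin (k + 1),
          (if altW true (fun i => (fun i' => (ℓ (π i')).2) (j.succAbove i))
            then (1 : ZMod 2) else 0) := by
      rw [← Equiv.sum_comp π]
      refine Finset.sum_congr rfl fun j _ => ?_
      obtain ⟨σ, hσ⟩ := facet_perm π j
      have h1 : Alt true (fun i => ℓ ((π j).succAbove i)) ↔
          Alt true (fun i => ℓ (π (j.succAbove i))) := by
        rw [← alt_perm true (fun i => ℓ ((π j).succAbove i)) σ]
        simp only [hσ]
      have h2 : StrictMono (fun i => (ℓ (π (j.succAbove i))).1) :=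
        hπ.comp (Fin.strictMono_succAbove j)
      rw [if_congr (h1.trans (alt_sorted true (fun i => ℓ (π (j.succAbove i))) h2)) rfl rfl]
    rw [hsum, word k (fun i' => (ℓ (π i')).2) true]
    have h3 : ∀ s : Bool, Alt s ℓ ↔ altW s (fun i' => (ℓ (π i')).2) := by
      intro s
      rw [← alt_perm s ℓ π]
      exact alt_sorted s (fun i => ℓ (π i)) hπ
    rw [if_congr (h3 true) rfl rfl, if_congr (h3 false) rfl rfl]
    rfl
  · -- two equal labels
    have hna : ∀ s : Bool, ¬ Alt s ℓ := fun s h => hinj (alt_inj h)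
    rw [if_neg (hna true), if_neg (hna false), add_zero]
    have : ∃ a b, ℓ a = ℓ b ∧ a ≠ b := by
      unfold Function.Injective at hinj
      push Not at hinj
      exact hinj
    obtain ⟨a, b, hab, hne⟩ := this
    have hsw : ∀ i, ℓ (Equiv.swap a b i) = ℓ i := by
      intro i
      by_cases h1 : i = a
      · subst h1; rw [Equiv.swap_apply_left]; exact hab.symm
      · by_cases h2 : i = b
        · subst h2; rw [Equiv.swap_apply_right]; exact hab
        · rw [Equiv.swap_apply_of_ne_of_ne h1 h2]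
    have hfac : ∀ j, Alt true (fun i => ℓ (j.succAbove i)) ↔
        Alt true (fun i => ℓ ((Equiv.swap a b j).succAbove i)) := by
      intro j
      obtain ⟨σ, hσ⟩ := facet_perm (Equiv.swap a b) j
      rw [← alt_perm true (fun i => ℓ ((Equiv.swap a b j).succAbove i)) σ]
      have : (fun i => ℓ (j.succAbove i)) =
          fun i => ℓ ((Equiv.swap a b j).succAbove (σ i)) := by
        funext i
        rw [← hσ, hsw]
      rw [this]
    have hoth : ∀ j, j ≠ a → j ≠ b → ¬ Alt true (fun i => ℓ (j.succAbove i)) := by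
      intro j hja hjb h
      obtain ⟨a', ha'⟩ := Fin.exists_succAbove_eq (Ne.symm hja)
      obtain ⟨b', hb'⟩ := Fin.exists_succAbove_eq (Ne.symm hjb)
      have h1 : a' = b' := alt_inj h (by simp only [ha', hb', hab])
      apply hne
      rw [← ha', ← hb', h1]
    refine Finset.sum_involution (fun j _ => Equiv.swap a b j) ?_ ?_ ?_ ?_
    · intro j _
      rw [if_congr (hfac j) rfl rfl]
      generalize (if Alt true fun i => ℓ ((Equiv.swap a b j).succAbove i) then (1 : ZMod 2) else 0)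
        = c
      revert c; decide
    · intro j _ hj hsj
      have hj' : Alt true (fun i => ℓ (j.succAbove i)) := by
        by_contra h
        exact hj (if_neg h)
      have h1 : j = a ∨ j = b := by
        by_contra h
        push Not at h
        exact hoth j h.1 h.2 hj'
      rcases h1 with rfl | rfl
      · rw [Equiv.swap_apply_left] at hsj
        exact hne hsj.symm
      · rw [Equiv.swap_apply_right] at hsj
        exact hne hsj
    · intro j _; exact Finset.mem_univ _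
    · intro j _; simp

end Pool.Agent.Work.MP_916cc8_co

end

section

/-! The trivial point-line incidence bound. -/

set_option autoImplicit false

namespace Pool.Agent.Work.MP_916cc8_co

open scoped Classical in
theorem LineKST_proof : LineKST := by
  intro S L hL
  set I : ℝ := ∑ ℓ ∈ L, (rich S ℓ : ℝ) with hI
  have hrich : ∀ ℓ : Set Pt, (rich S ℓ : ℝ) = ∑ p ∈ S, if p ∈ ℓ then (1 : ℝ) else 0 := by
    intro ℓ
    unfold rich
    rw [Finset.sum_boole]
  have hI2 : I = ∑ p ∈ S, ∑ ℓ ∈ L, if p ∈ ℓ then (1 : ℝ) else 0 := by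
    rw [Finset.sum_comm]
    exact Finset.sum_congr rfl fun ℓ _ => hrich ℓ
  have hCS : I ^ 2 ≤ S.card * ∑ p ∈ S, (∑ ℓ ∈ L, if p ∈ ℓ then (1 : ℝ) else 0) ^ 2 := by
    rw [hI2]
    exact sq_sum_le_card_mul_sum_sq
  have hsq : ∑ p ∈ S, (∑ ℓ ∈ L, if p ∈ ℓ then (1 : ℝ) else 0) ^ 2 ≤ I + (L.card : ℝ) ^ 2 := by
    have h1 : ∀ p : Pt, (∑ ℓ ∈ L, if p ∈ ℓ then (1 : ℝ) else 0) ^ 2 =
        ∑ ℓ ∈ L, ∑ ℓ' ∈ L, if p ∈ ℓ ∧ p ∈ ℓ' then (1 : ℝ) else 0 := by
      intro p
      rw [sq, Finset.sum_mul_sum]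
      refine Finset.sum_congr rfl fun ℓ _ => Finset.sum_congr rfl fun ℓ' _ => ?_
      by_cases h : p ∈ ℓ <;> by_cases h' : p ∈ ℓ' <;> simp [h, h']
    have h2 : ∑ p ∈ S, (∑ ℓ ∈ L, if p ∈ ℓ then (1 : ℝ) else 0) ^ 2 =
        ∑ ℓ ∈ L, ∑ ℓ' ∈ L, ∑ p ∈ S, if p ∈ ℓ ∧ p ∈ ℓ' then (1 : ℝ) else 0 := by
      rw [Finset.sum_congr rfl fun p _ => h1 p, Finset.sum_comm]
      exact Finset.sum_congr rfl fun ℓ _ => Finset.sum_comm
    rw [h2]
    have h3 : ∀ ℓ ∈ L, ∑ ℓ' ∈ L, ∑ p ∈ S, (if p ∈ ℓ ∧ p ∈ ℓ' then (1 : ℝ) else 0) ≤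
        (rich S ℓ : ℝ) + L.card := by
      intro ℓ hℓ
      rw [← Finset.add_sum_erase L _ hℓ]
      have h4 : ∑ p ∈ S, (if p ∈ ℓ ∧ p ∈ ℓ then (1 : ℝ) else 0) = rich S ℓ := by
        rw [hrich]
        simp
      have h5 : ∑ ℓ' ∈ L.erase ℓ, ∑ p ∈ S, (if p ∈ ℓ ∧ p ∈ ℓ' then (1 : ℝ) else 0) ≤ L.card := by
        calc ∑ ℓ' ∈ L.erase ℓ, ∑ p ∈ S, (if p ∈ ℓ ∧ p ∈ ℓ' then (1 : ℝ) else 0)
            ≤ ∑ ℓ' ∈ L.erase ℓ, (1 : ℝ) := by
              refine Finset.sum_le_sum fun ℓ' hℓ' => ?_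
              rw [Finset.mem_erase] at hℓ'
              rw [Finset.sum_boole]
              have : (S.filter (fun p => p ∈ ℓ ∧ p ∈ ℓ')).card ≤ 1 := by
                rw [Finset.card_le_one]
                intro x hx y hy
                rw [Finset.mem_filter] at hx hy
                by_contra hxy
                exact hℓ'.1 (line_eq_of_two (hL ℓ' hℓ'.2) (hL ℓ hℓ) hxy hx.2.2 hy.2.2 hx.2.1 hy.2.1)
              exact_mod_cast this
          _ = ((L.erase ℓ).card : ℝ) := by simp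
          _ ≤ L.card := by exact_mod_cast Finset.card_le_card (Finset.erase_subset _ _)
      rw [h4]
      linarith
    calc ∑ ℓ ∈ L, ∑ ℓ' ∈ L, ∑ p ∈ S, (if p ∈ ℓ ∧ p ∈ ℓ' then (1 : ℝ) else 0)
        ≤ ∑ ℓ ∈ L, ((rich S ℓ : ℝ) + L.card) := Finset.sum_le_sum h3
      _ = I + (L.card : ℝ) ^ 2 := by
        rw [Finset.sum_add_distrib, Finset.sum_const, nsmul_eq_mul, hI]
        ring
  have hn : (0 : ℝ) ≤ S.card := Nat.cast_nonneg _
  have hm : (0 : ℝ) ≤ L.card := Nat.cast_nonneg _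
  have hmain : I ^ 2 ≤ S.card * (I + (L.card : ℝ) ^ 2) :=
    hCS.trans (mul_le_mul_of_nonneg_left hsq hn)
  by_cases hc : I ≤ S.card
  · have : 0 ≤ (L.card : ℝ) * Real.sqrt S.card := mul_nonneg hm (Real.sqrt_nonneg _)
    linarith
  · push Not at hc
    have h1 : (I - S.card) ^ 2 ≤ ((L.card : ℝ) * Real.sqrt S.card) ^ 2 := by
      rw [mul_pow, Real.sq_sqrt hn]
      nlinarith
    have h2 := abs_le_of_sq_le_sq h1 (mul_nonneg hm (Real.sqrt_nonneg _))
    linarith [(abs_le.1 h2).2, le_abs_self (I - S.card)]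

end Pool.Agent.Work.MP_916cc8_co

end

section

/-!
# LinesIn: number of lines in the zero set
-/

set_option autoImplicit false

namespace Pool.Agent.Work.MP_916cc8_co

open MvPolynomial

namespace LinesInAux

/-- there is a parametrised line `(t, s t + r)`, `r` outside a finite set, on which `P` is not
identically zero -/
theorem exists_offset (P : MvPolynomial (Fin 2) ℝ) (hP : P ≠ 0) (s : ℝ) (B : Finset ℝ) :
    ∃ r : ℝ, r ∉ B ∧ ∃ t : ℝ, eval (v2 (t, s * t + r)) P ≠ 0 := by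
  set F : MvPolynomial (Fin 2) ℝ := P * ∏ b ∈ B, (X 1 - C s * X 0 - C b) with hF
  have hF0 : F ≠ 0 := by
    rw [hF]
    apply mul_ne_zero hP
    rw [Finset.prod_ne_zero_iff]
    intro b _ h
    have := congrArg (eval (v2 (0, b + 1))) h
    simp [v2] at this
  obtain ⟨x, hx⟩ : ∃ x : Fin 2 → ℝ, eval x F ≠ 0 := by
    by_contra hc
    push Not at hc
    exact hF0 (MvPolynomial.funext fun x => by rw [hc x, map_zero])
  rw [hF, map_mul, map_prod] at hx
  obtain ⟨h1, h2⟩ := mul_ne_zero_iff.1 hx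
  rw [Finset.prod_ne_zero_iff] at h2
  refine ⟨x 1 - s * x 0, ?_, x 0, ?_⟩
  · intro hb
    apply h2 _ hb
    simp
  · have : v2 (x 0, s * x 0 + (x 1 - s * x 0)) = x := by
      funext i
      fin_cases i <;> simp [v2]
    rw [this]
    exact h1

/-- `P` on the line `(t, s t + r)` -/
noncomputable def res (P : MvPolynomial (Fin 2) ℝ) (s r : ℝ) : Polynomial ℝ :=
  MvPolynomial.aeval ![Polynomial.X, Polynomial.C s * Polynomial.X + Polynomial.C r] P

theorem res_eval (P : MvPolynomial (Fin 2) ℝ) (s r t : ℝ) :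
    (res P s r).eval t = eval (v2 (t, s * t + r)) P := by
  unfold res
  induction P using MvPolynomial.induction_on with
  | C a => simp
  | add p q hp hq => rw [map_add, Polynomial.eval_add, hp, hq, map_add]
  | mul_X p i hp =>
    rw [map_mul, Polynomial.eval_mul, hp, map_mul, MvPolynomial.aeval_X, MvPolynomial.eval_X]
    congr 1
    fin_cases i <;> simp [v2]

theorem res_natDegree (P : MvPolynomial (Fin 2) ℝ) (s r : ℝ) :
    (res P s r).natDegree ≤ P.totalDegree := by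
  have := MvPolynomial.aeval_natDegree_le (m := P.totalDegree) (n := 1) P le_rfl
    ![Polynomial.X, Polynomial.C s * Polynomial.X + Polynomial.C r] (by
      intro i
      fin_cases i
      · simp
      · exact Polynomial.natDegree_linear_le)
  simpa [res] using this

end LinesInAux

open LinesInAux in
theorem LinesIn_proof : LinesIn := by
  classical
  intro P hP L hL
  choose! a b c hab hl using fun ℓ (h : ℓ ∈ L) => (hL ℓ h).1
  -- the slope
  obtain ⟨s, hs⟩ : ∃ s : ℝ, s ∉ L.image (fun ℓ => - a ℓ / b ℓ) := Infinite.exists_notMem_finset _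
  have hs' : ∀ ℓ ∈ L, a ℓ + b ℓ * s ≠ 0 := by
    intro ℓ h h0
    by_cases hb : b ℓ = 0
    · rw [hb, zero_mul, add_zero] at h0
      rcases hab ℓ h with h1 | h1
      · exact h1 h0
      · exact h1 hb
    · apply hs
      refine Finset.mem_image.2 ⟨ℓ, h, ?_⟩
      rw [div_eq_iff hb]
      linarith
  -- the bad offsets
  have hfin : Set.Finite {r : ℝ | ∃ ℓ ∈ L, ∃ ℓ' ∈ L, ℓ ≠ ℓ' ∧ ∃ t : ℝ,
      (t, s * t + r) ∈ ℓ ∧ (t, s * t + r) ∈ ℓ'} := by
    have : {r : ℝ | ∃ ℓ ∈ L, ∃ ℓ' ∈ L, ℓ ≠ ℓ' ∧ ∃ t : ℝ,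
        (t, s * t + r) ∈ ℓ ∧ (t, s * t + r) ∈ ℓ'} =
        ⋃ ℓ ∈ L, ⋃ ℓ' ∈ L, {r : ℝ | ℓ ≠ ℓ' ∧ ∃ t : ℝ,
          (t, s * t + r) ∈ ℓ ∧ (t, s * t + r) ∈ ℓ'} := by
      ext r
      simp only [Set.mem_iUnion, Set.mem_ofPred_eq, exists_prop]
    rw [this]
    refine Set.Finite.biUnion L.finite_toSet fun ℓ h => Set.Finite.biUnion L.finite_toSet
      fun ℓ' h' => Set.Subsingleton.finite ?_
    rintro r ⟨hne, t, h1, h2⟩ r' ⟨_, t', h3, h4⟩
    by_contra hr
    have hxy : ((t, s * t + r) : Pt) ≠ (t', s * t' + r') := by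
      intro he
      have e1 : t = t' := congrArg Prod.fst he
      have e2 : s * t + r = s * t' + r' := congrArg Prod.snd he
      rw [e1] at e2
      exact hr (add_left_cancel e2)
    exact hne (line_eq_of_two (hL ℓ h).1 (hL ℓ' h').1 hxy h1 h3 h2 h4)
  obtain ⟨r, hr, t₀, ht₀⟩ := exists_offset P hP s hfin.toFinset
  have hu0 : res P s r ≠ 0 := by
    intro h
    rw [← res_eval, h, Polynomial.eval_zero] at ht₀
    exact ht₀ rfl
  set τ : Set Pt → ℝ := fun ℓ => (c ℓ - b ℓ * r) / (a ℓ + b ℓ * s) with hτ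
  have hmem : ∀ ℓ ∈ L, ((τ ℓ, s * τ ℓ + r) : Pt) ∈ ℓ := by
    intro ℓ h
    have h1 := hl ℓ h
    rw [h1, Set.mem_ofPred_eq, ← h1]
    have h2 : τ ℓ * (a ℓ + b ℓ * s) = c ℓ - b ℓ * r := div_mul_cancel₀ _ (hs' ℓ h)
    show a ℓ * τ ℓ + b ℓ * (s * τ ℓ + r) = c ℓ
    linarith
  have hinj : Set.InjOn τ L := by
    intro ℓ h ℓ' h' he
    by_contra hne
    apply hr
    rw [Set.Finite.mem_toFinset]
    refine ⟨ℓ, h, ℓ', h', hne, τ ℓ, hmem ℓ h, ?_⟩
    have := hmem ℓ' h'
    rw [← he] at this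
    exact this
  have h1 : (L.image τ).val ⊆ (res P s r).roots := by
    intro t ht
    obtain ⟨ℓ, h, rfl⟩ := Finset.mem_image.1 ht
    rw [Polynomial.mem_roots hu0, Polynomial.IsRoot.def, res_eval]
    exact (hL ℓ h).2 _ (hmem ℓ h)
  have h2 := Polynomial.card_le_degree_of_subset_roots h1
  rw [Finset.card_image_of_injOn hinj] at h2
  exact h2.trans (res_natDegree P s r)

end Pool.Agent.Work.MP_916cc8_co

end

section

/-! Szemeredi-Trotter for rich lines from the partition theorem -/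

set_option autoImplicit false

namespace Pool.Agent.Work.MP_916cc8_co

open MvPolynomial
open scoped Classical

namespace STw

theorem exists_param {ℓ : Set Pt} (h : IsLine ℓ) : ∃ (p d : Pt) (σ : Pt → ℝ),
    (∀ x ∈ ℓ, x = (p.1 + σ x * d.1, p.2 + σ x * d.2)) ∧
    (∀ s : ℝ, ((p.1 + s * d.1, p.2 + s * d.2) : Pt) ∈ ℓ) := by
  obtain ⟨a, b, c, hab, rfl⟩ := h
  have hN : a ^ 2 + b ^ 2 ≠ 0 := by rcases hab with h | h <;> positivity
  refine ⟨(c * a / (a ^ 2 + b ^ 2), c * b / (a ^ 2 + b ^ 2)), (b, -a),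
    fun x => (b * x.1 - a * x.2) / (a ^ 2 + b ^ 2), ?_, ?_⟩
  · rintro ⟨x1, x2⟩ hx
    simp only [Set.mem_ofPred_eq] at hx
    ext
    · simp only
      field_simp
      rw [← hx]
      ring
    · simp only
      field_simp
      rw [← hx]
      ring
  · intro s
    simp only [Set.mem_ofPred_eq]
    field_simp
    ring

/-- restriction to a parametrised line -/
noncomputable def res (p d : Pt) (f : MvPolynomial (Fin 2) ℝ) : Polynomial ℝ :=
  MvPolynomial.aeval ![Polynomial.C p.1 + Polynomial.C d.1 * Polynomial.X,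
    Polynomial.C p.2 + Polynomial.C d.2 * Polynomial.X] f

theorem res_eval (p d : Pt) (f : MvPolynomial (Fin 2) ℝ) (s : ℝ) :
    (res p d f).eval s = eval (v2 (p.1 + s * d.1, p.2 + s * d.2)) f := by
  unfold res
  induction f using MvPolynomial.induction_on with
  | C a => simp
  | add f g hf hg => simp only [map_add, Polynomial.eval_add, hf, hg]
  | mul_X f i hf =>
    simp only [map_mul, Polynomial.eval_mul, hf, MvPolynomial.aeval_X, MvPolynomial.eval_X]
    congr 1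
    fin_cases i
    · simp [v2]; ring
    · simp [v2]; ring

theorem res_natDegree (p d : Pt) (f : MvPolynomial (Fin 2) ℝ) :
    (res p d f).natDegree ≤ f.totalDegree := by
  have h := MvPolynomial.aeval_natDegree_le (m := f.totalDegree) (n := 1) f le_rfl
    ![Polynomial.C p.1 + Polynomial.C d.1 * Polynomial.X,
    Polynomial.C p.2 + Polynomial.C d.2 * Polynomial.X] (by
      intro i
      fin_cases i
      · simp only [Fin.zero_eta, Matrix.cons_val_zero]
        rw [add_comm]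
        exact Polynomial.natDegree_linear_le
      · simp only [Fin.mk_one, Matrix.cons_val_one]
        rw [add_comm]
        exact Polynomial.natDegree_linear_le)
  rwa [mul_one] at h

theorem sign_const (g : Polynomial ℝ) {z w : ℝ} (hzw : z ≤ w)
    (h : ∀ x, z ≤ x → x ≤ w → g.eval x ≠ 0) : 0 < g.eval z * g.eval w := by
  by_contra hc
  push Not at hc
  have h3 := h z le_rfl hzw
  have h0 : (0 : ℝ) ∈ Set.uIcc (g.eval z) (g.eval w) := by
    rw [Set.mem_uIcc]
    rcases le_total (g.eval z) 0 with h1 | h1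
    · left
      refine ⟨h1, ?_⟩
      by_contra h2
      push Not at h2
      have h4 : g.eval z < 0 := lt_of_le_of_ne h1 h3
      exact absurd (mul_pos_of_neg_of_neg h4 h2) (not_lt.mpr hc)
    · right
      refine ⟨?_, h1⟩
      by_contra h2
      push Not at h2
      have h4 : 0 < g.eval z := lt_of_le_of_ne h1 (Ne.symm h3)
      exact absurd (mul_pos h4 h2) (not_lt.mpr hc)
  obtain ⟨x, hx, hx0⟩ := intermediate_value_uIcc (g.continuous.continuousOn) h0
  rw [Set.uIcc_of_le hzw] at hx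
  exact h x hx.1 hx.2 hx0

theorem pairs_ge {t : ℕ} (f : Fin t → MvPolynomial (Fin 2) ℝ) (p d : Pt) (σ : Pt → ℝ)
    (T : Finset Pt) (hT : ∀ x ∈ T, x = (p.1 + σ x * d.1, p.2 + σ x * d.2))
    (hne : ∀ x ∈ T, ∀ j, eval (v2 x) (f j) ≠ 0) :
    T.card ^ 2 ≤ ((∑ j, (f j).totalDegree) + 1) *
      ((T ×ˢ T).filter (fun z => sameCl f (v2 z.1) (v2 z.2))).card := by
  rcases T.eq_empty_or_nonempty with rfl | ⟨x0, hx0⟩
  · simp
  have hev : ∀ x ∈ T, ∀ j, (res p d (f j)).eval (σ x) = eval (v2 x) (f j) := by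
    intro x hx j
    rw [res_eval, ← hT x hx]
  have hres : ∀ j, res p d (f j) ≠ 0 := by
    intro j h
    apply hne x0 hx0 j
    rw [← hev x0 hx0 j, h, Polynomial.eval_zero]
  set G : Polynomial ℝ := ∏ j, res p d (f j) with hG
  have hG0 : G ≠ 0 := Finset.prod_ne_zero_iff.mpr fun j _ => hres j
  have hGd : G.natDegree ≤ ∑ j, (f j).totalDegree := by
    refine (Polynomial.natDegree_prod_le _ _).trans (Finset.sum_le_sum fun j _ => ?_)
    exact res_natDegree p d (f j)
  set D := ∑ j, (f j).totalDegree with hD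
  set N : Pt → ℕ := fun x => (G.roots.toFinset.filter (fun r => r < σ x)).card with hN
  have hNle : ∀ x, N x < D + 1 := by
    intro x
    have h1 : N x ≤ G.roots.toFinset.card := Finset.card_filter_le _ _
    have h2 : G.roots.toFinset.card ≤ G.roots.card := Multiset.toFinset_card_le _
    have h3 := G.card_roots'
    omega
  have key : ∀ x ∈ T, ∀ y ∈ T, σ x ≤ σ y → N x = N y → sameCl f (v2 x) (v2 y) := by
    intro x hx y hy hxy hNN j
    rw [← hev x hx j, ← hev y hy j]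
    refine sign_const _ hxy fun r h1 h2 h0 => ?_
    have hroot : r ∈ G.roots.toFinset := by
      rw [Multiset.mem_toFinset, Polynomial.mem_roots hG0, Polynomial.IsRoot.def, hG,
        Polynomial.eval_prod]
      exact Finset.prod_eq_zero (Finset.mem_univ j) h0
    rcases h2.lt_or_eq with h2 | h2
    · have hsub : G.roots.toFinset.filter (fun r => r < σ x) ⊆
          G.roots.toFinset.filter (fun r => r < σ y) := by
        intro s hs
        rw [Finset.mem_filter] at hs ⊢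
        exact ⟨hs.1, lt_of_lt_of_le hs.2 hxy⟩
      have heq := Finset.eq_of_subset_of_card_le hsub (le_of_eq hNN.symm)
      have h3 : r ∈ G.roots.toFinset.filter (fun r => r < σ y) :=
        Finset.mem_filter.mpr ⟨hroot, h2⟩
      rw [← heq, Finset.mem_filter] at h3
      exact absurd h3.2 (not_lt.mpr h1)
    · rw [h2, hev y hy j] at h0
      exact hne y hy j h0
  have key2 : ∀ x ∈ T, ∀ y ∈ T, N x = N y → sameCl f (v2 x) (v2 y) := by
    intro x hx y hy hNN
    rcases le_total (σ x) (σ y) with h | h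
    · exact key x hx y hy h hNN
    · intro j
      rw [mul_comm]
      exact key y hy x hx h hNN.symm j
  have hcard : T.card = ∑ i ∈ Finset.range (D + 1), (T.filter (fun x => N x = i)).card :=
    Finset.card_eq_sum_card_fiberwise (fun x _ => Finset.mem_coe.mpr (Finset.mem_range.mpr (hNle x)))
  have h1 : T.card ^ 2 ≤ (D + 1) *
      ∑ i ∈ Finset.range (D + 1), (T.filter (fun x => N x = i)).card ^ 2 := by
    conv_lhs => rw [hcard]
    have := sq_sum_le_card_mul_sum_sq (s := Finset.range (D + 1))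
      (f := fun i => (T.filter (fun x => N x = i)).card)
    rwa [Finset.card_range] at this
  refine h1.trans (Nat.mul_le_mul_left _ ?_)
  have h2 : ∑ i ∈ Finset.range (D + 1), (T.filter (fun x => N x = i)).card ^ 2 =
      ((T ×ˢ T).filter (fun z => N z.1 = N z.2)).card := by
    rw [Finset.card_eq_sum_card_fiberwise (f := fun z : Pt × Pt => N z.1)
      (t := Finset.range (D + 1))
      (fun x _ => Finset.mem_coe.mpr (Finset.mem_range.mpr (hNle x.1)))]
    refine Finset.sum_congr rfl fun i _ => ?_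
    rw [sq, ← Finset.card_product]
    congr 1
    ext ⟨x, y⟩
    simp only [Finset.mem_product, Finset.mem_filter]
    constructor
    · rintro ⟨⟨h1, h2⟩, h3, h4⟩
      exact ⟨⟨⟨h1, h3⟩, by rw [h2, h4]⟩, h2⟩
    · rintro ⟨⟨⟨h1, h3⟩, h4⟩, h2⟩
      exact ⟨⟨h1, h2⟩, h3, by rw [← h4, h2]⟩
  rw [h2]
  refine Finset.card_le_card fun z hz => ?_
  rw [Finset.mem_filter, Finset.mem_product] at hz
  rw [Finset.mem_filter, Finset.mem_product]
  exact ⟨hz.1, key2 z.1 hz.1.1 z.2 hz.1.2 hz.2⟩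

/-- few zeros on a line that is not contained in the zero set -/
theorem zeros_le (P : MvPolynomial (Fin 2) ℝ) {ℓ : Set Pt} (hℓ : IsLine ℓ)
    (hn : ¬ ∀ w ∈ ℓ, eval (v2 w) P = 0) (T : Finset Pt)
    (hT : ∀ x ∈ T, x ∈ ℓ ∧ eval (v2 x) P = 0) : T.card ≤ P.totalDegree := by
  obtain ⟨p, d, σ, h1, h2⟩ := exists_param hℓ
  have hR : res p d P ≠ 0 := by
    intro h0
    apply hn
    intro w hw
    rw [h1 w hw, ← res_eval, h0, Polynomial.eval_zero]
  have hinj : Set.InjOn σ (T : Set Pt) := by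
    intro x hx y hy hxy
    rw [h1 x (hT x hx).1, h1 y (hT y hy).1, hxy]
  have hsub : T.image σ ⊆ (res p d P).roots.toFinset := by
    intro s hs
    obtain ⟨x, hx, rfl⟩ := Finset.mem_image.mp hs
    rw [Multiset.mem_toFinset, Polynomial.mem_roots hR, Polynomial.IsRoot.def, res_eval,
      ← h1 x (hT x hx).1]
    exact (hT x hx).2
  calc T.card = (T.image σ).card := (Finset.card_image_of_injOn hinj).symm
    _ ≤ (res p d P).roots.toFinset.card := Finset.card_le_card hsub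
    _ ≤ (res p d P).roots.card := Multiset.toFinset_card_le _
    _ ≤ (res p d P).natDegree := Polynomial.card_roots' _
    _ ≤ P.totalDegree := res_natDegree p d P

/-- two lines: at most one common point -/
theorem inter_le (S : Finset Pt) {ℓ ℓ' : Set Pt} (h : IsLine ℓ) (h' : IsLine ℓ') (hne : ℓ ≠ ℓ') :
    (S.filter (fun x => x ∈ ℓ) ∩ S.filter (fun x => x ∈ ℓ')).card ≤ 1 := by
  rw [Finset.card_le_one]
  intro x hx y hy
  by_contra hxy
  rw [Finset.mem_inter, Finset.mem_filter, Finset.mem_filter] at hx hy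
  exact hne (line_eq_of_two h h' hxy hx.1.2 hy.1.2 hx.2.2 hy.2.2)

/-- Bonferroni type bound -/
theorem union_ge (S : Finset Pt) (L : Finset (Set Pt)) (hL : ∀ ℓ ∈ L, IsLine ℓ) :
    ∑ ℓ ∈ L, rich S ℓ ≤ S.card + L.card ^ 2 := by
  have key : ∑ ℓ ∈ L, rich S ℓ ≤ (L.biUnion fun ℓ => S.filter (fun x => x ∈ ℓ)).card +
      L.card ^ 2 := by
    induction L using Finset.induction_on with
    | empty => simp
    | insert ℓ L hℓ ih =>
      have ih' := ih fun m hm => hL m (Finset.mem_insert_of_mem hm)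
      rw [Finset.sum_insert hℓ, Finset.biUnion_insert, Finset.card_insert_of_notMem hℓ]
      have h1 := Finset.card_union_add_card_inter (S.filter (fun x => x ∈ ℓ))
        (L.biUnion fun ℓ => S.filter (fun x => x ∈ ℓ))
      have h2 : (S.filter (fun x => x ∈ ℓ) ∩
          (L.biUnion fun ℓ => S.filter (fun x => x ∈ ℓ))).card ≤ L.card := by
        rw [Finset.inter_biUnion]
        refine Finset.card_biUnion_le.trans ?_
        have h3 : ∀ m ∈ L, (S.filter (fun x => x ∈ ℓ) ∩ S.filter (fun x => x ∈ m)).card ≤ 1 := by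
          intro m hm
          refine inter_le S (hL ℓ (Finset.mem_insert_self _ _))
            (hL m (Finset.mem_insert_of_mem hm)) ?_
          rintro rfl
          exact hℓ hm
        have h4 := Finset.sum_le_sum h3
        simpa using h4
      have h5 : rich S ℓ = (S.filter (fun x => x ∈ ℓ)).card := rfl
      nlinarith
  refine key.trans (Nat.add_le_add_right (Finset.card_le_card ?_) _)
  intro x hx
  obtain ⟨ℓ, _, hx⟩ := Finset.mem_biUnion.mp hx
  exact (Finset.mem_filter.mp hx).1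

/-- pairs on different lines are different -/
theorem sum_pairs (S : Finset Pt) (R : Pt → Pt → Prop) (L : Finset (Set Pt))
    (hL : ∀ ℓ ∈ L, IsLine ℓ) :
    ∑ ℓ ∈ L, ((S ×ˢ S).filter (fun z => z.1 ≠ z.2 ∧ z.1 ∈ ℓ ∧ z.2 ∈ ℓ ∧ R z.1 z.2)).card ≤
      ((S ×ˢ S).filter (fun z => R z.1 z.2)).card := by
  rw [← Finset.card_biUnion]
  · refine Finset.card_le_card fun z hz => ?_
    obtain ⟨ℓ, _, hz⟩ := Finset.mem_biUnion.mp hz
    rw [Finset.mem_filter] at hz ⊢
    exact ⟨hz.1, hz.2.2.2.2⟩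
  · intro ℓ hℓ m hm hne
    rw [Function.onFun, Finset.disjoint_left]
    intro z hz hz'
    rw [Finset.mem_filter] at hz hz'
    exact hne (line_eq_of_two (hL ℓ hℓ) (hL m hm) hz.2.1 hz.2.2.1 hz.2.2.2.1 hz'.2.2.1
      hz'.2.2.2.1)

/-- the trivial relation -/
def Tr (_ _ : Pt) : Prop := True

/-- the trivial bound -/
theorem trivial_le (S : Finset Pt) (L : Finset (Set Pt))
    (hL : ∀ ℓ ∈ L, IsLine ℓ ∧ 2 ≤ rich S ℓ) : L.card ≤ S.card ^ 2 := by
  have h1 := sum_pairs S Tr L fun ℓ hℓ => (hL ℓ hℓ).1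
  have h3 : ∑ ℓ ∈ L, 1 ≤ (S ×ˢ S).card := by
    refine le_trans (le_trans (Finset.sum_le_sum fun ℓ hℓ => ?_) h1) (Finset.card_filter_le _ _)
    obtain ⟨x, hx, y, hy, hxy⟩ := Finset.one_lt_card.mp (hL ℓ hℓ).2
    rw [Finset.mem_filter] at hx hy
    refine Finset.card_pos.mpr ⟨(x, y), ?_⟩
    rw [Finset.mem_filter, Finset.mem_product]
    exact ⟨⟨hx.1, hy.1⟩, hxy, hx.2, hy.2, trivial⟩
  rw [Finset.sum_const, smul_eq_mul, mul_one, Finset.card_product, ← sq] at h3
  exact h3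

end STw

theorem ST_proof (h : Part 2) (hl : LinesIn) : ST := by
  obtain ⟨C1, hC1, hP⟩ := h
  set K0 : ℝ := 8 * C1 + 8 with hK0
  have hK0pos : 0 < K0 := by positivity
  refine ⟨K0 ^ 3 + 64 * C1 ^ 2 + 2, by positivity, fun S L k hk hL => ?_⟩
  have hk0 : 0 < k := by linarith
  set n : ℝ := (S.card : ℝ) with hn
  have hn0 : 0 ≤ n := Nat.cast_nonneg _
  have hterm1 : 0 ≤ n ^ 2 / k ^ 3 := by positivity
  have hterm2 : 0 ≤ n / k := by positivity
  rcases le_or_gt k K0 with hkK | hkK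
  · -- the trivial range
    have h1 : L.card ≤ S.card ^ 2 := by
      refine STw.trivial_le S L fun ℓ hℓ => ⟨(hL ℓ hℓ).1, ?_⟩
      have h2 : (2 : ℝ) ≤ rich S ℓ := hk.trans (hL ℓ hℓ).2
      exact_mod_cast h2
    have h2 : (L.card : ℝ) ≤ n ^ 2 := by
      rw [hn]
      exact_mod_cast h1
    have h3 : n ^ 2 ≤ K0 ^ 3 * (n ^ 2 / k ^ 3) := by
      rw [← mul_div_assoc, le_div_iff₀ (by positivity), mul_comm]
      exact mul_le_mul_of_nonneg_right (pow_le_pow_left₀ hk0.le hkK 3) (by positivity)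
    have h4 : 0 ≤ (64 * C1 ^ 2 + 2) * (n ^ 2 / k ^ 3) := by positivity
    have h5 : 0 ≤ (K0 ^ 3 + 64 * C1 ^ 2 + 2) * (n / k) := by positivity
    linarith
  · have hk8 : 8 < k := by
      have : 0 < 8 * C1 := by positivity
      linarith
    have hX : 1 ≤ (k / (8 * C1)) ^ 2 := by
      have : 1 ≤ k / (8 * C1) := by
        rw [le_div_iff₀ (by positivity)]
        linarith
      nlinarith
    obtain ⟨t, ht1, ht2⟩ := exists_nat_pow_near hX (one_lt_two)
    obtain ⟨f, hf0, hfd, hfc⟩ := hP Pt S v2 t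
    set D : ℕ := ∑ j, (f j).totalDegree with hD
    have hDk : (D : ℝ) ≤ k / 8 := by
      refine hfd.trans ?_
      have h1 : (2 : ℝ) ^ ((t : ℝ) / ((2 : ℕ) : ℝ)) = Real.sqrt (2 ^ t) := by
        rw [Real.sqrt_eq_rpow, ← Real.rpow_natCast, ← Real.rpow_mul (by norm_num)]
        congr 1
        push_cast
        ring
      rw [h1]
      have h2 : Real.sqrt (2 ^ t) ≤ k / (8 * C1) := Real.sqrt_le_iff.mpr ⟨by positivity, ht1⟩
      have h3 : C1 * Real.sqrt (2 ^ t) ≤ C1 * (k / (8 * C1)) :=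
        mul_le_mul_of_nonneg_left h2 hC1.le
      have h4 : C1 * (k / (8 * C1)) = k / 8 := by
        field_simp
      linarith
    set P : MvPolynomial (Fin 2) ℝ := ∏ j, f j with hPdef
    have hP0 : P ≠ 0 := Finset.prod_ne_zero_iff.mpr fun j _ => hf0 j
    have hPd : P.totalDegree ≤ D := totalDegree_finsetProd _ _
    have hPev : ∀ x : Fin 2 → ℝ, eval x P ≠ 0 → ∀ j, eval x (f j) ≠ 0 := by
      intro x hx j hj
      apply hx
      rw [hPdef, map_prod]
      exact Finset.prod_eq_zero (Finset.mem_univ j) hj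
    -- lines in the zero set
    set L2 := L.filter (fun ℓ => ∀ w ∈ ℓ, eval (v2 w) P = 0) with hL2
    set L1 := L.filter (fun ℓ => ¬ ∀ w ∈ ℓ, eval (v2 w) P = 0) with hL1
    have hcard : L.card = L2.card + L1.card :=
      (Finset.card_filter_add_card_filter_not _).symm
    have hb : (L2.card : ℝ) ≤ 2 * (n / k) := by
      have h1 : L2.card ≤ P.totalDegree := hl P hP0 L2 fun ℓ hℓ =>
        ⟨(hL ℓ (Finset.mem_filter.mp hℓ).1).1, (Finset.mem_filter.mp hℓ).2⟩
      have h2 : (L2.card : ℝ) ≤ k / 8 := by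
        refine le_trans ?_ hDk
        exact_mod_cast h1.trans hPd
      have h3 := STw.union_ge S L2 fun ℓ hℓ => (hL ℓ (Finset.mem_filter.mp hℓ).1).1
      have h4 : (∑ ℓ ∈ L2, (rich S ℓ : ℝ)) ≤ n + (L2.card : ℝ) ^ 2 := by
        rw [hn]
        exact_mod_cast h3
      have h5 : (L2.card : ℝ) * k ≤ ∑ ℓ ∈ L2, (rich S ℓ : ℝ) := by
        rw [← nsmul_eq_mul]
        exact Finset.card_nsmul_le_sum _ _ _ fun ℓ hℓ => (hL ℓ (Finset.mem_filter.mp hℓ).1).2
      have h6 : (L2.card : ℝ) ^ 2 ≤ (L2.card : ℝ) * (k / 8) := by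
        rw [sq]
        exact mul_le_mul_of_nonneg_left h2 (Nat.cast_nonneg _)
      rw [← mul_div_assoc, le_div_iff₀ hk0]
      have h7 : (0 : ℝ) ≤ (L2.card : ℝ) * k := by positivity
      nlinarith
    -- the other lines
    have hclose : (((S ×ˢ S).filter (fun z => sameCl f (v2 z.1) (v2 z.2))).card : ℝ) * 2 ^ t ≤
        n ^ 2 := by
      have h1 : ((S ×ˢ S).filter (fun z => sameCl f (v2 z.1) (v2 z.2))).card =
          ∑ x ∈ S, (S.filter (fun a => sameCl f (v2 x) (v2 a))).card := by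
        rw [Finset.card_filter, Finset.sum_product]
        exact Finset.sum_congr rfl fun x _ => (Finset.card_filter _ _).symm
      have h2 : ((S ×ˢ S).filter (fun z => sameCl f (v2 z.1) (v2 z.2))).card * 2 ^ t ≤
          S.card ^ 2 := by
        rw [h1, Finset.sum_mul, sq]
        have h3 := Finset.sum_le_card_nsmul S
          (fun x => (S.filter (fun a => sameCl f (v2 x) (v2 a))).card * 2 ^ t) S.card
          (fun x _ => by rw [mul_comm]; exact hfc (v2 x))
        rwa [smul_eq_mul] at h3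
      rw [hn]
      exact_mod_cast h2
    have ha : (L1.card : ℝ) ≤ 64 * C1 ^ 2 * (n ^ 2 / k ^ 3) := by
      have hline : ∀ ℓ ∈ L1, 2 * k ≤ (((S ×ˢ S).filter (fun z => z.1 ≠ z.2 ∧ z.1 ∈ ℓ ∧
          z.2 ∈ ℓ ∧ sameCl f (v2 z.1) (v2 z.2))).card : ℝ) := by
        intro ℓ hℓ
        rw [hL1, Finset.mem_filter] at hℓ
        obtain ⟨hℓL, hnot⟩ := hℓ
        have hline := (hL ℓ hℓL).1
        have hrich := (hL ℓ hℓL).2
        obtain ⟨p, d, σ, hσ1, hσ2⟩ := STw.exists_param hline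
        set T := S.filter (fun x => x ∈ ℓ ∧ eval (v2 x) P ≠ 0) with hT
        set T0 := S.filter (fun x => x ∈ ℓ ∧ eval (v2 x) P = 0) with hT0
        have hTc : rich S ℓ ≤ T.card + T0.card := by
          unfold rich
          refine le_trans (Finset.card_le_card ?_) (Finset.card_union_le T T0)
          intro x hx
          rw [Finset.mem_filter] at hx
          rw [Finset.mem_union, hT, hT0, Finset.mem_filter, Finset.mem_filter]
          by_cases h : eval (v2 x) P = 0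
          · exact Or.inr ⟨hx.1, hx.2, h⟩
          · exact Or.inl ⟨hx.1, hx.2, h⟩
        have hT0c : T0.card ≤ P.totalDegree := STw.zeros_le P hline hnot T0 fun x hx => by
          rw [hT0, Finset.mem_filter] at hx
          exact hx.2
        have hTk : 7 / 8 * k ≤ (T.card : ℝ) := by
          have h1 : (rich S ℓ : ℝ) ≤ T.card + D := by
            have := hTc.trans (Nat.add_le_add_left (hT0c.trans hPd) _)
            exact_mod_cast this
          linarith
        have hpairs := STw.pairs_ge f p d σ T (fun x hx => hσ1 x (Finset.mem_filter.mp hx).2.1)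
          (fun x hx => hPev _ (Finset.mem_filter.mp hx).2.2)
        rw [← hD] at hpairs
        have hsplit : ((T ×ˢ T).filter (fun z => sameCl f (v2 z.1) (v2 z.2))).card ≤
            T.card + ((S ×ˢ S).filter (fun z => z.1 ≠ z.2 ∧ z.1 ∈ ℓ ∧
              z.2 ∈ ℓ ∧ sameCl f (v2 z.1) (v2 z.2))).card := by
          have h1 : ((T ×ˢ T).filter (fun z => sameCl f (v2 z.1) (v2 z.2))) ⊆
              T.image (fun x => (x, x)) ∪ ((S ×ˢ S).filter (fun z => z.1 ≠ z.2 ∧ z.1 ∈ ℓ ∧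
              z.2 ∈ ℓ ∧ sameCl f (v2 z.1) (v2 z.2))) := by
            rintro ⟨x, y⟩ hz
            rw [Finset.mem_filter, Finset.mem_product] at hz
            obtain ⟨⟨hx, hy⟩, hs⟩ := hz
            rw [Finset.mem_union]
            by_cases hxy : x = y
            · left
              rw [Finset.mem_image]
              exact ⟨x, hx, by rw [← hxy]⟩
            · right
              rw [Finset.mem_filter, Finset.mem_product]
              rw [hT, Finset.mem_filter] at hx hy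
              exact ⟨⟨hx.1, hy.1⟩, hxy, hx.2.1, hy.2.1, hs⟩
          refine (Finset.card_le_card h1).trans ((Finset.card_union_le _ _).trans ?_)
          exact Nat.add_le_add_right Finset.card_image_le _
        set A : ℝ := (((S ×ˢ S).filter (fun z => z.1 ≠ z.2 ∧ z.1 ∈ ℓ ∧
              z.2 ∈ ℓ ∧ sameCl f (v2 z.1) (v2 z.2))).card : ℝ) with hA
        have h5 : (T.card : ℝ) ^ 2 ≤ (D + 1) * (T.card + A) := by
          have h6 := hpairs.trans (Nat.mul_le_mul_left _ hsplit)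
          rw [hA]
          exact_mod_cast h6
        have h7 : (D : ℝ) + 1 ≤ k / 4 := by linarith
        have hA0 : 0 ≤ A := Nat.cast_nonneg _
        have hT00 : (0 : ℝ) ≤ (T.card : ℝ) := Nat.cast_nonneg _
        have h8 : (T.card : ℝ) ^ 2 ≤ k / 4 * (T.card + A) :=
          h5.trans (mul_le_mul_of_nonneg_right h7 (by positivity))
        nlinarith
      have h1 := STw.sum_pairs S (fun x y => sameCl f (v2 x) (v2 y)) L1
        fun ℓ hℓ => (hL ℓ (Finset.mem_filter.mp hℓ).1).1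
      have h2 : (L1.card : ℝ) * (2 * k) ≤
          (((S ×ˢ S).filter (fun z => sameCl f (v2 z.1) (v2 z.2))).card : ℝ) := by
        rw [← nsmul_eq_mul]
        refine (Finset.card_nsmul_le_sum _ _ _ hline).trans ?_
        exact_mod_cast h1
      have h3 : (L1.card : ℝ) * (2 * k) * 2 ^ t ≤ n ^ 2 :=
        (mul_le_mul_of_nonneg_right h2 (by positivity)).trans hclose
      have h4 : k ^ 2 ≤ 128 * C1 ^ 2 * 2 ^ t := by
        have h5 : (k / (8 * C1)) ^ 2 < 2 ^ t * 2 := by rwa [pow_succ] at ht2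
        rw [div_pow, div_lt_iff₀ (by positivity)] at h5
        nlinarith
      rw [← mul_div_assoc, le_div_iff₀ (by positivity)]
      have h6 : (0 : ℝ) ≤ (L1.card : ℝ) * k := by positivity
      calc (L1.card : ℝ) * k ^ 3 = (L1.card : ℝ) * k * k ^ 2 := by ring
        _ ≤ (L1.card : ℝ) * k * (128 * C1 ^ 2 * 2 ^ t) := mul_le_mul_of_nonneg_left h4 h6
        _ = 64 * C1 ^ 2 * ((L1.card : ℝ) * (2 * k) * 2 ^ t) := by ring
        _ ≤ 64 * C1 ^ 2 * n ^ 2 := mul_le_mul_of_nonneg_left h3 (by positivity)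
    have h9 : (L.card : ℝ) = L2.card + L1.card := by
      rw [hcard]
      push_cast
      rfl
    rw [h9]
    have h10 : 0 ≤ (K0 ^ 3 + 2) * (n ^ 2 / k ^ 3) := by positivity
    have h11 : 0 ≤ (K0 ^ 3 + 64 * C1 ^ 2) * (n / k) := by positivity
    linarith

end Pool.Agent.Work.MP_916cc8_co

end

section

/-!
# MP_916cc8_co: U(n) = O(n^{13/6})

Statements of the items of the second proof (team note 1268): proximity, for a fixed point `p`,
between the points `q` and the top lines of `(p,q)`, viewed as points of the dual plane.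
-/

set_option autoImplicit false

namespace Pool.Agent.Work.MP_916cc8_co

open MvPolynomial

section Defs13

open scoped Classical

/-- slope and intercept of the top line of `(p,q)` (meaningful if `q.1 ≠ p.1`) -/
noncomputable def dp (p q : Pt) : Pt :=
  ((q.2 - p.2) / (q.1 - p.1), p.2 - (q.2 - p.2) / (q.1 - p.1) * p.1 + 2 / (q.1 - p.1))

/-- the line with slope `u.1` and intercept `u.2` -/
def ln (u : Pt) : Set Pt := {x | x.2 = u.1 * x.1 + u.2}

/-- cell structure of the plane: two-dimensional cells (sign vectors of the `f j`) and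
one-dimensional cells on the curves `g i = 0` (sign vectors of the `h i j`) -/
structure Cells where
  T : ℕ
  f : Fin T → MvPolynomial (Fin 2) ℝ
  s : ℕ
  g : Fin s → MvPolynomial (Fin 2) ℝ
  t : Fin s → ℕ
  h : (i : Fin s) → Fin (t i) → MvPolynomial (Fin 2) ℝ

/-- `a` lies in a two-dimensional cell -/
def Cells.R2 (K : Cells) (a : Pt) : Prop := ∀ j, eval (v2 a) (K.f j) ≠ 0

/-- `a` lies in a one-dimensional cell on the curve `i` -/
def Cells.R1 (K : Cells) (i : Fin K.s) (a : Pt) : Prop :=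
  eval (v2 a) (K.g i) = 0 ∧ (∀ i', i' ≠ i → eval (v2 a) (K.g i') ≠ 0) ∧
    ∀ j, eval (v2 a) (K.h i j) ≠ 0

/-- `a` lies in a cell -/
def Cells.Reg (K : Cells) (a : Pt) : Prop := K.R2 a ∨ ∃ i, K.R1 i a

/-- `a` and `b` lie in the same cell -/
def Cells.SC (K : Cells) (a b : Pt) : Prop :=
  (K.R2 a ∧ K.R2 b ∧ sameCl K.f (v2 a) (v2 b)) ∨
    ∃ i, K.R1 i a ∧ K.R1 i b ∧ sameCl (K.h i) (v2 a) (v2 b)

/-- the cell structure is adapted to the finite set `A` and the parameter `J` -/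
structure Cells.Ok (K : Cells) (C J : ℝ) (A : Finset Pt) : Prop where
  f_ne : ∀ j, K.f j ≠ 0
  irr : ∀ i, Irreducible (K.g i)
  dist : ∀ i i', i ≠ i' → ¬ (K.g i ∣ K.g i')
  excl : ∀ a i, K.R2 a → ¬ K.R1 i a
  D_le : ((∑ j, (K.f j).totalDegree : ℕ) : ℝ) ≤ C * Real.sqrt J
  G_le : ((∑ i, (K.g i).totalDegree : ℕ) : ℝ) ≤ C * Real.sqrt J
  W_le : ((∑ i, (K.g i).totalDegree * ∑ j, (K.h i j).totalDegree : ℕ) : ℝ) ≤ C * J
  bad_le : ((A.filter (fun a => ¬ K.Reg a)).card : ℝ) ≤ C * J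
  cl_le : ∀ x : Pt, J * ((A.filter (fun a => K.SC x a)).card : ℝ) ≤ A.card

/-- collisions: `((p,q),(p,q'))` with `q ≠ q'` in the same cell of `K` and the top lines in the
same cell of `M` -/
noncomputable def coll (K M : Cells) (PP : Finset (Pt × Pt)) : Finset ((Pt × Pt) × (Pt × Pt)) :=
  (PP ×ˢ PP).filter (fun z => z.1.1 = z.2.1 ∧ z.1.2 ≠ z.2.2 ∧ K.SC z.1.2 z.2.2 ∧
    M.SC (dp z.1.1 z.1.2) (dp z.2.1 z.2.2))

end Defs13

section Stmts13

/-- polynomials of degree `≤ e`, independent modulo `g` -/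
def MonG : Prop := ∀ (g : MvPolynomial (Fin 2) ℝ), g ≠ 0 → 1 ≤ g.totalDegree → ∀ e : ℕ,
  ∃ (N : ℕ) (w : Fin N → MvPolynomial (Fin 2) ℝ),
    (e + 1) * min g.totalDegree (e + 1) ≤ 2 * N ∧ (∀ i, (w i).totalDegree ≤ e) ∧
    ∀ c : Fin N → ℝ, c ≠ 0 → ¬ (g ∣ ∑ i, C (c i) * w i)

open scoped Classical in
/-- partition of a finite set by polynomials not divisible by `g` -/
def PartG : Prop := ∀ (g : MvPolynomial (Fin 2) ℝ), g ≠ 0 → 1 ≤ g.totalDegree →
  ∀ (A : Finset Pt) (t : ℕ), ∃ h : Fin t → MvPolynomial (Fin 2) ℝ, (∀ j, ¬ g ∣ h j) ∧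
    g.totalDegree * ∑ j, (h j).totalDegree ≤ 20 * (g.totalDegree ^ 2 + 2 ^ t) ∧
    ∀ x : Fin 2 → ℝ, 2 ^ t * (A.filter (fun a => sameCl h x (v2 a))).card ≤ A.card

/-- existence of adapted cell structures -/
def CELL : Prop := ∃ C₀ : ℝ, 1 ≤ C₀ ∧ ∀ (A : Finset Pt) (T : ℕ),
  ∃ K : Cells, K.Ok C₀ ((2 : ℝ) ^ T) A

/-- basic facts about dual points -/
def DPB : Prop :=
  (∀ p q : Pt, q.1 ≠ p.1 → top p q = ln (dp p q)) ∧
  (∀ u : Pt, IsLine (ln u)) ∧
  (∀ u v : Pt, ln u = ln v → u = v) ∧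
  (∀ p q q' : Pt, q.1 ≠ p.1 → q'.1 ≠ p.1 → dp p q = dp p q' → q = q')

/-- pull back of a polynomial of the dual plane by `q ↦ dp p q` -/
def PB : Prop := ∀ (p : Pt) (G : MvPolynomial (Fin 2) ℝ),
  ∃ Q : MvPolynomial (Fin 2) ℝ, Q.totalDegree ≤ G.totalDegree ∧ (G ≠ 0 → Q ≠ 0) ∧
    ∀ q : Pt, q.1 ≠ p.1 →
      eval (v2 q) Q = (q.1 - p.1) ^ G.totalDegree * eval (v2 (dp p q)) G

/-- crossing, two-dimensional cells of `M`, two-dimensional cells of `K` -/
def X22 : Prop := ∀ (K M : Cells) (p : Pt) (Z : Finset Pt), (∀ j, M.f j ≠ 0) →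
  (∀ z ∈ Z, z.1 ≠ p.1 ∧ K.R2 z ∧ M.R2 (dp p z)) →
  (∀ z ∈ Z, ∀ w ∈ Z, sameCl K.f (v2 z) (v2 w) → sameCl M.f (v2 (dp p z)) (v2 (dp p w)) →
    z = w) →
  Z.card ≤ (2 * (∑ j, (K.f j).totalDegree + ∑ j, (M.f j).totalDegree + 1) + 2) ^ 2

/-- crossing along one curve of `K`, two-dimensional cells of `M` -/
def X12 : Prop := ∀ (K M : Cells) (p : Pt) (i : Fin K.s) (Z : Finset Pt), K.g i ≠ 0 →
  (∀ z ∈ Z, z.1 ≠ p.1 ∧ K.R1 i z ∧ M.R2 (dp p z)) →
  (∀ z ∈ Z, ∀ w ∈ Z, sameCl (K.h i) (v2 z) (v2 w) → sameCl M.f (v2 (dp p z)) (v2 (dp p w)) →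
    z = w) →
  Z.card ≤ 2 * (K.g i).totalDegree * ((K.g i).totalDegree +
    2 * (∑ j, (K.h i j).totalDegree + ∑ j, (M.f j).totalDegree + 1) + 2)

/-- crossing along the pull back of one curve of `M`, two-dimensional cells of `K` -/
def X21 : Prop := ∀ (K M : Cells) (p : Pt) (i : Fin M.s) (Z : Finset Pt), M.g i ≠ 0 →
  (∀ z ∈ Z, z.1 ≠ p.1 ∧ K.R2 z ∧ M.R1 i (dp p z)) →
  (∀ z ∈ Z, ∀ w ∈ Z, sameCl K.f (v2 z) (v2 w) → sameCl (M.h i) (v2 (dp p z)) (v2 (dp p w)) →
    z = w) →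
  Z.card ≤ 2 * (M.g i).totalDegree * ((M.g i).totalDegree +
    2 * (∑ j, (K.f j).totalDegree + ∑ j, (M.h i j).totalDegree + 1) + 2)

/-- crossing along curves of `K` and of `M` -/
def X11 : Prop := ∀ (K M : Cells) (p : Pt) (Z : Finset Pt),
  (∀ i, Irreducible (K.g i)) → (∀ i i', i ≠ i' → ¬ (K.g i ∣ K.g i')) → (∀ j, M.g j ≠ 0) →
  (∀ z ∈ Z, z.1 ≠ p.1 ∧ (∃ i, K.R1 i z) ∧ ∃ j, M.R1 j (dp p z)) →
  (∀ z ∈ Z, ∀ w ∈ Z, K.SC z w → M.SC (dp p z) (dp p w) → z = w) →
  Z.card ≤ (∑ i, (K.g i).totalDegree) * (∑ j, (M.g j).totalDegree) +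
    2 * (∑ i, (K.g i).totalDegree) ^ 2 +
    4 * (∑ i, (K.g i).totalDegree * ∑ j, (K.h i j).totalDegree) +
    4 * (∑ i, (M.g i).totalDegree * ∑ j, (M.h i j).totalDegree) +
    8 * (∑ i, (K.g i).totalDegree)

/-- crossing lemma -/
def CROSS : Prop := ∀ C₀ : ℝ, 1 ≤ C₀ → ∃ C₁ : ℝ, 1 ≤ C₁ ∧ ∀ (J : ℝ) (S L : Finset Pt)
  (K M : Cells), 1 ≤ J → K.Ok C₀ J S → M.Ok C₀ J L → ∀ (p : Pt) (Z : Finset Pt),
  (∀ z ∈ Z, z.1 ≠ p.1 ∧ K.Reg z ∧ M.Reg (dp p z)) →
  (∀ z ∈ Z, ∀ w ∈ Z, K.SC z w → M.SC (dp p z) (dp p w) → z = w) →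
  (Z.card : ℝ) ≤ C₁ * J

/-- two distinct pairs of points have at most three common pairs of non-parallel lines -/
def K3 : Prop := ∀ y z : Pt × Pt, y ≠ z → ∀ X : Finset (Pt × Pt),
  (∀ x ∈ X, Rel x (y.1, z.1) ∧ Rel x (y.2, z.2) ∧ cr (y.1 - x.1) (y.2 - x.1) ≠ 0) →
  X.card ≤ 3

open scoped Classical in
/-- pigeon hole: collisions of a finite set with few classes -/
def PIG : Prop := ∀ (α : Type) (Q : Finset α) (E : α → α → Prop) (V : ℝ),
  (∀ a ∈ Q, E a a) → (∀ a ∈ Q, ∀ b ∈ Q, E a b → E b a) →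
  (∀ a ∈ Q, ∀ b ∈ Q, ∀ c ∈ Q, E a b → E b c → E a c) →
  (∀ Z ⊆ Q, (∀ a ∈ Z, ∀ b ∈ Z, E a b → a = b) → (Z.card : ℝ) ≤ V) →
  (Q.card : ℝ) ^ 2 ≤ V * (((Q ×ˢ Q).filter (fun z => E z.1 z.2)).card : ℝ)

/-- lower bound for the number of collisions -/
def COUNT1 : Prop := ∀ C₀ : ℝ, 1 ≤ C₀ → ∃ C₁ : ℝ, 1 ≤ C₁ ∧ ∀ (J : ℝ) (S L : Finset Pt)
  (K M : Cells) (PP : Finset (Pt × Pt)), 1 ≤ J → K.Ok C₀ J S → M.Ok C₀ J L →
  (∀ p ∈ S, ∀ q ∈ S, p.1 = q.1 → p = q) →
  (∀ z ∈ PP, z.1 ∈ S ∧ z.2 ∈ S ∧ z.1 ≠ z.2 ∧ dp z.1 z.2 ∈ L) →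
  C₁ * J * S.card ≤ PP.card →
  (PP.card : ℝ) ^ 2 ≤ C₁ * S.card * J * (coll K M PP).card

/-- upper bound for the number of collisions -/
def COUNT2 : Prop := ∀ (C₀ J κ : ℝ) (S L : Finset Pt) (K M : Cells) (PP : Finset (Pt × Pt)),
  1 ≤ J → 0 ≤ κ → K.Ok C₀ J S → M.Ok C₀ J L →
  (∀ p ∈ S, ∀ q ∈ S, p.1 = q.1 → p = q) →
  (∀ z ∈ PP, z.1 ∈ S ∧ z.2 ∈ S ∧ z.1 ≠ z.2 ∧ dp z.1 z.2 ∈ L ∧
    (rich S (base z.1 z.2) : ℝ) ≤ κ) →
  ((coll K M PP).card : ℝ) ≤ κ * ((S.card : ℝ) ^ 2 / J) + (L.card : ℝ) ^ 2 / J +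
    2 * (L.card / Real.sqrt J) * ((S.card : ℝ) ^ 2 / J)

/-- the two bounds together -/
def COLLa : Prop := ∃ C₁ : ℝ, 1 ≤ C₁ ∧ ∀ (S L : Finset Pt) (PP : Finset (Pt × Pt)) (κ : ℝ)
  (T : ℕ), 0 ≤ κ → (∀ p ∈ S, ∀ q ∈ S, p.1 = q.1 → p = q) →
  (∀ z ∈ PP, z.1 ∈ S ∧ z.2 ∈ S ∧ z.1 ≠ z.2 ∧ dp z.1 z.2 ∈ L ∧
    (rich S (base z.1 z.2) : ℝ) ≤ κ) →
  C₁ * κ * (S.card : ℝ) ^ 3 ≤ (PP.card : ℝ) ^ 2 → C₁ * 2 ^ T * S.card ≤ PP.card →
  (PP.card : ℝ) ^ 2 ≤ C₁ * (S.card * (L.card : ℝ) ^ 2 +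
    (S.card : ℝ) ^ 3 * L.card / Real.sqrt (2 ^ T))

/-- number of pairs with top line in a given set -/
def COLL : Prop := ∃ C₀ : ℝ, 1 ≤ C₀ ∧ ∀ (S L : Finset Pt) (PP : Finset (Pt × Pt)) (κ : ℝ),
  0 ≤ κ → (∀ p ∈ S, ∀ q ∈ S, p.1 = q.1 → p = q) →
  (∀ z ∈ PP, z.1 ∈ S ∧ z.2 ∈ S ∧ z.1 ≠ z.2 ∧ dp z.1 z.2 ∈ L ∧
    (rich S (base z.1 z.2) : ℝ) ≤ κ) →
  C₀ * κ * (S.card : ℝ) ^ 3 ≤ (PP.card : ℝ) ^ 2 → C₀ * S.card ≤ PP.card →
  (PP.card : ℝ) ≤ C₀ * ((S.card : ℝ) ^ ((1 : ℝ) / 2) * L.card +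
    (S.card : ℝ) ^ ((7 : ℝ) / 5) * (L.card : ℝ) ^ ((2 : ℝ) / 5))

open scoped Classical in
/-- triangles whose top line has between `k` and `2k` points and whose base line is not too
rich -/
def DY : Prop := ∃ C₀ : ℝ, 0 < C₀ ∧ ∀ (S : Finset Pt) (k k₀ : ℝ),
  (∀ p ∈ S, ∀ q ∈ S, p.1 = q.1 → p = q) → 2 ≤ k₀ → k₀ ≤ k → k ≤ 2 * Real.sqrt S.card →
  ∑ z ∈ (S ×ˢ S).filter (fun z => z.1 ≠ z.2 ∧ k ≤ rich S (top z.1 z.2) ∧
      (rich S (top z.1 z.2) : ℝ) < 2 * k ∧
      (rich S (base z.1 z.2) : ℝ) ≤ (2 * k / k₀) ^ ((3 : ℝ) / 2)),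
    (rich S (top z.1 z.2) : ℝ)
  ≤ C₀ * ((S.card : ℝ) ^ ((5 : ℝ) / 2) * k ^ (-(2 : ℝ)) +
      (S.card : ℝ) ^ ((11 : ℝ) / 5) * k ^ (-(1 / 5 : ℝ)) +
      (S.card : ℝ) ^ ((3 : ℝ) / 2) * k ^ ((7 : ℝ) / 4) * k₀ ^ (-(3 / 4 : ℝ)) +
      (S.card : ℝ) * k)

open scoped Classical in
/-- the triangles not covered by `FB`: poor or very rich top line, very rich base line, base line
rich compared with the top line, rich top line -/
def FA : Prop := ∃ C₀ : ℝ, 0 < C₀ ∧ ∀ (S : Finset Pt) (k₀ k₁ : ℝ), 2 ≤ k₀ → 2 ≤ k₁ →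
  ∑ z ∈ (S ×ˢ S).filter (fun z => z.1 ≠ z.2 ∧
      ¬ (k₀ ≤ rich S (top z.1 z.2) ∧ (rich S (top z.1 z.2) : ℝ) < k₁ ∧
        (rich S (base z.1 z.2) : ℝ) ≤ (rich S (top z.1 z.2) / k₀) ^ ((3 : ℝ) / 2))),
    (rich S (top z.1 z.2) : ℝ)
  ≤ C₀ * (k₀ * (S.card : ℝ) ^ 2 + (S.card : ℝ) ^ 3 * k₁ ^ (-(2 : ℝ)))

open scoped Classical in
/-- dyadic summation -/
def FB : Prop := ∃ C₀ : ℝ, 0 < C₀ ∧ ∀ (S : Finset Pt),
  (∀ p ∈ S, ∀ q ∈ S, p.1 = q.1 → p = q) → 64 ≤ S.card →
  ∑ z ∈ (S ×ˢ S).filter (fun z => z.1 ≠ z.2 ∧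
      (S.card : ℝ) ^ ((1 : ℝ) / 6) ≤ rich S (top z.1 z.2) ∧
      (rich S (top z.1 z.2) : ℝ) < (S.card : ℝ) ^ ((5 : ℝ) / 12) ∧
      (rich S (base z.1 z.2) : ℝ) ≤
        (rich S (top z.1 z.2) / (S.card : ℝ) ^ ((1 : ℝ) / 6)) ^ ((3 : ℝ) / 2)),
    (rich S (top z.1 z.2) : ℝ)
  ≤ C₀ * (S.card : ℝ) ^ ((13 : ℝ) / 6)

/-- triangles as a sum over pairs -/
def TSum : Prop := ∀ S : Finset Pt, (tri S S : ℝ) =
  ∑ z ∈ (S ×ˢ S).filter (fun z => z.1 ≠ z.2), (rich S (top z.1 z.2) : ℝ)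

/-- shear: we may assume that all first coordinates are distinct -/
def SHEAR : Prop := ∀ S : Finset Pt, ∃ S' : Finset Pt, S'.card = S.card ∧
  tri S' S' = tri S S ∧ ∀ p ∈ S', ∀ q ∈ S', p.1 = q.1 → p = q

/-- the final theorem -/
def Main13 : Prop := ∃ C₀ : ℝ, ∀ S : Finset Pt,
  (uTri S : ℝ) ≤ C₀ * (S.card : ℝ) ^ ((13 : ℝ) / 6)

end Stmts13

end Pool.Agent.Work.MP_916cc8_co

end

section

/-! Auxiliary lemmas for the items War and CW: derivatives of evaluations, degrees of partial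
derivatives, the open sets `U_z`. -/

set_option autoImplicit false

namespace Pool.Agent.Work.MP_916cc8_co

open MvPolynomial

namespace WAux

/-- derivative of the evaluation along a coordinate direction -/
theorem hasDerivAt_eval {n : ℕ} (p : MvPolynomial (Fin n) ℝ) (x : Fin n → ℝ) (i : Fin n) (s : ℝ) :
    HasDerivAt (fun s => eval (Function.update x i s) p)
      (eval (Function.update x i s) (pderiv i p)) s := by
  induction p using MvPolynomial.induction_on with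
  | C a =>
    simp only [eval_C, pderiv_C, map_zero]
    exact hasDerivAt_const s a
  | add p q hp hq =>
    simp only [map_add]
    exact hp.add hq
  | mul_X p j hp =>
    have hX : HasDerivAt (fun s => Function.update x i s j) (if j = i then 1 else 0) s := by
      by_cases hji : j = i
      · subst hji
        simp only [Function.update_self, if_true]
        exact hasDerivAt_id s
      · simp only [Function.update_of_ne hji, if_neg hji]
        exact hasDerivAt_const s _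
    have h1 := hp.mul hX
    simp only [map_mul, eval_X] at *
    refine h1.congr_deriv ?_
    rw [Derivation.leibniz, pderiv_X]
    simp only [smul_eq_mul, map_add, map_mul, eval_X]
    by_cases hji : j = i
    · subst hji
      simp
      ring
    · simp [hji, Pi.single_apply, Ne.symm hji]
      ring

theorem totalDegree_pderiv_le {σ : Type*} [DecidableEq σ] (p : MvPolynomial σ ℝ) (i : σ) :
    (pderiv i p).totalDegree ≤ p.totalDegree - 1 := by
  conv_lhs => rw [← p.support_sum_monomial_coeff, map_sum]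
  refine (totalDegree_finsetSum _ _).trans ?_
  refine Finset.sup_le fun m hm => ?_
  rw [pderiv_monomial]
  by_cases hmi : m i = 0
  · simp [hmi]
  · refine (totalDegree_monomial_le _ _).trans ?_
    have h1 : (m - Finsupp.single i 1).sum (fun _ => id) + 1 = m.sum (fun _ => id) := by
      have h2 : m = (m - Finsupp.single i 1) + Finsupp.single i 1 := by
        rw [tsub_add_cancel_of_le]
        rw [Finsupp.single_le_iff]
        omega
      conv_rhs => rw [h2]
      rw [Finsupp.sum_add_index' (fun _ => rfl) (fun _ _ _ => rfl), Finsupp.sum_single_index rfl]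
      rfl
    have h3 : m.sum (fun _ => id) ≤ p.totalDegree := le_totalDegree hm
    omega

theorem continuous_eval' {n : ℕ} (p : MvPolynomial (Fin n) ℝ) :
    Continuous fun x : Fin n → ℝ => eval x p := by
  simpa using MvPolynomial.continuous_eval p

/-- at a local maximum the partial derivatives vanish -/
theorem pderiv_eq_zero_of_isLocalMax {n : ℕ} (p : MvPolynomial (Fin n) ℝ) {x : Fin n → ℝ}
    (h : IsLocalMax (fun y => eval y p) x) (i : Fin n) : eval x (pderiv i p) = 0 := by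
  have hc : Continuous fun s : ℝ => Function.update x i s :=
    continuous_const.update i continuous_id
  have h1 : IsLocalMax (fun s => eval (Function.update x i s) p) (x i) := by
    have h2 : Filter.Tendsto (fun s : ℝ => Function.update x i s) (nhds (x i)) (nhds x) := by
      have := hc.tendsto (x i)
      rwa [Function.update_eq_self] at this
    have h3 := h2.eventually h
    filter_upwards [h3] with s hs
    rw [Function.update_eq_self]
    exact hs
  have h4 := h1.hasDerivAt_eq_zero (hasDerivAt_eval p x i (x i))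
  rwa [Function.update_eq_self] at h4

section sets

variable {t : ℕ} (f : Fin t → MvPolynomial (Fin 2) ℝ) (Rad : ℝ)

/-- the open set of the class of `z` in the disc -/
def UU (z : Fin 2 → ℝ) : Set (Fin 2 → ℝ) := {x | x 0 ^ 2 + x 1 ^ 2 < Rad ^ 2 ∧ sameCl f z x}

/-- `F² (Rad² - x² - y²)` -/
noncomputable def g0 : MvPolynomial (Fin 2) ℝ :=
  (∏ j, f j) ^ 2 * (C (Rad ^ 2) - (X 0 ^ 2 + X 1 ^ 2))

variable {f Rad}

theorem eval_g0 (x : Fin 2 → ℝ) :
    eval x (g0 f Rad) = (∏ j, eval x (f j)) ^ 2 * (Rad ^ 2 - (x 0 ^ 2 + x 1 ^ 2)) := by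
  unfold g0
  simp

theorem isOpen_UU (z : Fin 2 → ℝ) : IsOpen (UU f Rad z) := by
  have h1 : IsOpen {x : Fin 2 → ℝ | x 0 ^ 2 + x 1 ^ 2 < Rad ^ 2} :=
    isOpen_lt (by fun_prop) continuous_const
  have h2 : IsOpen {x : Fin 2 → ℝ | sameCl f z x} := by
    have : {x : Fin 2 → ℝ | sameCl f z x} = ⋂ j, {x | 0 < eval z (f j) * eval x (f j)} := by
      ext x
      simp [sameCl]
    rw [this]
    exact isOpen_iInter_of_finite fun j =>
      isOpen_lt continuous_const (continuous_const.mul (continuous_eval' _))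
  exact h1.inter h2

theorem mem_UU {z : Fin 2 → ℝ} (hz : z 0 ^ 2 + z 1 ^ 2 < Rad ^ 2) (hf : ∀ j, eval z (f j) ≠ 0) :
    z ∈ UU f Rad z :=
  ⟨hz, fun j => mul_self_pos.2 (hf j)⟩

theorem g0_pos {z x : Fin 2 → ℝ} (hx : x ∈ UU f Rad z) : 0 < eval x (g0 f Rad) := by
  rw [eval_g0]
  apply mul_pos
  · apply pow_pos_of_ne
    exact Finset.prod_ne_zero_iff.2 fun j _ => by
      have := hx.2 j
      intro h0
      rw [h0, mul_zero] at this
      exact lt_irrefl _ this
  · linarith [hx.1]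
where
  pow_pos_of_ne {a : ℝ} (h : a ≠ 0) : 0 < a ^ 2 := by positivity

/-- the compact set containing `U_z` -/
def KK (f : Fin t → MvPolynomial (Fin 2) ℝ) (Rad : ℝ) (z : Fin 2 → ℝ) : Set (Fin 2 → ℝ) :=
  {x | x 0 ^ 2 + x 1 ^ 2 ≤ Rad ^ 2 ∧ ∀ j, 0 ≤ eval z (f j) * eval x (f j)}

theorem UU_subset (z : Fin 2 → ℝ) : UU f Rad z ⊆ KK f Rad z :=
  fun _ hx => ⟨hx.1.le, fun j => (hx.2 j).le⟩

theorem isCompact_KK (z : Fin 2 → ℝ) : IsCompact (KK f Rad z) := by
  apply Metric.isCompact_of_isClosed_isBounded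
  · have h1 : IsClosed {x : Fin 2 → ℝ | x 0 ^ 2 + x 1 ^ 2 ≤ Rad ^ 2} :=
      isClosed_le (by fun_prop) continuous_const
    have h2 : IsClosed {x : Fin 2 → ℝ | ∀ j, 0 ≤ eval z (f j) * eval x (f j)} := by
      have : {x : Fin 2 → ℝ | ∀ j, 0 ≤ eval z (f j) * eval x (f j)} =
          ⋂ j, {x | 0 ≤ eval z (f j) * eval x (f j)} := by
        ext x
        simp
      rw [this]
      exact isClosed_iInter fun j =>
        isClosed_le continuous_const (continuous_const.mul (continuous_eval' _))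
    exact h1.inter h2
  · refine (Metric.isBounded_closedBall (x := (0 : Fin 2 → ℝ)) (r := |Rad|)).subset fun x hx => ?_
    rw [mem_closedBall_zero_iff, pi_norm_le_iff_of_nonneg (abs_nonneg _)]
    intro i
    rw [Real.norm_eq_abs]
    apply abs_le_abs_of_sq
    have h1 := hx.1
    have h2 := sq_nonneg (x 0)
    have h3 := sq_nonneg (x 1)
    fin_cases i <;> simp <;> linarith
where
  abs_le_abs_of_sq {a b : ℝ} (h : a ^ 2 ≤ b ^ 2) : |a| ≤ |b| := sq_le_sq.1 h

/-- on the compact set outside `U_z` the function `g0` vanishes -/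
theorem g0_boundary {z x : Fin 2 → ℝ} (hf : ∀ j, eval z (f j) ≠ 0) (hx : x ∈ KK f Rad z)
    (hx' : x ∉ UU f Rad z) : eval x (g0 f Rad) = 0 := by
  rw [eval_g0]
  by_cases h1 : x 0 ^ 2 + x 1 ^ 2 < Rad ^ 2
  · have h2 : ¬ sameCl f z x := fun h => hx' ⟨h1, h⟩
    unfold sameCl at h2
    push Not at h2
    obtain ⟨j, hj⟩ := h2
    have h3 : eval z (f j) * eval x (f j) = 0 := le_antisymm hj (hx.2 j)
    have h4 : eval x (f j) = 0 := (mul_eq_zero.1 h3).resolve_left (hf j)
    rw [Finset.prod_eq_zero (Finset.mem_univ j) h4]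
    ring
  · have : x 0 ^ 2 + x 1 ^ 2 = Rad ^ 2 := le_antisymm hx.1 (not_lt.1 h1)
    rw [this, sub_self, mul_zero]

/-- the classes are disjoint -/
theorem UU_disj {z w x : Fin 2 → ℝ} (h1 : x ∈ UU f Rad z) (h2 : x ∈ UU f Rad w) :
    sameCl f z w := by
  intro j
  have e1 := h1.2 j
  have e2 := h2.2 j
  have e3 : 0 < (eval z (f j) * eval x (f j)) * (eval w (f j) * eval x (f j)) := mul_pos e1 e2
  have e4 : (eval z (f j) * eval x (f j)) * (eval w (f j) * eval x (f j)) =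
    (eval z (f j) * eval w (f j)) * (eval x (f j)) ^ 2 := by ring
  rw [e4] at e3
  exact pos_of_mul_pos_of_nonneg e3 (sq_nonneg _)
where
  pos_of_mul_pos_of_nonneg {a b : ℝ} (h : 0 < a * b) (hb : 0 ≤ b) : 0 < a := by
    by_contra hc
    push Not at hc
    have := mul_nonpos_of_nonpos_of_nonneg hc hb
    linarith

theorem totalDegree_g0 : (g0 f Rad).totalDegree ≤ 2 * (∑ j, (f j).totalDegree) + 2 := by
  unfold g0
  refine (totalDegree_mul _ _).trans ?_
  have h1 : ((∏ j, f j) ^ 2).totalDegree ≤ 2 * ∑ j, (f j).totalDegree := by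
    refine (totalDegree_pow _ _).trans ?_
    exact Nat.mul_le_mul_left 2 (totalDegree_finsetProd _ _)
  have h2 : (C (Rad ^ 2) - (X 0 ^ 2 + X 1 ^ 2) : MvPolynomial (Fin 2) ℝ).totalDegree ≤ 2 := by
    refine (totalDegree_sub _ _).trans ?_
    rw [totalDegree_C]
    refine max_le (by norm_num) ((totalDegree_add _ _).trans (max_le ?_ ?_))
    · refine (totalDegree_pow _ _).trans ?_
      rw [totalDegree_X]
    · refine (totalDegree_pow _ _).trans ?_
      rw [totalDegree_X]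
  omega

/-- a radius -/
theorem exists_rad (Z : Finset (Fin 2 → ℝ)) :
    ∃ Rad : ℝ, 0 < Rad ∧ ∀ z ∈ Z, z 0 ^ 2 + z 1 ^ 2 < Rad ^ 2 := by
  refine ⟨1 + ∑ z ∈ Z, (z 0 ^ 2 + z 1 ^ 2), ?_, fun z hz => ?_⟩
  · have : 0 ≤ ∑ z ∈ Z, (z 0 ^ 2 + z 1 ^ 2) := Finset.sum_nonneg fun z _ => by positivity
    linarith
  · have h1 : z 0 ^ 2 + z 1 ^ 2 ≤ ∑ z ∈ Z, (z 0 ^ 2 + z 1 ^ 2) :=
      Finset.single_le_sum (f := fun z : Fin 2 → ℝ => z 0 ^ 2 + z 1 ^ 2)
        (fun z _ => by positivity) hz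
    have h2 : 0 ≤ z 0 ^ 2 + z 1 ^ 2 := by positivity
    nlinarith

/-- a positive lower bound on a finite set -/
theorem exists_min {ι : Type*} (Z : Finset ι) (m : ι → ℝ) (hm : ∀ z ∈ Z, 0 < m z) :
    ∃ m0 : ℝ, 0 < m0 ∧ ∀ z ∈ Z, m0 ≤ m z := by
  rcases Z.eq_empty_or_nonempty with h | h
  · exact ⟨1, one_pos, fun z hz => by simp [h] at hz⟩
  · obtain ⟨z0, hz0, h0⟩ := Z.exists_min_image m h
    exact ⟨m z0, hm z0 hz0, h0⟩

end sets

end WAux

end Pool.Agent.Work.MP_916cc8_co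

end

section

set_option autoImplicit false

/-! Existence of adapted cell structures. -/

namespace Pool.Agent.Work.MP_916cc8_co

open MvPolynomial

/-- the distinct irreducible factors of a non-zero polynomial -/
theorem cell_irr (F : MvPolynomial (Fin 2) ℝ) (hF : F ≠ 0) :
    ∃ (s : ℕ) (g : Fin s → MvPolynomial (Fin 2) ℝ), (∀ i, Irreducible (g i)) ∧
      (∀ i i', i ≠ i' → ¬ (g i ∣ g i')) ∧ ∑ i, (g i).totalDegree ≤ F.totalDegree ∧
      ∀ x : Fin 2 → ℝ, (∃ i, eval x (g i) = 0) ↔ eval x F = 0 := by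
  classical
  revert hF
  refine WfDvdMonoid.induction_on_irreducible F (fun h => absurd rfl h) ?_ ?_
  · intro u hu _
    refine ⟨0, fun i => i.elim0, fun i => i.elim0, fun i => i.elim0, by simp, fun x => ?_⟩
    constructor
    · rintro ⟨i, -⟩
      exact i.elim0
    · intro h
      have h1 : IsUnit (eval x u) := hu.map (eval x)
      exact absurd h h1.ne_zero
  · intro a p ha hp ih hpa
    obtain ⟨s, g, h1, h2, h3, h4⟩ := ih ha
    have hdeg : (p * a).totalDegree = p.totalDegree + a.totalDegree :=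
      totalDegree_mul_of_isDomain hp.ne_zero ha
    by_cases hex : ∃ i, g i ∣ p
    · obtain ⟨i, hi⟩ := hex
      refine ⟨s, g, h1, h2, by omega, fun x => ?_⟩
      rw [map_mul, mul_eq_zero]
      constructor
      · intro h
        exact Or.inr ((h4 x).1 h)
      · rintro (h | h)
        · have h5 : Associated (g i) p := (h1 i).associated_of_dvd hp hi
          obtain ⟨r, hr⟩ := h5.symm.dvd
          exact ⟨i, by rw [hr, map_mul, h, zero_mul]⟩
        · exact (h4 x).2 h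
    · push Not at hex
      have hex' : ∀ i, ¬ (p ∣ g i) := fun i h =>
        hex i ((hp.associated_of_dvd (h1 i) h).symm.dvd)
      refine ⟨s + 1, Fin.cons p g, ?_, ?_, ?_, ?_⟩
      · intro i
        refine Fin.cases ?_ (fun i => ?_) i
        · simpa using hp
        · simpa using h1 i
      · intro i i'
        refine Fin.cases ?_ (fun i => ?_) i
        · refine Fin.cases ?_ (fun i' => ?_) i'
          · intro h
            exact absurd rfl h
          · intro _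
            simpa using hex' i'
        · refine Fin.cases ?_ (fun i' => ?_) i'
          · intro _
            simpa using hex i
          · intro h
            simp only [Fin.cons_succ]
            exact h2 i i' (fun h' => h (by rw [h']))
      · rw [Fin.sum_univ_succ]
        simp only [Fin.cons_zero, Fin.cons_succ]
        omega
      · intro x
        rw [map_mul, mul_eq_zero, ← h4 x]
        constructor
        · rintro ⟨i, hi⟩
          revert hi
          refine Fin.cases ?_ (fun i => ?_) i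
          · intro h
            exact Or.inl (by simpa using h)
          · intro h
            exact Or.inr ⟨i, by simpa using h⟩
        · rintro (h | ⟨i, h⟩)
          · exact ⟨0, by simpa using h⟩
          · exact ⟨i.succ, by simpa using h⟩

theorem cell_deg_pos {p : MvPolynomial (Fin 2) ℝ} (hp : Irreducible p) : 1 ≤ p.totalDegree := by
  by_contra h
  have h0 : p.totalDegree = 0 := by omega
  rw [totalDegree_eq_zero_iff_eq_C] at h0
  have h1 : coeff 0 p ≠ 0 := by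
    intro hc
    rw [hc, C_0] at h0
    exact hp.ne_zero h0
  apply hp.not_isUnit
  rw [h0]
  exact (isUnit_iff_ne_zero.2 h1).map (C : ℝ →+* MvPolynomial (Fin 2) ℝ)

theorem cell_v2_inj {p q : Pt} (h : v2 p = v2 q) : p = q := by
  have h0 := congrFun h 0
  have h1 := congrFun h 1
  ext
  · exact h0
  · exact h1

/-- number of common zeros of two relatively prime polynomials in a finite set -/
theorem cell_bez (hb : Bez) (f g : MvPolynomial (Fin 2) ℝ) (h : IsRelPrime f g) (Z : Finset Pt)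
    (hZ : ∀ z ∈ Z, eval (v2 z) f = 0 ∧ eval (v2 z) g = 0) :
    Z.card ≤ f.totalDegree * g.totalDegree := by
  classical
  rw [← Finset.card_image_of_injective Z (f := v2) (fun a b hab => cell_v2_inj hab)]
  refine hb f g h _ fun z hz => ?_
  obtain ⟨a, ha, rfl⟩ := Finset.mem_image.1 hz
  exact hZ a ha

/-- the exponents of the curves -/
theorem cell_exp (n N T : ℕ) (hn : n ≤ N) : ∃ t : ℕ, n * 2 ^ T ≤ N * 2 ^ t ∧
    (N = 0 → t = 0) ∧ N * 2 ^ t ≤ N + 2 * (n * 2 ^ T) := by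
  classical
  have hex : ∃ t : ℕ, n * 2 ^ T ≤ N * 2 ^ t := ⟨T, by gcongr⟩
  refine ⟨Nat.find hex, Nat.find_spec hex, ?_, ?_⟩
  · intro h0
    have : n = 0 := by omega
    rw [Nat.find_eq_zero]
    rw [this, zero_mul]
    exact Nat.zero_le _
  · rcases Nat.eq_zero_or_pos (Nat.find hex) with h | h
    · rw [h, pow_zero, mul_one]
      omega
    · have h1 := Nat.find_min hex (show Nat.find hex - 1 < Nat.find hex by omega)
      push Not at h1
      have h2 : 2 ^ (Nat.find hex) = 2 * 2 ^ (Nat.find hex - 1) := by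
        rw [← pow_succ']
        congr 1
        omega
      calc N * 2 ^ (Nat.find hex) = 2 * (N * 2 ^ (Nat.find hex - 1)) := by rw [h2]; ring
        _ ≤ N + 2 * (n * 2 ^ T) := by omega

open scoped Classical in
/-- points of `A` on exactly the curve `i` -/
noncomputable def cellA {s : ℕ} (g : Fin s → MvPolynomial (Fin 2) ℝ) (A : Finset Pt) (i : Fin s) :
    Finset Pt :=
  A.filter (fun a => eval (v2 a) (g i) = 0 ∧ ∀ i', i' ≠ i → eval (v2 a) (g i') ≠ 0)

theorem cell_sumA {s : ℕ} (g : Fin s → MvPolynomial (Fin 2) ℝ) (A : Finset Pt) :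
    ∑ i, (cellA g A i).card ≤ A.card := by
  classical
  rw [← Finset.card_biUnion]
  · refine Finset.card_le_card fun a ha => ?_
    obtain ⟨i, -, hi⟩ := Finset.mem_biUnion.1 ha
    exact (Finset.mem_filter.1 hi).1
  · intro i _ j _ hij
    refine Finset.disjoint_left.2 fun a hi hj => ?_
    have h1 := (Finset.mem_filter.1 hi).2.1
    have h2 := (Finset.mem_filter.1 hj).2.2 i hij
    exact h2 h1

/-- the sum of the powers of two -/
theorem cell_sumT {s N J : ℕ} (t n : Fin s → ℕ) (hn : ∑ i, n i ≤ N) (h0 : ∀ i, N = 0 → t i = 0)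
    (h : ∀ i, N * 2 ^ t i ≤ N + 2 * (n i * J)) : ∑ i, 2 ^ t i ≤ s + 2 * J := by
  rcases Nat.eq_zero_or_pos N with hN | hN
  · have : ∀ i, 2 ^ t i = 1 := fun i => by rw [h0 i hN, pow_zero]
    simp [this]
  · refine Nat.le_of_mul_le_mul_left ?_ hN
    calc N * ∑ i, 2 ^ t i = ∑ i, N * 2 ^ t i := Finset.mul_sum _ _ _
      _ ≤ ∑ i, (N + 2 * (n i * J)) := Finset.sum_le_sum fun i _ => h i
      _ = s * N + 2 * ((∑ i, n i) * J) := by
        rw [Finset.sum_add_distrib, ← Finset.mul_sum, ← Finset.sum_mul]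
        simp
      _ ≤ s * N + 2 * (N * J) := by gcongr
      _ = N * (s + 2 * J) := by ring

theorem CELL_proof (hp : Part 2) (hg : PartG) (hb : Bez) : CELL := by
  classical
  obtain ⟨C₁, hC, hP⟩ := hp
  refine ⟨1 + C₁ + 20 * (C₁ ^ 2 + C₁ + 2) + C₁ ^ 2, by nlinarith [sq_nonneg C₁], ?_⟩
  intro A T
  obtain ⟨f, hf0, hfd, hfc⟩ := hP Pt A v2 T
  have hsq : (2 : ℝ) ^ ((T : ℝ) / (2 : ℕ)) = Real.sqrt ((2 : ℝ) ^ T) := by
    rw [Real.sqrt_eq_rpow, ← Real.rpow_natCast, ← Real.rpow_mul (by norm_num)]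
    congr 1
    push_cast
    ring
  rw [hsq] at hfd
  have hF : ∏ j, f j ≠ 0 := Finset.prod_ne_zero_iff.2 fun j _ => hf0 j
  obtain ⟨s, g, hgi, hgd, hgs, hgz⟩ := cell_irr _ hF
  have hFd : (∏ j, f j).totalDegree ≤ ∑ j, (f j).totalDegree := totalDegree_finsetProd _ _
  have hg0 : ∀ i, g i ≠ 0 := fun i => (hgi i).ne_zero
  have hg1 : ∀ i, 1 ≤ (g i).totalDegree := fun i => cell_deg_pos (hgi i)
  have hnA : ∀ i, (cellA g A i).card ≤ A.card := fun i => Finset.card_filter_le _ _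
  choose t ht1 ht2 ht3 using fun i => cell_exp (cellA g A i).card A.card T (hnA i)
  choose h hh1 hh2 hh3 using fun i => hg (g i) (hg0 i) (hg1 i) (cellA g A i) (t i)
  have hsumT := cell_sumT t (fun i => (cellA g A i).card) (cell_sumA g A) ht2 ht3
  -- the zero set of the curves
  have hzero : ∀ a : Pt, (∃ i, eval (v2 a) (g i) = 0) ↔ ∃ j, eval (v2 a) (f j) = 0 := by
    intro a
    rw [hgz, map_prod, Finset.prod_eq_zero_iff]
    simp
  set K : Cells := ⟨T, f, s, g, t, h⟩ with hK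
  -- numbers
  set J : ℝ := (2 : ℝ) ^ T with hJ
  have hJ1 : 1 ≤ J := one_le_pow₀ (by norm_num)
  set R : ℝ := Real.sqrt J with hR
  have hR0 : 0 ≤ R := Real.sqrt_nonneg _
  have hRR : R ^ 2 = J := Real.sq_sqrt (by linarith)
  have hRJ : R ≤ J := by
    have h1 : 1 ≤ R := Real.one_le_sqrt.2 hJ1
    nlinarith
  have hD : ((∑ i, (g i).totalDegree : ℕ) : ℝ) ≤ C₁ * R :=
    le_trans (by exact_mod_cast hgs.trans hFd) hfd
  have hs : (s : ℝ) ≤ C₁ * R := by
    refine le_trans ?_ hD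
    have : s ≤ ∑ i, (g i).totalDegree := by
      calc s = ∑ _i : Fin s, 1 := by simp
        _ ≤ _ := Finset.sum_le_sum fun i _ => hg1 i
    exact_mod_cast this
  have hDD : ((∑ i, (g i).totalDegree : ℕ) : ℝ) ^ 2 ≤ C₁ ^ 2 * J := by
    rw [← hRR, ← mul_pow]
    exact pow_le_pow_left₀ (Nat.cast_nonneg _) hD 2
  have hsqle : ∑ i, (g i).totalDegree ^ 2 ≤ (∑ i, (g i).totalDegree) ^ 2 := by
    rw [sq (∑ i, (g i).totalDegree), Finset.sum_mul]
    refine Finset.sum_le_sum fun i _ => ?_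
    rw [sq]
    exact Nat.mul_le_mul_left _ (Finset.single_le_sum (f := fun i => (g i).totalDegree)
      (fun _ _ => Nat.zero_le _) (Finset.mem_univ i))
  have hW : ((∑ i, (g i).totalDegree * ∑ j, (h i j).totalDegree : ℕ) : ℝ) ≤
      20 * (C₁ ^ 2 + C₁ + 2) * J := by
    have h1 : ∑ i, (g i).totalDegree * ∑ j, (h i j).totalDegree ≤
        20 * ((∑ i, (g i).totalDegree) ^ 2 + (s + 2 * 2 ^ T)) := by
      calc ∑ i, (g i).totalDegree * ∑ j, (h i j).totalDegree
          ≤ ∑ i, 20 * ((g i).totalDegree ^ 2 + 2 ^ t i) := Finset.sum_le_sum fun i _ => hh2 i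
        _ = 20 * (∑ i, (g i).totalDegree ^ 2 + ∑ i, 2 ^ t i) := by
          rw [← Finset.mul_sum, Finset.sum_add_distrib]
        _ ≤ _ := by gcongr
    have h2 : ((∑ i, (g i).totalDegree * ∑ j, (h i j).totalDegree : ℕ) : ℝ) ≤
        20 * (((∑ i, (g i).totalDegree : ℕ) : ℝ) ^ 2 + (s + 2 * J)) := by
      calc ((∑ i, (g i).totalDegree * ∑ j, (h i j).totalDegree : ℕ) : ℝ)
          ≤ ((20 * ((∑ i, (g i).totalDegree) ^ 2 + (s + 2 * 2 ^ T)) : ℕ) : ℝ) := by
            exact_mod_cast h1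
        _ = _ := by rw [hJ]; push_cast; ring
    have h3 : (s : ℝ) ≤ C₁ * J := hs.trans (by gcongr)
    nlinarith
  have hexcl : ∀ a i, K.R2 a → ¬ K.R1 i a := by
    intro a i h2 h1
    obtain ⟨j, hj⟩ := (hzero a).1 ⟨i, h1.1⟩
    exact h2 j hj
  refine ⟨K, ?_⟩
  refine
    { f_ne := hf0
      irr := hgi
      dist := hgd
      excl := hexcl
      D_le := ?_
      G_le := ?_
      W_le := ?_
      bad_le := ?_
      cl_le := ?_ }
  · show ((∑ j, (f j).totalDegree : ℕ) : ℝ) ≤ _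
    refine hfd.trans ?_
    gcongr
    nlinarith [sq_nonneg C₁]
  · show ((∑ i, (g i).totalDegree : ℕ) : ℝ) ≤ _
    refine hD.trans ?_
    gcongr
    nlinarith [sq_nonneg C₁]
  · show ((∑ i, (g i).totalDegree * ∑ j, (h i j).totalDegree : ℕ) : ℝ) ≤ _
    refine hW.trans ?_
    gcongr
    nlinarith [sq_nonneg C₁]
  · -- bad points
    have hsub : A.filter (fun a => ¬ K.Reg a) ⊆
        ((Finset.univ : Finset ((i : Fin s) × Fin (t i))).biUnion fun z =>
          A.filter (fun a => eval (v2 a) (g z.1) = 0 ∧ eval (v2 a) (h z.1 z.2) = 0)) ∪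
        (((Finset.univ : Finset (Fin s × Fin s)).filter (fun z => z.1 ≠ z.2)).biUnion fun z =>
          A.filter (fun a => eval (v2 a) (g z.1) = 0 ∧ eval (v2 a) (g z.2) = 0)) := by
      intro a ha
      obtain ⟨haA, hna⟩ := Finset.mem_filter.1 ha
      have hna2 : ¬ K.R2 a := fun h' => hna (Or.inl h')
      have hna1 : ∀ i, ¬ K.R1 i a := fun i h' => hna (Or.inr ⟨i, h'⟩)
      have hz : ∃ i, eval (v2 a) (g i) = 0 := by
        rw [hzero]
        by_contra hcon
        push Not at hcon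
        exact hna2 hcon
      obtain ⟨i, hi⟩ := hz
      rw [Finset.mem_union]
      by_cases h2 : ∃ i', i' ≠ i ∧ eval (v2 a) (g i') = 0
      · obtain ⟨i', hne, hi'⟩ := h2
        right
        refine Finset.mem_biUnion.2 ⟨(i, i'), ?_, ?_⟩
        · exact Finset.mem_filter.2 ⟨Finset.mem_univ _, fun h' => hne h'.symm⟩
        · exact Finset.mem_filter.2 ⟨haA, hi, hi'⟩
      · push Not at h2
        left
        have h3 : ∃ j, eval (v2 a) (h i j) = 0 := by
          by_contra hcon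
          push Not at hcon
          exact hna1 i ⟨hi, h2, hcon⟩
        obtain ⟨j, hj⟩ := h3
        refine Finset.mem_biUnion.2 ⟨⟨i, j⟩, Finset.mem_univ _, ?_⟩
        exact Finset.mem_filter.2 ⟨haA, hi, hj⟩
    have hcard : (A.filter (fun a => ¬ K.Reg a)).card ≤
        ∑ i, (g i).totalDegree * ∑ j, (h i j).totalDegree + (∑ i, (g i).totalDegree) ^ 2 := by
      refine (Finset.card_le_card hsub).trans ((Finset.card_union_le _ _).trans
        (add_le_add ?_ ?_))
      · refine Finset.card_biUnion_le.trans ?_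
        calc ∑ z : (i : Fin s) × Fin (t i), (A.filter (fun a => eval (v2 a) (g z.1) = 0 ∧
                eval (v2 a) (h z.1 z.2) = 0)).card
            ≤ ∑ z : (i : Fin s) × Fin (t i), (g z.1).totalDegree * (h z.1 z.2).totalDegree := by
              refine Finset.sum_le_sum fun z _ => ?_
              refine cell_bez hb _ _ ((hgi z.1).isRelPrime_iff_not_dvd.2 (hh1 z.1 z.2)) _ ?_
              intro a ha
              exact (Finset.mem_filter.1 ha).2
          _ = ∑ i, (g i).totalDegree * ∑ j, (h i j).totalDegree := by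
              rw [Fintype.sum_sigma]
              refine Finset.sum_congr rfl fun i _ => ?_
              rw [Finset.mul_sum]
      · refine Finset.card_biUnion_le.trans ?_
        calc ∑ z ∈ (Finset.univ : Finset (Fin s × Fin s)).filter (fun z => z.1 ≠ z.2),
              (A.filter (fun a => eval (v2 a) (g z.1) = 0 ∧ eval (v2 a) (g z.2) = 0)).card
            ≤ ∑ z ∈ (Finset.univ : Finset (Fin s × Fin s)).filter (fun z => z.1 ≠ z.2),
              (g z.1).totalDegree * (g z.2).totalDegree := by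
              refine Finset.sum_le_sum fun z hz => ?_
              have hne := (Finset.mem_filter.1 hz).2
              refine cell_bez hb _ _ ((hgi z.1).isRelPrime_iff_not_dvd.2 (hgd _ _ hne)) _ ?_
              intro a ha
              exact (Finset.mem_filter.1 ha).2
          _ ≤ ∑ z : Fin s × Fin s, (g z.1).totalDegree * (g z.2).totalDegree :=
              Finset.sum_le_sum_of_subset (Finset.filter_subset _ _)
          _ = (∑ i, (g i).totalDegree) ^ 2 := by
              rw [sq, Finset.sum_mul_sum, Fintype.sum_prod_type]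
    calc ((A.filter (fun a => ¬ K.Reg a)).card : ℝ)
        ≤ ((∑ i, (g i).totalDegree * ∑ j, (h i j).totalDegree +
          (∑ i, (g i).totalDegree) ^ 2 : ℕ) : ℝ) := by exact_mod_cast hcard
      _ ≤ 20 * (C₁ ^ 2 + C₁ + 2) * J + C₁ ^ 2 * J := by
          push_cast
          push_cast at hW hDD
          exact add_le_add hW hDD
      _ ≤ _ := by nlinarith
  · -- classes
    intro x
    by_cases hx : K.R2 x
    · have hsub : A.filter (fun a => K.SC x a) ⊆ A.filter (fun a => sameCl f (v2 x) (v2 a)) := by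
        intro a ha
        obtain ⟨haA, hsc⟩ := Finset.mem_filter.1 ha
        refine Finset.mem_filter.2 ⟨haA, ?_⟩
        rcases hsc with ⟨-, -, h3⟩ | ⟨i, h1, -⟩
        · exact h3
        · exact absurd h1 (hexcl x i hx)
      have h1 := hfc (v2 x)
      have h2 : 2 ^ T * (A.filter (fun a => K.SC x a)).card ≤ A.card :=
        le_trans (by gcongr) h1
      rw [hJ]
      exact_mod_cast h2
    · by_cases hx1 : ∃ i, K.R1 i x
      · obtain ⟨i, hi⟩ := hx1
        have hsub : A.filter (fun a => K.SC x a) ⊆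
            (cellA g A i).filter (fun a => sameCl (h i) (v2 x) (v2 a)) := by
          intro a ha
          obtain ⟨haA, hsc⟩ := Finset.mem_filter.1 ha
          rcases hsc with ⟨h3, -⟩ | ⟨i', h1, h2, h3⟩
          · exact absurd h3 hx
          · have hii : i' = i := by
              by_contra hne
              exact hi.2.1 i' hne h1.1
            subst hii
            exact Finset.mem_filter.2 ⟨Finset.mem_filter.2 ⟨haA, h2.1, h2.2.1⟩, h3⟩
        have h1 := hh3 i (v2 x)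
        have h2 : 2 ^ t i * (A.filter (fun a => K.SC x a)).card ≤ (cellA g A i).card :=
          le_trans (Nat.mul_le_mul_left _ (Finset.card_le_card hsub)) h1
        have h3 : 2 ^ T * (A.filter (fun a => K.SC x a)).card ≤ A.card := by
          refine Nat.le_of_mul_le_mul_left ?_ (show 0 < 2 ^ t i by positivity)
          calc 2 ^ t i * (2 ^ T * (A.filter (fun a => K.SC x a)).card)
              = 2 ^ T * (2 ^ t i * (A.filter (fun a => K.SC x a)).card) := by ring
            _ ≤ 2 ^ T * (cellA g A i).card := by gcongr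
            _ = (cellA g A i).card * 2 ^ T := by ring
            _ ≤ A.card * 2 ^ t i := ht1 i
            _ = 2 ^ t i * A.card := by ring
        rw [hJ]
        exact_mod_cast h3
      · have hemp : A.filter (fun a => K.SC x a) = ∅ := by
          refine Finset.filter_eq_empty_iff.2 fun a _ hsc => ?_
          rcases hsc with ⟨h3, -⟩ | ⟨i', h1, -⟩
          · exact hx h3
          · exact hx1 ⟨i', h1⟩
        rw [hemp]
        simp

end Pool.Agent.Work.MP_916cc8_co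

end

section

/-!
# MP_916cc8_co: COLL from COLLa
-/

set_option autoImplicit false

namespace Pool.Agent.Work.MP_916cc8_co

theorem coll_rp_half {n l : ℝ} (hn : 0 ≤ n) :
    (n ^ ((1 : ℝ) / 2) * l) ^ 2 = n * l ^ 2 := by
  rw [mul_pow, ← Real.rpow_natCast (n ^ ((1 : ℝ) / 2)) 2, ← Real.rpow_mul hn]
  norm_num

theorem coll_rp_fifth {n l : ℝ} (hn : 0 ≤ n) (hl : 0 ≤ l) :
    (n ^ ((7 : ℝ) / 5) * l ^ ((2 : ℝ) / 5)) ^ 5 = n ^ 7 * l ^ 2 := by
  rw [mul_pow, ← Real.rpow_natCast (n ^ ((7 : ℝ) / 5)) 5, ← Real.rpow_mul hn,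
    ← Real.rpow_natCast (l ^ ((2 : ℝ) / 5)) 5, ← Real.rpow_mul hl]
  have h1 : (7 : ℝ) / 5 * ((5 : ℕ) : ℝ) = ((7 : ℕ) : ℝ) := by norm_num
  have h2 : (2 : ℝ) / 5 * ((5 : ℕ) : ℝ) = ((2 : ℕ) : ℝ) := by norm_num
  rw [h1, h2, Real.rpow_natCast, Real.rpow_natCast]

theorem coll_num {C₁ n l P : ℝ} {T : ℕ} (hC : 1 ≤ C₁) (hn : 0 < n) (hl : 0 ≤ l) (hP : 0 < P)
    (hT : P < C₁ * 2 ^ (T + 1) * n)
    (h : P ^ 2 ≤ C₁ * (n * l ^ 2 + n ^ 3 * l / Real.sqrt (2 ^ T))) :
    P ≤ 2 * C₁ * (n ^ ((1 : ℝ) / 2) * l + n ^ ((7 : ℝ) / 5) * l ^ ((2 : ℝ) / 5)) := by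
  have hA0 : 0 ≤ n ^ ((1 : ℝ) / 2) * l := mul_nonneg (Real.rpow_nonneg hn.le _) hl
  have hB0 : 0 ≤ n ^ ((7 : ℝ) / 5) * l ^ ((2 : ℝ) / 5) :=
    mul_nonneg (Real.rpow_nonneg hn.le _) (Real.rpow_nonneg hl _)
  have hC0 : 0 < C₁ := by linarith
  rcases le_total (C₁ * (n ^ 3 * l / Real.sqrt (2 ^ T))) (C₁ * (n * l ^ 2)) with hc | hc
  · have h1 : P ^ 2 ≤ 2 * C₁ * (n * l ^ 2) := by nlinarith
    have h2 : P ^ 2 ≤ (2 * C₁ * (n ^ ((1 : ℝ) / 2) * l)) ^ 2 := by
      rw [mul_pow, coll_rp_half hn.le]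
      have h3 : 0 ≤ n * l ^ 2 := by positivity
      have h4 : 2 * C₁ ≤ (2 * C₁) ^ 2 := by nlinarith
      calc P ^ 2 ≤ 2 * C₁ * (n * l ^ 2) := h1
        _ ≤ (2 * C₁) ^ 2 * (n * l ^ 2) := mul_le_mul_of_nonneg_right h4 h3
    have h5 : P ≤ 2 * C₁ * (n ^ ((1 : ℝ) / 2) * l) :=
      le_of_sq_le_sq h2 (by positivity)
    nlinarith
  · have hs0 : (0 : ℝ) < 2 ^ T := by positivity
    have hs : 0 < Real.sqrt (2 ^ T) := Real.sqrt_pos.mpr hs0
    have h1 : P ^ 2 ≤ 2 * C₁ * (n ^ 3 * l / Real.sqrt (2 ^ T)) := by nlinarith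
    have h2 : P ^ 2 * Real.sqrt (2 ^ T) ≤ 2 * C₁ * (n ^ 3 * l) := by
      have h3 := mul_le_mul_of_nonneg_right h1 hs.le
      have h4 : 2 * C₁ * (n ^ 3 * l / Real.sqrt (2 ^ T)) * Real.sqrt (2 ^ T)
          = 2 * C₁ * (n ^ 3 * l) := by
        field_simp
      rwa [h4] at h3
    have h3 : P ^ 4 * 2 ^ T ≤ 4 * C₁ ^ 2 * (n ^ 6 * l ^ 2) := by
      have h4 : (P ^ 2 * Real.sqrt (2 ^ T)) ^ 2 ≤ (2 * C₁ * (n ^ 3 * l)) ^ 2 :=
        pow_le_pow_left₀ (by positivity) h2 2
      have h5 : (P ^ 2 * Real.sqrt (2 ^ T)) ^ 2 = P ^ 4 * 2 ^ T := by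
        rw [mul_pow, Real.sq_sqrt hs0.le]; ring
      have h6 : (2 * C₁ * (n ^ 3 * l)) ^ 2 = 4 * C₁ ^ 2 * (n ^ 6 * l ^ 2) := by ring
      rwa [h5, h6] at h4
    have h4 : P ^ 5 ≤ 8 * C₁ ^ 3 * (n ^ 7 * l ^ 2) := by
      have h5 : P ^ 4 * P ≤ P ^ 4 * (C₁ * 2 ^ (T + 1) * n) :=
        mul_le_mul_of_nonneg_left hT.le (by positivity)
      have h6 : P ^ 4 * (C₁ * 2 ^ (T + 1) * n) = (2 * C₁ * n) * (P ^ 4 * 2 ^ T) := by ring
      have h7 : (2 * C₁ * n) * (P ^ 4 * 2 ^ T)
          ≤ (2 * C₁ * n) * (4 * C₁ ^ 2 * (n ^ 6 * l ^ 2)) :=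
        mul_le_mul_of_nonneg_left h3 (by positivity)
      calc P ^ 5 = P ^ 4 * P := by ring
        _ ≤ (2 * C₁ * n) * (4 * C₁ ^ 2 * (n ^ 6 * l ^ 2)) := by linarith
        _ = 8 * C₁ ^ 3 * (n ^ 7 * l ^ 2) := by ring
    have h5 : P ^ 5 ≤ (2 * C₁ * (n ^ ((7 : ℝ) / 5) * l ^ ((2 : ℝ) / 5))) ^ 5 := by
      rw [mul_pow, coll_rp_fifth hn.le hl]
      have h6 : 8 * C₁ ^ 3 ≤ (2 * C₁) ^ 5 := by
        have h7 : (1 : ℝ) ≤ C₁ ^ 2 := one_le_pow₀ hC
        have h8 : 0 ≤ C₁ ^ 3 := by positivity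
        nlinarith
      exact h4.trans (mul_le_mul_of_nonneg_right h6 (by positivity))
    have h6 : P ≤ 2 * C₁ * (n ^ ((7 : ℝ) / 5) * l ^ ((2 : ℝ) / 5)) :=
      le_of_pow_le_pow_left₀ (by norm_num) (by positivity) h5
    nlinarith

theorem COLL_proof (h : COLLa) : COLL := by
  obtain ⟨C₁, hC, H⟩ := h
  refine ⟨2 * C₁, by linarith, ?_⟩
  intro S L PP κ hκ hS hPP h1 h2
  have hC0 : 0 < C₁ := by linarith
  have hl : (0 : ℝ) ≤ L.card := Nat.cast_nonneg _
  have hn : (0 : ℝ) ≤ S.card := Nat.cast_nonneg _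
  have hR : 0 ≤ 2 * C₁ * ((S.card : ℝ) ^ ((1 : ℝ) / 2) * L.card +
      (S.card : ℝ) ^ ((7 : ℝ) / 5) * (L.card : ℝ) ^ ((2 : ℝ) / 5)) := by positivity
  rcases Finset.eq_empty_or_nonempty PP with he | hne
  · rw [he]
    simpa using hR
  obtain ⟨z, hz⟩ := hne
  have hSpos : 0 < S.card := Finset.card_pos.mpr ⟨z.1, (hPP z hz).1⟩
  have hn0 : (0 : ℝ) < S.card := by exact_mod_cast hSpos
  have hP0 : (0 : ℝ) < PP.card := by
    have : 0 < PP.card := Finset.card_pos.mpr ⟨z, hz⟩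
    exact_mod_cast this
  have hx : 1 ≤ (PP.card : ℝ) / (C₁ * S.card) := by
    rw [le_div_iff₀ (by positivity)]
    nlinarith
  obtain ⟨T, hT1, hT2⟩ := exists_nat_pow_near hx (by norm_num : (1 : ℝ) < 2)
  rw [le_div_iff₀ (by positivity)] at hT1
  rw [div_lt_iff₀ (by positivity)] at hT2
  have hk : C₁ * κ * (S.card : ℝ) ^ 3 ≤ (PP.card : ℝ) ^ 2 := by
    have : 0 ≤ C₁ * κ * (S.card : ℝ) ^ 3 := by positivity
    nlinarith
  have hm := H S L PP κ T hκ hS hPP hk (by nlinarith)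
  exact coll_num hC hn0 hl hP0 (by nlinarith) hm

end Pool.Agent.Work.MP_916cc8_co

end

section

/-!
# MP_916cc8_co: item COLLa (the two counts together)
-/

set_option autoImplicit false

namespace Pool.Agent.Work.MP_916cc8_co

theorem colla_num (C₁ κ n l J P c s : ℝ) (hC : 1 ≤ C₁) (hn : 0 ≤ n)
    (hl : 0 ≤ l) (hJ : 0 < J) (hs : 0 < s)
    (h1 : P ^ 2 ≤ C₁ * n * J * c)
    (h2 : c ≤ κ * (n ^ 2 / J) + l ^ 2 / J + 2 * (l / s) * (n ^ 2 / J))
    (hA : 4 * C₁ * κ * n ^ 3 ≤ P ^ 2) :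
    P ^ 2 ≤ 4 * C₁ * (n * l ^ 2 + n ^ 3 * l / s) := by
  have hfac : 0 ≤ C₁ * n * J := by positivity
  have h3 : P ^ 2 ≤ C₁ * n * J * (κ * (n ^ 2 / J) + l ^ 2 / J + 2 * (l / s) * (n ^ 2 / J)) :=
    le_trans h1 (mul_le_mul_of_nonneg_left h2 hfac)
  have h4 : C₁ * n * J * (κ * (n ^ 2 / J) + l ^ 2 / J + 2 * (l / s) * (n ^ 2 / J)) =
      C₁ * (κ * n ^ 3) + C₁ * (n * l ^ 2) + 2 * (C₁ * (n ^ 3 * l / s)) := by
    field_simp
  rw [h4] at h3
  have h5 : 0 ≤ C₁ * (n * l ^ 2) := by positivity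
  have h6 : 0 ≤ C₁ * (n ^ 3 * l / s) := by positivity
  have h7 : 4 * (C₁ * (κ * n ^ 3)) ≤ P ^ 2 := by
    have : 4 * (C₁ * (κ * n ^ 3)) = 4 * C₁ * κ * n ^ 3 := by ring
    rw [this]; exact hA
  have h8 : 4 * C₁ * (n * l ^ 2 + n ^ 3 * l / s) =
      4 * (C₁ * (n * l ^ 2)) + 4 * (C₁ * (n ^ 3 * l / s)) := by ring
  rw [h8]
  linarith

theorem COLLa_proof (hc : CELL) (h1 : COUNT1) (h2 : COUNT2) : COLLa := by
  obtain ⟨C₀, hC₀, hcell⟩ := hc
  obtain ⟨C₁, hC₁, hcount⟩ := h1 C₀ hC₀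
  refine ⟨4 * C₁, by linarith, ?_⟩
  intro S L PP κ T hκ hinj hPP hA hB
  obtain ⟨K, hK⟩ := hcell S T
  obtain ⟨M, hM⟩ := hcell L T
  have hJ : (1 : ℝ) ≤ (2 : ℝ) ^ T := one_le_pow₀ (by norm_num)
  have hJ0 : (0 : ℝ) < (2 : ℝ) ^ T := by positivity
  have hB' : C₁ * (2 : ℝ) ^ T * S.card ≤ PP.card := by
    refine le_trans ?_ hB
    have : 0 ≤ C₁ * (2 : ℝ) ^ T * (S.card : ℝ) := by positivity
    have h4 : 4 * C₁ * (2 : ℝ) ^ T * (S.card : ℝ) = 4 * (C₁ * (2 : ℝ) ^ T * (S.card : ℝ)) := by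
      ring
    rw [h4]
    linarith
  have e1 := hcount ((2 : ℝ) ^ T) S L K M PP hJ hK hM hinj
    (fun z hz => ⟨(hPP z hz).1, (hPP z hz).2.1, (hPP z hz).2.2.1, (hPP z hz).2.2.2.1⟩) hB'
  have e2 := h2 C₀ ((2 : ℝ) ^ T) κ S L K M PP hJ hκ hK hM hinj hPP
  have hs : 0 < Real.sqrt ((2 : ℝ) ^ T) := Real.sqrt_pos.mpr hJ0
  exact colla_num C₁ κ S.card L.card ((2 : ℝ) ^ T) PP.card ((coll K M PP).card)
    (Real.sqrt ((2 : ℝ) ^ T)) hC₁ (by positivity) (by positivity) hJ0 hs e1 e2 hA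

end Pool.Agent.Work.MP_916cc8_co

end

section

set_option autoImplicit false

/-! Lower bound for the number of collisions (helper59) -/

namespace Pool.Agent.Work.MP_916cc8_co

open MvPolynomial

theorem count1_same_refl {d t : ℕ} {f : Fin t → MvPolynomial (Fin d) ℝ} {x : Fin d → ℝ}
    (h : ∀ j, eval x (f j) ≠ 0) : sameCl f x x := fun j => mul_self_pos.mpr (h j)

theorem count1_same_symm {d t : ℕ} {f : Fin t → MvPolynomial (Fin d) ℝ} {x y : Fin d → ℝ}
    (h : sameCl f x y) : sameCl f y x := fun j => by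
  rw [mul_comm]
  exact h j

theorem count1_same_trans {d t : ℕ} {f : Fin t → MvPolynomial (Fin d) ℝ} {x y z : Fin d → ℝ}
    (h : sameCl f x y) (h' : sameCl f y z) : sameCl f x z := fun j => by
  have h1 := mul_pos (h j) (h' j)
  have h2 : eval x (f j) * eval y (f j) * (eval y (f j) * eval z (f j)) =
      (eval x (f j) * eval z (f j)) * (eval y (f j)) ^ 2 := by ring
  rw [h2] at h1
  exact pos_of_mul_pos_left h1 (sq_nonneg _)

theorem count1_refl {K : Cells} {a : Pt} (h : K.Reg a) : K.SC a a := by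
  rcases h with h | ⟨i, h⟩
  · exact Or.inl ⟨h, h, count1_same_refl h⟩
  · exact Or.inr ⟨i, h, h, count1_same_refl h.2.2⟩

theorem count1_symm {K : Cells} {a b : Pt} (h : K.SC a b) : K.SC b a := by
  rcases h with ⟨h1, h2, h3⟩ | ⟨i, h1, h2, h3⟩
  · exact Or.inl ⟨h2, h1, count1_same_symm h3⟩
  · exact Or.inr ⟨i, h2, h1, count1_same_symm h3⟩

theorem count1_trans {K : Cells} (he : ∀ a i, K.R2 a → ¬ K.R1 i a) {a b c : Pt}
    (h : K.SC a b) (h' : K.SC b c) : K.SC a c := by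
  rcases h with ⟨h1, h2, h3⟩ | ⟨i, h1, h2, h3⟩
  · rcases h' with ⟨g1, g2, g3⟩ | ⟨i, g1, g2, g3⟩
    · exact Or.inl ⟨h1, g2, count1_same_trans h3 g3⟩
    · exact absurd g1 (he b i h2)
  · rcases h' with ⟨g1, g2, g3⟩ | ⟨i', g1, g2, g3⟩
    · exact absurd h2 (he b i g1)
    · have hi : i' = i := by
        by_contra hc
        exact h2.2.1 i' hc g1.1
      subst hi
      exact Or.inr ⟨i', h1, g2, count1_same_trans h3 g3⟩

/-- same class -/
def count1_E (K M : Cells) (p a b : Pt) : Prop := K.SC a b ∧ M.SC (dp p a) (dp p b)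

theorem count1_arith {A P n c C' C₀ J : ℝ} (hC' : 1 ≤ C') (hC₀ : 1 ≤ C₀) (hJ : 1 ≤ J)
    (hn0 : 0 ≤ n) (hP0 : 0 ≤ P) (hc0 : 0 ≤ c) (e1 : A ^ 2 ≤ n * (C' * J * (c + P)))
    (hB : P ≤ A + 2 * C₀ * J * n) (hbig : (8 * C' + 8 * C₀) * J * n ≤ P) :
    P ^ 2 ≤ (8 * C' + 8 * C₀) * n * J * c := by
  have g1 : 0 ≤ C' * J * n := by positivity
  have g2 : 0 ≤ C₀ * J * n := by positivity
  have g3 : (8 * C' + 8 * C₀) * J * n = 8 * (C' * J * n) + 8 * (C₀ * J * n) := by ring
  rw [g3] at hbig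
  have g4 : 2 * C₀ * J * n = 2 * (C₀ * J * n) := by ring
  rw [g4] at hB
  have e3 : C' * J * n ≤ P / 8 := by linarith
  have e4 : 3 / 4 * P ≤ A := by linarith
  have e5 : (3 / 4 * P) ^ 2 ≤ A ^ 2 := pow_le_pow_left₀ (by positivity) e4 2
  have e6 : C' * J * n * P ≤ P / 8 * P := mul_le_mul_of_nonneg_right e3 hP0
  have e7 : n * (C' * J * (c + P)) = C' * (J * n * c) + C' * J * n * P := by ring
  have e8 : (3 / 4 * P) ^ 2 = 9 / 16 * P ^ 2 := by ring
  have e9 : P / 8 * P = P ^ 2 / 8 := by ring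
  rw [e7] at e1
  rw [e8] at e5
  rw [e9] at e6
  have f1 : 0 ≤ C' * (J * n * c) := by positivity
  have f2 : 0 ≤ C₀ * (J * n * c) := by positivity
  have f3 : (8 * C' + 8 * C₀) * n * J * c = 8 * (C' * (J * n * c)) + 8 * (C₀ * (J * n * c)) := by
    ring
  rw [f3]
  linarith

open scoped Classical in
theorem COUNT1_proof (hd : DPB) (hx : CROSS) (hp : PIG) : COUNT1 := by
  intro C₀ hC₀
  obtain ⟨C', hC', hcross⟩ := hx C₀ hC₀
  refine ⟨8 * C' + 8 * C₀, by linarith, ?_⟩
  intro J S L K M PP hJ hK hM hS hPP hbig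
  have hJ0 : 0 < J := lt_of_lt_of_le one_pos hJ
  have hfst : ∀ z ∈ PP, z.2.1 ≠ z.1.1 := by
    intro z hz h0
    obtain ⟨h1, h2, h3, -⟩ := hPP z hz
    exact h3 (hS z.1 h1 z.2 h2 h0.symm)
  set Q : Pt → Finset Pt := fun p => S.filter fun q => (p, q) ∈ PP ∧ K.Reg q ∧ M.Reg (dp p q)
    with hQ
  have hQm : ∀ p q, q ∈ Q p ↔ q ∈ S ∧ (p, q) ∈ PP ∧ K.Reg q ∧ M.Reg (dp p q) := by
    intro p q
    simp only [hQ, Finset.mem_filter]
  set E : Pt → Finset (Pt × Pt) := fun p => (Q p ×ˢ Q p).filter fun z =>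
    count1_E K M p z.1 z.2 with hE
  -- sum of the card of Q p is at most P
  have hA : ∑ p ∈ S, (Q p).card ≤ PP.card := by
    rw [Finset.card_eq_sum_card_fiberwise (f := Prod.fst) (t := S) (fun z hz => (hPP z hz).1)]
    refine Finset.sum_le_sum fun p _ => ?_
    refine Finset.card_le_card_of_injOn (fun q => (p, q)) ?_ ?_
    · intro q hq
      exact Finset.mem_filter.mpr ⟨((hQm p q).mp hq).2.1, rfl⟩
    · intro q _ q' _ h
      exact (Prod.mk.inj h).2
  -- lower bound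
  have hB : (PP.card : ℝ) ≤ ((∑ p ∈ S, (Q p).card : ℕ) : ℝ) + 2 * C₀ * J * S.card := by
    have h1 : PP.card ≤ ∑ p ∈ S, ((Q p).card + ((S.filter fun a => ¬ K.Reg a).card +
        (L.filter fun a => ¬ M.Reg a).card)) := by
      rw [Finset.card_eq_sum_card_fiberwise (f := Prod.fst) (t := S) (fun z hz => (hPP z hz).1)]
      refine Finset.sum_le_sum fun p _ => ?_
      set F := PP.filter fun z => z.1 = p with hF
      have h2 : F.card ≤ (F.image Prod.snd).card := by
        refine (Finset.card_image_of_injOn ?_).ge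
        intro z hz z' hz' h
        have e1 := (Finset.mem_filter.mp (Finset.mem_coe.mp hz)).2
        have e2 := (Finset.mem_filter.mp (Finset.mem_coe.mp hz')).2
        exact Prod.ext (e1.trans e2.symm) h
      have h3 : F.image Prod.snd ⊆ Q p ∪ ((S.filter fun a => ¬ K.Reg a) ∪
          (S.filter fun q => (p, q) ∈ PP ∧ ¬ M.Reg (dp p q))) := by
        intro q hq
        obtain ⟨z, hz, rfl⟩ := Finset.mem_image.mp hq
        obtain ⟨hz1, hz2⟩ := Finset.mem_filter.mp hz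
        have hz3 : (p, z.2) ∈ PP := by rw [← hz2]; exact hz1
        have hzS := (hPP z hz1).2.1
        by_cases k1 : K.Reg z.2
        · by_cases k2 : M.Reg (dp p z.2)
          · exact Finset.mem_union_left _ ((hQm p z.2).mpr ⟨hzS, hz3, k1, k2⟩)
          · exact Finset.mem_union_right _ (Finset.mem_union_right _
              (Finset.mem_filter.mpr ⟨hzS, hz3, k2⟩))
        · exact Finset.mem_union_right _ (Finset.mem_union_left _
            (Finset.mem_filter.mpr ⟨hzS, k1⟩))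
      have h4 : (S.filter fun q => (p, q) ∈ PP ∧ ¬ M.Reg (dp p q)).card ≤
          (L.filter fun a => ¬ M.Reg a).card := by
        refine Finset.card_le_card_of_injOn (fun q => dp p q) ?_ ?_
        · intro q hq
          obtain ⟨-, q1, q2⟩ := Finset.mem_filter.mp hq
          exact Finset.mem_filter.mpr ⟨(hPP _ q1).2.2.2, q2⟩
        · intro q hq q' hq' h
          obtain ⟨-, q1, -⟩ := Finset.mem_filter.mp (Finset.mem_coe.mp hq)
          obtain ⟨-, q1', -⟩ := Finset.mem_filter.mp (Finset.mem_coe.mp hq')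
          exact hd.2.2.2 p q q' (hfst _ q1) (hfst _ q1') h
      calc F.card ≤ (F.image Prod.snd).card := h2
        _ ≤ _ := Finset.card_le_card h3
        _ ≤ (Q p).card + (((S.filter fun a => ¬ K.Reg a) ∪
          (S.filter fun q => (p, q) ∈ PP ∧ ¬ M.Reg (dp p q)))).card := Finset.card_union_le _ _
        _ ≤ (Q p).card + ((S.filter fun a => ¬ K.Reg a).card +
          (S.filter fun q => (p, q) ∈ PP ∧ ¬ M.Reg (dp p q)).card) :=
            Nat.add_le_add_left (Finset.card_union_le _ _) _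
        _ ≤ _ := by omega
    rw [Finset.sum_add_distrib, Finset.sum_const, smul_eq_mul] at h1
    have h2 : (PP.card : ℝ) ≤ ((∑ p ∈ S, (Q p).card : ℕ) : ℝ) + S.card *
        (((S.filter fun a => ¬ K.Reg a).card : ℝ) + ((L.filter fun a => ¬ M.Reg a).card : ℝ)) := by
      exact_mod_cast h1
    have h3 := hK.bad_le
    have h4 := hM.bad_le
    have h5 : (S.card : ℝ) * (((S.filter fun a => ¬ K.Reg a).card : ℝ) +
        ((L.filter fun a => ¬ M.Reg a).card : ℝ)) ≤ S.card * (C₀ * J + C₀ * J) :=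
      mul_le_mul_of_nonneg_left (add_le_add h3 h4) (Nat.cast_nonneg _)
    calc (PP.card : ℝ) ≤ _ := h2
      _ ≤ ((∑ p ∈ S, (Q p).card : ℕ) : ℝ) + S.card * (C₀ * J + C₀ * J) := by linarith
      _ = _ := by ring
  -- pigeon hole
  have hpig : ∀ p ∈ S, ((Q p).card : ℝ) ^ 2 ≤ C' * J * ((E p).card : ℝ) := by
    intro p hpS
    refine hp Pt (Q p) (count1_E K M p) (C' * J) ?_ ?_ ?_ ?_
    · intro a ha
      obtain ⟨-, -, h1, h2⟩ := (hQm p a).mp ha
      exact ⟨count1_refl h1, count1_refl h2⟩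
    · intro a _ b _ h
      exact ⟨count1_symm h.1, count1_symm h.2⟩
    · intro a _ b _ c _ h h'
      exact ⟨count1_trans hK.excl h.1 h'.1, count1_trans hM.excl h.2 h'.2⟩
    · intro Z hZ hZE
      refine hcross J S L K M hJ hK hM p Z ?_ ?_
      · intro z hz
        obtain ⟨-, h1, h2, h3⟩ := (hQm p z).mp (hZ hz)
        exact ⟨hfst _ h1, h2, h3⟩
      · intro z hz w hw h1 h2
        exact hZE z hz w hw ⟨h1, h2⟩
  -- number of pairs in the same class
  have hEc : ∑ p ∈ S, (E p).card ≤ (coll K M PP).card + PP.card := by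
    have h1 : ∀ p ∈ S, (E p).card ≤ ((coll K M PP).filter fun z => z.1.1 = p).card +
        (Q p).card := by
      intro p _
      have h2 : E p ⊆ ((E p).filter fun z => z.1 ≠ z.2) ∪ ((E p).filter fun z => z.1 = z.2) := by
        intro z hz
        by_cases h : z.1 = z.2
        · exact Finset.mem_union_right _ (Finset.mem_filter.mpr ⟨hz, h⟩)
        · exact Finset.mem_union_left _ (Finset.mem_filter.mpr ⟨hz, h⟩)
      have h3 : ((E p).filter fun z => z.1 ≠ z.2).card ≤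
          ((coll K M PP).filter fun z => z.1.1 = p).card := by
        refine Finset.card_le_card_of_injOn (fun z => ((p, z.1), (p, z.2))) ?_ ?_
        · intro z hz
          obtain ⟨hz1, hz2⟩ := Finset.mem_filter.mp hz
          obtain ⟨hz3, hz4⟩ := Finset.mem_filter.mp hz1
          obtain ⟨hz5, hz6⟩ := Finset.mem_product.mp hz3
          refine Finset.mem_filter.mpr ⟨Finset.mem_filter.mpr ⟨Finset.mem_product.mpr
            ⟨((hQm p z.1).mp hz5).2.1, ((hQm p z.2).mp hz6).2.1⟩, rfl, hz2, hz4.1, hz4.2⟩, rfl⟩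
        · intro z _ z' _ h
          have e1 := (Prod.mk.inj h).1
          have e2 := (Prod.mk.inj h).2
          exact Prod.ext (Prod.mk.inj e1).2 (Prod.mk.inj e2).2
      have h4 : ((E p).filter fun z => z.1 = z.2).card ≤ (Q p).card := by
        refine Finset.card_le_card_of_injOn (fun z => z.1) ?_ ?_
        · intro z hz
          obtain ⟨hz1, hz2⟩ := Finset.mem_filter.mp hz
          obtain ⟨hz3, hz4⟩ := Finset.mem_filter.mp hz1
          exact (Finset.mem_product.mp hz3).1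
        · intro z hz z' hz' h
          have e1 := (Finset.mem_filter.mp (Finset.mem_coe.mp hz)).2
          have e2 := (Finset.mem_filter.mp (Finset.mem_coe.mp hz')).2
          exact Prod.ext h (e1.symm.trans (h.trans e2))
      calc (E p).card ≤ _ := Finset.card_le_card h2
        _ ≤ _ := Finset.card_union_le _ _
        _ ≤ _ := Nat.add_le_add h3 h4
    have h2 : ∑ p ∈ S, ((coll K M PP).filter fun z => z.1.1 = p).card = (coll K M PP).card := by
      refine (Finset.card_eq_sum_card_fiberwise (f := fun z : (Pt × Pt) × (Pt × Pt) => z.1.1)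
        (t := S) ?_).symm
      intro z hz
      exact (hPP z.1 (Finset.mem_product.mp (Finset.mem_filter.mp hz).1).1).1
    calc ∑ p ∈ S, (E p).card ≤ ∑ p ∈ S, (((coll K M PP).filter fun z => z.1.1 = p).card +
        (Q p).card) := Finset.sum_le_sum h1
      _ = (coll K M PP).card + ∑ p ∈ S, (Q p).card := by rw [Finset.sum_add_distrib, h2]
      _ ≤ _ := Nat.add_le_add_left hA _
  -- Cauchy-Schwarz
  have hCS : ((∑ p ∈ S, (Q p).card : ℕ) : ℝ) ^ 2 ≤ S.card * ∑ p ∈ S, ((Q p).card : ℝ) ^ 2 := by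
    push_cast
    exact sq_sum_le_card_mul_sum_sq
  have hfin : ∑ p ∈ S, ((Q p).card : ℝ) ^ 2 ≤ C' * J * ((coll K M PP).card + PP.card) := by
    calc ∑ p ∈ S, ((Q p).card : ℝ) ^ 2 ≤ ∑ p ∈ S, C' * J * ((E p).card : ℝ) :=
          Finset.sum_le_sum hpig
      _ = C' * J * ((∑ p ∈ S, (E p).card : ℕ) : ℝ) := by
          rw [← Finset.mul_sum]
          push_cast
          rfl
      _ ≤ _ := by
          refine mul_le_mul_of_nonneg_left ?_ (by positivity)
          exact_mod_cast hEc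
  have hA' : ((∑ p ∈ S, (Q p).card : ℕ) : ℝ) ≤ PP.card := by exact_mod_cast hA
  exact count1_arith hC' hC₀ hJ (Nat.cast_nonneg _) (Nat.cast_nonneg _) (Nat.cast_nonneg _)
    (hCS.trans (mul_le_mul_of_nonneg_left hfin (Nat.cast_nonneg _))) hB hbig

end Pool.Agent.Work.MP_916cc8_co

end

section

set_option autoImplicit false

/-! Upper bound for the number of collisions (helper59) -/

namespace Pool.Agent.Work.MP_916cc8_co

open MvPolynomial

/-- for a given top line and `q` the point `p` is determined -/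
theorem count2_det {p p' q : Pt} {ℓ : Set Pt} (hℓ : IsLine ℓ) (h : top p q = ℓ)
    (h' : top p' q = ℓ) : p = p' := by
  obtain ⟨a, b, c, hab, rfl⟩ := hℓ
  obtain ⟨e1, e2, e3⟩ := (top_eq_iff hab).1 h
  obtain ⟨f1, f2, f3⟩ := (top_eq_iff hab).1 h'
  have h1 : c - a * p.1 - b * p.2 = c - a * q.1 - b * q.2 := by
    have g1 : q.1 = p.1 + 2 * b / (c - a * p.1 - b * p.2) := by linarith
    have g2 : q.2 = p.2 + -(2 * a) / (c - a * p.1 - b * p.2) := by linarith
    rw [g1, g2]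
    ring
  have h2 : c - a * p'.1 - b * p'.2 = c - a * q.1 - b * q.2 := by
    have g1 : q.1 = p'.1 + 2 * b / (c - a * p'.1 - b * p'.2) := by linarith
    have g2 : q.2 = p'.2 + -(2 * a) / (c - a * p'.1 - b * p'.2) := by linarith
    rw [g1, g2]
    ring
  rw [h1] at e2 e3
  rw [h2] at f2 f3
  exact Prod.ext (by linarith) (by linarith)

theorem count2_base {p q q' : Pt} (hpq : p ≠ q) (hqq : q ≠ q') (h : cr (q - p) (q' - p) = 0) :
    base p q = base q q' := by
  refine line_eq_of_two (isLine_base hpq) (isLine_base hqq) hqq ?_ h ?_ ?_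
  · exact mem_base.2 (cr_self _)
  · rw [mem_base, sub_self]
    simp [cr]
  · exact mem_base.2 (cr_self _)

theorem count2_mem {p q q' : Pt} (hpq : p ≠ q) (hqq : q ≠ q') (h : cr (q - p) (q' - p) = 0) :
    p ∈ base q q' := by
  rw [← count2_base hpq hqq h, mem_base, sub_self]
  simp [cr]

/-- incidence relation -/
def count2_R (S : Finset Pt) (lam y : Pt × Pt) : Prop :=
  ∃ p ∈ S, p.1 ≠ y.1.1 ∧ p.1 ≠ y.2.1 ∧ dp p y.1 = lam.1 ∧ dp p y.2 = lam.2 ∧
    cr (y.1 - p) (y.2 - p) ≠ 0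

theorem count2_three (hd : DPB) (hk : K3) (S : Finset Pt) (y z : Pt × Pt) (hyz : y ≠ z)
    (X : Finset (Pt × Pt)) (hX : ∀ x ∈ X, count2_R S x y ∧ count2_R S x z) : X.card ≤ 3 := by
  classical
  choose! a ha1 ha2 ha3 ha4 ha5 ha6 using fun x hx => (hX x hx).1
  choose! b hb1 hb2 hb3 hb4 hb5 hb6 using fun x hx => (hX x hx).2
  have hinj : Set.InjOn (fun x => (a x, b x)) (X : Set (Pt × Pt)) := by
    intro x hx x' hx' h
    have h1 : a x = a x' := (Prod.mk.inj h).1
    refine Prod.ext ?_ ?_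
    · rw [← ha4 x hx, ← ha4 x' hx', h1]
    · rw [← ha5 x hx, ← ha5 x' hx', h1]
  rw [← Finset.card_image_of_injOn hinj]
  refine hk y z hyz _ fun w hw => ?_
  obtain ⟨x, hx, rfl⟩ := Finset.mem_image.mp hw
  refine ⟨⟨?_, ?_, ?_⟩, ⟨?_, ?_, ?_⟩, ha6 x hx⟩
  · intro h0
    exact ha2 x hx (congrArg Prod.fst h0)
  · intro h0
    exact hb2 x hx (congrArg Prod.fst h0)
  · show top (a x) y.1 = top (b x) z.1
    rw [hd.1 _ _ (ha2 x hx).symm, hd.1 _ _ (hb2 x hx).symm, ha4 x hx, hb4 x hx]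
  · intro h0
    exact ha3 x hx (congrArg Prod.fst h0)
  · intro h0
    exact hb3 x hx (congrArg Prod.fst h0)
  · show top (a x) y.2 = top (b x) z.2
    rw [hd.1 _ _ (ha3 x hx).symm, hd.1 _ _ (hb3 x hx).symm, ha5 x hx, hb5 x hx]

open scoped Classical in
/-- number of pairs in the same cell -/
theorem count2_pairs {C J : ℝ} {K : Cells} {A : Finset Pt} (hK : K.Ok C J A) (hJ : 0 < J) :
    (((A ×ˢ A).filter fun z => K.SC z.1 z.2).card : ℝ) ≤ (A.card : ℝ) ^ 2 / J := by
  have h1 : (((A ×ˢ A).filter fun z => K.SC z.1 z.2).card : ℝ) =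
      ∑ x ∈ A, ((A.filter fun a => K.SC x a).card : ℝ) := by
    rw [Finset.card_filter, Finset.sum_product]
    push_cast
    refine Finset.sum_congr rfl fun x _ => ?_
    rw [Finset.card_filter]
    push_cast
    rfl
  rw [h1]
  calc ∑ x ∈ A, ((A.filter fun a => K.SC x a).card : ℝ) ≤ ∑ x ∈ A, (A.card : ℝ) / J := by
        refine Finset.sum_le_sum fun x _ => ?_
        rw [le_div_iff₀ hJ, mul_comm]
        exact hK.cl_le x
    _ = _ := by
        rw [Finset.sum_const, nsmul_eq_mul]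
        ring

open scoped Classical in
theorem COUNT2_proof (hd : DPB) (hk : K3) (hs : KSTs) : COUNT2 := by
  intro C₀ J κ S L K M PP hJ hκ hK hM hS hPP
  have hJ0 : 0 < J := lt_of_lt_of_le one_pos hJ
  have hfst : ∀ z ∈ PP, z.1.1 ≠ z.2.1 := by
    intro z hz h0
    obtain ⟨h1, h2, h3, -⟩ := hPP z hz
    exact h3 (hS z.1 h1 z.2 h2 h0)
  set Y : Finset (Pt × Pt) := (S ×ˢ S).filter fun z => K.SC z.1 z.2 ∧ z.1 ≠ z.2 with hY
  set Lam : Finset (Pt × Pt) := (L ×ˢ L).filter fun z => M.SC z.1 z.2 with hLam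
  have hYc : (Y.card : ℝ) ≤ (S.card : ℝ) ^ 2 / J := by
    refine le_trans ?_ (count2_pairs hK hJ0)
    have : Y ⊆ (S ×ˢ S).filter fun z => K.SC z.1 z.2 := by
      intro z hz
      obtain ⟨h1, h2⟩ := Finset.mem_filter.mp hz
      exact Finset.mem_filter.mpr ⟨h1, h2.1⟩
    exact_mod_cast Finset.card_le_card this
  have hLc : (Lam.card : ℝ) ≤ (L.card : ℝ) ^ 2 / J := count2_pairs hM hJ0
  -- data of a collision
  have hcol : ∀ z ∈ coll K M PP, z.1 ∈ PP ∧ z.2 ∈ PP ∧ z.1.1 = z.2.1 ∧ z.1.2 ≠ z.2.2 ∧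
      K.SC z.1.2 z.2.2 ∧ M.SC (dp z.1.1 z.1.2) (dp z.2.1 z.2.2) := by
    intro z hz
    obtain ⟨h1, h2⟩ := Finset.mem_filter.mp hz
    obtain ⟨h3, h4⟩ := Finset.mem_product.mp h1
    exact ⟨h3, h4, h2⟩
  have hcolY : ∀ z ∈ coll K M PP, (z.1.2, z.2.2) ∈ Y := by
    intro z hz
    obtain ⟨h1, h2, h3, h4, h5, h6⟩ := hcol z hz
    exact Finset.mem_filter.mpr ⟨Finset.mem_product.mpr ⟨(hPP _ h1).2.1, (hPP _ h2).2.1⟩, h5, h4⟩
  set c1 := (coll K M PP).filter fun z => cr (z.1.2 - z.1.1) (z.2.2 - z.1.1) = 0 with hc1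
  set c2 := (coll K M PP).filter fun z => ¬ cr (z.1.2 - z.1.1) (z.2.2 - z.1.1) = 0 with hc2
  have hsplit : (coll K M PP).card = c1.card + c2.card :=
    (Finset.card_filter_add_card_filter_not _).symm
  -- collinear collisions
  have hcol1 : (c1.card : ℝ) ≤ κ * ((S.card : ℝ) ^ 2 / J) := by
    have h1 : c1.card ≤ ⌊κ⌋₊ * Y.card := by
      refine Finset.card_le_mul_card_image_of_maps_to (f := fun z => (z.1.2, z.2.2)) ?_ _ ?_
      · intro z hz
        exact hcolY z (Finset.mem_filter.mp hz).1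
      · rintro ⟨q, q'⟩ hy
        refine Nat.le_floor ?_
        set F := c1.filter fun z => (z.1.2, z.2.2) = (q, q') with hF
        rcases F.eq_empty_or_nonempty with h0 | ⟨z0, hz0⟩
        · rw [h0]
          simpa using hκ
        · have key : ∀ z ∈ F, z.1.1 ∈ S ∧ z.1.1 ∈ base q q' ∧ base z.1.1 q = base q q' ∧
              z = ((z.1.1, q), (z.1.1, q')) ∧ (rich S (base z.1.1 q) : ℝ) ≤ κ := by
            intro z hz
            obtain ⟨g1, g2⟩ := Finset.mem_filter.mp hz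
            obtain ⟨g3, g4⟩ := Finset.mem_filter.mp g1
            obtain ⟨h1, h2, h3, h4, h5, h6⟩ := hcol z g3
            have e1 : z.1.2 = q := (Prod.mk.inj g2).1
            have e2 : z.2.2 = q' := (Prod.mk.inj g2).2
            obtain ⟨k1, k2, k3, k4, k5⟩ := hPP _ h1
            rw [e1] at h4 g4 k3 k5
            rw [e2] at h4 g4
            refine ⟨k1, count2_mem k3 h4 g4, count2_base k3 h4 g4, ?_, k5⟩
            exact Prod.ext (Prod.ext rfl e1) (Prod.ext h3.symm e2)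
          have h2 : F.card ≤ rich S (base q q') := by
            refine Finset.card_le_card_of_injOn (fun z => z.1.1) ?_ ?_
            · intro z hz
              exact Finset.mem_filter.mpr ⟨(key z hz).1, (key z hz).2.1⟩
            · intro z hz z' hz' h
              have h' : z.1.1 = z'.1.1 := h
              rw [(key z hz).2.2.2.1, (key z' hz').2.2.2.1, h']
          have h3 := key z0 hz0
          rw [h3.2.2.1] at h3
          exact (by exact_mod_cast h2 : (F.card : ℝ) ≤ (rich S (base q q') : ℝ)).trans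
            h3.2.2.2.2
    calc (c1.card : ℝ) ≤ ((⌊κ⌋₊ * Y.card : ℕ) : ℝ) := by exact_mod_cast h1
      _ = (⌊κ⌋₊ : ℝ) * Y.card := by push_cast; ring
      _ ≤ κ * ((S.card : ℝ) ^ 2 / J) :=
        mul_le_mul (Nat.floor_le hκ) hYc (Nat.cast_nonneg _) hκ
  -- the other collisions
  have hcol2 : (c2.card : ℝ) ≤ (L.card : ℝ) ^ 2 / J +
      2 * (L.card / Real.sqrt J) * ((S.card : ℝ) ^ 2 / J) := by
    have h1 : c2.card ≤ ((Lam ×ˢ Y).filter fun z => count2_R S z.1 z.2).card := by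
      refine Finset.card_le_card_of_injOn
        (fun z => ((dp z.1.1 z.1.2, dp z.2.1 z.2.2), (z.1.2, z.2.2))) ?_ ?_
      · intro z hz
        obtain ⟨g3, g4⟩ := Finset.mem_filter.mp (Finset.mem_coe.mp hz)
        obtain ⟨h1, h2, h3, h4, h5, h6⟩ := hcol z g3
        refine Finset.mem_filter.mpr ⟨Finset.mem_product.mpr ⟨Finset.mem_filter.mpr
          ⟨Finset.mem_product.mpr ⟨(hPP _ h1).2.2.2.1, (hPP _ h2).2.2.2.1⟩, h6⟩, hcolY z g3⟩, ?_⟩
        refine ⟨z.1.1, (hPP _ h1).1, hfst _ h1, ?_, rfl, ?_, g4⟩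
        · show z.1.1.1 ≠ z.2.2.1
          rw [h3]
          exact hfst _ h2
        · show dp z.1.1 z.2.2 = dp z.2.1 z.2.2
          rw [h3]
      · intro z hz z' hz' h
        obtain ⟨g3, -⟩ := Finset.mem_filter.mp (Finset.mem_coe.mp hz)
        obtain ⟨h1, h2, h3, -⟩ := hcol z g3
        obtain ⟨g3', -⟩ := Finset.mem_filter.mp (Finset.mem_coe.mp hz')
        obtain ⟨h1', h2', h3', -⟩ := hcol z' g3'
        obtain ⟨a1, a2⟩ := Prod.mk.inj h
        obtain ⟨a3, -⟩ := Prod.mk.inj a1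
        obtain ⟨a5, a6⟩ := Prod.mk.inj a2
        have a7 : z.1.1 = z'.1.1 := by
          refine count2_det (q := z.1.2) (hd.2.1 (dp z.1.1 z.1.2))
            (hd.1 _ _ (hfst _ h1).symm) ?_
          rw [a3, a5]
          exact hd.1 _ _ (hfst _ h1').symm
        refine Prod.ext (Prod.ext a7 a5) (Prod.ext ?_ a6)
        rw [← h3, ← h3', a7]
    have h2 := hs (Pt × Pt) (Pt × Pt) (count2_R S) Lam Y (by
      intro y₁ _ y₂ _ hne
      refine count2_three hd hk S y₁ y₂ hne _ fun x hx => (Finset.mem_filter.mp hx).2)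
    have h3 : Real.sqrt Lam.card ≤ L.card / Real.sqrt J := by
      rw [Real.sqrt_le_left (by positivity), div_pow, Real.sq_sqrt hJ0.le]
      exact hLc
    calc (c2.card : ℝ) ≤ (((Lam ×ˢ Y).filter fun z => count2_R S z.1 z.2).card : ℝ) := by
          exact_mod_cast h1
      _ ≤ _ := h2
      _ ≤ _ := by
        refine add_le_add hLc (mul_le_mul ?_ hYc (Nat.cast_nonneg _) (by positivity))
        exact mul_le_mul_of_nonneg_left h3 (by norm_num)
  rw [hsplit]
  push_cast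
  linarith

end Pool.Agent.Work.MP_916cc8_co

end

section

/-!
Assembly of the crossing lemma.
-/

set_option autoImplicit false

namespace Pool.Agent.Work.MP_916cc8_co

open MvPolynomial

theorem cross_sum_sq {n : ℕ} (d : Fin n → ℕ) :
    (∑ i, (d i : ℝ) ^ 2) ≤ ((∑ i, d i : ℕ) : ℝ) ^ 2 := by
  have h1 : ∀ i, (d i : ℝ) ^ 2 ≤ (d i : ℝ) * ((∑ i, d i : ℕ) : ℝ) := by
    intro i
    rw [pow_two]
    refine mul_le_mul_of_nonneg_left ?_ (Nat.cast_nonneg _)
    exact_mod_cast Finset.single_le_sum (f := d) (fun _ _ => Nat.zero_le _) (Finset.mem_univ i)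
  refine le_trans (Finset.sum_le_sum fun i _ => h1 i) ?_
  rw [← Finset.sum_mul, pow_two]
  push_cast
  exact le_rfl

/-- the sum over the curves of the bounds `X12` -/
theorem cross_sum {n : ℕ} (d h : Fin n → ℕ) (N : Fin n → ℕ) (D : ℕ) (C₀ r J : ℝ)
    (hC : 1 ≤ C₀) (hr : 1 ≤ r) (hJ : r ^ 2 = J)
    (hN : ∀ i, N i ≤ 2 * d i * (d i + 2 * (h i + D + 1) + 2))
    (hG : ((∑ i, d i : ℕ) : ℝ) ≤ C₀ * r) (hD : (D : ℝ) ≤ C₀ * r)
    (hW : ((∑ i, d i * h i : ℕ) : ℝ) ≤ C₀ * J) :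
    ((∑ i, N i : ℕ) : ℝ) ≤ 18 * C₀ ^ 2 * J := by
  have h1 : ((∑ i, N i : ℕ) : ℝ) ≤ 2 * (∑ i, (d i : ℝ) ^ 2) +
      4 * ((∑ i, d i * h i : ℕ) : ℝ) + (4 * D + 8) * ((∑ i, d i : ℕ) : ℝ) := by
    push_cast
    rw [Finset.mul_sum, Finset.mul_sum, Finset.mul_sum, ← Finset.sum_add_distrib,
      ← Finset.sum_add_distrib]
    refine Finset.sum_le_sum fun i _ => ?_
    have h2 : (N i : ℝ) ≤ ((2 * d i * (d i + 2 * (h i + D + 1) + 2) : ℕ) : ℝ) := by
      exact_mod_cast hN i
    push_cast at h2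
    nlinarith
  have h2 := cross_sum_sq d
  have hG0 : (0 : ℝ) ≤ ((∑ i, d i : ℕ) : ℝ) := Nat.cast_nonneg _
  have h3 : ((∑ i, d i : ℕ) : ℝ) ^ 2 ≤ (C₀ * r) ^ 2 := pow_le_pow_left₀ hG0 hG 2
  have h4 : (4 * (D : ℝ) + 8) * ((∑ i, d i : ℕ) : ℝ) ≤ (4 * (C₀ * r) + 8) * (C₀ * r) := by
    refine mul_le_mul (by linarith) hG hG0 (by positivity)
  have h5 : r ≤ J := by rw [← hJ]; nlinarith
  have hJ1 : 1 ≤ J := le_trans hr h5
  have h6 : C₀ * J ≤ C₀ ^ 2 * J := by nlinarith [mul_nonneg (by linarith : (0:ℝ) ≤ C₀ - 1) (by positivity : (0:ℝ) ≤ C₀ * J)]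
  have h7 : C₀ * r ≤ C₀ ^ 2 * J := by
    refine le_trans (mul_le_mul_of_nonneg_left h5 (by linarith)) h6
  have h8 : (C₀ * r) ^ 2 = C₀ ^ 2 * J := by rw [← hJ]; ring
  nlinarith

theorem CROSS_proof (h22 : X22) (h12 : X12) (h21 : X21) (h11 : X11) : CROSS := by
  classical
  intro C₀ hC
  refine ⟨200 * C₀ ^ 2, by nlinarith, ?_⟩
  intro J S L K M hJ hK hM p Z hZ hsep
  set r := Real.sqrt J with hr
  have hr2 : r ^ 2 = J := Real.sq_sqrt (by linarith)
  have hr1 : 1 ≤ r := by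
    rw [hr]; exact Real.one_le_sqrt.2 hJ
  set Z22 := Z.filter (fun z => K.R2 z ∧ M.R2 (dp p z)) with hZ22
  set Z12 : Fin K.s → Finset Pt := fun i => Z.filter (fun z => K.R1 i z ∧ M.R2 (dp p z)) with hZ12
  set Z21 : Fin M.s → Finset Pt := fun j => Z.filter (fun z => K.R2 z ∧ M.R1 j (dp p z)) with hZ21
  set Z11 := Z.filter (fun z => (∃ i, K.R1 i z) ∧ ∃ j, M.R1 j (dp p z)) with hZ11
  have hcov : Z ⊆ Z22 ∪ (Finset.univ.biUnion Z12 ∪ (Finset.univ.biUnion Z21 ∪ Z11)) := by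
    intro z hz
    obtain ⟨-, h1, h2⟩ := hZ z hz
    simp only [Finset.mem_union, Finset.mem_biUnion, Finset.mem_univ, true_and, hZ22, hZ12, hZ21,
      hZ11, Finset.mem_filter]
    rcases h1 with h1 | ⟨i, h1⟩
    · rcases h2 with h2 | ⟨j, h2⟩
      · exact Or.inl ⟨hz, h1, h2⟩
      · exact Or.inr (Or.inr (Or.inl ⟨j, hz, h1, h2⟩))
    · rcases h2 with h2 | ⟨j, h2⟩
      · exact Or.inr (Or.inl ⟨i, hz, h1, h2⟩)
      · exact Or.inr (Or.inr (Or.inr ⟨hz, ⟨i, h1⟩, ⟨j, h2⟩⟩))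
  have hcard : Z.card ≤ Z22.card + (∑ i, (Z12 i).card + (∑ j, (Z21 j).card + Z11.card)) := by
    refine le_trans (Finset.card_le_card hcov) ?_
    refine le_trans (Finset.card_union_le _ _) (Nat.add_le_add_left ?_ _)
    refine le_trans (Finset.card_union_le _ _) (Nat.add_le_add Finset.card_biUnion_le ?_)
    exact le_trans (Finset.card_union_le _ _) (Nat.add_le_add Finset.card_biUnion_le le_rfl)
  -- the four bounds
  have b22 := h22 K M p Z22 hM.f_ne (by
      intro z hz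
      rw [hZ22, Finset.mem_filter] at hz
      exact ⟨(hZ z hz.1).1, hz.2.1, hz.2.2⟩) (by
      intro z hz w hw h1 h2
      rw [hZ22, Finset.mem_filter] at hz hw
      exact hsep z hz.1 w hw.1 (Or.inl ⟨hz.2.1, hw.2.1, h1⟩) (Or.inl ⟨hz.2.2, hw.2.2, h2⟩))
  have b12 : ∀ i, (Z12 i).card ≤ 2 * (K.g i).totalDegree * ((K.g i).totalDegree +
      2 * (∑ j, (K.h i j).totalDegree + ∑ j, (M.f j).totalDegree + 1) + 2) := by
    intro i
    refine h12 K M p i (Z12 i) (hK.irr i).ne_zero ?_ ?_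
    · intro z hz
      rw [hZ12, Finset.mem_filter] at hz
      exact ⟨(hZ z hz.1).1, hz.2.1, hz.2.2⟩
    · intro z hz w hw h1 h2
      rw [hZ12, Finset.mem_filter] at hz hw
      exact hsep z hz.1 w hw.1 (Or.inr ⟨i, hz.2.1, hw.2.1, h1⟩) (Or.inl ⟨hz.2.2, hw.2.2, h2⟩)
  have b21 : ∀ i, (Z21 i).card ≤ 2 * (M.g i).totalDegree * ((M.g i).totalDegree +
      2 * (∑ j, (K.f j).totalDegree + ∑ j, (M.h i j).totalDegree + 1) + 2) := by
    intro i
    refine h21 K M p i (Z21 i) (hM.irr i).ne_zero ?_ ?_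
    · intro z hz
      rw [hZ21, Finset.mem_filter] at hz
      exact ⟨(hZ z hz.1).1, hz.2.1, hz.2.2⟩
    · intro z hz w hw h1 h2
      rw [hZ21, Finset.mem_filter] at hz hw
      exact hsep z hz.1 w hw.1 (Or.inl ⟨hz.2.1, hw.2.1, h1⟩) (Or.inr ⟨i, hz.2.2, hw.2.2, h2⟩)
  have b11 := h11 K M p Z11 hK.irr hK.dist (fun j => (hM.irr j).ne_zero) (by
      intro z hz
      rw [hZ11, Finset.mem_filter] at hz
      exact ⟨(hZ z hz.1).1, hz.2.1, hz.2.2⟩) (by
      intro z hz w hw h1 h2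
      rw [hZ11, Finset.mem_filter] at hz hw
      exact hsep z hz.1 w hw.1 h1 h2)
  -- numerical part
  have hDK := hK.D_le
  have hGK := hK.G_le
  have hWK := hK.W_le
  have hDM := hM.D_le
  have hGM := hM.G_le
  have hWM := hM.W_le
  rw [← hr] at hDK hGK hDM hGM
  have s12 := cross_sum (fun i => (K.g i).totalDegree) (fun i => ∑ j, (K.h i j).totalDegree)
    (fun i => (Z12 i).card) (∑ j, (M.f j).totalDegree) C₀ r J hC hr1 hr2 b12 hGK hDM hWK
  have s21 := cross_sum (fun i => (M.g i).totalDegree) (fun i => ∑ j, (M.h i j).totalDegree)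
    (fun i => (Z21 i).card) (∑ j, (K.f j).totalDegree) C₀ r J hC hr1 hr2 (by
      intro i
      have := b21 i
      rw [add_comm (∑ j, (K.f j).totalDegree)] at this
      exact this) hGM hDK hWM

  generalize hdk : ∑ j, (K.f j).totalDegree = dk at *
  generalize hdm : ∑ j, (M.f j).totalDegree = dm at *
  generalize hgk : ∑ i, (K.g i).totalDegree = gk at *
  generalize hgm : ∑ i, (M.g i).totalDegree = gm at *
  generalize hwk : ∑ i, (K.g i).totalDegree * ∑ j, (K.h i j).totalDegree = wk at *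
  generalize hwm : ∑ i, (M.g i).totalDegree * ∑ j, (M.h i j).totalDegree = wm at *
  generalize hs12 : ∑ i, (Z12 i).card = n12 at *
  generalize hs21 : ∑ i, (Z21 i).card = n21 at *
  have c0 : (Z.card : ℝ) ≤ Z22.card + (n12 + (n21 + Z11.card)) := by exact_mod_cast hcard
  have c22 : (Z22.card : ℝ) ≤ (2 * ((dk : ℝ) + dm + 1) + 2) ^ 2 := by exact_mod_cast b22
  have c11 : (Z11.card : ℝ) ≤ (gk : ℝ) * gm + 2 * (gk : ℝ) ^ 2 + 4 * wk + 4 * wm + 8 * gk := by
    exact_mod_cast b11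
  have h5 : r ≤ J := by rw [← hr2]; nlinarith
  have h6 : C₀ * J ≤ C₀ ^ 2 * J := by
    nlinarith [mul_nonneg (by linarith : (0:ℝ) ≤ C₀ - 1) (by positivity : (0:ℝ) ≤ C₀ * J)]
  have h7 : C₀ * r ≤ C₀ ^ 2 * J := by
    refine le_trans (mul_le_mul_of_nonneg_left h5 (by linarith)) h6
  have h8 : (C₀ * r) ^ 2 = C₀ ^ 2 * J := by rw [← hr2]; ring
  have h9 : 1 ≤ C₀ * r := by nlinarith
  have e22 : (2 * ((dk : ℝ) + dm + 1) + 2) ^ 2 ≤ 64 * (C₀ ^ 2 * J) := by
    rw [← h8]
    have h10 : 2 * ((dk : ℝ) + dm + 1) + 2 ≤ 8 * (C₀ * r) := by linarith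
    have h11' : 0 ≤ 2 * ((dk : ℝ) + dm + 1) + 2 := by positivity
    have := pow_le_pow_left₀ h11' h10 2
    linarith
  have hgk0 : (0 : ℝ) ≤ gk := Nat.cast_nonneg _
  have hgm0 : (0 : ℝ) ≤ gm := Nat.cast_nonneg _
  have e11a : (gk : ℝ) * gm ≤ C₀ ^ 2 * J := by
    rw [← h8, pow_two]
    exact mul_le_mul hGK hGM hgm0 (by linarith)
  have e11b : (gk : ℝ) ^ 2 ≤ C₀ ^ 2 * J := by
    rw [← h8]
    exact pow_le_pow_left₀ hgk0 hGK 2
  have hpos : 0 ≤ C₀ ^ 2 * J := by positivity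
  nlinarith

end Pool.Agent.Work.MP_916cc8_co

end

section

set_option autoImplicit false

/-! Dual points and pull back of polynomials of the dual plane. -/

namespace Pool.Agent.Work.MP_916cc8_co

open MvPolynomial

theorem dpb_mem {p q x : Pt} (h : q.1 ≠ p.1) : x ∈ top p q ↔ x ∈ ln (dp p q) := by
  have h' : q.1 - p.1 ≠ 0 := sub_ne_zero.2 h
  rw [mem_top]
  simp only [ln, dp, cr, Prod.fst_sub, Prod.snd_sub, Set.mem_ofPred_eq]
  have e : ((q.2 - p.2) / (q.1 - p.1) * x.1 + (p.2 - (q.2 - p.2) / (q.1 - p.1) * p.1 +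
      2 / (q.1 - p.1))) * (q.1 - p.1) =
      (q.2 - p.2) * (x.1 - p.1) + p.2 * (q.1 - p.1) + 2 := by
    field_simp
    ring
  constructor
  · intro hx
    refine mul_right_cancel₀ h' ?_
    rw [e]
    linarith
  · intro hx
    rw [← hx] at e
    linarith

theorem DPB_proof : DPB := by
  refine ⟨fun p q h => Set.ext fun x => dpb_mem h, fun u => ?_, fun u v h => ?_,
    fun p q q' h h' he => ?_⟩
  · refine ⟨u.1, -1, -u.2, Or.inr (by norm_num), ?_⟩
    ext x
    simp only [ln, Set.mem_ofPred_eq]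
    constructor <;> intro h <;> linarith
  · have h1 : ((0, u.2) : Pt) ∈ ln u := by
      simp only [ln, Set.mem_ofPred_eq]; ring
    have h2 : ((1, u.1 + u.2) : Pt) ∈ ln u := by
      simp only [ln, Set.mem_ofPred_eq]; ring
    rw [h] at h1 h2
    simp only [ln, Set.mem_ofPred_eq] at h1 h2
    ext <;> linarith
  · have hd : q.1 - p.1 ≠ 0 := sub_ne_zero.2 h
    have hd' : q'.1 - p.1 ≠ 0 := sub_ne_zero.2 h'
    simp only [dp, Prod.mk.injEq] at he
    obtain ⟨h1, h2⟩ := he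
    rw [h1] at h2
    have h3 : 2 / (q.1 - p.1) = 2 / (q'.1 - p.1) := by linarith
    rw [div_eq_div_iff hd hd'] at h3
    have h4 : q.1 = q'.1 := by linarith
    rw [h4] at h1
    rw [div_left_inj' hd'] at h1
    ext
    · exact h4
    · linarith

theorem dpb_v2 (x : Fin 2 → ℝ) : x = v2 (x 0, x 1) := by
  funext i
  fin_cases i <;> rfl

theorem PB_proof (hc : Clr) : PB := by
  intro p G
  set den : MvPolynomial (Fin 2) ℝ := X 0 - C p.1 with hden
  set N0 : MvPolynomial (Fin 2) ℝ := X 1 - C p.2 with hN0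
  set N1 : MvPolynomial (Fin 2) ℝ := C p.2 * den - C p.1 * N0 + C 2 with hN1
  have d1 : den.totalDegree ≤ 1 := by
    refine (totalDegree_sub _ _).trans ?_
    rw [totalDegree_X, totalDegree_C]
    simp
  have d2 : N0.totalDegree ≤ 1 := by
    refine (totalDegree_sub _ _).trans ?_
    rw [totalDegree_X, totalDegree_C]
    simp
  have d3 : N1.totalDegree ≤ 1 := by
    refine (totalDegree_add _ _).trans (max_le ?_ (by rw [totalDegree_C]; omega))
    refine (totalDegree_sub _ _).trans (max_le ?_ ?_)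
    · refine (totalDegree_mul _ _).trans ?_
      rw [totalDegree_C]
      omega
    · refine (totalDegree_mul _ _).trans ?_
      rw [totalDegree_C]
      omega
  obtain ⟨Q, hQ1, hQ2⟩ := hc 2 2 G ![N0, N1] den 1 G.totalDegree (by
    intro i
    fin_cases i
    · exact d2
    · exact d3) d1 le_rfl
  have key : ∀ q : Pt, q.1 ≠ p.1 →
      eval (v2 q) Q = (q.1 - p.1) ^ G.totalDegree * eval (v2 (dp p q)) G := by
    intro q hq
    have h' : q.1 - p.1 ≠ 0 := sub_ne_zero.2 hq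
    have e0 : eval (v2 q) den = q.1 - p.1 := by
      rw [hden]
      simp [v2]
    have e1 : eval (v2 q) N0 = q.2 - p.2 := by
      rw [hN0]
      simp [v2]
    have e2 : eval (v2 q) N1 = p.2 * (q.1 - p.1) - p.1 * (q.2 - p.2) + 2 := by
      rw [hN1, map_add, map_sub, map_mul, map_mul, e0, e1, eval_C, eval_C, eval_C]
    rw [hQ2 (v2 q) (by rw [e0]; exact h'), e0]
    congr 2
    have e3 : (fun i => eval (v2 q) ((![N0, N1] : Fin 2 → MvPolynomial (Fin 2) ℝ) i) /
        (q.1 - p.1)) = v2 (dp p q) := by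
      funext i
      fin_cases i
      · show eval (v2 q) N0 / (q.1 - p.1) = (dp p q).1
        rw [e1]
        rfl
      · show eval (v2 q) N1 / (q.1 - p.1) = (dp p q).2
        rw [e2]
        simp only [dp]
        field_simp
    rw [e3]
  refine ⟨Q, by simpa using hQ1, fun hG hQ => hG ?_, key⟩
  set L : MvPolynomial (Fin 2) ℝ := X 1 - C p.2 + C p.1 * X 0 with hL
  have hL0 : L ≠ 0 := by
    intro h
    have h1 := congrArg (eval (v2 (0, p.2 + 1))) h
    rw [hL] at h1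
    simp [v2] at h1
  have hGL : G * L = 0 := by
    refine MvPolynomial.funext fun x => ?_
    rw [map_mul, map_zero]
    have eL : eval x L = x 1 - p.2 + p.1 * x 0 := by
      rw [hL]
      simp
    by_cases hb : x 1 - p.2 + p.1 * x 0 = 0
    · rw [eL, hb, mul_zero]
    · set be := x 1 - p.2 + p.1 * x 0 with hbe
      set q : Pt := (p.1 + 2 / be, p.2 + 2 * x 0 / be) with hq
      have hq1 : q.1 - p.1 = 2 / be := by rw [hq]; ring
      have hq2 : q.2 - p.2 = 2 * x 0 / be := by rw [hq]; ring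
      have h2 : (2 : ℝ) / be ≠ 0 := div_ne_zero two_ne_zero hb
      have hne : q.1 ≠ p.1 := by
        intro h
        rw [h, sub_self] at hq1
        exact h2 hq1.symm
      have hdp : dp p q = (x 0, x 1) := by
        have hm : (q.2 - p.2) / (q.1 - p.1) = x 0 := by
          rw [hq1, hq2]
          field_simp
        have hd2 : 2 / (q.1 - p.1) = be := by
          rw [hq1]
          field_simp
        rw [dp, hm, hd2]
        ext
        · rfl
        · show p.2 - x 0 * p.1 + be = x 1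
          rw [hbe]
          ring
      have h3 := key q hne
      rw [hQ, map_zero, hdp, ← dpb_v2, hq1] at h3
      have h4 : eval x G = 0 := by
        rcases mul_eq_zero.1 h3.symm with h | h
        · exact absurd h (pow_ne_zero _ h2)
        · exact h
      rw [h4, zero_mul]
  exact (mul_eq_zero.1 hGL).resolve_right hL0

end Pool.Agent.Work.MP_916cc8_co

end
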