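import Pool.Agent.Work.MP_916cc8_co.Bd.B01
import Pool.Agent.Work.MP_916cc8_co.Bd.B02

/-! Bundle of small proof modules (one section per former module). -/

section

/-! Item DY: one dyadic range of top lines. -/

set_option autoImplicit false

namespace Pool.Agent.Work.MP_916cc8_co

open MvPolynomial

theorem dy_a {n k : ℝ} (hn : 0 < n) (hk : 0 < k) :
    k * (n ^ ((1 : ℝ) / 2) * (n ^ 2 / k ^ 3)) = n ^ ((5 : ℝ) / 2) * k ^ (-(2 : ℝ)) := by
  have h1 : n ^ ((5 : ℝ) / 2) = n ^ ((1 : ℝ) / 2) * n ^ 2 := by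
    rw [← Real.rpow_natCast n 2, ← Real.rpow_add hn]
    congr 1
    norm_num
  have h2 : k ^ (-(2 : ℝ)) = (k ^ 2)⁻¹ := by
    rw [Real.rpow_neg hk.le, Real.rpow_two]
  rw [h1, h2]
  field_simp

theorem dy_b {D n k : ℝ} (hD : 0 < D) (hn : 0 < n) (hk : 0 < k) :
    k * (n ^ ((7 : ℝ) / 5) * (D * (n ^ 2 / k ^ 3)) ^ ((2 : ℝ) / 5)) =
      D ^ ((2 : ℝ) / 5) * (n ^ ((11 : ℝ) / 5) * k ^ (-(1 / 5 : ℝ))) := by
  have h1 : (D * (n ^ 2 / k ^ 3)) ^ ((2 : ℝ) / 5) =
      D ^ ((2 : ℝ) / 5) * (n ^ ((4 : ℝ) / 5) * k ^ (-(6 / 5 : ℝ))) := by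
    rw [Real.mul_rpow hD.le (by positivity), Real.div_rpow (by positivity) (by positivity),
      ← Real.rpow_natCast n 2, ← Real.rpow_natCast k 3, ← Real.rpow_mul hn.le,
      ← Real.rpow_mul hk.le, Real.rpow_neg hk.le]
    push_cast
    rw [show (2 : ℝ) * (2 / 5) = 4 / 5 by norm_num, show (3 : ℝ) * (2 / 5) = 6 / 5 by norm_num]
    rfl
  have h2 : n ^ ((11 : ℝ) / 5) = n ^ ((7 : ℝ) / 5) * n ^ ((4 : ℝ) / 5) := by
    rw [← Real.rpow_add hn]
    congr 1
    norm_num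
  have h3 : k ^ (-(1 / 5 : ℝ)) = k * k ^ (-(6 / 5 : ℝ)) := by
    have : k * k ^ (-(6 / 5 : ℝ)) = k ^ (1 : ℝ) * k ^ (-(6 / 5 : ℝ)) := by rw [Real.rpow_one]
    rw [this, ← Real.rpow_add hk]
    congr 1
    norm_num
  rw [h1, h2, h3]
  ring

theorem dy_c {n k k₀ C P : ℝ} (hn : 0 < n) (hk : 0 < k) (hk₀ : 0 < k₀) (hC : 0 < C)
    (h : P ^ 2 ≤ C * (2 * k / k₀) ^ ((3 : ℝ) / 2) * n ^ 3) :
    k * P ≤ 2 * Real.sqrt C *
      (n ^ ((3 : ℝ) / 2) * k ^ ((7 : ℝ) / 4) * k₀ ^ (-(3 / 4 : ℝ))) := by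
  have h1 : P ≤ Real.sqrt (C * (2 * k / k₀) ^ ((3 : ℝ) / 2) * n ^ 3) := Real.le_sqrt_of_sq_le h
  have h2 : Real.sqrt (C * (2 * k / k₀) ^ ((3 : ℝ) / 2) * n ^ 3) =
      Real.sqrt C * ((2 * k / k₀) ^ ((3 : ℝ) / 4) * n ^ ((3 : ℝ) / 2)) := by
    rw [mul_assoc, Real.sqrt_mul hC.le, Real.sqrt_mul (by positivity)]
    congr 2
    · rw [Real.sqrt_eq_rpow, ← Real.rpow_mul (by positivity)]
      congr 1
      norm_num
    · rw [Real.sqrt_eq_rpow, ← Real.rpow_natCast n 3, ← Real.rpow_mul hn.le]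
      congr 1
      norm_num
  have h3 : (2 * k / k₀) ^ ((3 : ℝ) / 4) ≤ 2 * (k ^ ((3 : ℝ) / 4) * k₀ ^ (-(3 / 4 : ℝ))) := by
    rw [Real.div_rpow (by positivity) hk₀.le, Real.mul_rpow (by norm_num) hk.le,
      Real.rpow_neg hk₀.le]
    have h4 : (2 : ℝ) ^ ((3 : ℝ) / 4) ≤ 2 := by
      calc (2 : ℝ) ^ ((3 : ℝ) / 4) ≤ (2 : ℝ) ^ (1 : ℝ) :=
            Real.rpow_le_rpow_of_exponent_le (by norm_num) (by norm_num)
        _ = 2 := Real.rpow_one 2
    have h5 : 0 ≤ k ^ ((3 : ℝ) / 4) / k₀ ^ ((3 : ℝ) / 4) := by positivity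
    calc (2 : ℝ) ^ ((3 : ℝ) / 4) * k ^ ((3 : ℝ) / 4) / k₀ ^ ((3 : ℝ) / 4)
        = (2 : ℝ) ^ ((3 : ℝ) / 4) * (k ^ ((3 : ℝ) / 4) / k₀ ^ ((3 : ℝ) / 4)) := by ring
      _ ≤ 2 * (k ^ ((3 : ℝ) / 4) / k₀ ^ ((3 : ℝ) / 4)) := mul_le_mul_of_nonneg_right h4 h5
      _ = 2 * (k ^ ((3 : ℝ) / 4) * (k₀ ^ ((3 : ℝ) / 4))⁻¹) := by ring
  have h4 : k ^ ((7 : ℝ) / 4) = k * k ^ ((3 : ℝ) / 4) := by
    have : k * k ^ ((3 : ℝ) / 4) = k ^ (1 : ℝ) * k ^ ((3 : ℝ) / 4) := by rw [Real.rpow_one]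
    rw [this, ← Real.rpow_add hk]
    congr 1
    norm_num
  calc k * P ≤ k * (Real.sqrt C * ((2 * k / k₀) ^ ((3 : ℝ) / 4) * n ^ ((3 : ℝ) / 2))) := by
        rw [← h2]
        exact mul_le_mul_of_nonneg_left h1 hk.le
    _ ≤ k * (Real.sqrt C * ((2 * (k ^ ((3 : ℝ) / 4) * k₀ ^ (-(3 / 4 : ℝ)))) *
          n ^ ((3 : ℝ) / 2))) := by
        gcongr
    _ = _ := by
        rw [h4]
        ring

theorem dy_l {n k Cs l : ℝ} (hn : 0 < n) (hk : 0 < k) (hCs : 0 < Cs) (hk4 : k ^ 2 ≤ 4 * n)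
    (h : l ≤ Cs * (n ^ 2 / k ^ 3 + n / k)) : l ≤ (5 * Cs) * (n ^ 2 / k ^ 3) := by
  refine h.trans ?_
  have h2 : n / k ≤ 4 * (n ^ 2 / k ^ 3) := by
    have h3 : n / k = n * k ^ 2 / k ^ 3 := by field_simp
    rw [h3, ← mul_div_assoc]
    apply div_le_div_of_nonneg_right _ (by positivity)
    nlinarith
  calc Cs * (n ^ 2 / k ^ 3 + n / k) ≤ Cs * (n ^ 2 / k ^ 3 + 4 * (n ^ 2 / k ^ 3)) := by
        gcongr
    _ = (5 * Cs) * (n ^ 2 / k ^ 3) := by ring

theorem dy_real {C0 Cs n k k₀ P l : ℝ} (hC0 : 0 < C0) (hCs : 0 < Cs) (hn : 0 < n) (hk : 0 < k)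
    (hk₀ : 0 < k₀) (hl0 : 0 ≤ l) (hl : l ≤ (5 * Cs) * (n ^ 2 / k ^ 3))
    (h : C0 * (2 * k / k₀) ^ ((3 : ℝ) / 2) * n ^ 3 ≤ P ^ 2 → C0 * n ≤ P →
      P ≤ C0 * (n ^ ((1 : ℝ) / 2) * l + n ^ ((7 : ℝ) / 5) * l ^ ((2 : ℝ) / 5))) :
    2 * (k * P) ≤ (4 * Real.sqrt C0 + 2 * C0 + 2 * C0 * (5 * Cs) +
      2 * C0 * (5 * Cs) ^ ((2 : ℝ) / 5)) *
      (n ^ ((5 : ℝ) / 2) * k ^ (-(2 : ℝ)) + n ^ ((11 : ℝ) / 5) * k ^ (-(1 / 5 : ℝ)) +
      n ^ ((3 : ℝ) / 2) * k ^ ((7 : ℝ) / 4) * k₀ ^ (-(3 / 4 : ℝ)) + n * k) := by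
  have hD : 0 < 5 * Cs := by positivity
  have h31 := dy_a hn hk
  have h32 := dy_b hD hn hk
  have h33 := @dy_c n k k₀ C0 P hn hk hk₀ hC0
  have t1 : 0 ≤ n ^ ((5 : ℝ) / 2) * k ^ (-(2 : ℝ)) := by positivity
  have t2 : 0 ≤ n ^ ((11 : ℝ) / 5) * k ^ (-(1 / 5 : ℝ)) := by positivity
  have t3 : 0 ≤ n ^ ((3 : ℝ) / 2) * k ^ ((7 : ℝ) / 4) * k₀ ^ (-(3 / 4 : ℝ)) := by positivity
  have t4 : 0 ≤ n * k := by positivity
  have c1 : 0 ≤ 4 * Real.sqrt C0 := by positivity
  have c2 : 0 ≤ 2 * C0 := by positivity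
  have c3 : 0 ≤ 2 * C0 * (5 * Cs) := by positivity
  have c4 : 0 ≤ 2 * C0 * (5 * Cs) ^ ((2 : ℝ) / 5) := by positivity
  have hd1 : 0 ≤ n ^ ((1 : ℝ) / 2) := by positivity
  have hd2 : 0 ≤ n ^ ((7 : ℝ) / 5) := by positivity
  have h2 : l ^ ((2 : ℝ) / 5) ≤ ((5 * Cs) * (n ^ 2 / k ^ 3)) ^ ((2 : ℝ) / 5) :=
    Real.rpow_le_rpow hl0 hl (by norm_num)
  generalize n ^ ((5 : ℝ) / 2) * k ^ (-(2 : ℝ)) = T1 at *
  generalize n ^ ((11 : ℝ) / 5) * k ^ (-(1 / 5 : ℝ)) = T2 at *
  generalize n ^ ((3 : ℝ) / 2) * k ^ ((7 : ℝ) / 4) * k₀ ^ (-(3 / 4 : ℝ)) = T3 at *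
  generalize (5 * Cs) ^ ((2 : ℝ) / 5) = D5 at *
  generalize ((5 * Cs) * (n ^ 2 / k ^ 3)) ^ ((2 : ℝ) / 5) = E at *
  generalize n ^ 2 / k ^ 3 = W at *
  generalize n ^ ((1 : ℝ) / 2) = N1 at *
  generalize n ^ ((7 : ℝ) / 5) = N2 at *
  generalize l ^ ((2 : ℝ) / 5) = l5 at *
  generalize (2 * k / k₀) ^ ((3 : ℝ) / 2) = K at *
  generalize Real.sqrt C0 = Q at *
  rcases le_or_gt (C0 * K * n ^ 3) (P ^ 2) with hA | hA
  · rcases le_or_gt (C0 * n) P with hB | hB
    · have h1 := h hA hB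
      have h3 : 2 * (k * P) ≤ 2 * C0 * (5 * Cs) * T1 + 2 * C0 * D5 * T2 := by
        have h4 : k * P ≤ k * (C0 * (N1 * l + N2 * l5)) := mul_le_mul_of_nonneg_left h1 hk.le
        have h5 : N1 * l ≤ N1 * (5 * Cs * W) := mul_le_mul_of_nonneg_left hl hd1
        have h6 : N2 * l5 ≤ N2 * E := mul_le_mul_of_nonneg_left h2 hd2
        have h7 : k * (C0 * (N1 * l + N2 * l5)) ≤ k * (C0 * (N1 * (5 * Cs * W) + N2 * E)) := by
          apply mul_le_mul_of_nonneg_left _ hk.le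
          apply mul_le_mul_of_nonneg_left _ hC0.le
          linarith
        have h8 : k * (C0 * (N1 * (5 * Cs * W) + N2 * E)) =
            C0 * (5 * Cs) * (k * (N1 * W)) + C0 * (k * (N2 * E)) := by ring
        rw [h31, h32] at h8
        linarith
      have e1 := mul_nonneg c1 t1
      have e2 := mul_nonneg c2 t1
      have e3 := mul_nonneg c4 t1
      have e4 := mul_nonneg c1 t2
      have e5 := mul_nonneg c2 t2
      have e6 := mul_nonneg c3 t2
      have e7 := mul_nonneg (add_nonneg (add_nonneg (add_nonneg c1 c2) c3) c4) t3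
      have e8 := mul_nonneg (add_nonneg (add_nonneg (add_nonneg c1 c2) c3) c4) t4
      linarith
    · have h1 : 2 * (k * P) ≤ 2 * C0 * (n * k) := by
        have := mul_le_mul_of_nonneg_left hB.le hk.le
        linarith
      have e1 := mul_nonneg (add_nonneg (add_nonneg (add_nonneg c1 c2) c3) c4) t1
      have e2 := mul_nonneg (add_nonneg (add_nonneg (add_nonneg c1 c2) c3) c4) t2
      have e3 := mul_nonneg (add_nonneg (add_nonneg (add_nonneg c1 c2) c3) c4) t3
      have e4 := mul_nonneg (add_nonneg (add_nonneg c1 c3) c4) t4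
      linarith
  · have h1 := h33 hA.le
    have e1 := mul_nonneg (add_nonneg (add_nonneg (add_nonneg c1 c2) c3) c4) t1
    have e2 := mul_nonneg (add_nonneg (add_nonneg (add_nonneg c1 c2) c3) c4) t2
    have e3 := mul_nonneg (add_nonneg (add_nonneg c2 c3) c4) t3
    have e4 := mul_nonneg (add_nonneg (add_nonneg (add_nonneg c1 c2) c3) c4) t4
    linarith

open scoped Classical in
theorem dy_card (hd1 : ∀ p q : Pt, q.1 ≠ p.1 → top p q = ln (dp p q))
    (hd2 : ∀ u : Pt, IsLine (ln u)) (hd3 : ∀ u v : Pt, ln u = ln v → u = v) {Cs : ℝ}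
    (hst : ∀ (S : Finset Pt) (L : Finset (Set Pt)) (k : ℝ), 2 ≤ k →
      (∀ ℓ ∈ L, IsLine ℓ ∧ k ≤ rich S ℓ) →
      (L.card : ℝ) ≤ Cs * ((S.card : ℝ) ^ 2 / k ^ 3 + S.card / k))
    (S : Finset Pt) (k : ℝ) (hk : 2 ≤ k) (hS : ∀ p ∈ S, ∀ q ∈ S, p.1 = q.1 → p = q)
    (PP : Finset (Pt × Pt)) (hm : ∀ z ∈ PP, z.1 ∈ S ∧ z.2 ∈ S ∧ z.1 ≠ z.2 ∧
      k ≤ rich S (top z.1 z.2)) :
    (((PP.image (fun z => dp z.1 z.2)).card : ℕ) : ℝ) ≤
      Cs * ((S.card : ℝ) ^ 2 / k ^ 3 + S.card / k) := by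
  have h1 := hst S ((PP.image (fun z => dp z.1 z.2)).image ln) k hk (by
    intro ℓ hℓ
    obtain ⟨u, hu, rfl⟩ := Finset.mem_image.1 hℓ
    obtain ⟨z, hz, rfl⟩ := Finset.mem_image.1 hu
    obtain ⟨h1, h2, h3, h4⟩ := hm z hz
    have h7 : z.2.1 ≠ z.1.1 := fun h => h3 (hS _ h1 _ h2 h.symm)
    refine ⟨hd2 _, ?_⟩
    rw [← hd1 _ _ h7]
    exact h4)
  rw [Finset.card_image_of_injective _ (fun u v h => hd3 u v h)] at h1
  exact h1

theorem dy_sum (S : Finset Pt) (k : ℝ) (PP : Finset (Pt × Pt))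
    (hm : ∀ z ∈ PP, (rich S (top z.1 z.2) : ℝ) < 2 * k) :
    ∑ z ∈ PP, (rich S (top z.1 z.2) : ℝ) ≤ 2 * (k * PP.card) := by
  calc ∑ z ∈ PP, (rich S (top z.1 z.2) : ℝ) ≤ ∑ z ∈ PP, 2 * k :=
        Finset.sum_le_sum (fun z hz => (hm z hz).le)
    _ = 2 * (k * PP.card) := by rw [Finset.sum_const, nsmul_eq_mul]; ring

theorem dy_main (hd : DPB) {C0 Cs : ℝ} (hC0 : 0 < C0) (hCs : 0 < Cs)
    (hcoll : ∀ (S L : Finset Pt) (PP : Finset (Pt × Pt)) (κ : ℝ),
      0 ≤ κ → (∀ p ∈ S, ∀ q ∈ S, p.1 = q.1 → p = q) →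
      (∀ z ∈ PP, z.1 ∈ S ∧ z.2 ∈ S ∧ z.1 ≠ z.2 ∧ dp z.1 z.2 ∈ L ∧
        (rich S (base z.1 z.2) : ℝ) ≤ κ) →
      C0 * κ * (S.card : ℝ) ^ 3 ≤ (PP.card : ℝ) ^ 2 → C0 * S.card ≤ PP.card →
      (PP.card : ℝ) ≤ C0 * ((S.card : ℝ) ^ ((1 : ℝ) / 2) * L.card +
        (S.card : ℝ) ^ ((7 : ℝ) / 5) * (L.card : ℝ) ^ ((2 : ℝ) / 5)))
    (hst : ∀ (S : Finset Pt) (L : Finset (Set Pt)) (k : ℝ), 2 ≤ k →
      (∀ ℓ ∈ L, IsLine ℓ ∧ k ≤ rich S ℓ) →
      (L.card : ℝ) ≤ Cs * ((S.card : ℝ) ^ 2 / k ^ 3 + S.card / k))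
    (S : Finset Pt) (k k₀ : ℝ) (hS : ∀ p ∈ S, ∀ q ∈ S, p.1 = q.1 → p = q) (hk₀ : 2 ≤ k₀)
    (hkk : k₀ ≤ k) (hk2 : k ≤ 2 * Real.sqrt S.card)
    (PP : Finset (Pt × Pt)) (hm : ∀ z ∈ PP, z.1 ∈ S ∧ z.2 ∈ S ∧ z.1 ≠ z.2 ∧
      k ≤ rich S (top z.1 z.2) ∧ (rich S (top z.1 z.2) : ℝ) < 2 * k ∧
      (rich S (base z.1 z.2) : ℝ) ≤ (2 * k / k₀) ^ ((3 : ℝ) / 2)) :
    2 * (k * PP.card) ≤ (4 * Real.sqrt C0 + 2 * C0 + 2 * C0 * (5 * Cs) +
      2 * C0 * (5 * Cs) ^ ((2 : ℝ) / 5)) * ((S.card : ℝ) ^ ((5 : ℝ) / 2) * k ^ (-(2 : ℝ)) +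
      (S.card : ℝ) ^ ((11 : ℝ) / 5) * k ^ (-(1 / 5 : ℝ)) +
      (S.card : ℝ) ^ ((3 : ℝ) / 2) * k ^ ((7 : ℝ) / 4) * k₀ ^ (-(3 / 4 : ℝ)) +
      (S.card : ℝ) * k) := by
  classical
  obtain ⟨hd1, hd2, hd3, hd4⟩ := hd
  have hk : 2 ≤ k := hk₀.trans hkk
  have hkpos : 0 < k := by linarith
  have hk₀pos : 0 < k₀ := by linarith
  have hsn : 0 < Real.sqrt (S.card : ℝ) := by
    by_contra hcon
    have := not_lt.1 hcon
    linarith
  have hnpos : (0 : ℝ) < S.card := Real.sqrt_pos.1 hsn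
  have hk4 : k ^ 2 ≤ 4 * (S.card : ℝ) := by
    have h1 : k ^ 2 ≤ (2 * Real.sqrt (S.card : ℝ)) ^ 2 := pow_le_pow_left₀ hkpos.le hk2 2
    rw [mul_pow, Real.sq_sqrt hnpos.le] at h1
    linarith
  have hκ0 : 0 ≤ (2 * k / k₀) ^ ((3 : ℝ) / 2) := by positivity
  have hLc := dy_l hnpos hkpos hCs hk4 (dy_card hd1 hd2 hd3 hst S k hk hS PP (by
    intro z hz
    obtain ⟨h1, h2, h3, h4, h5, h6⟩ := hm z hz
    exact ⟨h1, h2, h3, h4⟩))
  have hco := hcoll S (PP.image (fun z => dp z.1 z.2)) PP _ hκ0 hS (by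
        intro z hz
        obtain ⟨h1, h2, h3, h4, h5, h6⟩ := hm z hz
        exact ⟨h1, h2, h3, Finset.mem_image_of_mem _ hz, h6⟩)
  exact dy_real hC0 hCs hnpos hkpos hk₀pos (Nat.cast_nonneg _) hLc hco

theorem DY_proof (hd : DPB) (hc : COLL) (hs : ST) : DY := by
  obtain ⟨C0, hC0, hcoll⟩ := hc
  obtain ⟨Cs, hCs, hst⟩ := hs
  have hC00 : 0 < C0 := by linarith
  refine ⟨4 * Real.sqrt C0 + 2 * C0 + 2 * C0 * (5 * Cs) + 2 * C0 * (5 * Cs) ^ ((2 : ℝ) / 5),
    by positivity, ?_⟩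
  intro S k k₀ hS hk₀ hkk hk2
  refine (dy_sum S k _ ?_).trans
    (dy_main hd hC00 hCs hcoll hst S k k₀ hS hk₀ hkk hk2 _ ?_)
  · intro z hz
    exact (Finset.mem_filter.1 hz).2.2.2.1
  · intro z hz
    obtain ⟨h1, h2⟩ := Finset.mem_filter.1 hz
    obtain ⟨h3, h4⟩ := Finset.mem_product.1 h1
    exact ⟨h3, h4, h2⟩

end Pool.Agent.Work.MP_916cc8_co

end

section

/-! Item FA: the easy ranges. -/

set_option autoImplicit false

namespace Pool.Agent.Work.MP_916cc8_co

open MvPolynomial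

open scoped Classical in
/-- pairs with top line of richness between `k₁` and `2 √n` -/
theorem fa_part {C : ℝ} (S : Finset Pt) (k₁ : ℝ)
    (hS1 : ∀ L : Finset (Set Pt), (∀ ℓ ∈ L, IsLine ℓ ∧ k₁ ≤ rich S ℓ ∧
      (rich S ℓ : ℝ) ≤ 2 * Real.sqrt S.card) →
      (∑ ℓ ∈ L, (rich S ℓ : ℝ) ^ (1 : ℝ)) ≤ C * (S.card : ℝ) ^ 2 * k₁ ^ ((1 : ℝ) - 3))
    (Q : Finset (Pt × Pt))
    (hQ : ∀ z ∈ Q, z.1 ∈ S ∧ z.1 ≠ z.2)
    (hQ2 : ∀ z ∈ Q, k₁ ≤ rich S (top z.1 z.2) ∧
      (rich S (top z.1 z.2) : ℝ) ≤ 2 * Real.sqrt S.card) :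
    ∑ z ∈ Q, (rich S (top z.1 z.2) : ℝ) ≤ C * ((S.card : ℝ) ^ 3 * k₁ ^ (-(2 : ℝ))) := by
  rw [gs_fiber_sum]
  have h1 := hS1 (Q.image (fun z => top z.1 z.2)) (by
    intro ℓ hℓ
    obtain ⟨z, hz, rfl⟩ := Finset.mem_image.1 hℓ
    exact ⟨isLine_top (hQ z hz).2, hQ2 z hz⟩)
  have h2 : ((1 : ℝ) - 3) = -(2 : ℝ) := by norm_num
  rw [h2] at h1
  simp only [Real.rpow_one] at h1
  calc ∑ ℓ ∈ Q.image (fun z => top z.1 z.2),
        ((Q.filter (fun z => top z.1 z.2 = ℓ)).card : ℝ) * rich S ℓ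
      ≤ ∑ ℓ ∈ Q.image (fun z => top z.1 z.2), (S.card : ℝ) * rich S ℓ := by
        apply Finset.sum_le_sum
        intro ℓ hℓ
        apply mul_le_mul_of_nonneg_right _ (Nat.cast_nonneg _)
        exact_mod_cast gs_fiber_card hQ ℓ
    _ = (S.card : ℝ) * ∑ ℓ ∈ Q.image (fun z => top z.1 z.2), (rich S ℓ : ℝ) := by
        rw [Finset.mul_sum]
    _ ≤ (S.card : ℝ) * (C * (S.card : ℝ) ^ 2 * k₁ ^ (-(2 : ℝ))) :=
        mul_le_mul_of_nonneg_left h1 (Nat.cast_nonneg _)
    _ = C * ((S.card : ℝ) ^ 3 * k₁ ^ (-(2 : ℝ))) := by ring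

open scoped Classical in
theorem FA_proof (hs : Sums) (hv : VeryRich) (ha : GSa) (hb : GSb) : FA := by
  obtain ⟨C1, hC1, hS1⟩ := hs 1 (by norm_num) (by norm_num)
  obtain ⟨Cb, hCb, hSb⟩ := hb
  refine ⟨3 + Cb + C1, by linarith, ?_⟩
  intro S k₀ k₁ hk hk1
  have hk0 : (0 : ℝ) < k₀ := by linarith
  have hk10 : (0 : ℝ) < k₁ := by linarith
  set P := (S ×ˢ S).filter (fun z => z.1 ≠ z.2 ∧
      ¬ (k₀ ≤ rich S (top z.1 z.2) ∧ (rich S (top z.1 z.2) : ℝ) < k₁ ∧
        (rich S (base z.1 z.2) : ℝ) ≤ (rich S (top z.1 z.2) / k₀) ^ ((3 : ℝ) / 2))) with hP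
  set F : Pt × Pt → ℝ := fun z => (rich S (top z.1 z.2) : ℝ) with hF
  set B : Pt × Pt → ℝ := fun z => (rich S (base z.1 z.2) : ℝ) with hB
  have hPm : ∀ z ∈ P, (z.1 ∈ S ∧ z.2 ∈ S ∧ z.1 ≠ z.2) ∧
      ¬ (k₀ ≤ F z ∧ F z < k₁ ∧ B z ≤ (F z / k₀) ^ ((3 : ℝ) / 2)) := by
    intro z hz
    obtain ⟨h1, h2⟩ := Finset.mem_filter.1 hz
    obtain ⟨h3, h4⟩ := Finset.mem_product.1 h1
    exact ⟨⟨h3, h4, h2.1⟩, h2.2⟩
  have hF0 : ∀ z, 0 ≤ F z := fun z => Nat.cast_nonneg _
  have hB0 : ∀ z, 0 ≤ B z := fun z => Nat.cast_nonneg _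
  set r := 2 * Real.sqrt S.card with hr
  set Q1 := P.filter (fun z => F z < k₀) with hQ1
  set Q2 := P.filter (fun z => r ≤ F z) with hQ2
  set Q3 := P.filter (fun z => r ≤ B z) with hQ3
  set Q4 := P.filter (fun z => B z ≤ r ∧ F z ≤ k₀ * B z ^ ((2 : ℝ) / 3)) with hQ4
  set Q5 := P.filter (fun z => k₁ ≤ F z ∧ F z ≤ r) with hQ5
  have hsplit : ∑ z ∈ P, F z ≤ ∑ z ∈ Q1, F z + ∑ z ∈ Q2, F z + ∑ z ∈ Q3, F z + ∑ z ∈ Q4, F z +
      ∑ z ∈ Q5, F z := by
    rw [hQ1, hQ2, hQ3, hQ4, hQ5]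
    simp only [Finset.sum_filter (s := P)]
    rw [← Finset.sum_add_distrib, ← Finset.sum_add_distrib, ← Finset.sum_add_distrib,
      ← Finset.sum_add_distrib]
    apply Finset.sum_le_sum
    intro z hz
    have h0 := hF0 z
    have hi : ∀ (p : Prop) [Decidable p], 0 ≤ (if p then F z else 0) := by
      intro p _
      split_ifs
      · exact h0
      · exact le_rfl
    by_cases c1 : F z < k₀
    · rw [if_pos c1]
      have := hi (r ≤ F z)
      have := hi (r ≤ B z)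
      have := hi (B z ≤ r ∧ F z ≤ k₀ * B z ^ ((2 : ℝ) / 3))
      have := hi (k₁ ≤ F z ∧ F z ≤ r)
      linarith
    by_cases c2 : r ≤ F z
    · rw [if_pos c2]
      have := hi (F z < k₀)
      have := hi (r ≤ B z)
      have := hi (B z ≤ r ∧ F z ≤ k₀ * B z ^ ((2 : ℝ) / 3))
      have := hi (k₁ ≤ F z ∧ F z ≤ r)
      linarith
    by_cases c3 : r ≤ B z
    · rw [if_pos c3]
      have := hi (F z < k₀)
      have := hi (r ≤ F z)
      have := hi (B z ≤ r ∧ F z ≤ k₀ * B z ^ ((2 : ℝ) / 3))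
      have := hi (k₁ ≤ F z ∧ F z ≤ r)
      linarith
    by_cases c5 : k₁ ≤ F z
    · have c5' : k₁ ≤ F z ∧ F z ≤ r := ⟨c5, (not_le.1 c2).le⟩
      rw [if_pos c5']
      have := hi (F z < k₀)
      have := hi (r ≤ F z)
      have := hi (r ≤ B z)
      have := hi (B z ≤ r ∧ F z ≤ k₀ * B z ^ ((2 : ℝ) / 3))
      linarith
    · have c4 : ¬ (B z ≤ (F z / k₀) ^ ((3 : ℝ) / 2)) := fun h =>
        (hPm z hz).2 ⟨not_lt.1 c1, not_le.1 c5, h⟩
      have c4'' : F z ≤ k₀ * B z ^ ((2 : ℝ) / 3) := by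
        have h1 := (not_le.1 c4).le
        have h2 : ((F z / k₀) ^ ((3 : ℝ) / 2)) ^ ((2 : ℝ) / 3) = F z / k₀ := by
          rw [← Real.rpow_mul (div_nonneg h0 hk0.le)]
          norm_num
        have h3 : F z / k₀ ≤ B z ^ ((2 : ℝ) / 3) := by
          rw [← h2]
          exact Real.rpow_le_rpow (by positivity) h1 (by norm_num)
        rw [div_le_iff₀ hk0] at h3
        linarith
      have c4' : B z ≤ r ∧ F z ≤ k₀ * B z ^ ((2 : ℝ) / 3) := ⟨(not_le.1 c3).le, c4''⟩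
      rw [if_pos c4']
      have := hi (F z < k₀)
      have := hi (r ≤ F z)
      have := hi (r ≤ B z)
      have := hi (k₁ ≤ F z ∧ F z ≤ r)
      linarith
  have hn0 : (0 : ℝ) ≤ S.card := Nat.cast_nonneg _
  have b1 : ∑ z ∈ Q1, F z ≤ k₀ * (S.card : ℝ) ^ 2 := by
    calc ∑ z ∈ Q1, F z ≤ ∑ z ∈ Q1, k₀ := by
          apply Finset.sum_le_sum
          intro z hz
          exact (Finset.mem_filter.1 hz).2.le
      _ = (Q1.card : ℝ) * k₀ := by rw [Finset.sum_const, nsmul_eq_mul]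
      _ ≤ (S.card : ℝ) ^ 2 * k₀ := by
          apply mul_le_mul_of_nonneg_right _ hk0.le
          have h1 : Q1.card ≤ (S ×ˢ S).card :=
            Finset.card_le_card ((Finset.filter_subset _ _).trans (Finset.filter_subset _ _))
          rw [Finset.card_product] at h1
          have h3 : Q1.card ≤ S.card ^ 2 := by
            rw [sq]
            exact h1
          exact_mod_cast h3
      _ = k₀ * (S.card : ℝ) ^ 2 := by ring
  have b2 : ∑ z ∈ Q2, F z ≤ 2 * (S.card : ℝ) ^ 2 := by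
    apply gs_part2 hv S Q2
    · intro z hz
      obtain ⟨h1, h2, h3⟩ := (hPm z (Finset.mem_filter.1 hz).1).1
      exact ⟨h1, h3⟩
    · intro z hz
      exact (Finset.mem_filter.1 hz).2
  have b3 : ∑ z ∈ Q3, F z ≤ 2 * (S.card : ℝ) ^ 2 := by
    apply gs_part3 ha S Q3
    · intro z hz
      obtain ⟨h1, h2, h3⟩ := (hPm z (Finset.mem_filter.1 hz).1).1
      exact ⟨h1, h2⟩
    · intro z hz
      exact (Finset.mem_filter.1 hz).2
  have b4 : ∑ z ∈ Q4, F z ≤ k₀ * (Cb * (S.card : ℝ) ^ 2) := by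
    apply gs_part4 S (hSb S) Q4 k₀ hk0.le
    · intro z hz
      obtain ⟨h1, h2, h3⟩ := (hPm z (Finset.mem_filter.1 hz).1).1
      exact ⟨h1, h2, h3, (Finset.mem_filter.1 hz).2.1⟩
    · intro z hz
      exact (Finset.mem_filter.1 hz).2.2
  have b5 : ∑ z ∈ Q5, F z ≤ C1 * ((S.card : ℝ) ^ 3 * k₁ ^ (-(2 : ℝ))) := by
    apply fa_part S k₁ (fun L hL => hS1 S L k₁ hk1 hL) Q5
    · intro z hz
      obtain ⟨h1, h2, h3⟩ := (hPm z (Finset.mem_filter.1 hz).1).1
      exact ⟨h1, h3⟩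
    · intro z hz
      exact (Finset.mem_filter.1 hz).2
  set T1 := k₀ * (S.card : ℝ) ^ 2 with hT1
  set T2 := (S.card : ℝ) ^ 3 * k₁ ^ (-(2 : ℝ)) with hT2
  have t1 : 0 ≤ T1 := by positivity
  have t2 : 0 ≤ T2 := by positivity
  have t4 : 2 * (S.card : ℝ) ^ 2 ≤ T1 := mul_le_mul_of_nonneg_right hk (by positivity)
  have b4' : ∑ z ∈ Q4, F z ≤ Cb * T1 := by
    refine b4.trans (le_of_eq ?_)
    rw [hT1]; ring
  have m1 : 0 ≤ C1 * T1 := by positivity
  have m2 : 0 ≤ (3 + Cb) * T2 := by positivity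
  nlinarith

end Pool.Agent.Work.MP_916cc8_co

end

section

/-!
Ky Fan's lemma for a compatible family of labelled cubes (item FANC).
-/

set_option autoImplicit false

namespace Pool.Agent.Work.MP_916cc8_co

namespace FANCaux

open LOCaux

theorem vert_dir {k : ℕ} (τ : Equiv.Perm (Fin (k + 1))) (b : ℕ) (y : Fin k → ℕ) (i : ℕ)
    (hi : i ≤ k) :
    vert ((τ.symm 0).insertNth b y : Fin (k + 1) → ℕ) τ i (τ.symm 0) = b := by
  unfold vert
  rw [Fin.insertNth_apply_same, Equiv.apply_symm_apply]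
  have hz : ((0 : Fin (k + 1)) : ℕ) = 0 := rfl
  rw [if_neg (by omega), add_zero]

theorem vert_le {k N : ℕ} (τ : Equiv.Perm (Fin (k + 1))) (b : ℕ) (hb : b ≤ N)
    (y : Fin k → ℕ) (hy : ∀ c, y c < N) (i : ℕ) (hi : i ≤ k) (c : Fin (k + 1)) :
    vert ((τ.symm 0).insertNth b y : Fin (k + 1) → ℕ) τ i c ≤ N := by
  by_cases h : c = τ.symm 0
  · rw [h, vert_dir τ b y i hi]; exact hb
  · obtain ⟨c', rfl⟩ := Fin.exists_succAbove_eq h
    unfold vert
    rw [Fin.insertNth_apply_succAbove]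
    have := hy c'
    split <;> omega

theorem side_not_alt {m k N : ℕ} (L : (k : ℕ) → (Fin k → ℕ) → Lab m) (b : ℕ)
    (hb : b = 0 ∨ b = N)
    (h3 : ∀ z : Fin k → ℕ, (∀ i, z i ≤ N) → (∃ i, z i = 0 ∨ z i = N) → ∀ t ≤ N,
      L (k + 1) (Fin.cons t z : Fin (k + 1) → ℕ) = L k z)
    (τ : Equiv.Perm (Fin (k + 1))) (hτ : τ 0 ≠ 0) (y : Fin k → Fin N) (s : Bool) :
    ¬ Alt s (fun i : Fin (k + 1) =>
      L (k + 1) (vert ((τ.symm 0).insertNth b (fun c => (y c : ℕ)) : Fin (k + 1) → ℕ) τ i)) := by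
  intro hA
  have hbN : b ≤ N := by rcases hb with h | h <;> omega
  have hcons : ∀ v : Fin (k + 1) → ℕ, (∀ i, v i ≤ N) →
      (∃ i : Fin k, v i.succ = 0 ∨ v i.succ = N) → L (k + 1) v = L k (fun i => v i.succ) := by
    intro v hv hv2
    have := h3 (Fin.tail v) (fun i => hv i.succ) hv2 (v 0) (hv 0)
    rw [Fin.cons_self_tail] at this
    exact this
  have hc0 : τ.symm 0 ≠ 0 := by
    intro h
    apply hτ
    rw [← h, Equiv.apply_symm_apply, h]
  obtain ⟨c0, hc0'⟩ := Fin.exists_succ_eq.2 hc0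
  have hs1 : 1 ≤ (τ 0 : ℕ) := by
    have : (τ 0 : ℕ) ≠ 0 := fun h => hτ (Fin.ext h)
    omega
  have hs2 : (τ 0 : ℕ) ≤ k := by have := (τ 0).is_lt; omega
  have hd : ∀ i ≤ k,
      L (k + 1) (vert ((τ.symm 0).insertNth b (fun c => (y c : ℕ)) : Fin (k + 1) → ℕ) τ i) =
      L k (fun c => vert ((τ.symm 0).insertNth b (fun c => (y c : ℕ)) : Fin (k + 1) → ℕ) τ i
        c.succ) := by
    intro i hi
    refine hcons _ (fun c => vert_le τ b hbN _ (fun c => (y c).is_lt) i hi c) ⟨c0, ?_⟩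
    rw [hc0', vert_dir τ b _ i hi]
    exact hb
  have ha : k - (τ 0 : ℕ) < k + 1 := by omega
  have hb' : k - (τ 0 : ℕ) + 1 < k + 1 := by omega
  have hinj := alt_inj hA
  have heq : (⟨k - (τ 0 : ℕ), ha⟩ : Fin (k + 1)) = ⟨k - (τ 0 : ℕ) + 1, hb'⟩ := by
    apply hinj
    show L (k + 1) (vert _ τ (k - (τ 0 : ℕ))) = L (k + 1) (vert _ τ (k - (τ 0 : ℕ) + 1))
    rw [hd _ (by omega), hd _ (by omega)]
    congr 1
    funext c
    unfold vert
    have hne : (τ c.succ : ℕ) ≠ (τ 0 : ℕ) := by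
      intro h
      exact Fin.succ_ne_zero c (τ.injective (Fin.ext h))
    have hiff : (k + 1 ≤ k - (τ 0 : ℕ) + (τ c.succ : ℕ)) ↔
        (k + 1 ≤ k - (τ 0 : ℕ) + 1 + (τ c.succ : ℕ)) := by omega
    simp only [hiff]
  have := congrArg Fin.val heq
  simp at this

theorem dec_symm {k : ℕ} (e : Equiv.Perm (Fin k)) :
    (Equiv.Perm.decomposeFin.symm ((0 : Fin (k + 1)), e)).symm 0 = 0 := by
  rw [Equiv.symm_apply_eq, Equiv.Perm.decomposeFin_symm_apply_zero]

theorem vert_cons {k : ℕ} (b : ℕ) (e : Equiv.Perm (Fin k)) (y : Fin k → ℕ) (i : ℕ)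
    (hi : i ≤ k) :
    vert (((Equiv.Perm.decomposeFin.symm ((0 : Fin (k + 1)), e)).symm 0).insertNth b y :
      Fin (k + 1) → ℕ) (Equiv.Perm.decomposeFin.symm ((0 : Fin (k + 1)), e)) i =
      Fin.cons b (vert y e i) := by
  rw [dec_symm, Fin.insertNth_zero']
  funext c
  refine Fin.cases ?_ (fun c' => ?_) c
  · unfold vert
    rw [Equiv.Perm.decomposeFin_symm_apply_zero, Fin.cons_zero, Fin.cons_zero]
    have hz : ((0 : Fin (k + 1)) : ℕ) = 0 := rfl
    rw [if_neg (by omega), add_zero]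
  · rw [Fin.cons_succ]
    unfold vert
    rw [Equiv.Perm.decomposeFin_symm_apply_succ, Fin.cons_succ, Equiv.swap_self,
      Equiv.refl_apply, Fin.val_succ]
    have h3 : (k + 1 ≤ i + ((e c' : ℕ) + 1)) ↔ (k ≤ i + (e c' : ℕ)) := by omega
    simp only [h3]

theorem vert_le' {k N : ℕ} (e : Equiv.Perm (Fin k)) (y : Fin k → ℕ) (hy : ∀ c, y c < N)
    (i : ℕ) (c : Fin k) : vert y e i c ≤ N := by
  unfold vert
  have := hy c
  split <;> omega

theorem alt_neg {m k : ℕ} (ℓ : Fin k → Lab m) :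
    Alt true (fun i => negL (ℓ i)) ↔ Alt false ℓ := by
  unfold Alt negL
  refine exists_congr fun π => and_congr Iff.rfl (forall_congr' fun i => ?_)
  show (!(ℓ (π i)).2) = _ ↔ _
  generalize (ℓ (π i)).2 = b
  generalize decide (i.val % 2 = 1) = c
  revert b c; decide

theorem vert_rev {k N : ℕ} (e : Equiv.Perm (Fin k)) (y : Fin k → Fin N) (i : ℕ)
    (hi : i ≤ k) :
    (fun c => N - vert (fun c => (y c : ℕ)) e i c) =
      vert (fun c => ((y c).rev : ℕ)) (Fin.revPerm * e) (k - i) := by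
  funext c
  unfold vert
  have h1 := (y c).is_lt
  have h2 := (e c).is_lt
  have h3 : (((Fin.revPerm * e : Equiv.Perm (Fin k)) c : Fin k) : ℕ) = k - ((e c : ℕ) + 1) := by
    rw [Equiv.Perm.mul_apply, Fin.revPerm_apply, Fin.val_rev]
  rw [h3]
  simp only [Fin.val_rev]
  by_cases h : k ≤ i + (e c : ℕ)
  · rw [if_pos h, if_neg (by omega)]; omega
  · rw [if_neg h, if_pos (by omega)]; omega

end FANCaux

open LOCaux FANCaux in
theorem FANC_proof (hc : CAN) (hl : LOC) : FANC := by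
  classical
  intro m N n L hN h1 h2 h3 h4
  let A : ℕ → Bool → ZMod 2 := fun k s => ∑ τ : Equiv.Perm (Fin k), ∑ x : Fin k → Fin N,
    if Alt s (fun i : Fin (k + 1) => L k (vert (fun c => (x c : ℕ)) τ i)) then 1 else 0
  have key : ∀ k ≤ n, A k true + A k false = 1 := by
    intro k
    induction k with
    | zero =>
      intro _
      have hs : ∀ (s : Bool) (τ : Equiv.Perm (Fin 0)) (x : Fin 0 → Fin N),
          (Alt s (fun i : Fin 1 => L 0 (vert (fun c => (x c : ℕ)) τ i)) ↔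
            (L 0 Fin.elim0).2 = s) := by
        intro s τ x
        have hmono : StrictMono (fun i : Fin 1 => (L 0 (vert (fun c => (x c : ℕ)) τ i)).1) := by
          intro a b hab
          exact absurd hab (by simp)
        rw [alt_sorted s _ hmono]
        have hv : ∀ i : ℕ, vert (fun c => (x c : ℕ)) τ i = Fin.elim0 := by
          intro i; funext c; exact c.elim0
        unfold altW
        constructor
        · intro h
          have := h 0
          simp only [hv] at this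
          simpa using this
        · intro h i
          simp only [hv, h]
          have : i.val = 0 := by omega
          simp [this]
      show (∑ τ : Equiv.Perm (Fin 0), ∑ x : Fin 0 → Fin N, _) +
        (∑ τ : Equiv.Perm (Fin 0), ∑ x : Fin 0 → Fin N, _) = _
      simp only [hs]
      simp only [Finset.sum_const, Finset.card_univ]
      cases (L 0 Fin.elim0).2 <;> simp
    | succ k ih =>
      intro hk
      have hkn : k < n := hk
      rw [← ih hkn.le]
      show (∑ τ : Equiv.Perm (Fin (k + 1)), ∑ x : Fin (k + 1) → Fin N,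
        if Alt true (fun i : Fin (k + 1 + 1) => L (k + 1) (vert (fun c => (x c : ℕ)) τ i))
          then (1 : ZMod 2) else 0) +
        (∑ τ : Equiv.Perm (Fin (k + 1)), ∑ x : Fin (k + 1) → Fin N,
        if Alt false (fun i : Fin (k + 1 + 1) => L (k + 1) (vert (fun c => (x c : ℕ)) τ i))
          then (1 : ZMod 2) else 0) = _
      rw [← Finset.sum_add_distrib]
      have e1 : (∑ τ : Equiv.Perm (Fin (k + 1)), ((∑ x : Fin (k + 1) → Fin N,
          if Alt true (fun i : Fin (k + 1 + 1) => L (k + 1) (vert (fun c => (x c : ℕ)) τ i))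
            then (1 : ZMod 2) else 0) +
          ∑ x : Fin (k + 1) → Fin N,
          if Alt false (fun i : Fin (k + 1 + 1) => L (k + 1) (vert (fun c => (x c : ℕ)) τ i))
            then (1 : ZMod 2) else 0)) =
          ∑ τ : Equiv.Perm (Fin (k + 1)), ∑ x : Fin (k + 1) → Fin N, ∑ j : Fin (k + 2),
            (fun v : Fin (k + 1) → (Fin (k + 1) → ℕ) =>
              if Alt true (fun i => L (k + 1) (v i)) then (1 : ZMod 2) else 0)
            (fun i => vert (fun c => (x c : ℕ)) τ ((j.succAbove i : Fin (k + 2)) : ℕ)) := by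
        refine Finset.sum_congr rfl fun τ _ => ?_
        rw [← Finset.sum_add_distrib]
        refine Finset.sum_congr rfl fun x _ => ?_
        rw [← hl m (k + 1)
          (fun i : Fin (k + 1 + 1) => L (k + 1) (vert (fun c => (x c : ℕ)) τ i)) ?_]
        intro i j
        exact h4 (k + 1) hk x τ i (by omega) j (by omega)
      rw [e1, hc k N (fun v : Fin (k + 1) → (Fin (k + 1) → ℕ) =>
        if Alt true (fun i => L (k + 1) (v i)) then (1 : ZMod 2) else 0)]
      rw [← Equiv.sum_comp Equiv.Perm.decomposeFin.symm, Fintype.sum_prod_type,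
        Fin.sum_univ_succ]
      have hz : ∑ p : Fin k, ∑ e : Equiv.Perm (Fin k), ∑ y : Fin k → Fin N,
          ((fun v : Fin (k + 1) → (Fin (k + 1) → ℕ) =>
              if Alt true (fun i => L (k + 1) (v i)) then (1 : ZMod 2) else 0)
            (fun i => vert (((Equiv.Perm.decomposeFin.symm (p.succ, e)).symm 0).insertNth N
              (fun c => (y c : ℕ)) : Fin (k + 1) → ℕ)
              (Equiv.Perm.decomposeFin.symm (p.succ, e)) i) +
           (fun v : Fin (k + 1) → (Fin (k + 1) → ℕ) =>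
              if Alt true (fun i => L (k + 1) (v i)) then (1 : ZMod 2) else 0)
            (fun i => vert (((Equiv.Perm.decomposeFin.symm (p.succ, e)).symm 0).insertNth 0
              (fun c => (y c : ℕ)) : Fin (k + 1) → ℕ)
              (Equiv.Perm.decomposeFin.symm (p.succ, e)) i)) = 0 := by
        refine Finset.sum_eq_zero fun p _ => Finset.sum_eq_zero fun e _ =>
          Finset.sum_eq_zero fun y _ => ?_
        have hτ : (Equiv.Perm.decomposeFin.symm (p.succ, e)) 0 ≠ 0 := by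
          rw [Equiv.Perm.decomposeFin_symm_apply_zero]
          exact Fin.succ_ne_zero p
        simp only
        rw [if_neg (side_not_alt L N (Or.inr rfl) (h3 k hkn) _ hτ y true),
          if_neg (side_not_alt L 0 (Or.inl rfl) (h3 k hkn) _ hτ y true), add_zero]
      rw [hz, add_zero]
      -- the two remaining families
      have hhi : ∀ (e : Equiv.Perm (Fin k)) (y : Fin k → Fin N),
          (Alt true (fun i : Fin (k + 1) => L (k + 1)
            (vert (((Equiv.Perm.decomposeFin.symm ((0 : Fin (k + 1)), e)).symm 0).insertNth N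
              (fun c => (y c : ℕ)) : Fin (k + 1) → ℕ)
              (Equiv.Perm.decomposeFin.symm ((0 : Fin (k + 1)), e)) i)) ↔
          Alt true (fun i : Fin (k + 1) => L k (vert (fun c => (y c : ℕ)) e i))) := by
        intro e y
        have : (fun i : Fin (k + 1) => L (k + 1)
            (vert (((Equiv.Perm.decomposeFin.symm ((0 : Fin (k + 1)), e)).symm 0).insertNth N
              (fun c => (y c : ℕ)) : Fin (k + 1) → ℕ)
              (Equiv.Perm.decomposeFin.symm ((0 : Fin (k + 1)), e)) i)) =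
            (fun i : Fin (k + 1) => L k (vert (fun c => (y c : ℕ)) e i)) := by
          funext i
          rw [vert_cons N e _ i (by omega)]
          exact h1 k hkn _ (vert_le' e _ (fun c => (y c).is_lt) i)
        rw [this]
      have hlo : ∀ (e : Equiv.Perm (Fin k)) (y : Fin k → Fin N),
          (Alt true (fun i : Fin (k + 1) => L (k + 1)
            (vert (((Equiv.Perm.decomposeFin.symm ((0 : Fin (k + 1)), e)).symm 0).insertNth 0
              (fun c => (y c : ℕ)) : Fin (k + 1) → ℕ)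
              (Equiv.Perm.decomposeFin.symm ((0 : Fin (k + 1)), e)) i)) ↔
          Alt false (fun i : Fin (k + 1) =>
            L k (vert (fun c => ((y c).rev : ℕ)) (Fin.revPerm * e) i))) := by
        intro e y
        have : (fun i : Fin (k + 1) => L (k + 1)
            (vert (((Equiv.Perm.decomposeFin.symm ((0 : Fin (k + 1)), e)).symm 0).insertNth 0
              (fun c => (y c : ℕ)) : Fin (k + 1) → ℕ)
              (Equiv.Perm.decomposeFin.symm ((0 : Fin (k + 1)), e)) i)) =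
            (fun i : Fin (k + 1) => (fun i' : Fin (k + 1) =>
              negL (L k (vert (fun c => ((y c).rev : ℕ)) (Fin.revPerm * e) i')))
              (Fin.revPerm i)) := by
          funext i
          rw [vert_cons 0 e _ i (by omega)]
          rw [h2 k hkn _ (vert_le' e _ (fun c => (y c).is_lt) i)]
          rw [vert_rev e y i (by omega)]
          simp only [Fin.revPerm_apply, Fin.val_rev]
          have : k + 1 - ((i : ℕ) + 1) = k - (i : ℕ) := by omega
          rw [this]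
        rw [this]
        exact (alt_perm true (fun i' : Fin (k + 1) =>
              negL (L k (vert (fun c => ((y c).rev : ℕ)) (Fin.revPerm * e) i')))
              Fin.revPerm).trans (alt_neg _)
      have e2 : (∑ e : Equiv.Perm (Fin k), ∑ y : Fin k → Fin N,
          ((fun v : Fin (k + 1) → (Fin (k + 1) → ℕ) =>
              if Alt true (fun i => L (k + 1) (v i)) then (1 : ZMod 2) else 0)
            (fun i => vert (((Equiv.Perm.decomposeFin.symm ((0 : Fin (k + 1)), e)).symm 0).insertNth N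
              (fun c => (y c : ℕ)) : Fin (k + 1) → ℕ)
              (Equiv.Perm.decomposeFin.symm ((0 : Fin (k + 1)), e)) i) +
           (fun v : Fin (k + 1) → (Fin (k + 1) → ℕ) =>
              if Alt true (fun i => L (k + 1) (v i)) then (1 : ZMod 2) else 0)
            (fun i => vert (((Equiv.Perm.decomposeFin.symm ((0 : Fin (k + 1)), e)).symm 0).insertNth 0
              (fun c => (y c : ℕ)) : Fin (k + 1) → ℕ)
              (Equiv.Perm.decomposeFin.symm ((0 : Fin (k + 1)), e)) i))) =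
          A k true + ∑ e : Equiv.Perm (Fin k), ∑ y : Fin k → Fin N,
            (if Alt false (fun i : Fin (k + 1) =>
              L k (vert (fun c => ((y c).rev : ℕ)) (Fin.revPerm * e) i))
              then (1 : ZMod 2) else 0) := by
        show _ = (∑ e : Equiv.Perm (Fin k), ∑ y : Fin k → Fin N,
          if Alt true (fun i : Fin (k + 1) => L k (vert (fun c => (y c : ℕ)) e i))
            then (1 : ZMod 2) else 0) + _
        rw [← Finset.sum_add_distrib]
        refine Finset.sum_congr rfl fun e _ => ?_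
        rw [← Finset.sum_add_distrib]
        refine Finset.sum_congr rfl fun y _ => ?_
        simp only
        rw [if_congr (hhi e y) rfl rfl, if_congr (hlo e y) rfl rfl]
      rw [e2]
      congr 1
      show _ = ∑ e : Equiv.Perm (Fin k), ∑ y : Fin k → Fin N,
          if Alt false (fun i : Fin (k + 1) => L k (vert (fun c => (y c : ℕ)) e i))
            then (1 : ZMod 2) else 0
      refine (Finset.sum_congr rfl fun e _ => ?_).trans
        (Equiv.sum_comp (Equiv.mulLeft (Fin.revPerm : Equiv.Perm (Fin k)))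
          (fun e => ∑ y : Fin k → Fin N,
            if Alt false (fun i : Fin (k + 1) => L k (vert (fun c => (y c : ℕ)) e i))
            then (1 : ZMod 2) else 0))
      exact Equiv.sum_comp
        (Equiv.piCongrRight (fun _ : Fin k => (Fin.revPerm : Equiv.Perm (Fin N))))
        (fun y : Fin k → Fin N =>
          if Alt false (fun i : Fin (k + 1) =>
            L k (vert (fun c => (y c : ℕ)) (Fin.revPerm * e) i))
          then (1 : ZMod 2) else 0)
  have hn := key n le_rfl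
  have hex : ∃ s, A n s ≠ 0 := by
    by_contra hcon
    push Not at hcon
    rw [hcon true, hcon false] at hn
    exact absurd hn (by decide)
  obtain ⟨s, hs⟩ := hex
  obtain ⟨τ, -, hτ⟩ := Finset.exists_ne_zero_of_sum_ne_zero hs
  obtain ⟨x, -, hx⟩ := Finset.exists_ne_zero_of_sum_ne_zero hτ
  have hA : Alt s (fun i : Fin (n + 1) => L n (vert (fun c => (x c : ℕ)) τ i)) := by
    by_contra h
    exact hx (if_neg h)
  obtain ⟨π, hπ, -⟩ := hA
  have := Fintype.card_le_of_injective _ hπ.injective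
  simpa using this

end Pool.Agent.Work.MP_916cc8_co

end

section

/-!
Dyadic summation (`FB`), MP_916cc8_co (helper72).
-/

set_option autoImplicit false

namespace Pool.Agent.Work.MP_916cc8_co

theorem fb_pow {k₀ : ℝ} (hk : 0 < k₀) (a : ℝ) (j : ℕ) :
    ((2 : ℝ) ^ j * k₀) ^ a = ((2 : ℝ) ^ a) ^ j * k₀ ^ a := by
  rw [Real.mul_rpow (by positivity) hk.le]
  congr 1
  rw [← Real.rpow_natCast, ← Real.rpow_mul (by norm_num), mul_comm, Real.rpow_mul (by norm_num),
    Real.rpow_natCast]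

theorem fb_geom {k₀ : ℝ} (hk : 0 < k₀) {a : ℝ} (ha : a < 0) (M : ℕ) :
    ∑ j ∈ Finset.range M, ((2 : ℝ) ^ j * k₀) ^ a ≤ (1 - (2 : ℝ) ^ a)⁻¹ * k₀ ^ a := by
  have h0 : 0 < (2 : ℝ) ^ a := Real.rpow_pos_of_pos two_pos _
  have h1 : (2 : ℝ) ^ a < 1 := Real.rpow_lt_one_of_one_lt_of_neg one_lt_two ha
  simp only [fb_pow hk]
  rw [← Finset.sum_mul]
  refine mul_le_mul_of_nonneg_right ?_ (Real.rpow_nonneg hk.le _)
  have h2 := geom_sum_mul_neg ((2 : ℝ) ^ a) M
  have h3 : 0 < 1 - (2 : ℝ) ^ a := by linarith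
  have h4 : (0 : ℝ) ≤ ((2 : ℝ) ^ a) ^ M := pow_nonneg h0.le _
  rw [← one_div, le_div_iff₀ h3]
  linarith

theorem fb_sum {k₀ k₁ : ℝ} (hk : 0 < k₀) {N : ℕ} (hN : 2 ^ N * k₀ ≤ k₁) :
    ∑ j ∈ Finset.range (N + 1), (2 : ℝ) ^ j * k₀ ≤ 2 * k₁ := by
  rw [← Finset.sum_mul, geom_sum_eq (by norm_num : (2 : ℝ) ≠ 1)]
  have : ((2 : ℝ) ^ (N + 1) - 1) / (2 - 1) = 2 * 2 ^ N - 1 := by rw [pow_succ]; ring
  rw [this]
  nlinarith

theorem fb_sum' {k₀ k₁ : ℝ} (hk : 0 < k₀) {N : ℕ} (hN : 2 ^ N * k₀ ≤ k₁) :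
    ∑ j ∈ Finset.range (N + 1), ((2 : ℝ) ^ j * k₀) ^ ((7 : ℝ) / 4) ≤ 2 * k₁ ^ ((7 : ℝ) / 4) := by
  have hk1 : 0 < k₁ := lt_of_lt_of_le (by positivity) hN
  have h1 : ∀ j ∈ Finset.range (N + 1), ((2 : ℝ) ^ j * k₀) ^ ((7 : ℝ) / 4) ≤
      (2 ^ j * k₀) * k₁ ^ ((3 : ℝ) / 4) := by
    intro j hj
    have hj' : j ≤ N := by simpa [Nat.lt_succ_iff] using hj
    have h2 : (2 : ℝ) ^ j * k₀ ≤ k₁ := by
      refine le_trans ?_ hN
      exact mul_le_mul_of_nonneg_right (pow_le_pow_right₀ (by norm_num) hj') hk.le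
    have h3 : 0 < (2 : ℝ) ^ j * k₀ := by positivity
    have h4 : ((2 : ℝ) ^ j * k₀) ^ ((7 : ℝ) / 4) =
        ((2 : ℝ) ^ j * k₀) * ((2 : ℝ) ^ j * k₀) ^ ((3 : ℝ) / 4) := by
      rw [show (7 : ℝ) / 4 = 1 + 3 / 4 by norm_num, Real.rpow_add h3, Real.rpow_one]
    rw [h4]
    exact mul_le_mul_of_nonneg_left (Real.rpow_le_rpow h3.le h2 (by norm_num)) h3.le
  refine (Finset.sum_le_sum h1).trans ?_
  rw [← Finset.sum_mul]
  have h5 := fb_sum hk hN
  have h6 : 0 ≤ k₁ ^ ((3 : ℝ) / 4) := Real.rpow_nonneg hk1.le _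
  refine (mul_le_mul_of_nonneg_right h5 h6).trans (le_of_eq ?_)
  rw [show (7 : ℝ) / 4 = 1 + 3 / 4 by norm_num, Real.rpow_add hk1, Real.rpow_one]
  ring

open scoped Classical in
theorem FB_proof (h : DY) : FB := by
  obtain ⟨C, hC, hDY⟩ := h
  have hc1 : 0 < (1 - (2 : ℝ) ^ (-(2 : ℝ)))⁻¹ := by
    have : (2 : ℝ) ^ (-(2 : ℝ)) < 1 := Real.rpow_lt_one_of_one_lt_of_neg one_lt_two (by norm_num)
    exact inv_pos.2 (by linarith)
  have hc2 : 0 < (1 - (2 : ℝ) ^ (-(1 / 5 : ℝ)))⁻¹ := by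
    have : (2 : ℝ) ^ (-(1 / 5 : ℝ)) < 1 :=
      Real.rpow_lt_one_of_one_lt_of_neg one_lt_two (by norm_num)
    exact inv_pos.2 (by linarith)
  set c₁ := (1 - (2 : ℝ) ^ (-(2 : ℝ)))⁻¹ with hc₁
  set c₂ := (1 - (2 : ℝ) ^ (-(1 / 5 : ℝ)))⁻¹ with hc₂
  refine ⟨C * (c₁ + c₂ + 4), by positivity, fun S hS hn => ?_⟩
  have hn' : (64 : ℝ) ≤ (S.card : ℝ) := by exact_mod_cast hn
  generalize hnn : (S.card : ℝ) = n at hn' ⊢
  have hn0 : 0 < n := by linarith
  have hn1 : 1 ≤ n := by linarith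
  set k₀ := n ^ ((1 : ℝ) / 6) with hk₀
  set k₁ := n ^ ((5 : ℝ) / 12) with hk₁
  have hk2 : 2 ≤ k₀ := by
    have h1 : (2 : ℝ) = (64 : ℝ) ^ ((1 : ℝ) / 6) := by
      rw [show (64 : ℝ) = 2 ^ (6 : ℝ) by norm_num, ← Real.rpow_mul (by norm_num)]
      norm_num
    rw [hk₀, h1]
    exact Real.rpow_le_rpow (by norm_num) hn' (by norm_num)
  have hk0 : 0 < k₀ := by linarith
  have hk01 : k₀ ≤ k₁ := Real.rpow_le_rpow_of_exponent_le hn1 (by norm_num)
  have hk1 : 0 < k₁ := by linarith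
  have hk1s : k₁ ≤ 2 * Real.sqrt n := by
    have h1 : k₁ ≤ n ^ ((1 : ℝ) / 2) := Real.rpow_le_rpow_of_exponent_le hn1 (by norm_num)
    rw [← Real.sqrt_eq_rpow] at h1
    have := Real.sqrt_nonneg n
    linarith
  -- number of dyadic ranges
  set N := Nat.log 2 ⌊k₁ / k₀⌋₊ with hN
  have hdiv : 1 ≤ k₁ / k₀ := by rwa [le_div_iff₀ hk0, one_mul]
  have hfl : ⌊k₁ / k₀⌋₊ ≠ 0 := by
    have := Nat.le_floor (show ((1 : ℕ) : ℝ) ≤ k₁ / k₀ by exact_mod_cast hdiv)
    omega
  have hNk : (2 : ℝ) ^ N * k₀ ≤ k₁ := by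
    have h1 := Nat.pow_log_le_self 2 hfl
    have h2 : ((2 ^ N : ℕ) : ℝ) ≤ k₁ / k₀ :=
      le_trans (by exact_mod_cast h1) (Nat.floor_le (by positivity))
    push_cast at h2
    rwa [le_div_iff₀ hk0] at h2
  -- the dyadic pieces
  set F : ℕ → Finset (Pt × Pt) := fun j =>
    (S ×ˢ S).filter (fun z => z.1 ≠ z.2 ∧ 2 ^ j * k₀ ≤ rich S (top z.1 z.2) ∧
      (rich S (top z.1 z.2) : ℝ) < 2 * (2 ^ j * k₀) ∧
      (rich S (base z.1 z.2) : ℝ) ≤ (2 * (2 ^ j * k₀) / k₀) ^ ((3 : ℝ) / 2)) with hF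
  have key : ∑ z ∈ (S ×ˢ S).filter (fun z => z.1 ≠ z.2 ∧
      k₀ ≤ rich S (top z.1 z.2) ∧ (rich S (top z.1 z.2) : ℝ) < k₁ ∧
      (rich S (base z.1 z.2) : ℝ) ≤ (rich S (top z.1 z.2) / k₀) ^ ((3 : ℝ) / 2)),
      (rich S (top z.1 z.2) : ℝ) ≤
      ∑ j ∈ Finset.range (N + 1), ∑ z ∈ F j, (rich S (top z.1 z.2) : ℝ) := by
    have h1 : ∑ j ∈ Finset.range (N + 1), ∑ z ∈ F j, (rich S (top z.1 z.2) : ℝ) =
        ∑ z ∈ S ×ˢ S, ∑ j ∈ Finset.range (N + 1),
          if z ∈ F j then (rich S (top z.1 z.2) : ℝ) else 0 := by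
      rw [Finset.sum_comm]
      refine Finset.sum_congr rfl fun j _ => ?_
      rw [← Finset.sum_filter]
      refine Finset.sum_congr ?_ fun _ _ => rfl
      ext z
      simp only [hF, Finset.mem_filter]
      tauto
    rw [h1, Finset.sum_filter]
    refine Finset.sum_le_sum fun z hz => ?_
    have hnn : ∀ j ∈ Finset.range (N + 1),
        (0 : ℝ) ≤ if z ∈ F j then (rich S (top z.1 z.2) : ℝ) else 0 := by
      intro j _
      split_ifs
      · exact Nat.cast_nonneg _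
      · exact le_rfl
    split_ifs with hP
    · obtain ⟨hne, ht0, ht1, hb⟩ := hP
      set t : ℝ := (rich S (top z.1 z.2) : ℝ) with ht
      have htd : 1 ≤ t / k₀ := by rwa [le_div_iff₀ hk0, one_mul]
      have htf : ⌊t / k₀⌋₊ ≠ 0 := by
        have := Nat.le_floor (show ((1 : ℕ) : ℝ) ≤ t / k₀ by exact_mod_cast htd)
        omega
      set j := Nat.log 2 ⌊t / k₀⌋₊ with hj
      have hjN : j ≤ N := by
        refine Nat.log_mono_right (Nat.floor_le_floor ?_)
        exact div_le_div_of_nonneg_right ht1.le hk0.le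
      have hj1 : (2 : ℝ) ^ j * k₀ ≤ t := by
        have h1 := Nat.pow_log_le_self 2 htf
        have h2 : ((2 ^ j : ℕ) : ℝ) ≤ t / k₀ :=
          le_trans (by exact_mod_cast h1) (Nat.floor_le (by positivity))
        push_cast at h2
        rwa [le_div_iff₀ hk0] at h2
      have hj2 : t < 2 * (2 ^ j * k₀) := by
        have h1 := Nat.lt_pow_succ_log_self (b := 2) (by norm_num) ⌊t / k₀⌋₊
        have h2 : t / k₀ < ⌊t / k₀⌋₊ + 1 := Nat.lt_floor_add_one _
        have h3 : ((⌊t / k₀⌋₊ : ℝ)) + 1 ≤ 2 ^ (j + 1) := by exact_mod_cast h1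
        have h4 : t / k₀ < 2 ^ (j + 1) := h2.trans_le h3
        rw [div_lt_iff₀ hk0, pow_succ] at h4
        linarith
      have hmem : z ∈ F j := by
        simp only [hF, Finset.mem_filter]
        refine ⟨hz, hne, hj1, hj2, hb.trans ?_⟩
        refine Real.rpow_le_rpow (by positivity) ?_ (by norm_num)
        exact div_le_div_of_nonneg_right hj2.le hk0.le
      have := Finset.single_le_sum hnn (Finset.mem_range.2 (Nat.lt_succ_of_le hjN))
      rwa [if_pos hmem] at this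
    · exact Finset.sum_nonneg hnn
  refine key.trans ?_
  have hj : ∀ j ∈ Finset.range (N + 1), ∑ z ∈ F j, (rich S (top z.1 z.2) : ℝ) ≤
      C * (n ^ ((5 : ℝ) / 2) * (2 ^ j * k₀) ^ (-(2 : ℝ)) +
        n ^ ((11 : ℝ) / 5) * (2 ^ j * k₀) ^ (-(1 / 5 : ℝ)) +
        n ^ ((3 : ℝ) / 2) * (2 ^ j * k₀) ^ ((7 : ℝ) / 4) * k₀ ^ (-(3 / 4 : ℝ)) +
        n * (2 ^ j * k₀)) := by
    intro j hj
    have hj' : j ≤ N := by simpa [Nat.lt_succ_iff] using hj
    have h2 : (2 : ℝ) ^ j * k₀ ≤ k₁ :=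
      le_trans (mul_le_mul_of_nonneg_right (pow_le_pow_right₀ (by norm_num) hj') hk0.le) hNk
    have h3 : k₀ ≤ (2 : ℝ) ^ j * k₀ := by
      have : (1 : ℝ) ≤ 2 ^ j := one_le_pow₀ (by norm_num)
      nlinarith
    have h4 := hDY S (2 ^ j * k₀) k₀ hS hk2 h3 (by rw [hnn]; exact h2.trans hk1s)
    rw [hnn] at h4
    exact h4
  refine (Finset.sum_le_sum hj).trans ?_
  rw [← Finset.mul_sum, Finset.sum_add_distrib, Finset.sum_add_distrib, Finset.sum_add_distrib,
    ← Finset.mul_sum, ← Finset.mul_sum, ← Finset.sum_mul, ← Finset.mul_sum, ← Finset.mul_sum,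
    mul_assoc C]
  refine mul_le_mul_of_nonneg_left ?_ hC.le
  have e1 := fb_geom hk0 (show -(2 : ℝ) < 0 by norm_num) (N + 1)
  have e2 := fb_geom hk0 (show -(1 / 5 : ℝ) < 0 by norm_num) (N + 1)
  have e3 := fb_sum' hk0 hNk
  have e4 := fb_sum hk0 hNk
  have hkk : ∀ a : ℝ, k₀ ^ a = n ^ (1 / 6 * a) := fun a => by
    rw [hk₀, ← Real.rpow_mul hn0.le]
  have hk1k : ∀ a : ℝ, k₁ ^ a = n ^ (5 / 12 * a) := fun a => by
    rw [hk₁, ← Real.rpow_mul hn0.le]
  have hpos : ∀ a : ℝ, 0 ≤ n ^ a := fun a => Real.rpow_nonneg hn0.le a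
  have f1 : n ^ ((5 : ℝ) / 2) * ∑ j ∈ Finset.range (N + 1), (2 ^ j * k₀) ^ (-(2 : ℝ)) ≤
      c₁ * n ^ ((13 : ℝ) / 6) := by
    calc n ^ ((5 : ℝ) / 2) * ∑ j ∈ Finset.range (N + 1), (2 ^ j * k₀) ^ (-(2 : ℝ))
        ≤ n ^ ((5 : ℝ) / 2) * (c₁ * k₀ ^ (-(2 : ℝ))) := mul_le_mul_of_nonneg_left e1 (hpos _)
      _ = c₁ * (n ^ ((5 : ℝ) / 2) * n ^ (1 / 6 * (-(2 : ℝ)))) := by rw [hkk]; ring
      _ = c₁ * n ^ ((13 : ℝ) / 6) := by
          rw [← Real.rpow_add hn0]
          norm_num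
  have f2 : n ^ ((11 : ℝ) / 5) * ∑ j ∈ Finset.range (N + 1), (2 ^ j * k₀) ^ (-(1 / 5 : ℝ)) ≤
      c₂ * n ^ ((13 : ℝ) / 6) := by
    calc n ^ ((11 : ℝ) / 5) * ∑ j ∈ Finset.range (N + 1), (2 ^ j * k₀) ^ (-(1 / 5 : ℝ))
        ≤ n ^ ((11 : ℝ) / 5) * (c₂ * k₀ ^ (-(1 / 5 : ℝ))) := mul_le_mul_of_nonneg_left e2 (hpos _)
      _ = c₂ * (n ^ ((11 : ℝ) / 5) * n ^ (1 / 6 * (-(1 / 5 : ℝ)))) := by rw [hkk]; ring
      _ = c₂ * n ^ ((13 : ℝ) / 6) := by
          rw [← Real.rpow_add hn0]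
          norm_num
  have f3 : n ^ ((3 : ℝ) / 2) * (∑ j ∈ Finset.range (N + 1), (2 ^ j * k₀) ^ ((7 : ℝ) / 4)) *
      k₀ ^ (-(3 / 4 : ℝ)) ≤ 2 * n ^ ((13 : ℝ) / 6) := by
    calc n ^ ((3 : ℝ) / 2) * (∑ j ∈ Finset.range (N + 1), (2 ^ j * k₀) ^ ((7 : ℝ) / 4)) *
          k₀ ^ (-(3 / 4 : ℝ))
        ≤ n ^ ((3 : ℝ) / 2) * (2 * k₁ ^ ((7 : ℝ) / 4)) * k₀ ^ (-(3 / 4 : ℝ)) :=
          mul_le_mul_of_nonneg_right (mul_le_mul_of_nonneg_left e3 (hpos _))
            (Real.rpow_nonneg hk0.le _)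
      _ = 2 * (n ^ ((3 : ℝ) / 2) * n ^ (5 / 12 * ((7 : ℝ) / 4)) *
          n ^ (1 / 6 * (-(3 / 4 : ℝ)))) := by rw [hkk, hk1k]; ring
      _ = 2 * n ^ ((101 : ℝ) / 48) := by
          rw [← Real.rpow_add hn0, ← Real.rpow_add hn0]
          norm_num
      _ ≤ 2 * n ^ ((13 : ℝ) / 6) :=
          mul_le_mul_of_nonneg_left (Real.rpow_le_rpow_of_exponent_le hn1 (by norm_num))
            (by norm_num)
  have f4 : n * ∑ j ∈ Finset.range (N + 1), 2 ^ j * k₀ ≤ 2 * n ^ ((13 : ℝ) / 6) := by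
    calc n * ∑ j ∈ Finset.range (N + 1), 2 ^ j * k₀ ≤ n * (2 * k₁) :=
          mul_le_mul_of_nonneg_left e4 hn0.le
      _ = 2 * (n ^ (1 : ℝ) * n ^ ((5 : ℝ) / 12)) := by rw [Real.rpow_one, hk₁]; ring
      _ = 2 * n ^ ((17 : ℝ) / 12) := by
          rw [← Real.rpow_add hn0]
          norm_num
      _ ≤ 2 * n ^ ((13 : ℝ) / 6) :=
          mul_le_mul_of_nonneg_left (Real.rpow_le_rpow_of_exponent_le hn1 (by norm_num))
            (by norm_num)
  linarith

end Pool.Agent.Work.MP_916cc8_co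

end

section

/-! Two pairs have at most three common pairs of non-parallel lines. -/

set_option autoImplicit false

namespace Pool.Agent.Work.MP_916cc8_co

open K24aux K42aux

/-- the algebraic core of `K24` with another condition of non-degeneracy -/
theorem k3_core (a1 a2 c1 c2 b1 b2 d1 d2 q1 q2 r1 r2 lam S1 S2 R1 R2 : ℝ)
    (hx : ¬(a1 = b1 ∧ a2 = b2)) (hqr : r1 - q1 ≠ 0 ∨ r2 - q2 ≠ 0)
    (hS1 : S1 = 2 + ((q1 - a1) * (a2 - c2) - (q2 - a2) * (a1 - c1)))
    (hS2 : S2 = 2 + ((q1 - b1) * (b2 - d2) - (q2 - b2) * (b1 - d1)))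
    (hR1 : R1 = 2 + ((r1 - a1) * (a2 - c2) - (r2 - a2) * (a1 - c1)))
    (hR2 : R2 = 2 + ((r1 - b1) * (b2 - d2) - (r2 - b2) * (b1 - d1)))
    (hl1 : S1 = lam * S2) (hl2 : R1 = lam * R2)
    (E1 : lam * S2 * (c1 - d1) + 2 * (q1 - a1) - 2 * lam * (q1 - b1) = 0)
    (E2 : lam * S2 * (c2 - d2) + 2 * (q2 - a2) - 2 * lam * (q2 - b2) = 0)
    (G1 : lam * R2 * (c1 - d1) + 2 * (r1 - a1) - 2 * lam * (r1 - b1) = 0)
    (G2 : lam * R2 * (c2 - d2) + 2 * (r2 - a2) - 2 * lam * (r2 - b2) = 0)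
    (hS : S1 ≠ 0) (hn : ¬(a1 = c1 ∧ a2 = c2 ∧ b1 = d1 ∧ b2 = d2))
    (hc : (a1 - q1) * (b2 - q2) - (a2 - q2) * (b1 - q1) ≠ 0) : False := by
  by_cases hn2 : S1 = 2
  · have hlam : lam ≠ 0 := by
      rintro rfl
      apply hS
      rw [hl1, zero_mul]
    by_cases h1 : lam = 1
    · subst h1
      have e1 : a1 - c1 = b1 - d1 := by
        have h2 : S2 = 2 := by linarith
        rw [h2] at E1
        linarith
      have e2 : a2 - c2 = b2 - d2 := by
        have h2 : S2 = 2 := by linarith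
        rw [h2] at E2
        linarith
      have h2 : S2 = 2 := by linarith
      have hw : a1 - c1 ≠ 0 ∨ a2 - c2 ≠ 0 := by
        by_contra hcon
        push Not at hcon
        apply hn
        exact ⟨by linarith [hcon.1], by linarith [hcon.2], by linarith [hcon.1],
          by linarith [hcon.2]⟩
      have k1 : (a1 - c1) * (a2 - q2) - (a2 - c2) * (a1 - q1) = 0 := by
        linear_combination hn2 - hS1
      have k2 : (a1 - c1) * (b2 - q2) - (a2 - c2) * (b1 - q1) = 0 := by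
        rw [e1, e2]
        linear_combination h2 - hS2
      exact hc (by linear_combination par hw k1 k2)
    · have hl1' : lam - 1 ≠ 0 := sub_ne_zero.2 h1
      have F1 : lam * (R2 - S2) * (c1 - d1) = 2 * (lam - 1) * (r1 - q1) := by
        linear_combination G1 - E1
      have F2 : lam * (R2 - S2) * (c2 - d2) = 2 * (lam - 1) * (r2 - q2) := by
        linear_combination G2 - E2
      have hc2 : (r1 - q1) * (b2 - d2) - (r2 - q2) * (b1 - d1) = R2 - S2 := by
        rw [hR2, hS2]; ring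
      have hc1 : (r1 - q1) * (a2 - c2) - (r2 - q2) * (a1 - c1) = lam * (R2 - S2) := by
        have : lam * (R2 - S2) = R1 - S1 := by rw [hl1, hl2]; ring
        rw [this, hR1, hS1]; ring
      have hRS : R2 - S2 ≠ 0 := by
        intro h
        rw [h, mul_zero, zero_mul] at F1 F2
        rcases hqr with h2 | h2
        · exact (mul_ne_zero (mul_ne_zero two_ne_zero hl1') h2) F1.symm
        · exact (mul_ne_zero (mul_ne_zero two_ne_zero hl1') h2) F2.symm
      have k2 : lam * ((c1 - d1) * (b2 - d2) - (c2 - d2) * (b1 - d1)) = 2 * (lam - 1) := by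
        apply mul_left_cancel₀ hRS
        linear_combination (b2 - d2) * F1 - (b1 - d1) * F2 + 2 * (lam - 1) * hc2
      have k1 : (c1 - d1) * (a2 - c2) - (c2 - d2) * (a1 - c1) = 2 * (lam - 1) := by
        apply mul_left_cancel₀ (mul_ne_zero hlam hRS)
        linear_combination (a2 - c2) * F1 - (a1 - c1) * F2 + 2 * (lam - 1) * hc1
      have k3 : lam * ((a1 - b1) * (a2 - c2) - (a2 - b2) * (a1 - c1)) = 2 * (lam - 1) := by
        linear_combination (-(a2 - c2) * E1 + (a1 - c1) * E2 + lam * S2 * k1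
          - 2 * (1 - lam) * hS1 + 2 * (1 - lam) * hl1) / 2
      have k4 : (a1 - b1) * (b2 - d2) - (a2 - b2) * (b1 - d1) = 2 * (lam - 1) := by
        linear_combination (-(b2 - d2) * E1 + (b1 - d1) * E2 + S2 * k2
          - 2 * (1 - lam) * hS2) / 2
      have key : (lam - 1) ^ 2 = 0 := by
        linear_combination (-(lam * k1) + k3 + k2 - lam * k4) / 4
      exact hl1' (pow_eq_zero_iff (two_ne_zero) |>.1 key)
  · exact core a1 a2 c1 c2 b1 b2 d1 d2 q1 q2 r1 r2 lam S1 S2 R1 R2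
      (fun h => hx ⟨h.1, h.2.1⟩) hqr hS1 hS2 hR1 hR2 hl1 hl2 E1 E2 G1 G2 hS hn2

/-- the dual form -/
theorem k3_dual (x₁ x₂ : Pt × Pt) (hx : ¬(x₁.1 = x₁.2 ∧ x₂.1 = x₂.2)) (Y : Finset (Pt × Pt))
    (hY : ∀ y ∈ Y, Rel x₁ y ∧ Rel x₂ y ∧ cr (x₁.1 - y.1) (x₂.1 - y.1) ≠ 0) : Y.card ≤ 3 := by
  classical
  by_contra hcard
  push Not at hcard
  set N : Matrix (Fin 3) (Fin 3) ℝ := (MM x₂)⁻¹ * MM x₁ with hN
  have hdet : IsUnit (MM x₂).det := by
    rw [MM_det]
    exact isUnit_iff_ne_zero.2 (by norm_num)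
  -- the ratios are eigenvalues
  have hroot : ∀ y ∈ Y, sd x₁ y / sd x₂ y ∈ N.charpoly.roots.toFinset := by
    intro y hy
    have r1 := (hY y hy).1
    have r2 := (hY y hy).2.1
    have hs2 : sd x₂ y ≠ 0 := rel_den r2
    rw [Multiset.mem_toFinset, Polynomial.mem_roots (Matrix.charpoly_monic N).ne_zero,
      Polynomial.IsRoot.def, Matrix.eval_charpoly]
    apply Matrix.exists_mulVec_eq_zero_iff.1
    refine ⟨![y.1.1, y.1.2, 1], ?_, ?_⟩
    · intro h
      have := congrFun h 2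
      simp at this
    · rw [Matrix.sub_mulVec, sub_eq_zero, hN, ← Matrix.mulVec_mulVec, MM_mul r1]
      have e2 := MM_mul r2
      have e3 : ![y.2.1, y.2.2, 1] = (sd x₂ y)⁻¹ • Matrix.mulVec (MM x₂) ![y.1.1, y.1.2, 1] := by
        rw [e2, smul_smul, inv_mul_cancel₀ hs2, one_smul]
      rw [e3, Matrix.mulVec_smul, Matrix.mulVec_smul, Matrix.mulVec_mulVec,
        Matrix.nonsing_inv_mul _ hdet, Matrix.one_mulVec, smul_smul, div_eq_mul_inv]
      simp
  have hdeg : (N.charpoly.roots.toFinset).card ≤ 3 := by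
    refine le_trans (Multiset.toFinset_card_le _) ?_
    refine le_trans (Polynomial.card_roots' _) ?_
    rw [Matrix.charpoly_natDegree_eq_dim]
    simp
  obtain ⟨y, hy, y', hy', hne, heq⟩ := Finset.exists_ne_map_eq_of_card_lt_of_maps_to
    (lt_of_le_of_lt hdeg hcard) (f := fun y => sd x₁ y / sd x₂ y) hroot
  obtain ⟨r1, r2, hcr⟩ := hY y hy
  obtain ⟨r1', r2', -⟩ := hY y' hy'
  have hs2 : sd x₂ y ≠ 0 := rel_den r2
  have hs2' : sd x₂ y' ≠ 0 := rel_den r2'
  have hs1 : sd x₁ y ≠ 0 := rel_den r1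
  have hq : y.1 ≠ y'.1 := fun h => hne (rel_unique r1 r1' h)
  set lam := sd x₁ y / sd x₂ y with hlam
  have hl1 : sd x₁ y = lam * sd x₂ y := by
    rw [hlam, div_mul_cancel₀ _ hs2]
  have hl2 : sd x₁ y' = lam * sd x₂ y' := by
    rw [heq, div_mul_cancel₀ _ hs2']
  obtain ⟨-, -, A1, A2⟩ := rel_iff.1 r1
  obtain ⟨-, -, A3, A4⟩ := rel_iff.1 r2
  obtain ⟨-, -, B1, B2⟩ := rel_iff.1 r1'
  obtain ⟨-, -, B3, B4⟩ := rel_iff.1 r2'
  change sd x₁ y * _ = _ at A1 A2
  change sd x₂ y * _ = _ at A3 A4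
  change sd x₁ y' * _ = _ at B1 B2
  change sd x₂ y' * _ = _ at B3 B4
  refine k3_core x₁.1.1 x₁.1.2 x₁.2.1 x₁.2.2 x₂.1.1 x₂.1.2 x₂.2.1 x₂.2.2 y.1.1 y.1.2 y'.1.1
    y'.1.2 lam (sd x₁ y) (sd x₂ y) (sd x₁ y') (sd x₂ y') ?_ ?_ ?_ ?_ ?_ ?_ hl1 hl2 ?_ ?_ ?_ ?_
    hs1 ?_ ?_
  · rintro ⟨h1, h2⟩
    apply hcr
    have : x₁.1 = x₂.1 := Prod.ext h1 h2
    rw [this]
    exact cr_self _
  · have := sub_ne_zero_pt hq
    simpa using this
  · unfold sd cr
    simp
  · unfold sd cr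
    simp
  · unfold sd cr
    simp
  · unfold sd cr
    simp
  · linear_combination (-1) * A1 + lam * A3 + (y.2.1 - x₁.2.1) * hl1
  · linear_combination (-1) * A2 + lam * A4 + (y.2.2 - x₁.2.2) * hl1
  · linear_combination (-1) * B1 + lam * B3 + (y'.2.1 - x₁.2.1) * hl2
  · linear_combination (-1) * B2 + lam * B4 + (y'.2.2 - x₁.2.2) * hl2
  · rintro ⟨h1, h2, h3, h4⟩
    exact hx ⟨Prod.ext h1 h2, Prod.ext h3 h4⟩
  · simpa [cr] using hcr

theorem K3_proof : K3 := by
  classical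
  intro y z hyz X hX
  have h1 := k3_dual (tau (y.1, z.1)) (tau (y.2, z.2)) (by
    rintro ⟨h1, h2⟩
    apply hyz
    simp only [tau] at h1 h2
    exact Prod.ext (rho_inj h1) (rho_inj h2)) (X.image tau) (by
    intro w hw
    obtain ⟨x, hx, rfl⟩ := Finset.mem_image.1 hw
    obtain ⟨e1, e2, e3⟩ := hX x hx
    refine ⟨rel_tau e1, rel_tau e2, ?_⟩
    intro h0
    apply e3
    simp only [tau, rho, cr, Prod.fst_sub, Prod.snd_sub] at h0 ⊢
    linear_combination (-1) * h0)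
  rwa [Finset.card_image_of_injective _ tau_inj] at h1

end Pool.Agent.Work.MP_916cc8_co

end

section

set_option autoImplicit false

/-! # MP_916cc8_co: final assembly of the O(n^{13/6}) bound -/

namespace Pool.Agent.Work.MP_916cc8_co

open scoped Classical in
theorem tri_empty_left (S : Finset Pt) : tri ∅ S = 0 := by
  unfold tri
  simp

open scoped Classical in
theorem tri_le_cube (S : Finset Pt) : tri S S ≤ S.card ^ 3 := by
  unfold tri
  refine le_trans (Finset.card_filter_le _ _) ?_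
  rw [Finset.card_product, Finset.card_product]
  exact le_of_eq (by ring)

open scoped Classical in
theorem main13_of_distinct (hs : TSum) (ha : FA) (hb : FB) :
    ∃ C₀ : ℝ, 0 < C₀ ∧ ∀ S : Finset Pt, (∀ p ∈ S, ∀ q ∈ S, p.1 = q.1 → p = q) →
      64 ≤ S.card → (tri S S : ℝ) ≤ C₀ * (S.card : ℝ) ^ ((13 : ℝ) / 6) := by
  obtain ⟨C₁, hC₁, ha⟩ := ha
  obtain ⟨C₂, hC₂, hb⟩ := hb
  refine ⟨2 * C₁ + C₂, by positivity, fun S hS hn => ?_⟩
  have hn' : (64 : ℝ) ≤ S.card := by exact_mod_cast hn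
  have hn0 : (0 : ℝ) < S.card := by linarith
  have hk0 : (2 : ℝ) ≤ (S.card : ℝ) ^ ((1 : ℝ) / 6) := by
    have h2 : (2 : ℝ) = (64 : ℝ) ^ ((1 : ℝ) / 6) := by
      have : (64 : ℝ) = (2 : ℝ) ^ (6 : ℝ) := by norm_num
      rw [this, ← Real.rpow_mul (by norm_num)]
      norm_num
    rw [h2]
    exact Real.rpow_le_rpow (by norm_num) hn' (by norm_num)
  have hk1 : (2 : ℝ) ≤ (S.card : ℝ) ^ ((5 : ℝ) / 12) := by
    refine le_trans hk0 (Real.rpow_le_rpow_of_exponent_le (by linarith) (by norm_num))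
  have h1 := ha S _ _ hk0 hk1
  have h2 := hb S hS hn
  have e1 : (S.card : ℝ) ^ ((1 : ℝ) / 6) * (S.card : ℝ) ^ 2 =
      (S.card : ℝ) ^ ((13 : ℝ) / 6) := by
    rw [← Real.rpow_natCast, ← Real.rpow_add hn0]
    norm_num
  have e2 : (S.card : ℝ) ^ 3 * ((S.card : ℝ) ^ ((5 : ℝ) / 12)) ^ (-(2 : ℝ)) =
      (S.card : ℝ) ^ ((13 : ℝ) / 6) := by
    rw [← Real.rpow_mul hn0.le, ← Real.rpow_natCast, ← Real.rpow_add hn0]
    norm_num
  rw [e1, e2] at h1
  rw [hs S, ← Finset.sum_filter_add_sum_filter_not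
    ((S ×ˢ S).filter (fun z => z.1 ≠ z.2)) (fun z =>
      (S.card : ℝ) ^ ((1 : ℝ) / 6) ≤ rich S (top z.1 z.2) ∧
      (rich S (top z.1 z.2) : ℝ) < (S.card : ℝ) ^ ((5 : ℝ) / 12) ∧
      (rich S (base z.1 z.2) : ℝ) ≤
        (rich S (top z.1 z.2) / (S.card : ℝ) ^ ((1 : ℝ) / 6)) ^ ((3 : ℝ) / 2)),
    Finset.filter_filter, Finset.filter_filter]
  linarith

theorem Main13_proof (ht : Tri) (hs : TSum) (hsh : SHEAR) (ha : FA) (hb : FB) : Main13 := by
  obtain ⟨C₀, hC₀, hmain⟩ := main13_of_distinct hs ha hb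
  refine ⟨C₀ + 64, fun S => ?_⟩
  have h1 : uTri S ≤ tri S S := by
    have := ht S ∅ (Finset.empty_subset _)
    simpa [tri_empty_left] using this
  have h1' : (uTri S : ℝ) ≤ tri S S := by exact_mod_cast h1
  refine le_trans h1' ?_
  have hp : 0 ≤ (S.card : ℝ) ^ ((13 : ℝ) / 6) := by positivity
  rcases le_or_gt 64 S.card with hn | hn
  · obtain ⟨S', hc, htr, hS'⟩ := hsh S
    have h2 := hmain S' hS' (by rw [hc]; exact hn)
    rw [htr, hc] at h2
    nlinarith
  · have h3 : (tri S S : ℝ) ≤ (S.card : ℝ) ^ 3 := by exact_mod_cast tri_le_cube S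
    rcases Nat.eq_zero_or_pos S.card with h0 | h0
    · rw [h0] at h3
      simp only [Nat.cast_zero] at h3
      have : (0 : ℝ) ^ 3 = 0 := by norm_num
      rw [this] at h3
      have : 0 ≤ (C₀ + 64) * (S.card : ℝ) ^ ((13 : ℝ) / 6) := by positivity
      linarith
    · have h0' : (0 : ℝ) < S.card := by exact_mod_cast h0
      have hn' : (S.card : ℝ) ≤ 64 := by exact_mod_cast hn.le
      have e : (S.card : ℝ) ^ 3 = (S.card : ℝ) ^ ((5 : ℝ) / 6) *
          (S.card : ℝ) ^ ((13 : ℝ) / 6) := by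
        rw [← Real.rpow_add h0', ← Real.rpow_natCast]
        norm_num
      have h4 : (S.card : ℝ) ^ ((5 : ℝ) / 6) ≤ 64 := by
        have h1 : (1 : ℝ) ≤ S.card := by exact_mod_cast h0
        calc (S.card : ℝ) ^ ((5 : ℝ) / 6) ≤ (S.card : ℝ) ^ (1 : ℝ) :=
              Real.rpow_le_rpow_of_exponent_le h1 (by norm_num)
          _ = S.card := Real.rpow_one _
          _ ≤ 64 := hn'
      rw [e] at h3
      nlinarith [mul_le_mul_of_nonneg_right h4 hp]

end Pool.Agent.Work.MP_916cc8_co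

end

section

/-! Polynomials of bounded degree, independent modulo a given polynomial. -/

set_option autoImplicit false

namespace Pool.Agent.Work.MP_916cc8_co

open MvPolynomial

theorem mong_sum (e : ℕ) : ∀ n ≤ e + 1,
    2 * ∑ c ∈ Finset.range n, (e + 1 - c) + n * n = 2 * n * (e + 1) + n := by
  intro n
  induction n with
  | zero => intro _; simp
  | succ n ih =>
    intro hn
    have h1 := ih (by omega)
    rw [Finset.sum_range_succ]
    obtain ⟨k, hk⟩ : ∃ k, e + 1 = n + 1 + k := ⟨e + 1 - (n + 1), by omega⟩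
    have h2 : e + 1 - n = k + 1 := by omega
    rw [h2]
    rw [hk] at h1 ⊢
    nlinarith [h1]

theorem mong_count (al be e : ℕ) (S : Finset (ℕ × ℕ))
    (hS : ∀ a b, (a, b) ∈ S ↔ a + b ≤ e ∧ (a < al ∨ b < be)) :
    (e + 1) * min (al + be) (e + 1) ≤ 2 * S.card := by
  classical
  set m := min (al + be) (e + 1) with hm
  have hm1 : m ≤ al + be := min_le_left _ _
  have hm2 : m ≤ e + 1 := min_le_right _ _
  have h1 : ((Finset.range m).sigma (fun c => Finset.range (e + 1 - c))).card ≤ S.card := by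
    apply Finset.card_le_card_of_injOn
      (fun x => if x.1 < al then (x.1, x.2) else (al + x.2, x.1 - al))
    · rintro ⟨c, k⟩ h
      simp only [Finset.coe_sigma, Set.mem_sigma_iff, Finset.coe_range, Set.mem_Iio] at h
      obtain ⟨h1, h2⟩ := h
      simp only
      split_ifs with h3
      · exact (hS _ _).2 ⟨by omega, Or.inl h3⟩
      · exact (hS _ _).2 ⟨by omega, Or.inr (by omega)⟩
    · rintro ⟨c, k⟩ h ⟨c', k'⟩ h' hh
      simp only at hh
      split_ifs at hh with h3 h4 h4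
      · simp only [Prod.mk.injEq] at hh
        obtain ⟨rfl, rfl⟩ := hh
        rfl
      · simp only [Prod.mk.injEq] at hh
        omega
      · simp only [Prod.mk.injEq] at hh
        omega
      · simp only [Prod.mk.injEq] at hh
        have e1 : c = c' := by omega
        have e2 : k = k' := by omega
        subst e1; subst e2
        rfl
  rw [Finset.card_sigma] at h1
  simp only [Finset.card_range] at h1
  have h2 := mong_sum e m hm2
  have h3 : m * m ≤ m * (e + 1) := Nat.mul_le_mul_left _ hm2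
  nlinarith

/-- the exponent of a pair -/
noncomputable def mong_ex (p : ℕ × ℕ) : Fin 2 →₀ ℕ :=
  Finsupp.single 0 p.1 + Finsupp.single 1 p.2

theorem mong_ex0 (p : ℕ × ℕ) : mong_ex p 0 = p.1 := by simp [mong_ex]

theorem mong_ex1 (p : ℕ × ℕ) : mong_ex p 1 = p.2 := by simp [mong_ex]

theorem mong_ex_inj {p q : ℕ × ℕ} (h : mong_ex p = mong_ex q) : p = q := by
  have h0 : mong_ex p 0 = mong_ex q 0 := by rw [h]
  have h1 : mong_ex p 1 = mong_ex q 1 := by rw [h]
  rw [mong_ex0, mong_ex0] at h0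
  rw [mong_ex1, mong_ex1] at h1
  exact Prod.ext h0 h1

theorem MonG_proof : MonG := by
  classical
  intro g hg hd e
  set M : MonomialOrder (Fin 2) := MonomialOrder.degLex with hM
  set al := M.degree g 0 with hal
  set be := M.degree g 1 with hbe
  have hdeg : g.totalDegree = al + be := by
    rw [← MvPolynomial.degree_degLexDegree (f := g)]
    rw [Finsupp.degree_eq_sum]
    simp [Fin.sum_univ_two, hal, hbe, hM]
  set S : Finset (ℕ × ℕ) := (Finset.range (e + 1) ×ˢ Finset.range (e + 1)).filter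
    (fun p => p.1 + p.2 ≤ e ∧ (p.1 < al ∨ p.2 < be)) with hSdef
  have hS : ∀ a b, (a, b) ∈ S ↔ a + b ≤ e ∧ (a < al ∨ b < be) := by
    intro a b
    simp only [hSdef, Finset.mem_filter, Finset.mem_product, Finset.mem_range]
    constructor
    · exact fun h => h.2
    · exact fun h => ⟨⟨by omega, by omega⟩, h⟩
  set pt : Fin S.card → ℕ × ℕ := fun i => (S.equivFin.symm i : ℕ × ℕ) with hpt
  have hptS : ∀ i, pt i ∈ S := fun i => (S.equivFin.symm i).2
  have hptinj : ∀ i j, pt i = pt j → i = j := by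
    intro i j h
    have := Subtype.ext h
    exact S.equivFin.symm.injective this
  refine ⟨S.card, fun i => monomial (mong_ex (pt i)) 1, ?_, ?_, ?_⟩
  · rw [hdeg]
    exact mong_count al be e S hS
  · intro i
    refine (totalDegree_monomial_le _ _).trans ?_
    have h1 := ((hS (pt i).1 (pt i).2).1 (hptS i)).1
    have h2 : (mong_ex (pt i)).sum (fun _ e => e) = (pt i).1 + (pt i).2 := by
      rw [Finsupp.sum_fintype _ _ (fun _ => rfl), Fin.sum_univ_two, mong_ex0, mong_ex1]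
    exact h2.le.trans h1
  · intro c hc hdvd
    set h : MvPolynomial (Fin 2) ℝ := ∑ i, C (c i) * monomial (mong_ex (pt i)) 1 with hh
    have hcoef : ∀ s, coeff s h = ∑ i, if mong_ex (pt i) = s then c i else 0 := by
      intro s
      rw [hh, coeff_sum]
      apply Finset.sum_congr rfl
      intro i _
      rw [coeff_C_mul, coeff_monomial]
      split_ifs <;> simp
    have hne : h ≠ 0 := by
      intro h0
      apply hc
      funext i
      have h1 := hcoef (mong_ex (pt i))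
      rw [h0, coeff_zero, Finset.sum_eq_single i] at h1
      · simpa using h1.symm
      · intro j _ hj
        rw [if_neg]
        intro h2
        exact hj (hptinj _ _ (mong_ex_inj h2))
      · intro h2
        exact absurd (Finset.mem_univ _) h2
    obtain ⟨u, hu⟩ := hdvd
    have hune : u ≠ 0 := by
      rintro rfl
      apply hne
      rw [hu, mul_zero]
    have hdegh : M.degree h = M.degree g + M.degree u := by
      rw [hu]
      exact M.degree_mul hg hune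
    have hmem := M.degree_mem_support hne
    rw [mem_support_iff, hcoef] at hmem
    obtain ⟨i, _, hi⟩ := Finset.exists_ne_zero_of_sum_ne_zero hmem
    have hi2 : mong_ex (pt i) = M.degree h := by
      by_contra h2
      rw [if_neg h2] at hi
      exact hi rfl
    have h0 : (pt i).1 = al + M.degree u 0 := by
      rw [← mong_ex0, hi2, hdegh, Finsupp.add_apply]
    have h1 : (pt i).2 = be + M.degree u 1 := by
      rw [← mong_ex1, hi2, hdegh, Finsupp.add_apply]
    have h2 := ((hS (pt i).1 (pt i).2).1 (hptS i)).2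
    omega

end Pool.Agent.Work.MP_916cc8_co

end

section

/-! Pigeon hole for collisions. -/

set_option autoImplicit false

namespace Pool.Agent.Work.MP_916cc8_co

theorem PIG_proof : PIG := by
  classical
  intro α Q E V hr hs ht hV
  rcases Q.eq_empty_or_nonempty with h0 | ⟨a0, ha0⟩
  · subst h0
    simp
  haveI : Nonempty α := ⟨a0⟩
  set cls : α → Finset α := fun a => Q.filter (fun b => E a b) with hcls
  have hself : ∀ a ∈ Q, a ∈ cls a := fun a ha => Finset.mem_filter.2 ⟨ha, hr a ha⟩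
  have heq : ∀ a ∈ Q, ∀ b ∈ Q, (cls a = cls b ↔ E a b) := by
    intro a ha b hb
    constructor
    · intro h
      have h1 : b ∈ cls a := by rw [h]; exact hself b hb
      exact (Finset.mem_filter.1 h1).2
    · intro h
      ext x
      simp only [hcls, Finset.mem_filter]
      constructor
      · rintro ⟨hx, h1⟩
        exact ⟨hx, ht b hb a ha x hx (hs a ha b hb h) h1⟩
      · rintro ⟨hx, h1⟩
        exact ⟨hx, ht a ha b hb x hx h h1⟩
  set CC := Q.image cls with hCC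
  -- the fibres
  have hfib : ∀ c ∈ CC, Q.filter (fun a => cls a = c) = c := by
    intro c hc
    obtain ⟨a, ha, rfl⟩ := Finset.mem_image.1 hc
    ext b
    simp only [Finset.mem_filter]
    constructor
    · rintro ⟨hb, h1⟩
      rw [← h1]; exact hself b hb
    · intro hb
      have h1 := Finset.mem_filter.1 hb
      exact ⟨h1.1, ((heq a ha b h1.1).2 h1.2).symm⟩
  have hmap : ∀ a ∈ Q, cls a ∈ CC := fun a ha => Finset.mem_image_of_mem _ ha
  have hcard : (Q.card : ℝ) = ∑ c ∈ CC, (c.card : ℝ) := by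
    rw [Finset.card_eq_sum_card_fiberwise hmap]
    push_cast
    refine Finset.sum_congr rfl fun c hc => ?_
    rw [hfib c hc]
  have hpairs : ((((Q ×ˢ Q).filter (fun z => E z.1 z.2)).card : ℕ) : ℝ) =
      ∑ c ∈ CC, (c.card : ℝ) ^ 2 := by
    have h1 : ((Q ×ˢ Q).filter (fun z => E z.1 z.2)).card = ∑ a ∈ Q, (cls a).card := by
      rw [Finset.card_filter, Finset.sum_product]
      refine Finset.sum_congr rfl fun a _ => ?_
      simp only [hcls]
      rw [Finset.card_filter]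
    rw [h1]
    push_cast
    rw [← Finset.sum_fiberwise_of_maps_to hmap]
    refine Finset.sum_congr rfl fun c hc => ?_
    have h2 : ∑ a ∈ Q.filter (fun a => cls a = c), ((cls a).card : ℝ) =
        ∑ a ∈ Q.filter (fun a => cls a = c), (c.card : ℝ) :=
      Finset.sum_congr rfl fun a ha => by rw [(Finset.mem_filter.1 ha).2]
    rw [h2, Finset.sum_const, hfib c hc, nsmul_eq_mul, sq]
  -- representatives
  have hrep : ∀ c ∈ CC, ∃ a ∈ Q, cls a = c := fun c hc => by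
    obtain ⟨a, ha, h⟩ := Finset.mem_image.1 hc
    exact ⟨a, ha, h⟩
  choose! rep hrep1 hrep2 using hrep
  have hinj : Set.InjOn rep (CC : Set (Finset α)) := by
    intro c hc c' hc' h
    rw [← hrep2 c hc, ← hrep2 c' hc', h]
  have hZ : ((CC.image rep).card : ℝ) ≤ V := by
    apply hV
    · intro x hx
      obtain ⟨c, hc, rfl⟩ := Finset.mem_image.1 hx
      exact hrep1 c hc
    · intro x hx y hy hxy
      obtain ⟨c, hc, rfl⟩ := Finset.mem_image.1 hx
      obtain ⟨c', hc', rfl⟩ := Finset.mem_image.1 hy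
      have h1 := (heq _ (hrep1 c hc) _ (hrep1 c' hc')).2 hxy
      rw [hrep2 c hc, hrep2 c' hc'] at h1
      rw [h1]
  rw [Finset.card_image_of_injOn hinj] at hZ
  rw [hcard, hpairs]
  calc (∑ c ∈ CC, (c.card : ℝ)) ^ 2 ≤ (CC.card : ℝ) * ∑ c ∈ CC, (c.card : ℝ) ^ 2 :=
        sq_sum_le_card_mul_sum_sq
    _ ≤ V * ∑ c ∈ CC, (c.card : ℝ) ^ 2 :=
        mul_le_mul_of_nonneg_right hZ (Finset.sum_nonneg fun c _ => sq_nonneg _)

end Pool.Agent.Work.MP_916cc8_co

end

section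

/-! Partition of a finite set of points by polynomials not divisible by a given polynomial. -/

set_option autoImplicit false

namespace Pool.Agent.Work.MP_916cc8_co

open MvPolynomial

open scoped Classical in
/-- one step: a polynomial not divisible by `g` with the halving property -/
theorem partg_poly (hs : HS) (hm : MonG) (g : MvPolynomial (Fin 2) ℝ) (hg : g ≠ 0)
    (hd : 1 ≤ g.totalDegree) (s e : ℕ) (he : 2 * (s + 1) ≤ (e + 1) * min g.totalDegree (e + 1))
    (A : Fin s → Finset Pt) :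
    ∃ h : MvPolynomial (Fin 2) ℝ, ¬ g ∣ h ∧ h.totalDegree ≤ e ∧ ∀ i,
      2 * ((A i).filter (fun a => 0 < eval (v2 a) h)).card ≤ (A i).card ∧
      2 * ((A i).filter (fun a => eval (v2 a) h < 0)).card ≤ (A i).card := by
  obtain ⟨N, w, hN, hw, hc⟩ := hm g hg hd e
  have hsN : s + 1 ≤ N := by omega
  set w' : Fin (s + 1) → MvPolynomial (Fin 2) ℝ := fun j => w (Fin.castLE hsN j) with hw'
  obtain ⟨v, hv0, hv⟩ := hs Pt s A (fun a j => eval (v2 a) (w' j))
  have heval : ∀ a : Pt, eval (v2 a) (∑ j, C (v j) * w' j) = ∑ j, v j * eval (v2 a) (w' j) := by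
    intro a
    rw [map_sum]
    refine Finset.sum_congr rfl fun j _ => ?_
    rw [map_mul, eval_C]
  refine ⟨∑ j, C (v j) * w' j, ?_, ?_, ?_⟩
  · -- extend v by zero
    set c : Fin N → ℝ := fun i => if h : (i : ℕ) < s + 1 then v ⟨i, h⟩ else 0 with hcdef
    have hc0 : c ≠ 0 := by
      intro h0
      apply hv0
      funext j
      have := congrFun h0 (Fin.castLE hsN j)
      simp only [hcdef, Fin.val_castLE, Pi.zero_apply] at this
      rw [dif_pos j.2] at this
      exact this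
    have hsum : ∑ i, C (c i) * w i = ∑ j, C (v j) * w' j := by
      have h1 : ∑ j, C (v j) * w' j = ∑ i ∈ Finset.univ.map (Fin.castLEEmb hsN), C (c i) * w i := by
        rw [Finset.sum_map]
        refine Finset.sum_congr rfl fun j _ => ?_
        have h2 : c (Fin.castLE hsN j) = v j := by
          simp only [hcdef, Fin.val_castLE]
          rw [dif_pos j.2]
        simp only [Fin.castLEEmb_apply]
        rw [h2]
      rw [h1]
      symm
      apply Finset.sum_subset (Finset.subset_univ _)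
      intro i _ hi
      have h3 : c i = 0 := by
        simp only [hcdef]
        rw [dif_neg]
        intro h4
        apply hi
        rw [Finset.mem_map]
        exact ⟨⟨i, h4⟩, Finset.mem_univ _, by ext; simp⟩
      rw [h3, C_0, zero_mul]
    rw [← hsum]
    exact hc c hc0
  · refine totalDegree_finsetSum_le fun j _ => ?_
    refine (totalDegree_mul _ _).trans ?_
    rw [totalDegree_C, zero_add]
    exact hw _
  · intro i
    obtain ⟨h1, h2⟩ := hv i
    simp only [heval]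
    exact ⟨h1, h2⟩

open scoped Classical in
/-- bookkeeping of one step -/
theorem partg_step (t : ℕ) (A : Finset Pt) (f : Fin t → MvPolynomial (Fin 2) ℝ)
    (hf : ∀ x : Fin 2 → ℝ, 2 ^ t * (A.filter (fun a => sameCl f x (v2 a))).card ≤ A.card)
    (P : MvPolynomial (Fin 2) ℝ → Prop)
    (hP : ∀ B : Fin (2 ^ t) → Finset Pt, ∃ h, P h ∧ ∀ i,
      2 * ((B i).filter (fun a => 0 < eval (v2 a) h)).card ≤ (B i).card ∧
      2 * ((B i).filter (fun a => eval (v2 a) h < 0)).card ≤ (B i).card) :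
    ∃ h, P h ∧ ∀ x : Fin 2 → ℝ, 2 ^ (t + 1) * (A.filter (fun a => sameCl (Fin.snoc f h :
      Fin (t + 1) → MvPolynomial (Fin 2) ℝ) x (v2 a))).card ≤ A.card := by
  -- the classes
  let e : (Fin t → Bool) ≃ Fin (2 ^ t) := Fintype.equivFinOfCardEq (by simp)
  set cl : (Fin t → Bool) → Finset Pt := fun σ =>
    A.filter (fun a => ∀ i, 0 < PartD.sg (σ i) * eval (v2 a) (f i)) with hcl
  have hclc : ∀ σ, 2 ^ t * (cl σ).card ≤ A.card := by
    intro σ
    rcases (cl σ).eq_empty_or_nonempty with h0 | ⟨a0, ha0⟩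
    · rw [h0, Finset.card_empty, mul_zero]
      exact Nat.zero_le _
    · refine le_trans (Nat.mul_le_mul_left _ (Finset.card_le_card ?_)) (hf (v2 a0))
      intro a ha
      rw [hcl, Finset.mem_filter] at ha ha0
      rw [Finset.mem_filter]
      exact ⟨ha.1, fun i => PartD.mul_pos_trans (ha0.2 i) (ha.2 i)⟩
  obtain ⟨g, hPg, hg⟩ := hP (fun i => cl (e.symm i))
  refine ⟨g, hPg, ?_⟩
  intro x
  by_cases hx : (∀ i, eval x (f i) ≠ 0) ∧ eval x g ≠ 0
  · obtain ⟨hx1, hx2⟩ := hx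
    have key : 2 * (A.filter (fun a => sameCl (Fin.snoc f g :
        Fin (t + 1) → MvPolynomial (Fin 2) ℝ) x (v2 a))).card ≤
        (cl (fun i => decide (0 < eval x (f i)))).card := by
      obtain ⟨hp, hn⟩ := hg (e (fun i => decide (0 < eval x (f i))))
      rw [Equiv.symm_apply_apply] at hp hn
      have hsub : ∀ a ∈ A.filter (fun a => sameCl (Fin.snoc f g :
          Fin (t + 1) → MvPolynomial (Fin 2) ℝ) x (v2 a)),
          a ∈ cl (fun i => decide (0 < eval x (f i))) ∧ 0 < eval x g * eval (v2 a) g := by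
        intro a ha
        rw [Finset.mem_filter] at ha
        obtain ⟨haA, hac⟩ := ha
        constructor
        · rw [hcl, Finset.mem_filter]
          refine ⟨haA, fun i => ?_⟩
          have := hac i.castSucc
          rw [Fin.snoc_castSucc] at this
          by_cases hs : 0 < eval x (f i)
          · simp only [PartD.sg, hs, decide_true, if_true, one_mul]
            exact (mul_pos_iff_of_pos_left hs).1 this
          · have hs' : eval x (f i) < 0 := lt_of_le_of_ne (not_lt.1 hs) (hx1 i)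
            simp only [PartD.sg, hs, decide_false, Bool.false_eq_true, if_false]
            nlinarith [(mul_pos_iff.1 this)]
        · have := hac (Fin.last t)
          rw [Fin.snoc_last] at this
          exact this
      rcases lt_or_gt_of_ne hx2 with hs | hs
      · refine le_trans (Nat.mul_le_mul_left 2 (Finset.card_le_card ?_)) hn
        intro a ha
        obtain ⟨h1, h2⟩ := hsub a ha
        rw [Finset.mem_filter]
        refine ⟨h1, ?_⟩
        rcases mul_pos_iff.1 h2 with ⟨h3, _⟩ | ⟨_, h3⟩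
        · exact absurd h3 (not_lt.2 hs.le)
        · exact h3
      · refine le_trans (Nat.mul_le_mul_left 2 (Finset.card_le_card ?_)) hp
        intro a ha
        obtain ⟨h1, h2⟩ := hsub a ha
        rw [Finset.mem_filter]
        exact ⟨h1, (mul_pos_iff_of_pos_left hs).1 h2⟩
    calc 2 ^ (t + 1) * (A.filter (fun a => sameCl (Fin.snoc f g :
          Fin (t + 1) → MvPolynomial (Fin 2) ℝ) x (v2 a))).card
        = 2 ^ t * (2 * (A.filter (fun a => sameCl (Fin.snoc f g :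
          Fin (t + 1) → MvPolynomial (Fin 2) ℝ) x (v2 a))).card) := by ring
      _ ≤ 2 ^ t * (cl (fun i => decide (0 < eval x (f i)))).card :=
          Nat.mul_le_mul_left _ key
      _ ≤ A.card := hclc _
  · have h0 : A.filter (fun a => sameCl (Fin.snoc f g :
        Fin (t + 1) → MvPolynomial (Fin 2) ℝ) x (v2 a)) = ∅ := by
      rw [Finset.filter_eq_empty_iff]
      intro a _ hac
      apply hx
      constructor
      · intro i hi
        have := hac i.castSucc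
        rw [Fin.snoc_castSucc, hi, zero_mul] at this
        exact lt_irrefl _ this
      · intro hi
        have := hac (Fin.last t)
        rw [Fin.snoc_last, hi, zero_mul] at this
        exact lt_irrefl _ this
    rw [h0, Finset.card_empty, mul_zero]
    exact Nat.zero_le _

/-- choice of the degree of one step -/
theorem partg_choice (d t : ℕ) (hd : 1 ≤ d) : ∃ e : ℕ,
    2 * (2 ^ t + 1) ≤ (e + 1) * min d (e + 1) ∧
    (d : ℝ) * e + (4 * 2 ^ t + 5 * d * min (Real.sqrt 2 ^ t) d) ≤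
      4 * 2 ^ (t + 1) + 5 * d * min (Real.sqrt 2 ^ (t + 1)) d := by
  have h2 : Real.sqrt 2 ^ 2 = 2 := Real.sq_sqrt (by norm_num)
  have hr1 : (1.4 : ℝ) ≤ Real.sqrt 2 := by
    apply Real.le_sqrt_of_sq_le
    norm_num
  have hr2 : Real.sqrt 2 ≤ 1.5 := by
    rw [Real.sqrt_le_left (by norm_num)]
    norm_num
  set s : ℝ := Real.sqrt 2 ^ t with hs
  have hs0 : 0 < s := by positivity
  have hss : s ^ 2 = 2 ^ t := by
    rw [hs, ← pow_mul, mul_comm, pow_mul, h2]
  have hd0 : (1 : ℝ) ≤ d := by exact_mod_cast hd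
  have ht1 : (1 : ℝ) ≤ 2 ^ t := one_le_pow₀ (by norm_num)
  have hsucc : Real.sqrt 2 ^ (t + 1) = Real.sqrt 2 * s := by rw [pow_succ, mul_comm]
  rw [hsucc]
  by_cases hc : 2 * s ≤ d
  · set e := ⌊2 * s⌋₊ with he
    have he1 : (e : ℝ) ≤ 2 * s := Nat.floor_le (by positivity)
    have he2 : 2 * s < e + 1 := Nat.lt_floor_add_one _
    refine ⟨e, ?_, ?_⟩
    · have hed : e ≤ d := by
        have : (e : ℝ) ≤ d := he1.trans hc
        exact_mod_cast this
      rcases Nat.lt_or_ge e d with h | h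
      · rw [min_eq_right (by omega)]
        have h3 : (2 * (2 ^ t + 1) : ℝ) ≤ (e + 1) * (e + 1) := by nlinarith
        exact_mod_cast h3
      · have hed' : e = d := le_antisymm hed h
        rw [hed', min_eq_left (by omega)]
        have h4 : (d : ℝ) ≤ 2 * s := by rw [← hed']; exact he1
        have h5 : (d : ℝ) = 2 * s := le_antisymm h4 hc
        have h3 : (2 * (2 ^ t + 1) : ℝ) ≤ (d + 1) * d := by rw [h5, ← hss]; nlinarith
        exact_mod_cast h3
    · have h6 : min s (d : ℝ) = s := min_eq_left (by linarith)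
      have h7 : min (Real.sqrt 2 * s) (d : ℝ) = Real.sqrt 2 * s := min_eq_left (by nlinarith)
      rw [h6, h7, pow_succ]
      have h8 : (d : ℝ) * e ≤ d * (2 * s) := by nlinarith
      have h9 : 0 ≤ (d : ℝ) * s := by positivity
      nlinarith
  · push Not at hc
    set e := 4 * 2 ^ t / d with he
    have he1 : e * d ≤ 4 * 2 ^ t := Nat.div_mul_le_self _ _
    have he2 : 4 * 2 ^ t < (e + 1) * d := by
      exact Nat.lt_mul_of_div_lt (Nat.lt_succ_self _) (by omega)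
    have h3 : (d : ℝ) * d < 4 * 2 ^ t := by rw [← hss]; nlinarith
    have h4 : d * d < 4 * 2 ^ t := by exact_mod_cast h3
    have h5 : d < e + 1 := by
      have : d * d < (e + 1) * d := h4.trans he2
      exact lt_of_mul_lt_mul_right this (Nat.zero_le _)
    refine ⟨e, ?_, ?_⟩
    · rw [min_eq_left h5.le]
      have : 1 ≤ 2 ^ t := Nat.one_le_two_pow
      omega
    · have h6 : (e : ℝ) * d ≤ 4 * 2 ^ t := by exact_mod_cast he1
      have h7 : min s (d : ℝ) ≤ min (Real.sqrt 2 * s) (d : ℝ) :=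
        min_le_min_right _ (by nlinarith)
      have h8 : 5 * (d : ℝ) * min s (d : ℝ) ≤ 5 * d * min (Real.sqrt 2 * s) (d : ℝ) :=
        mul_le_mul_of_nonneg_left h7 (by positivity)
      rw [pow_succ]
      nlinarith

open scoped Classical in
theorem partg_main (hs : HS) (hm : MonG) (g : MvPolynomial (Fin 2) ℝ) (hg : g ≠ 0)
    (hd : 1 ≤ g.totalDegree) (A : Finset Pt) (t : ℕ) :
    ∃ h : Fin t → MvPolynomial (Fin 2) ℝ, (∀ j, ¬ g ∣ h j) ∧
      ((g.totalDegree * ∑ j, (h j).totalDegree : ℕ) : ℝ) ≤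
        4 * 2 ^ t + 5 * g.totalDegree * min (Real.sqrt 2 ^ t) g.totalDegree ∧
      ∀ x : Fin 2 → ℝ, 2 ^ t * (A.filter (fun a => sameCl h x (v2 a))).card ≤ A.card := by
  induction t with
  | zero =>
    refine ⟨fun j => j.elim0, fun j => j.elim0, ?_, fun x => ?_⟩
    · simp only [Finset.univ_eq_empty, Finset.sum_empty, mul_zero, Nat.cast_zero, pow_zero]
      have : 0 ≤ min (1 : ℝ) (g.totalDegree : ℝ) := by positivity
      positivity
    · rw [pow_zero, one_mul]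
      exact Finset.card_filter_le _ _
  | succ t ih =>
    obtain ⟨f, hf1, hf2, hf3⟩ := ih
    obtain ⟨e, he1, he2⟩ := partg_choice g.totalDegree t hd
    obtain ⟨h, ⟨hh1, hh2⟩, hh3⟩ := partg_step t A f hf3
      (fun h => ¬ g ∣ h ∧ h.totalDegree ≤ e) (fun B => by
        obtain ⟨h, a1, a2, a3⟩ := partg_poly hs hm g hg hd (2 ^ t) e he1 B
        exact ⟨h, ⟨a1, a2⟩, a3⟩)
    refine ⟨Fin.snoc f h, ?_, ?_, hh3⟩
    · intro j
      refine Fin.lastCases ?_ (fun j => ?_) j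
      · rw [Fin.snoc_last]
        exact hh1
      · rw [Fin.snoc_castSucc]
        exact hf1 j
    · rw [Fin.sum_univ_castSucc]
      simp only [Fin.snoc_castSucc, Fin.snoc_last]
      push_cast at hf2 ⊢
      have h1 : (h.totalDegree : ℝ) ≤ e := by exact_mod_cast hh2
      have h2 : (g.totalDegree : ℝ) * h.totalDegree ≤ g.totalDegree * e :=
        mul_le_mul_of_nonneg_left h1 (by positivity)
      nlinarith

theorem PartG_proof (hs : HS) (hm : MonG) : PartG := by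
  intro g hg hd A t
  obtain ⟨h, h1, h2, h3⟩ := partg_main hs hm g hg hd A t
  refine ⟨h, h1, ?_, h3⟩
  have h4 : min (Real.sqrt 2 ^ t) (g.totalDegree : ℝ) ≤ g.totalDegree := min_le_right _ _
  have h5 : 5 * (g.totalDegree : ℝ) * min (Real.sqrt 2 ^ t) (g.totalDegree : ℝ) ≤
      5 * g.totalDegree * g.totalDegree := mul_le_mul_of_nonneg_left h4 (by positivity)
  have h6 : (0 : ℝ) ≤ 2 ^ t := by positivity
  have h7 : (0 : ℝ) ≤ (g.totalDegree : ℝ) * g.totalDegree := by positivity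
  have h8 : ((g.totalDegree * ∑ j, (h j).totalDegree : ℕ) : ℝ) ≤
      ((20 * (g.totalDegree ^ 2 + 2 ^ t) : ℕ) : ℝ) := by
    refine h2.trans ?_
    push_cast
    nlinarith
  exact_mod_cast h8

end Pool.Agent.Work.MP_916cc8_co

end

section

/-! Item TS: triangles as a sum over pairs; shear. -/

set_option autoImplicit false

namespace Pool.Agent.Work.MP_916cc8_co

open MvPolynomial

theorem TSum_proof : TSum := by
  classical
  intro S
  rw [gs_tri_eq]
  push_cast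
  rfl

/-- the shear -/
def ts_sh (h : ℝ) (p : Pt) : Pt := (p.1 + h * p.2, p.2)

theorem ts_sh_inj (h : ℝ) : Function.Injective (ts_sh h) := by
  intro p q hpq
  simp only [ts_sh, Prod.mk.injEq] at hpq
  obtain ⟨h1, h2⟩ := hpq
  rw [h2] at h1
  exact Prod.ext (by linarith) h2

theorem ts_cr (h : ℝ) (p q r : Pt) : cr (ts_sh h q - ts_sh h p) (ts_sh h r - ts_sh h p) =
    cr (q - p) (r - p) := by
  simp only [ts_sh, cr, Prod.fst_sub, Prod.snd_sub]
  ring

theorem SHEAR_proof : SHEAR := by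
  classical
  intro S
  obtain ⟨h, hinj⟩ := HInj_proof S
  refine ⟨S.image (ts_sh h), Finset.card_image_of_injective _ (ts_sh_inj h), ?_, ?_⟩
  · unfold tri
    symm
    apply Finset.card_nbij (fun z => (ts_sh h z.1, ts_sh h z.2.1, ts_sh h z.2.2))
    · intro z hz
      have hz' := Finset.mem_filter.1 (Finset.mem_coe.1 hz)
      have h1 := Finset.mem_product.1 hz'.1
      have h2 := Finset.mem_product.1 h1.2
      apply Finset.mem_coe.2
      rw [Finset.mem_filter, Finset.mem_product, Finset.mem_product]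
      refine ⟨⟨Finset.mem_image_of_mem _ h1.1, Finset.mem_image_of_mem _ h2.1,
        Finset.mem_image_of_mem _ h2.2⟩, ?_⟩
      simp only [ts_cr]
      exact hz'.2
    · intro z _ w _ hzw
      simp only [Prod.mk.injEq] at hzw
      exact Prod.ext (ts_sh_inj h hzw.1)
        (Prod.ext (ts_sh_inj h hzw.2.1) (ts_sh_inj h hzw.2.2))
    · rintro ⟨a, b, c⟩ hz
      have hz' := Finset.mem_filter.1 (Finset.mem_coe.1 hz)
      have h1 := Finset.mem_product.1 hz'.1
      have h2 := Finset.mem_product.1 h1.2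
      simp only at h1 h2
      obtain ⟨p, hp, rfl⟩ := Finset.mem_image.1 h1.1
      obtain ⟨q, hq, rfl⟩ := Finset.mem_image.1 h2.1
      obtain ⟨r, hr, rfl⟩ := Finset.mem_image.1 h2.2
      have h3 := hz'.2
      simp only [ts_cr] at h3
      refine ⟨(p, q, r), ?_, rfl⟩
      apply Finset.mem_coe.2
      rw [Finset.mem_filter, Finset.mem_product, Finset.mem_product]
      exact ⟨⟨hp, hq, hr⟩, h3⟩
  · intro p hp q hq hpq
    obtain ⟨p', hp', rfl⟩ := Finset.mem_image.1 hp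
    obtain ⟨q', hq', rfl⟩ := Finset.mem_image.1 hq
    have : p' = q' := hinj p' hp' q' hq' hpq
    rw [this]

end Pool.Agent.Work.MP_916cc8_co

end

section

/-! Lines with at least `2 sqrt n` points. -/

set_option autoImplicit false

namespace Pool.Agent.Work.MP_916cc8_co

theorem VeryRich_proof : VeryRich := by
  intro S L hL
  have h1 := LineKST_proof S L fun ℓ hℓ => (hL ℓ hℓ).1
  have h2 : ∑ ℓ ∈ L, (2 * Real.sqrt S.card) ≤ ∑ ℓ ∈ L, (rich S ℓ : ℝ) :=
    Finset.sum_le_sum fun ℓ hℓ => (hL ℓ hℓ).2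
  rw [Finset.sum_const, nsmul_eq_mul] at h2
  linarith

end Pool.Agent.Work.MP_916cc8_co

end

section

/-! Item War: planar Warren bound via critical points. -/

set_option autoImplicit false

namespace Pool.Agent.Work.MP_916cc8_co

open MvPolynomial WAux

namespace WAux

variable {t : ℕ} {f : Fin t → MvPolynomial (Fin 2) ℝ} {Rad : ℝ}

theorem abs_le_rad {z x : Fin 2 → ℝ} (hR : 0 < Rad) (hx : x ∈ KK f Rad z) :
    |x 0| ≤ Rad ∧ |x 1| ≤ Rad := by
  have h1 := hx.1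
  constructor
  · apply abs_le_of_sq_le_sq _ hR.le
    nlinarith [sq_nonneg (x 1)]
  · apply abs_le_of_sq_le_sq _ hR.le
    nlinarith [sq_nonneg (x 0)]
where
  abs_le_of_sq_le_sq {a b : ℝ} (h : a ^ 2 ≤ b ^ 2) (hb : 0 ≤ b) : |a| ≤ b := by
    have := sq_le_sq.1 h
    rwa [abs_of_nonneg hb] at this

/-- a local maximum in `U_z` of a small linear perturbation of `g0` -/
theorem exists_max {z : Fin 2 → ℝ} (hR : 0 < Rad) (hz : z 0 ^ 2 + z 1 ^ 2 < Rad ^ 2)
    (hf : ∀ j, eval z (f j) ≠ 0) {m0 d1 d2 : ℝ} (hm : m0 ≤ eval z (g0 f Rad))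
    (h1 : |d1| * Rad ≤ m0 / 8) (h2 : |d2| * Rad ≤ m0 / 8) (hm0 : 0 < m0) :
    ∃ x ∈ UU f Rad z, IsLocalMax (fun y => eval y (g0 f Rad + C d1 * X 0 + C d2 * X 1)) x := by
  have hzU : z ∈ UU f Rad z := mem_UU hz hf
  have hzK : z ∈ KK f Rad z := UU_subset z hzU
  obtain ⟨x, hxK, hx⟩ := (isCompact_KK (f := f) (Rad := Rad) z).exists_isMaxOn ⟨z, hzK⟩
    (continuous_eval' (g0 f Rad + C d1 * X 0 + C d2 * X 1)).continuousOn
  have hlin : ∀ y ∈ KK f Rad z, |d1 * y 0 + d2 * y 1| ≤ m0 / 4 := by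
    intro y hy
    obtain ⟨a1, a2⟩ := abs_le_rad hR hy
    refine (abs_add_le _ _).trans ?_
    rw [abs_mul, abs_mul]
    have b1 : |d1| * |y 0| ≤ |d1| * Rad := mul_le_mul_of_nonneg_left a1 (abs_nonneg _)
    have b2 : |d2| * |y 1| ≤ |d2| * Rad := mul_le_mul_of_nonneg_left a2 (abs_nonneg _)
    linarith
  have hev : ∀ y, eval y (g0 f Rad + C d1 * X 0 + C d2 * X 1) =
      eval y (g0 f Rad) + (d1 * y 0 + d2 * y 1) := by
    intro y
    simp
    ring
  have hxU : x ∈ UU f Rad z := by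
    by_contra hc
    have e1 := hx hzK
    simp only [Set.mem_ofPred_eq, hev] at e1
    rw [g0_boundary hf hxK hc] at e1
    have e2 := abs_le.1 (hlin x hxK)
    have e3 := abs_le.1 (hlin z hzK)
    linarith
  refine ⟨x, hxU, ?_⟩
  filter_upwards [(isOpen_UU z).mem_nhds hxU] with y hy
  exact hx (UU_subset z hy)

/-- a small constant outside a finite set -/
theorem exists_small {S : Set ℝ} (hS : S.Finite) {e : ℝ} (he : 0 < e) : ∃ c, 0 < c ∧ c < e ∧ c ∉ S := by
  obtain ⟨c, hc, hcS⟩ := ((Set.Ioo_infinite he).diff hS).nonempty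
  exact ⟨c, hc.1, hc.2, hcS⟩

end WAux

/-- planar Warren bound -/
theorem War_proof (hr : RPS) (hb : Bez) : War := by
  intro t f Z hf hZ
  obtain ⟨Rad, hR, hRad⟩ := exists_rad Z
  obtain ⟨m0, hm0, hm⟩ := exists_min Z (fun z => eval z (g0 f Rad))
    (fun z hz => g0_pos (mem_UU (hRad z hz) (hf z hz)))
  set e : ℝ := m0 / (8 * Rad) with he
  have he0 : 0 < e := by positivity
  have heR : e * Rad = m0 / 8 := by
    rw [he]
    field_simp
  -- choice of the first coefficient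
  obtain ⟨d1, hd1, hd1e, hP⟩ : ∃ d1, 0 < d1 ∧ d1 < e ∧ pderiv 0 (g0 f Rad) + C d1 ≠ 0 := by
    by_cases h : pderiv 0 (g0 f Rad) + C (e / 2) = 0
    · refine ⟨e / 3, by positivity, by linarith, fun h2 => ?_⟩
      have h3 : C (e / 2) = (C (e / 3) : MvPolynomial (Fin 2) ℝ) :=
        add_left_cancel (h.trans h2.symm)
      have h4 := C_injective (Fin 2) ℝ h3
      linarith
    · exact ⟨e / 2, by positivity, by linarith, h⟩
  obtain ⟨c, hc, hce, hcR⟩ := exists_small (hr (pderiv 1 (g0 f Rad)) _ hP) he0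
  have hrel : IsRelPrime (pderiv 1 (g0 f Rad) - C c) (pderiv 0 (g0 f Rad) + C d1) := by
    by_contra h
    exact hcR h
  -- critical points
  have hex : ∀ z ∈ Z, ∃ x ∈ UU f Rad z, eval x (pderiv 1 (g0 f Rad) - C c) = 0 ∧
      eval x (pderiv 0 (g0 f Rad) + C d1) = 0 := by
    intro z hz
    obtain ⟨x, hxU, hx⟩ := exists_max (d1 := d1) (d2 := -c) hR (hRad z hz) (hf z hz) (hm z hz)
      (by
        rw [abs_of_pos hd1, ← heR]
        exact mul_le_mul_of_nonneg_right hd1e.le hR.le)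
      (by
        rw [abs_neg, abs_of_pos hc, ← heR]
        exact mul_le_mul_of_nonneg_right hce.le hR.le) hm0
    refine ⟨x, hxU, ?_, ?_⟩
    · have h1 := pderiv_eq_zero_of_isLocalMax _ hx 1
      have h2 : pderiv 1 (g0 f Rad + C d1 * X 0 + C (-c) * X 1 : MvPolynomial (Fin 2) ℝ) =
          pderiv 1 (g0 f Rad) - C c := by
        simp [Derivation.leibniz, pderiv_X, sub_eq_add_neg]
      rwa [h2] at h1
    · have h1 := pderiv_eq_zero_of_isLocalMax _ hx 0
      have h2 : pderiv 0 (g0 f Rad + C d1 * X 0 + C (-c) * X 1 : MvPolynomial (Fin 2) ℝ) =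
          pderiv 0 (g0 f Rad) + C d1 := by
        simp [Derivation.leibniz, pderiv_X]
      rwa [h2] at h1
  classical
  choose! x hxU hx1 hx2 using hex
  have hinj : Set.InjOn x Z := by
    intro z hz w hw hzw
    have h1 := hxU z hz
    rw [hzw] at h1
    exact hZ z hz w hw (UU_disj h1 (hxU w hw))
  have hcard := hb _ _ hrel (Z.image x) (fun y hy => by
    obtain ⟨z, hz, rfl⟩ := Finset.mem_image.1 hy
    exact ⟨hx1 z hz, hx2 z hz⟩)
  rw [Finset.card_image_of_injOn hinj] at hcard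
  have hdeg := totalDegree_g0 (f := f) (Rad := Rad)
  have k1 : (pderiv 1 (g0 f Rad) - C c).totalDegree ≤ 2 * (∑ j, (f j).totalDegree) + 1 := by
    refine (totalDegree_sub _ _).trans (max_le ?_ ?_)
    · exact (totalDegree_pderiv_le _ _).trans (by omega)
    · rw [totalDegree_C]
      omega
  have k2 : (pderiv 0 (g0 f Rad) + C d1).totalDegree ≤ 2 * (∑ j, (f j).totalDegree) + 1 := by
    refine (totalDegree_add _ _).trans (max_le ?_ ?_)
    · exact (totalDegree_pderiv_le _ _).trans (by omega)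
    · rw [totalDegree_C]
      omega
  refine hcard.trans ((Nat.mul_le_mul k1 k2).trans ?_)
  rw [sq]
  exact Nat.mul_le_mul (by omega) (by omega)

end Pool.Agent.Work.MP_916cc8_co

end

section

/-! MP_916cc8_co: crossing along curves of both structures (helper65). -/

set_option autoImplicit false

namespace Pool.Agent.Work.MP_916cc8_co

open MvPolynomial

theorem x11_v2_inj : Function.Injective v2 := by
  intro a b h
  have h0 := congrFun h 0
  have h1 := congrFun h 1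
  simp only [v2, Matrix.cons_val_zero, Matrix.cons_val_one] at h0 h1
  exact Prod.ext h0 h1

/-- `CW` for a family with any finite index type, at points of the plane -/
theorem x11_cw (hc : CW) {ι : Type} [Fintype ι] (g : MvPolynomial (Fin 2) ℝ)
    (f : ι → MvPolynomial (Fin 2) ℝ) (Z : Finset Pt) (hg : g ≠ 0)
    (h1 : ∀ z ∈ Z, eval (v2 z) g = 0 ∧ ∀ j, eval (v2 z) (f j) ≠ 0)
    (h2 : ∀ z ∈ Z, ∀ w ∈ Z, (∀ j, 0 < eval (v2 z) (f j) * eval (v2 w) (f j)) → z = w) :
    Z.card ≤ 2 * g.totalDegree * (g.totalDegree + 2 * ∑ j, (f j).totalDegree + 2) := by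
  classical
  have h := hc g (Fintype.card ι) (fun j => f ((Fintype.equivFin ι).symm j)) (Z.image v2) hg
    (by
      intro z hz
      obtain ⟨a, ha, rfl⟩ := Finset.mem_image.1 hz
      exact ⟨(h1 a ha).1, fun j => (h1 a ha).2 _⟩)
    (by
      intro z hz w hw hs
      obtain ⟨a, ha, rfl⟩ := Finset.mem_image.1 hz
      obtain ⟨b, hb, rfl⟩ := Finset.mem_image.1 hw
      congr 1
      refine h2 a ha b hb fun j => ?_
      have := hs (Fintype.equivFin ι j)
      simpa using this)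
  rw [Finset.card_image_of_injective _ x11_v2_inj] at h
  have e : ∑ j, (f ((Fintype.equivFin ι).symm j)).totalDegree = ∑ j, (f j).totalDegree :=
    Equiv.sum_comp (Fintype.equivFin ι).symm (fun j => (f j).totalDegree)
  rwa [e] at h

/-- one pair of curves, the curve of `K` is contained in the pull back of the curve of `M` -/
theorem x11_one (hc : CW) (hp : PB) (K M : Cells) (p : Pt) (i : Fin K.s) (j : Fin M.s)
    (Z : Finset Pt) (hi : K.g i ≠ 0)
    (h4 : ∀ z ∈ Z, z.1 ≠ p.1 ∧ K.R1 i z ∧ M.R1 j (dp p z))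
    (h5 : ∀ z ∈ Z, ∀ w ∈ Z, K.SC z w → M.SC (dp p z) (dp p w) → z = w) :
    Z.card ≤ 2 * (K.g i).totalDegree * ((K.g i).totalDegree +
      2 * (∑ k, (K.h i k).totalDegree + ∑ k, (M.h j k).totalDegree + 1) + 2) := by
  classical
  choose Q hQd hQ0 hQ using fun k => hp p (M.h j k)
  set f : (Fin (K.t i) ⊕ Fin (M.t j)) ⊕ Unit → MvPolynomial (Fin 2) ℝ :=
    Sum.elim (Sum.elim (K.h i) Q) (fun _ => X 0 - C p.1) with hf
  have hX : ∀ z : Pt, eval (v2 z) (X 0 - C p.1 : MvPolynomial (Fin 2) ℝ) = z.1 - p.1 := by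
    intro z
    simp [v2]
  have h := x11_cw hc (K.g i) f Z hi
    (by
      intro z hz
      obtain ⟨a1, ⟨a2, a3, a4⟩, ⟨b2, b3, b4⟩⟩ := h4 z hz
      refine ⟨a2, ?_⟩
      have a5 : z.1 - p.1 ≠ 0 := sub_ne_zero.2 a1
      rintro ((k | k) | k)
      · exact a4 k
      · show eval (v2 z) (Q k) ≠ 0
        rw [hQ k z a1]
        exact mul_ne_zero (pow_ne_zero _ a5) (b4 k)
      · show eval (v2 z) (X 0 - C p.1) ≠ 0
        rw [hX]
        exact a5)
    (by
      intro z hz w hw hs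
      obtain ⟨a1, a2, a3⟩ := h4 z hz
      obtain ⟨b1, b2, b3⟩ := h4 w hw
      refine h5 z hz w hw (Or.inr ⟨i, a2, b2, fun k => hs (Sum.inl (Sum.inl k))⟩)
        (Or.inr ⟨j, a3, b3, fun k => ?_⟩)
      have c1 : 0 < eval (v2 z) (X 0 - C p.1 : MvPolynomial (Fin 2) ℝ) *
          eval (v2 w) (X 0 - C p.1 : MvPolynomial (Fin 2) ℝ) := hs (Sum.inr ())
      have c2 : 0 < eval (v2 z) (Q k) * eval (v2 w) (Q k) := hs (Sum.inl (Sum.inr k))
      rw [hX, hX] at c1
      rw [hQ k z a1, hQ k w b1] at c2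
      have c3 : 0 < ((z.1 - p.1) * (w.1 - p.1)) ^ (M.h j k).totalDegree := pow_pos c1 _
      have c4 : 0 < ((z.1 - p.1) * (w.1 - p.1)) ^ (M.h j k).totalDegree *
          (eval (v2 (dp p z)) (M.h j k) * eval (v2 (dp p w)) (M.h j k)) := by
        rw [mul_pow]
        calc (0 : ℝ) < _ := c2
          _ = _ := by ring
      exact (pos_iff_pos_of_mul_pos c4).1 c3)
  have hsum : ∑ k, (f k).totalDegree ≤
      ∑ k, (K.h i k).totalDegree + ∑ k, (M.h j k).totalDegree + 1 := by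
    rw [Fintype.sum_sum_type, Fintype.sum_sum_type]
    refine add_le_add (add_le_add le_rfl (Finset.sum_le_sum fun k _ => hQd k)) ?_
    rw [Fintype.sum_unique]
    show (X 0 - C p.1 : MvPolynomial (Fin 2) ℝ).totalDegree ≤ 1
    refine (totalDegree_sub _ _).trans ?_
    rw [totalDegree_X, totalDegree_C]
    simp
  refine h.trans ?_
  gcongr

/-- distinct irreducible factors -/
theorem x11_deg {s : ℕ} (g : Fin s → MvPolynomial (Fin 2) ℝ) (hirr : ∀ i, Irreducible (g i))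
    (hd : ∀ i i', i ≠ i' → ¬ (g i ∣ g i')) {Q : MvPolynomial (Fin 2) ℝ} (hQ : Q ≠ 0)
    (I : Finset (Fin s)) (hI : ∀ i ∈ I, g i ∣ Q) :
    ∑ i ∈ I, (g i).totalDegree ≤ Q.totalDegree := by
  classical
  have h1 : ∏ i ∈ I, g i ∣ Q := by
    refine Finset.prod_dvd_of_isRelPrime ?_ hI
    intro i _ i' _ hne
    exact (hirr i).isRelPrime_iff_not_dvd.2 (hd i i' hne)
  have h2 : (∏ i ∈ I, g i).totalDegree = ∑ i ∈ I, (g i).totalDegree := by
    clear h1 hI
    induction I using Finset.induction_on with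
    | empty => simp
    | insert a I ha ih =>
      rw [Finset.prod_insert ha, Finset.sum_insert ha,
        totalDegree_mul_of_isDomain (hirr a).ne_zero
          (Finset.prod_ne_zero_iff.2 fun i _ => (hirr i).ne_zero), ih]
  rw [← h2]
  obtain ⟨R, hR⟩ := h1
  have hR0 : R ≠ 0 := by rintro rfl; exact hQ (by rw [hR, mul_zero])
  have hP0 : ∏ i ∈ I, g i ≠ 0 := Finset.prod_ne_zero_iff.2 fun i _ => (hirr i).ne_zero
  rw [hR, totalDegree_mul_of_isDomain hP0 hR0]
  exact Nat.le_add_right _ _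

theorem X11_proof (hc : CW) (hb : Bez) (hp : PB) : X11 := by
  classical
  intro K M p Z h1 h2 h3 h4 h5
  choose Q hQd hQ0 hQ using fun j => hp p (M.g j)
  have hQ0' : ∀ j, Q j ≠ 0 := fun j => hQ0 j (h3 j)
  set Zij : Fin K.s × Fin M.s → Finset Pt :=
    fun x => Z.filter fun z => K.R1 x.1 z ∧ M.R1 x.2 (dp p z) with hZij
  have hcov : Z ⊆ Finset.univ.biUnion Zij := by
    intro z hz
    obtain ⟨-, ⟨i, hi⟩, ⟨j, hj⟩⟩ := h4 z hz
    exact Finset.mem_biUnion.2 ⟨(i, j), Finset.mem_univ _, Finset.mem_filter.2 ⟨hz, hi, hj⟩⟩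
  have hZ : Z.card ≤ ∑ x, (Zij x).card :=
    (Finset.card_le_card hcov).trans Finset.card_biUnion_le
  set P : Fin K.s × Fin M.s → Prop := fun x => K.g x.1 ∣ Q x.2 with hP
  set A : Finset (Fin K.s × Fin M.s) := Finset.univ.filter fun x => P x ∧ (Zij x).Nonempty with hA
  -- the good pairs
  have hgood : ∀ x : Fin K.s × Fin M.s, ¬ P x →
      (Zij x).card ≤ (K.g x.1).totalDegree * (M.g x.2).totalDegree := by
    intro x hx
    have hr : IsRelPrime (K.g x.1) (Q x.2) := (h1 x.1).isRelPrime_iff_not_dvd.2 hx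
    have h := hb _ _ hr ((Zij x).image v2) (by
      intro z hz
      obtain ⟨a, ha, rfl⟩ := Finset.mem_image.1 hz
      obtain ⟨haZ, ha1, ha2⟩ := Finset.mem_filter.1 ha
      refine ⟨ha1.1, ?_⟩
      rw [hQ x.2 a (h4 a haZ).1, ha2.1, mul_zero])
    rw [Finset.card_image_of_injective _ x11_v2_inj] at h
    exact h.trans (Nat.mul_le_mul_left _ (hQd x.2))
  -- the bad pairs
  have hbad : ∀ x ∈ A, (Zij x).card ≤ 2 * (K.g x.1).totalDegree * ((K.g x.1).totalDegree +
      2 * (∑ k, (K.h x.1 k).totalDegree + ∑ k, (M.h x.2 k).totalDegree + 1) + 2) := by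
    intro x _
    refine x11_one hc hp K M p x.1 x.2 (Zij x) (h1 x.1).ne_zero ?_ ?_
    · intro z hz
      obtain ⟨hzZ, hz1, hz2⟩ := Finset.mem_filter.1 hz
      exact ⟨(h4 z hzZ).1, hz1, hz2⟩
    · intro z hz w hw
      exact h5 z (Finset.mem_filter.1 hz).1 w (Finset.mem_filter.1 hw).1
  have huniq : ∀ x ∈ A, ∀ y ∈ A, x.1 = y.1 → x = y := by
    rintro ⟨i, j⟩ hx ⟨i', j'⟩ hy hxy
    obtain rfl : i = i' := hxy
    obtain ⟨-, hx1, ⟨z, hz⟩⟩ := Finset.mem_filter.1 hx
    obtain ⟨-, hy1, -⟩ := Finset.mem_filter.1 hy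
    obtain ⟨hzZ, hz1, hz2⟩ := Finset.mem_filter.1 hz
    by_contra hne
    have hjj : j' ≠ j := fun h => hne (by rw [h])
    obtain ⟨R, hR⟩ := hy1
    have e1 : eval (v2 z) (Q j') = 0 := by
      have : Q j' = K.g i * R := hR
      rw [this, map_mul, hz1.1, zero_mul]
    rw [hQ j' z (h4 z hzZ).1] at e1
    rcases mul_eq_zero.1 e1 with h | h
    · exact (pow_ne_zero _ (sub_ne_zero.2 (h4 z hzZ).1)) h
    · exact hz2.2.1 j' hjj h
  -- sums over bad pairs of functions of the first component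
  have hfst : ∀ F : Fin K.s → ℕ, ∑ x ∈ A, F x.1 ≤ ∑ i, F i := by
    intro F
    rw [← Finset.sum_image (s := A) (g := Prod.fst) (f := F) (fun x hx y hy h => huniq x hx y hy h)]
    exact Finset.sum_le_sum_of_subset (Finset.subset_univ _)
  have hsnd : ∑ x ∈ A, (K.g x.1).totalDegree * ∑ k, (M.h x.2 k).totalDegree ≤
      ∑ j, (M.g j).totalDegree * ∑ k, (M.h j k).totalDegree := by
    have e1 : ∑ x ∈ A, (K.g x.1).totalDegree * ∑ k, (M.h x.2 k).totalDegree =
        ∑ j, ∑ x ∈ A.filter (fun x => x.2 = j),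
          (K.g x.1).totalDegree * ∑ k, (M.h x.2 k).totalDegree :=
      (Finset.sum_fiberwise A (fun x => x.2) _).symm
    rw [e1]
    refine Finset.sum_le_sum fun j _ => ?_
    have e2 : ∑ x ∈ A.filter (fun x => x.2 = j),
        (K.g x.1).totalDegree * ∑ k, (M.h x.2 k).totalDegree =
        (∑ x ∈ A.filter (fun x => x.2 = j), (K.g x.1).totalDegree) *
          ∑ k, (M.h j k).totalDegree := by
      rw [Finset.sum_mul]
      refine Finset.sum_congr rfl fun x hx => ?_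
      rw [(Finset.mem_filter.1 hx).2]
    rw [e2]
    refine Nat.mul_le_mul_right _ ?_
    have e3 : ∑ x ∈ A.filter (fun x => x.2 = j), (K.g x.1).totalDegree =
        ∑ i ∈ (A.filter (fun x => x.2 = j)).image Prod.fst, (K.g i).totalDegree := by
      rw [Finset.sum_image]
      intro x hx y hy h
      exact huniq x (Finset.mem_filter.1 hx).1 y (Finset.mem_filter.1 hy).1 h
    rw [e3]
    refine (x11_deg K.g h1 h2 (hQ0' j) _ ?_).trans (hQd j)
    intro i hi
    obtain ⟨x, hx, rfl⟩ := Finset.mem_image.1 hi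
    obtain ⟨hx1, hx2⟩ := Finset.mem_filter.1 hx
    have := (Finset.mem_filter.1 hx1).2.1
    rw [← hx2]
    exact this
  -- the total
  have hsplit : ∑ x, (Zij x).card ≤ ∑ x : Fin K.s × Fin M.s,
      (K.g x.1).totalDegree * (M.g x.2).totalDegree + ∑ x ∈ A, (Zij x).card := by
    rw [← Finset.sum_filter_add_sum_filter_not Finset.univ (fun x => x ∈ A)
      (fun x => (Zij x).card), add_comm]
    refine add_le_add ?_ (le_of_eq ?_)
    · calc ∑ x ∈ Finset.univ.filter (fun x => ¬ x ∈ A), (Zij x).card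
          ≤ ∑ x ∈ Finset.univ.filter (fun x => ¬ x ∈ A),
              (K.g x.1).totalDegree * (M.g x.2).totalDegree := by
            refine Finset.sum_le_sum fun x hx => ?_
            have hxA := (Finset.mem_filter.1 hx).2
            by_cases hPx : P x
            · have hem : ¬ (Zij x).Nonempty := fun hne =>
                hxA (Finset.mem_filter.2 ⟨Finset.mem_univ _, hPx, hne⟩)
              rw [Finset.not_nonempty_iff_eq_empty.1 hem]
              simp
            · exact hgood x hPx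
        _ ≤ _ := Finset.sum_le_sum_of_subset (Finset.subset_univ _)
    · congr 1
      ext x
      simp
  have hprod : ∑ x : Fin K.s × Fin M.s, (K.g x.1).totalDegree * (M.g x.2).totalDegree =
      (∑ i, (K.g i).totalDegree) * (∑ j, (M.g j).totalDegree) := by
    rw [Fintype.sum_prod_type, Finset.sum_mul_sum]
  have hAs : ∑ x ∈ A, (Zij x).card ≤
      2 * ∑ x ∈ A, (K.g x.1).totalDegree ^ 2 +
      4 * ∑ x ∈ A, (K.g x.1).totalDegree * ∑ k, (K.h x.1 k).totalDegree +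
      4 * ∑ x ∈ A, (K.g x.1).totalDegree * ∑ k, (M.h x.2 k).totalDegree +
      8 * ∑ x ∈ A, (K.g x.1).totalDegree := by
    rw [Finset.mul_sum, Finset.mul_sum, Finset.mul_sum, Finset.mul_sum, ← Finset.sum_add_distrib,
      ← Finset.sum_add_distrib, ← Finset.sum_add_distrib]
    refine Finset.sum_le_sum fun x hx => (hbad x hx).trans (le_of_eq ?_)
    ring
  have s1 := hfst (fun i => (K.g i).totalDegree ^ 2)
  have s2 := hfst (fun i => (K.g i).totalDegree * ∑ k, (K.h i k).totalDegree)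
  have s3 := hfst (fun i => (K.g i).totalDegree)
  have s4 : ∑ i, (K.g i).totalDegree ^ 2 ≤ (∑ i, (K.g i).totalDegree) ^ 2 :=
    Finset.sum_sq_le_sq_sum_of_nonneg fun i _ => Nat.zero_le _
  rw [hprod] at hsplit
  omega

end Pool.Agent.Work.MP_916cc8_co

end

section

/-! Crossing bounds: `X22`, `X12`, `X21`. -/

set_option autoImplicit false

namespace Pool.Agent.Work.MP_916cc8_co

open MvPolynomial

theorem xcross_v2 {z w : Pt} (h : v2 z = v2 w) : z = w := by
  have h0 := congrFun h 0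
  have h1 := congrFun h 1
  simp only [v2, Matrix.cons_val_zero, Matrix.cons_val_one] at h0 h1
  exact Prod.ext h0 h1

theorem xcross_lin (p z : Pt) :
    eval (v2 z) (X 0 - C p.1 : MvPolynomial (Fin 2) ℝ) = z.1 - p.1 := by
  simp [v2]

theorem xcross_deg (c : ℝ) : (X 0 - C c : MvPolynomial (Fin 2) ℝ).totalDegree ≤ 1 := by
  refine (totalDegree_sub _ _).trans ?_
  rw [totalDegree_X, totalDegree_C]
  exact le_rfl

theorem xcross_fam (hp : PB) (p : Pt) {m k : ℕ} (a : Fin m → MvPolynomial (Fin 2) ℝ)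
    (b : Fin k → MvPolynomial (Fin 2) ℝ) :
    ∃ (N : ℕ) (F : Fin N → MvPolynomial (Fin 2) ℝ),
      ∑ j, (F j).totalDegree ≤ ∑ j, (a j).totalDegree + ∑ j, (b j).totalDegree + 1 ∧
      (∀ z : Pt, z.1 ≠ p.1 → (∀ j, eval (v2 z) (a j) ≠ 0) →
        (∀ j, eval (v2 (dp p z)) (b j) ≠ 0) → ∀ j, eval (v2 z) (F j) ≠ 0) ∧
      ∀ z w : Pt, z.1 ≠ p.1 → w.1 ≠ p.1 → sameCl F (v2 z) (v2 w) →
        sameCl a (v2 z) (v2 w) ∧ sameCl b (v2 (dp p z)) (v2 (dp p w)) := by
  choose Q hQd hQn hQe using fun j => hp p (b j)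
  refine ⟨(m + k) + 1, Fin.append (Fin.append a Q) (fun _ => X 0 - C p.1), ?_, ?_, ?_⟩
  · rw [Fin.sum_univ_add, Fin.sum_univ_add]
    simp only [Fin.append_left, Fin.append_right, Finset.univ_unique, Finset.sum_singleton]
    have h1 : ∑ j, (Q j).totalDegree ≤ ∑ j, (b j).totalDegree :=
      Finset.sum_le_sum fun j _ => hQd j
    have h2 := xcross_deg p.1
    omega
  · intro z hz ha hb j
    refine Fin.addCases (fun j => ?_) (fun j => ?_) j
    · rw [Fin.append_left]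
      refine Fin.addCases (fun j => ?_) (fun j => ?_) j
      · rw [Fin.append_left]
        exact ha j
      · rw [Fin.append_right, hQe j z hz]
        exact mul_ne_zero (pow_ne_zero _ (sub_ne_zero.mpr hz)) (hb j)
    · rw [Fin.append_right, xcross_lin]
      exact sub_ne_zero.mpr hz
  · intro z w hz hw h
    have h1 : 0 < (z.1 - p.1) * (w.1 - p.1) := by
      have := h (Fin.natAdd (m + k) 0)
      rwa [Fin.append_right, xcross_lin, xcross_lin] at this
    refine ⟨fun j => ?_, fun j => ?_⟩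
    · have := h (Fin.castAdd 1 (Fin.castAdd k j))
      rwa [Fin.append_left, Fin.append_left] at this
    · have h2 := h (Fin.castAdd 1 (Fin.natAdd m j))
      rw [Fin.append_left, Fin.append_right, hQe j z hz, hQe j w hw] at h2
      have h3 : (z.1 - p.1) ^ (b j).totalDegree * eval (v2 (dp p z)) (b j) *
          ((w.1 - p.1) ^ (b j).totalDegree * eval (v2 (dp p w)) (b j)) =
          ((z.1 - p.1) * (w.1 - p.1)) ^ (b j).totalDegree *
          (eval (v2 (dp p z)) (b j) * eval (v2 (dp p w)) (b j)) := by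
        rw [mul_pow]
        ring
      rw [h3] at h2
      exact (mul_pos_iff_of_pos_left (pow_pos h1 _)).mp h2

theorem xcross_card (Z : Finset Pt) : ∃ Z' : Finset (Fin 2 → ℝ), Z'.card = Z.card ∧
    ∀ x ∈ Z', ∃ z ∈ Z, v2 z = x := by
  classical
  refine ⟨Z.image v2, Finset.card_image_of_injective _ (fun _ _ h => xcross_v2 h), ?_⟩
  intro x hx
  obtain ⟨z, hz, rfl⟩ := Finset.mem_image.mp hx
  exact ⟨z, hz, rfl⟩

theorem X22_proof (hw : War) (hp : PB) : X22 := by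
  intro K M p Z _ h1 h2
  obtain ⟨N, F, hF1, hF2, hF3⟩ := xcross_fam hp p K.f M.f
  obtain ⟨Z', hc, hZ'⟩ := xcross_card Z
  have h3 := hw N F Z' (by
    intro x hx j
    obtain ⟨z, hz, rfl⟩ := hZ' x hx
    obtain ⟨e1, e2, e3⟩ := h1 z hz
    exact hF2 z e1 e2 e3 j) (by
    intro x hx y hy hxy
    obtain ⟨z, hz, rfl⟩ := hZ' x hx
    obtain ⟨w, hw', rfl⟩ := hZ' y hy
    obtain ⟨e1, e2⟩ := hF3 z w (h1 z hz).1 (h1 w hw').1 hxy
    rw [h2 z hz w hw' e1 e2])
  rw [← hc]
  refine h3.trans (Nat.pow_le_pow_left ?_ 2)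
  omega

theorem X12_proof (hc : CW) (hp : PB) : X12 := by
  intro K M p i Z hg h1 h2
  obtain ⟨N, F, hF1, hF2, hF3⟩ := xcross_fam hp p (K.h i) M.f
  obtain ⟨Z', hcd, hZ'⟩ := xcross_card Z
  have h3 := hc (K.g i) N F Z' hg (by
    intro x hx
    obtain ⟨z, hz, rfl⟩ := hZ' x hx
    obtain ⟨e1, ⟨e2, -, e4⟩, e3⟩ := h1 z hz
    exact ⟨e2, hF2 z e1 e4 e3⟩) (by
    intro x hx y hy hxy
    obtain ⟨z, hz, rfl⟩ := hZ' x hx
    obtain ⟨w, hw', rfl⟩ := hZ' y hy
    obtain ⟨e1, e2⟩ := hF3 z w (h1 z hz).1 (h1 w hw').1 hxy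
    rw [h2 z hz w hw' e1 e2])
  rw [← hcd]
  refine h3.trans (Nat.mul_le_mul_left _ ?_)
  omega

theorem X21_proof (hc : CW) (hp : PB) : X21 := by
  intro K M p i Z hg h1 h2
  obtain ⟨N, F, hF1, hF2, hF3⟩ := xcross_fam hp p K.f (M.h i)
  obtain ⟨Q, hQd, hQn, hQe⟩ := hp p (M.g i)
  obtain ⟨Z', hcd, hZ'⟩ := xcross_card Z
  have h3 := hc Q N F Z' (hQn hg) (by
    intro x hx
    obtain ⟨z, hz, rfl⟩ := hZ' x hx
    obtain ⟨e1, e2, ⟨e3, -, e4⟩⟩ := h1 z hz
    refine ⟨?_, hF2 z e1 e2 e4⟩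
    rw [hQe z e1, e3, mul_zero]) (by
    intro x hx y hy hxy
    obtain ⟨z, hz, rfl⟩ := hZ' x hx
    obtain ⟨w, hw', rfl⟩ := hZ' y hy
    obtain ⟨e1, e2⟩ := hF3 z w (h1 z hz).1 (h1 w hw').1 hxy
    rw [h2 z hz w hw' e1 e2])
  rw [← hcd]
  refine h3.trans (Nat.mul_le_mul (Nat.mul_le_mul_left _ hQd) ?_)
  omega

end Pool.Agent.Work.MP_916cc8_co

end

section

/-! Item CW: Warren bound along a plane curve (Lagrange multipliers). -/

set_option autoImplicit false

namespace Pool.Agent.Work.MP_916cc8_co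

open MvPolynomial WAux

namespace WAux

/-- the differential of an evaluation -/
theorem hasStrictFDerivAt_eval {n : ℕ} (p : MvPolynomial (Fin n) ℝ) (x : Fin n → ℝ) :
    HasStrictFDerivAt (fun x => eval x p) (∑ i, eval x (pderiv i p) •
      (ContinuousLinearMap.proj i : (Fin n → ℝ) →L[ℝ] ℝ)) x := by
  induction p using MvPolynomial.induction_on with
  | C a =>
    simp only [eval_C, pderiv_C, map_zero, zero_smul, Finset.sum_const_zero]
    exact hasStrictFDerivAt_const a x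
  | add p q hp hq =>
    simp only [map_add, add_smul, Finset.sum_add_distrib]
    exact hp.add hq
  | mul_X p j hp =>
    have hX : HasStrictFDerivAt (fun x : Fin n → ℝ => x j)
        (ContinuousLinearMap.proj j : (Fin n → ℝ) →L[ℝ] ℝ) x :=
      (ContinuousLinearMap.proj j : (Fin n → ℝ) →L[ℝ] ℝ).hasStrictFDerivAt
    have h1 := hp.mul hX
    simp only [map_mul, eval_X] at *
    refine h1.congr_fderiv ?_
    have h2 : ∀ i, eval x (pderiv i (p * X j)) = eval x (pderiv i p) * x j +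
        (if i = j then eval x p else 0) := by
      intro i
      rw [Derivation.leibniz, pderiv_X]
      simp only [smul_eq_mul, map_add, map_mul, eval_X]
      by_cases hij : i = j
      · subst hij
        simp
        ring
      · simp [hij]
        ring
    simp only [h2, add_smul, Finset.sum_add_distrib, ite_smul, zero_smul, Finset.sum_ite_eq',
      Finset.mem_univ, if_true, Finset.smul_sum, smul_smul]
    rw [add_comm]
    congr 1
    exact Finset.sum_congr rfl fun i _ => by rw [mul_comm]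

/-- the Jacobian -/
noncomputable def Jac (u v : MvPolynomial (Fin 2) ℝ) : MvPolynomial (Fin 2) ℝ :=
  pderiv 0 u * pderiv 1 v - pderiv 1 u * pderiv 0 v

/-- Lagrange: at a local maximum on a level curve the Jacobian vanishes -/
theorem jac_eq_zero (g G : MvPolynomial (Fin 2) ℝ) {x : Fin 2 → ℝ}
    (h : IsLocalMaxOn (fun y => eval y G) {y | eval y g = eval x g} x) :
    eval x (Jac g G) = 0 := by
  obtain ⟨a, b, hab, h1⟩ := IsLocalExtrOn.exists_multipliers_of_hasStrictFDerivAt_1d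
    (Or.inr h) (hasStrictFDerivAt_eval g x) (hasStrictFDerivAt_eval G x)
  have h2 := congrArg (fun L : (Fin 2 → ℝ) →L[ℝ] ℝ => L (Pi.single 0 1)) h1
  have h3 := congrArg (fun L : (Fin 2 → ℝ) →L[ℝ] ℝ => L (Pi.single 1 1)) h1
  simp [Fin.sum_univ_two] at h2 h3
  unfold Jac
  simp only [map_sub, map_mul]
  have hab' : a ≠ 0 ∨ b ≠ 0 := by
    by_contra hc
    push Not at hc
    exact hab (by rw [hc.1, hc.2]; rfl)
  rcases hab' with ha | hb
  · have : a * (eval x (pderiv 0 g) * eval x (pderiv 1 G) -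
      eval x (pderiv 1 g) * eval x (pderiv 0 G)) = 0 := by
      linear_combination eval x (pderiv 1 G) * h2 - eval x (pderiv 0 G) * h3
    exact (mul_eq_zero.1 this).resolve_left ha
  · have : b * (eval x (pderiv 0 g) * eval x (pderiv 1 G) -
      eval x (pderiv 1 g) * eval x (pderiv 0 G)) = 0 := by
      linear_combination eval x (pderiv 0 g) * h3 - eval x (pderiv 1 g) * h2
    exact (mul_eq_zero.1 this).resolve_left hb

/-- a polynomial with vanishing partial derivatives is constant -/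
theorem eq_C_of_pderiv {g : MvPolynomial (Fin 2) ℝ} (h0 : pderiv 0 g = 0) (h1 : pderiv 1 g = 0) :
    g = C (eval 0 g) := by
  apply MvPolynomial.funext
  intro x
  rw [eval_C]
  have hd : ∀ x : Fin 2 → ℝ, HasFDerivAt (fun x => eval x g) (0 : (Fin 2 → ℝ) →L[ℝ] ℝ) x := by
    intro x
    have := (hasStrictFDerivAt_eval g x).hasFDerivAt
    simpa [Fin.sum_univ_two, h0, h1] using this
  exact is_const_of_fderiv_eq_zero (fun x => (hd x).differentiableAt)
    (fun x => (hd x).fderiv) x 0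

/-- a non-zero polynomial takes a non-zero value in every ball -/
theorem exists_ne_zero {g : MvPolynomial (Fin 2) ℝ} (hg : g ≠ 0) (z : Fin 2 → ℝ) {r : ℝ}
    (hr : 0 < r) : ∃ y ∈ Metric.ball z r, eval y g ≠ 0 := by
  by_contra hc
  push Not at hc
  apply hg
  apply MvPolynomial.funext_set (fun i => Metric.ball (z i) r)
  · intro i
    rw [Real.ball_eq_Ioo]
    exact Set.Ioo_infinite (by linarith)
  · intro x hx
    rw [map_zero]
    apply hc
    rw [Metric.mem_ball, dist_pi_lt_iff hr]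
    intro i
    exact hx i (Set.mem_univ i)

theorem totalDegree_Jac {g G : MvPolynomial (Fin 2) ℝ} {a e : ℕ} (hg : g.totalDegree ≤ a)
    (hG : G.totalDegree ≤ e) : (Jac g G).totalDegree ≤ (a - 1) + (e - 1) := by
  unfold Jac
  have h1 : ∀ i, (pderiv i g).totalDegree ≤ a - 1 := fun i =>
    (totalDegree_pderiv_le g i).trans (by omega)
  have h2 : ∀ i, (pderiv i G).totalDegree ≤ e - 1 := fun i =>
    (totalDegree_pderiv_le G i).trans (by omega)
  refine (totalDegree_sub _ _).trans (max_le ?_ ?_)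
  · exact (totalDegree_mul _ _).trans (add_le_add (h1 0) (h2 1))
  · exact (totalDegree_mul _ _).trans (add_le_add (h1 1) (h2 0))

/-- the one-sided bound -/
theorem oneSided (hr : RPS) (hb : Bez) {t : ℕ} {f : Fin t → MvPolynomial (Fin 2) ℝ}
    {g : MvPolynomial (Fin 2) ℝ} {Z : Finset (Fin 2 → ℝ)} {Rad m0 : ℝ} (hR : 0 < Rad)
    (hm0 : 0 < m0) (hRad : ∀ z ∈ Z, z 0 ^ 2 + z 1 ^ 2 < Rad ^ 2)
    (hg : pderiv 0 g ≠ 0 ∨ pderiv 1 g ≠ 0) (hf : ∀ z ∈ Z, ∀ j, eval z (f j) ≠ 0)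
    (hZ : ∀ z ∈ Z, ∀ w ∈ Z, sameCl f z w → z = w)
    (hval : ∀ z ∈ Z, ∃ e, 0 < e ∧ ∀ s, 0 < s → s < e → ∃ y ∈ UU f Rad z,
      m0 / 2 ≤ eval y (g0 f Rad) ∧ eval y g = s) :
    Z.card ≤ g.totalDegree * (g.totalDegree + 2 * ∑ j, (f j).totalDegree + 2) := by
  classical
  set e : ℝ := m0 / (8 * Rad) with he
  have he0 : 0 < e := by positivity
  have heR : e * Rad = m0 / 8 := by
    rw [he]
    field_simp
  -- the linear form
  obtain ⟨i, hi⟩ : ∃ i : Fin 2, Jac g (X i) ≠ 0 := by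
    rcases hg with h | h
    · exact ⟨1, by simpa [Jac, pderiv_X] using h⟩
    · exact ⟨0, by simpa [Jac, pderiv_X] using h⟩
  have hJ : ∀ d : ℝ, Jac g (g0 f Rad + C d * X i) = Jac g (g0 f Rad) + C d * Jac g (X i) := by
    intro d
    unfold Jac
    simp only [map_add, Derivation.leibniz, pderiv_C, smul_eq_mul, mul_zero, add_zero]
    ring
  obtain ⟨d, hd, hde, hP⟩ : ∃ d, 0 < d ∧ d < e ∧ Jac g (g0 f Rad + C d * X i) ≠ 0 := by
    by_cases h : Jac g (g0 f Rad + C (e / 2) * X i) = 0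
    · refine ⟨e / 3, by positivity, by linarith, fun h2 => ?_⟩
      rw [hJ] at h h2
      have h3 : C (e / 2) * Jac g (X i) = C (e / 3) * Jac g (X i) :=
        add_left_cancel (h.trans h2.symm)
      have h4 := mul_right_cancel₀ hi h3
      have h5 := C_injective (Fin 2) ℝ h4
      linarith
    · exact ⟨e / 2, by positivity, by linarith, h⟩
  set G := g0 f Rad + C d * X i with hG
  -- the level
  choose! ez hez0 hez using hval
  obtain ⟨e1, he10, he1⟩ := exists_min Z ez hez0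
  obtain ⟨s, hs, hse, hsR⟩ := exists_small (hr g _ hP) he10
  have hrel : IsRelPrime (g - C s) (Jac g G) := by
    by_contra h
    exact hsR h
  have hlin : ∀ z, ∀ y ∈ KK f Rad z, |d * y i| ≤ m0 / 8 := by
    intro z y hy
    obtain ⟨a1, a2⟩ := abs_le_rad hR hy
    have a3 : |y i| ≤ Rad := by fin_cases i <;> assumption
    rw [abs_mul, abs_of_pos hd, ← heR]
    exact mul_le_mul hde.le a3 (abs_nonneg _) he0.le
  have hev : ∀ y, eval y G = eval y (g0 f Rad) + d * y i := by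
    intro y
    rw [hG]
    simp
  have hex : ∀ z ∈ Z, ∃ x ∈ UU f Rad z, eval x (g - C s) = 0 ∧ eval x (Jac g G) = 0 := by
    intro z hz
    obtain ⟨y, hyU, hy1, hy2⟩ := hez z hz s hs (hse.trans_le (he1 z hz))
    have hyK := UU_subset z hyU
    have hcomp : IsCompact (KK f Rad z ∩ {y | eval y g = s}) :=
      (isCompact_KK z).inter_right (isClosed_eq (continuous_eval' g) continuous_const)
    obtain ⟨x, hxS, hx⟩ := hcomp.exists_isMaxOn ⟨y, hyK, hy2⟩ (continuous_eval' G).continuousOn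
    have hxU : x ∈ UU f Rad z := by
      by_contra hc
      have k1 := hx (show y ∈ KK f Rad z ∩ {y | eval y g = s} from ⟨hyK, hy2⟩)
      simp only [Set.mem_ofPred_eq, hev] at k1
      rw [g0_boundary (hf z hz) hxS.1 hc] at k1
      have k2 := abs_le.1 (hlin z x hxS.1)
      have k3 := abs_le.1 (hlin z y hyK)
      linarith
    refine ⟨x, hxU, ?_, ?_⟩
    · have : eval x g = s := hxS.2
      simp [this]
    · apply jac_eq_zero
      have hxs : eval x g = s := hxS.2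
      rw [hxs]
      have hn : UU f Rad z ∈ nhds x := (isOpen_UU z).mem_nhds hxU
      filter_upwards [mem_nhdsWithin_of_mem_nhds hn, self_mem_nhdsWithin] with w hw1 hw2
      exact hx ⟨UU_subset z hw1, hw2⟩
  choose! x hxU hx1 hx2 using hex
  have hinj : Set.InjOn x Z := by
    intro z hz w hw hzw
    have h1 := hxU z hz
    rw [hzw] at h1
    exact hZ z hz w hw (UU_disj h1 (hxU w hw))
  have hcard := hb _ _ hrel (Z.image x) (fun y hy => by
    obtain ⟨z, hz, rfl⟩ := Finset.mem_image.1 hy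
    exact ⟨hx1 z hz, hx2 z hz⟩)
  rw [Finset.card_image_of_injOn hinj] at hcard
  have k1 : (g - C s).totalDegree ≤ g.totalDegree := by
    refine (totalDegree_sub _ _).trans (max_le le_rfl ?_)
    rw [totalDegree_C]
    omega
  have k2 : G.totalDegree ≤ 2 * (∑ j, (f j).totalDegree) + 2 := by
    rw [hG]
    refine (totalDegree_add _ _).trans (max_le totalDegree_g0 ?_)
    refine (totalDegree_mul _ _).trans ?_
    rw [totalDegree_C, totalDegree_X]
    omega
  have k3 := totalDegree_Jac (g := g) (G := G) le_rfl k2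
  exact hcard.trans (Nat.mul_le_mul k1 (k3.trans (by omega)))

end WAux

/-- Warren bound along a plane curve -/
theorem CW_proof (hr : RPS) (hb : Bez) : CW := by
  intro g t f Z hg hf hZ
  classical
  -- `g` is not constant if `Z` is not empty
  rcases Z.eq_empty_or_nonempty with hZe | ⟨z0, hz0⟩
  · simp [hZe]
  have hgc : pderiv 0 g ≠ 0 ∨ pderiv 1 g ≠ 0 := by
    by_contra hc
    push Not at hc
    have h1 := eq_C_of_pderiv hc.1 hc.2
    have h2 := (hf z0 hz0).1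
    rw [h1, eval_C] at h2
    rw [h2, C_0] at h1
    exact hg h1
  obtain ⟨Rad, hR, hRad⟩ := exists_rad Z
  obtain ⟨m0, hm0, hm⟩ := exists_min Z (fun z => eval z (g0 f Rad))
    (fun z hz => g0_pos (mem_UU (hRad z hz) (hf z hz).2))
  -- values near `z`
  have hval : ∀ z ∈ Z, (∃ e, 0 < e ∧ ∀ s, 0 < s → s < e → ∃ y ∈ UU f Rad z,
      m0 / 2 ≤ eval y (g0 f Rad) ∧ eval y g = s) ∨ (∃ e, 0 < e ∧ ∀ s, 0 < s → s < e →
      ∃ y ∈ UU f Rad z, m0 / 2 ≤ eval y (g0 f Rad) ∧ eval y (-g) = s) := by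
    intro z hz
    have hzU : z ∈ UU f Rad z := mem_UU (hRad z hz) (hf z hz).2
    have hop : IsOpen (UU f Rad z ∩ {y | m0 / 2 < eval y (g0 f Rad)}) :=
      (isOpen_UU z).inter (isOpen_lt continuous_const (continuous_eval' _))
    have hzo : z ∈ UU f Rad z ∩ {y | m0 / 2 < eval y (g0 f Rad)} := by
      refine ⟨hzU, ?_⟩
      have := hm z hz
      show m0 / 2 < _
      linarith
    obtain ⟨r, hr0, hball⟩ := Metric.isOpen_iff.1 hop z hzo
    obtain ⟨y, hy, hy0⟩ := exists_ne_zero hg z hr0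
    have hconv : Convex ℝ (Metric.ball z r) := convex_ball z r
    have hpre := hconv.isPreconnected
    have hz0' : z ∈ Metric.ball z r := Metric.mem_ball_self hr0
    have hgz : eval z g = 0 := (hf z hz).1
    rcases lt_or_gt_of_ne hy0 with h | h
    · right
      refine ⟨-eval y g, by linarith, fun s hs hse => ?_⟩
      have h1 := hpre.intermediate_value hz0' hy (f := fun x => eval x (-g))
        (continuous_eval' (-g)).continuousOn
      have h2 : s ∈ Set.Icc (eval z (-g)) (eval y (-g)) := by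
        rw [map_neg, map_neg, hgz]
        exact ⟨by linarith, hse.le⟩
      obtain ⟨w, hw, hws⟩ := h1 h2
      exact ⟨w, (hball hw).1, le_of_lt (hball hw).2, hws⟩
    · left
      refine ⟨eval y g, h, fun s hs hse => ?_⟩
      have h1 := hpre.intermediate_value hz0' hy (f := fun x => eval x g)
        (continuous_eval' g).continuousOn
      have h2 : s ∈ Set.Icc (eval z g) (eval y g) := by
        rw [hgz]
        exact ⟨hs.le, hse.le⟩
      obtain ⟨w, hw, hws⟩ := h1 h2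
      exact ⟨w, (hball hw).1, le_of_lt (hball hw).2, hws⟩
  set Z1 := Z.filter fun z => ∃ e, 0 < e ∧ ∀ s, 0 < s → s < e → ∃ y ∈ UU f Rad z,
      m0 / 2 ≤ eval y (g0 f Rad) ∧ eval y g = s with hZ1
  set Z2 := Z.filter fun z => ∃ e, 0 < e ∧ ∀ s, 0 < s → s < e → ∃ y ∈ UU f Rad z,
      m0 / 2 ≤ eval y (g0 f Rad) ∧ eval y (-g) = s with hZ2
  have hcov : Z ⊆ Z1 ∪ Z2 := by
    intro z hz
    rw [Finset.mem_union, hZ1, hZ2, Finset.mem_filter, Finset.mem_filter]
    rcases hval z hz with h | h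
    · exact Or.inl ⟨hz, h⟩
    · exact Or.inr ⟨hz, h⟩
  have hs1 : ∀ z ∈ Z1, z ∈ Z := fun z hz => (Finset.mem_filter.1 hz).1
  have hs2 : ∀ z ∈ Z2, z ∈ Z := fun z hz => (Finset.mem_filter.1 hz).1
  have c1 : Z1.card ≤ g.totalDegree * (g.totalDegree + 2 * ∑ j, (f j).totalDegree + 2) :=
    oneSided hr hb hR hm0 (fun z hz => hRad z (hs1 z hz)) hgc (fun z hz => (hf z (hs1 z hz)).2)
      (fun z hz w hw => hZ z (hs1 z hz) w (hs1 w hw)) (fun z hz => (Finset.mem_filter.1 hz).2)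
  have c2 : Z2.card ≤ (-g).totalDegree * ((-g).totalDegree + 2 * ∑ j, (f j).totalDegree + 2) :=
    oneSided hr hb hR hm0 (fun z hz => hRad z (hs2 z hz)) (by simpa using hgc)
      (fun z hz => (hf z (hs2 z hz)).2)
      (fun z hz w hw => hZ z (hs2 z hz) w (hs2 w hw)) (fun z hz => (Finset.mem_filter.1 hz).2)
  rw [totalDegree_neg] at c2
  have c3 : Z.card ≤ Z1.card + Z2.card := (Finset.card_le_card hcov).trans (Finset.card_union_le _ _)
  have c4 : 2 * g.totalDegree * (g.totalDegree + 2 * ∑ j, (f j).totalDegree + 2) =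
    g.totalDegree * (g.totalDegree + 2 * ∑ j, (f j).totalDegree + 2) +
      g.totalDegree * (g.totalDegree + 2 * ∑ j, (f j).totalDegree + 2) := by ring
  rw [c4]
  omega

end Pool.Agent.Work.MP_916cc8_co

end
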