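import Pool.Agent.Work.MP_916cc8_co.Stmts

/-! Bundle of small proof modules (one section per former module). -/

section

/-! Basic algebra of top lines. -/

set_option autoImplicit false

namespace Pool.Agent.Work.MP_916cc8_co

theorem cr_self (u : Pt) : cr u u = 0 := by unfold cr; ring

theorem mem_top {p q x : Pt} : x ∈ top p q ↔ cr (q - p) (x - p) = 2 := Iff.rfl

theorem mem_base {p q x : Pt} : x ∈ base p q ↔ cr (q - p) (x - p) = 0 := Iff.rfl

theorem sub_ne_zero_pt {p q : Pt} (h : p ≠ q) : (q - p).1 ≠ 0 ∨ (q - p).2 ≠ 0 := by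
  by_contra hc
  push Not at hc
  apply h
  have h1 : q.1 - p.1 = 0 := hc.1
  have h2 : q.2 - p.2 = 0 := hc.2
  ext <;> linarith

theorem isLine_top {p q : Pt} (h : p ≠ q) : IsLine (top p q) := by
  refine ⟨-(q - p).2, (q - p).1, 2 + cr (q - p) p, ?_, ?_⟩
  · rcases sub_ne_zero_pt h with h | h
    · exact Or.inr h
    · exact Or.inl (neg_ne_zero.2 h)
  · ext x
    simp only [mem_top, Set.mem_ofPred_eq, cr, Prod.fst_sub, Prod.snd_sub]
    constructor <;> intro h <;> linarith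

theorem isLine_base {p q : Pt} (h : p ≠ q) : IsLine (base p q) := by
  refine ⟨-(q - p).2, (q - p).1, cr (q - p) p, ?_, ?_⟩
  · rcases sub_ne_zero_pt h with h | h
    · exact Or.inr h
    · exact Or.inl (neg_ne_zero.2 h)
  · ext x
    simp only [mem_base, Set.mem_ofPred_eq, cr, Prod.fst_sub, Prod.snd_sub]
    constructor <;> intro h <;> linarith

/-- two lines with two common points are equal -/
theorem line_eq_of_two {ℓ ℓ' : Set Pt} (h : IsLine ℓ) (h' : IsLine ℓ') {x y : Pt} (hxy : x ≠ y)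
    (h1 : x ∈ ℓ) (h2 : y ∈ ℓ) (h3 : x ∈ ℓ') (h4 : y ∈ ℓ') : ℓ = ℓ' := by
  obtain ⟨a, b, c, hab, rfl⟩ := h
  obtain ⟨a', b', c', hab', rfl⟩ := h'
  simp only [Set.mem_ofPred_eq] at h1 h2 h3 h4
  have hd := sub_ne_zero_pt hxy
  simp only [Prod.fst_sub, Prod.snd_sub] at hd
  -- (a,b) and (a',b') are both orthogonal to y - x
  have e1 : a * (y.1 - x.1) + b * (y.2 - x.2) = 0 := by linarith
  have e2 : a' * (y.1 - x.1) + b' * (y.2 - x.2) = 0 := by linarith
  have e3 : a * b' = a' * b := by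
    rcases hd with hd | hd
    · have : (a * b' - a' * b) * (y.1 - x.1) = 0 := by linear_combination b' * e1 - b * e2
      rcases mul_eq_zero.1 this with h | h
      · linarith
      · exact absurd h hd
    · have : (a * b' - a' * b) * (y.2 - x.2) = 0 := by linear_combination a * e2 - a' * e1
      rcases mul_eq_zero.1 this with h | h
      · linarith
      · exact absurd h hd
  ext z
  simp only [Set.mem_ofPred_eq]
  constructor
  · intro hz
    have e4 : a * (z.1 - x.1) + b * (z.2 - x.2) = 0 := by linarith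
    have e5 : a' * (z.1 - x.1) + b' * (z.2 - x.2) = 0 := by
      rcases hab with h | h
      · have : a * (a' * (z.1 - x.1) + b' * (z.2 - x.2)) = 0 := by
          linear_combination a' * e4 + (z.2 - x.2) * e3
        exact (mul_eq_zero.1 this).resolve_left h
      · have : b * (a' * (z.1 - x.1) + b' * (z.2 - x.2)) = 0 := by
          linear_combination b' * e4 - (z.1 - x.1) * e3
        exact (mul_eq_zero.1 this).resolve_left h
    linarith
  · intro hz
    have e4 : a' * (z.1 - x.1) + b' * (z.2 - x.2) = 0 := by linarith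
    have e5 : a * (z.1 - x.1) + b * (z.2 - x.2) = 0 := by
      rcases hab' with h | h
      · have : a' * (a * (z.1 - x.1) + b * (z.2 - x.2)) = 0 := by
          linear_combination a * e4 - (z.2 - x.2) * e3
        exact (mul_eq_zero.1 this).resolve_left h
      · have : b' * (a * (z.1 - x.1) + b * (z.2 - x.2)) = 0 := by
          linear_combination b * e4 + (z.1 - x.1) * e3
        exact (mul_eq_zero.1 this).resolve_left h
    linarith

/-- the formula for the top line: `q = φ_ℓ(p)`. -/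
theorem top_eq_iff {p q : Pt} {a b c : ℝ} (hab : a ≠ 0 ∨ b ≠ 0) :
    top p q = {x | a * x.1 + b * x.2 = c} ↔
      c - a * p.1 - b * p.2 ≠ 0 ∧ q.1 - p.1 = 2 * b / (c - a * p.1 - b * p.2) ∧
        q.2 - p.2 = -(2 * a) / (c - a * p.1 - b * p.2) := by
  set e := c - a * p.1 - b * p.2 with he
  constructor
  · intro h
    -- two points of the line
    have key : ∀ x : Pt, cr (q - p) (x - p) = 2 ↔ a * x.1 + b * x.2 = c := by
      intro x
      have : x ∈ top p q ↔ x ∈ {x : Pt | a * x.1 + b * x.2 = c} := by rw [h]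
      exact this
    have hN : 0 < a ^ 2 + b ^ 2 := by
      rcases hab with h | h <;> positivity
    have hne : e ≠ 0 := by
      intro h0
      have h1 := (key p).2 (by linarith)
      rw [sub_self] at h1
      simp [cr] at h1
    have hx0 := (key (p.1 + e * a / (a ^ 2 + b ^ 2), p.2 + e * b / (a ^ 2 + b ^ 2))).2 (by
      field_simp
      rw [he]; ring)
    have hx1 := (key (p.1 + e * a / (a ^ 2 + b ^ 2) + b, p.2 + e * b / (a ^ 2 + b ^ 2) - a)).2 (by
      field_simp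
      rw [he]; ring)
    simp only [cr, Prod.fst_sub, Prod.snd_sub] at hx0 hx1
    have h2 : (q.1 - p.1) * a + (q.2 - p.2) * b = 0 := by linarith
    have h3 : e * ((q.1 - p.1) * b - (q.2 - p.2) * a) = 2 * (a ^ 2 + b ^ 2) := by
      have h4 : (q.1 - p.1) * (e * b / (a ^ 2 + b ^ 2)) - (q.2 - p.2) * (e * a / (a ^ 2 + b ^ 2))
          = 2 := by linarith
      field_simp at h4
      linarith
    refine ⟨hne, ?_, ?_⟩
    · rw [eq_div_iff hne]
      have : (a ^ 2 + b ^ 2) * ((q.1 - p.1) * e - 2 * b) = 0 := by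
        linear_combination e * a * h2 + b * h3
      have := (mul_eq_zero.1 this).resolve_left hN.ne'
      linarith
    · rw [eq_div_iff hne]
      have : (a ^ 2 + b ^ 2) * ((q.2 - p.2) * e + 2 * a) = 0 := by
        linear_combination e * b * h2 - a * h3
      have := (mul_eq_zero.1 this).resolve_left hN.ne'
      linarith
  · rintro ⟨hne, h1, h2⟩
    ext x
    rw [mem_top]
    simp only [cr, Prod.fst_sub, Prod.snd_sub, Set.mem_ofPred_eq]
    rw [h1, h2]
    have h3 : 2 * b / e * (x.2 - p.2) - -(2 * a) / e * (x.1 - p.1) =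
        2 * (a * (x.1 - p.1) + b * (x.2 - p.2)) / e := by ring
    rw [h3, div_eq_iff hne]
    constructor <;> intro h <;> linarith

/-- the relation in coordinates -/
theorem rel_iff {x y : Pt × Pt} : Rel x y ↔ x.1 ≠ y.1 ∧ x.2 ≠ y.2 ∧
    (2 + cr (y.1 - x.1) (x.1 - x.2)) * (y.2.1 - x.2.1) = 2 * (y.1.1 - x.1.1) ∧
    (2 + cr (y.1 - x.1) (x.1 - x.2)) * (y.2.2 - x.2.2) = 2 * (y.1.2 - x.1.2) := by
  obtain ⟨⟨p1, p2⟩, ⟨p1', p2'⟩⟩ := x
  obtain ⟨⟨q1, q2⟩, ⟨q1', q2'⟩⟩ := y
  unfold Rel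
  simp only
  constructor
  · rintro ⟨h1, h2, h3⟩
    refine ⟨h1, h2, ?_⟩
    have hab : (-(q2' - p2') ≠ 0 ∨ (q1' - p1') ≠ 0) := by
      rcases sub_ne_zero_pt h2 with h | h
      · exact Or.inr h
      · exact Or.inl (neg_ne_zero.2 h)
    have h4 : top (p1', p2') (q1', q2') = {x | -(q2' - p2') * x.1 + (q1' - p1') * x.2 =
        2 + ((q1' - p1') * p2' - (q2' - p2') * p1')} := by
      ext x
      simp only [mem_top, Set.mem_ofPred_eq, cr, Prod.fst_sub, Prod.snd_sub]
      constructor <;> intro h <;> linarith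
    rw [h4] at h3
    obtain ⟨h5, h6, h7⟩ := (top_eq_iff (p := (p1, p2)) (q := (q1, q2)) hab).1 h3
    rw [eq_div_iff h5] at h6 h7
    simp only [cr, Prod.fst_sub, Prod.snd_sub] at h5 h6 h7 ⊢
    set e := 2 + ((q1' - p1') * p2' - (q2' - p2') * p1') - -(q2' - p2') * p1 - (q1' - p1') * p2
      with he
    have h8 : e * (2 + ((q1 - p1) * (p2 - p2') - (q2 - p2) * (p1 - p1'))) = 4 := by
      linear_combination (p2 - p2') * h6 - (p1 - p1') * h7 + 2 * he
    constructor
    · have : e * ((2 + ((q1 - p1) * (p2 - p2') - (q2 - p2) * (p1 - p1'))) * (q1' - p1') -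
          2 * (q1 - p1)) = 0 := by
        linear_combination (q1' - p1') * h8 - 2 * h6
      have := (mul_eq_zero.1 this).resolve_left h5
      linarith
    · have : e * ((2 + ((q1 - p1) * (p2 - p2') - (q2 - p2) * (p1 - p1'))) * (q2' - p2') -
          2 * (q2 - p2)) = 0 := by
        linear_combination (q2' - p2') * h8 - 2 * h7
      have := (mul_eq_zero.1 this).resolve_left h5
      linarith
  · rintro ⟨h1, h2, h3, h4⟩
    refine ⟨h1, h2, ?_⟩
    simp only [cr, Prod.fst_sub, Prod.snd_sub] at h3 h4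
    set s := 2 + ((q1 - p1) * (p2 - p2') - (q2 - p2) * (p1 - p1')) with hs
    have hs0 : s ≠ 0 := by
      intro h0
      rw [h0] at h3 h4
      rcases sub_ne_zero_pt h1 with h | h
      · simp only [Prod.fst_sub] at h
        apply h; linarith
      · simp only [Prod.snd_sub] at h
        apply h; linarith
    ext ⟨x1, x2⟩
    simp only [mem_top, cr, Prod.fst_sub, Prod.snd_sub]
    constructor
    · intro h
      have : s * ((q1' - p1') * (x2 - p2') - (q2' - p2') * (x1 - p1') - 2) = 0 := by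
        linear_combination (x2 - p2') * h3 - (x1 - p1') * h4 + 2 * h - 2 * hs
      have := (mul_eq_zero.1 this).resolve_left hs0
      linarith
    · intro h
      linear_combination (-(x2 - p2') * h3 + (x1 - p1') * h4 + s * h + 2 * hs) / 2

/-- `s = 2 + (q-p) × (p-p')` is not zero for related pairs -/
theorem rel_den {x y : Pt × Pt} (h : Rel x y) : 2 + cr (y.1 - x.1) (x.1 - x.2) ≠ 0 := by
  obtain ⟨h1, h2, h3, h4⟩ := rel_iff.1 h
  intro h0
  rw [h0] at h3 h4
  rcases sub_ne_zero_pt h1 with h | h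
  · rw [Prod.fst_sub] at h
    apply h; linarith
  · rw [Prod.snd_sub] at h
    apply h; linarith

theorem rel_fst {x y : Pt × Pt} (h : Rel x y) :
    y.2.1 = x.2.1 + 2 * (y.1.1 - x.1.1) / (2 + cr (y.1 - x.1) (x.1 - x.2)) := by
  have h0 := rel_den h
  obtain ⟨h1, h2, h3, h4⟩ := rel_iff.1 h
  rw [← sub_eq_iff_eq_add', eq_div_iff h0]
  linarith

theorem rel_snd {x y : Pt × Pt} (h : Rel x y) :
    y.2.2 = x.2.2 + 2 * (y.1.2 - x.1.2) / (2 + cr (y.1 - x.1) (x.1 - x.2)) := by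
  have h0 := rel_den h
  obtain ⟨h1, h2, h3, h4⟩ := rel_iff.1 h
  rw [← sub_eq_iff_eq_add', eq_div_iff h0]
  linarith

/-- for given `x`, the second component of a related `y` is determined by the first -/
theorem rel_unique {x y z : Pt × Pt} (h : Rel x y) (h' : Rel x z) (h1 : y.1 = z.1) : y = z := by
  have e1 := rel_fst h
  have e2 := rel_snd h
  have e3 := rel_fst h'
  have e4 := rel_snd h'
  rw [h1] at e1 e2
  ext
  · rw [h1]
  · rw [h1]
  · rw [e1, e3]
  · rw [e2, e4]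

/-- for a given top line and `p` the point `q` is determined -/
theorem top_unique {p q q' : Pt} (h : p ≠ q) (h' : top p q = top p q') : q = q' := by
  obtain ⟨a, b, c, hab, hl⟩ := isLine_top h
  have h1 := (top_eq_iff (p := p) (q := q) hab).1 hl
  have h2 := (top_eq_iff (p := p) (q := q') hab).1 (h' ▸ hl)
  ext
  · linarith [h1.2.1, h2.2.1]
  · linarith [h1.2.2, h2.2.2]

/-- converse construction: a point with nonzero denominators has a related point -/
theorem rel_mk {x : Pt × Pt} {q : Pt} (hq : x.1 ≠ q)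
    (h0 : 2 + cr (q - x.1) (x.1 - x.2) ≠ 0) :
    Rel x (q, (x.2.1 + 2 * (q.1 - x.1.1) / (2 + cr (q - x.1) (x.1 - x.2)),
      x.2.2 + 2 * (q.2 - x.1.2) / (2 + cr (q - x.1) (x.1 - x.2)))) := by
  rw [rel_iff]
  refine ⟨hq, ?_, ?_, ?_⟩
  · intro h
    rcases sub_ne_zero_pt hq with h5 | h5
    · rw [Prod.fst_sub] at h5
      have h6 := congrArg Prod.fst h
      simp only at h6
      have h7 : 2 * (q.1 - x.1.1) / (2 + cr (q - x.1) (x.1 - x.2)) = 0 := by linarith
      rw [div_eq_zero_iff] at h7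
      rcases h7 with h7 | h7
      · apply h5; linarith
      · exact h0 h7
    · rw [Prod.snd_sub] at h5
      have h6 := congrArg Prod.snd h
      simp only at h6
      have h7 : 2 * (q.2 - x.1.2) / (2 + cr (q - x.1) (x.1 - x.2)) = 0 := by linarith
      rw [div_eq_zero_iff] at h7
      rcases h7 with h7 | h7
      · apply h5; linarith
      · exact h0 h7
  · simp only
    field_simp
    ring
  · simp only
    field_simp
    ring

end Pool.Agent.Work.MP_916cc8_co

end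

section

/-!
Clearing denominators (item Clr).
-/

set_option autoImplicit false

namespace Pool.Agent.Work.MP_916cc8_co

open MvPolynomial

theorem Clr_proof : Clr := by
  intro d m P N den a e hN hden hP
  have hle : ∀ u ∈ P.support, ∑ i, u i ≤ e := by
    intro u hu
    have h1 := MvPolynomial.le_totalDegree hu
    rw [Finsupp.sum_fintype _ _ (fun _ => rfl)] at h1
    exact h1.trans hP
  refine ⟨∑ u ∈ P.support, C (coeff u P) * (∏ i, N i ^ u i) * den ^ (e - ∑ i, u i), ?_, ?_⟩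
  · refine totalDegree_finsetSum_le ?_
    intro u hu
    have h1 := hle u hu
    have h2 : (∏ i, N i ^ u i).totalDegree ≤ a * ∑ i, u i := by
      refine (totalDegree_finsetProd _ _).trans ?_
      rw [Finset.mul_sum]
      refine Finset.sum_le_sum fun i _ => ?_
      refine (totalDegree_pow _ _).trans ?_
      rw [mul_comm a]
      exact Nat.mul_le_mul_left _ (hN i)
    have h3 : (den ^ (e - ∑ i, u i)).totalDegree ≤ a * (e - ∑ i, u i) := by
      refine (totalDegree_pow _ _).trans ?_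
      rw [mul_comm a]
      exact Nat.mul_le_mul_left _ hden
    calc (C (coeff u P) * (∏ i, N i ^ u i) * den ^ (e - ∑ i, u i)).totalDegree
        ≤ (C (coeff u P) * (∏ i, N i ^ u i)).totalDegree
          + (den ^ (e - ∑ i, u i)).totalDegree := totalDegree_mul _ _
      _ ≤ ((C (coeff u P) : MvPolynomial (Fin d) ℝ).totalDegree + (∏ i, N i ^ u i).totalDegree)
          + (den ^ (e - ∑ i, u i)).totalDegree := by
          gcongr
          exact totalDegree_mul _ _
      _ ≤ (0 + a * ∑ i, u i) + a * (e - ∑ i, u i) := by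
          gcongr
          simp
      _ = a * e := by
          rw [zero_add, ← mul_add, Nat.add_sub_cancel' h1]
  · intro x hx
    rw [MvPolynomial.eval_eq' _ P, map_sum, Finset.mul_sum]
    refine Finset.sum_congr rfl fun u hu => ?_
    have h1 := hle u hu
    simp only [map_mul, map_pow, map_prod, eval_C]
    have h4 : ∏ i, (eval x (N i) / eval x den) ^ u i
        = (∏ i, eval x (N i) ^ u i) / eval x den ^ (∑ i, u i) := by
      rw [← Finset.prod_pow_eq_pow_sum, ← Finset.prod_div_distrib]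
      refine Finset.prod_congr rfl fun i _ => ?_
      rw [div_pow]
    have h5 : eval x den ^ e = eval x den ^ (e - ∑ i, u i) * eval x den ^ (∑ i, u i) := by
      rw [← pow_add, Nat.sub_add_cancel h1]
    rw [h4, h5]
    have h6 : eval x den ^ (∑ i, u i) ≠ 0 := pow_ne_zero _ hx
    field_simp

end Pool.Agent.Work.MP_916cc8_co

end

section

/-!
# Discrete ham sandwich theorem from Borsuk-Ulam
-/

set_option autoImplicit false

namespace Pool.Agent.Work.MP_916cc8_co

open Filter Topology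

namespace HSaux

/-- truncation to the interval from `-1` to `1` -/
noncomputable def clamp (x : ℝ) : ℝ := max (-1) (min 1 x)

theorem clamp_neg (x : ℝ) : clamp (-x) = - clamp x := by
  unfold clamp
  rcases le_total 1 x with h1 | h1
  · rw [min_eq_left h1, max_eq_right (by norm_num : (-1 : ℝ) ≤ 1),
      min_eq_right (by linarith : -x ≤ 1), max_eq_left (by linarith)]
  · rcases le_total x (-1) with h2 | h2
    · rw [min_eq_right h1, max_eq_left h2, min_eq_left (by linarith : 1 ≤ -x),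
        max_eq_right (by norm_num : (-1 : ℝ) ≤ 1)]
      norm_num
    · rw [min_eq_right h1, max_eq_right h2, min_eq_right (by linarith : -x ≤ 1),
        max_eq_right (by linarith)]

theorem continuous_clamp : Continuous clamp :=
  continuous_const.max (continuous_const.min continuous_id)

theorem clamp_ge (x : ℝ) : -1 ≤ clamp x := le_max_left _ _

theorem clamp_of_ge {x : ℝ} (h : 1 ≤ x) : clamp x = 1 := by
  unfold clamp
  rw [min_eq_left h, max_eq_right (by norm_num)]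

open scoped Classical in
theorem key {ι : Type} {s : ℕ} (x : ℕ → Fin s → ℝ) (φ : ℕ → ℕ) (hφ : StrictMono φ)
    (v : Fin s → ℝ) (hv : Tendsto (x ∘ φ) atTop (𝓝 v)) (A : Finset ι) (Φ : ι → Fin s → ℝ)
    (hz : ∀ k : ℕ, ∑ a ∈ A, clamp (((k : ℝ) + 1) * ∑ j, x k j * Φ a j) = 0) :
    2 * (A.filter (fun a => 0 < ∑ j, v j * Φ a j)).card ≤ A.card := by
  have h1 : ∀ a ∈ A.filter (fun a => 0 < ∑ j, v j * Φ a j),
      ∀ᶠ k in atTop, 1 ≤ ((φ k : ℝ) + 1) * ∑ j, x (φ k) j * Φ a j := by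
    intro a ha
    rw [Finset.mem_filter] at ha
    have h2 : Tendsto (fun k => ∑ j, x (φ k) j * Φ a j) atTop (𝓝 (∑ j, v j * Φ a j)) := by
      apply tendsto_finsetSum
      intro j _
      exact ((tendsto_pi_nhds.1 hv) j).mul_const _
    have h3 : Tendsto (fun k => (φ k : ℝ) + 1) atTop atTop :=
      tendsto_atTop_add_const_right _ _ (tendsto_natCast_atTop_atTop.comp hφ.tendsto_atTop)
    exact (h3.atTop_mul_pos ha.2 h2).eventually_ge_atTop 1
  have h4 : ∀ᶠ k in atTop, ∀ a ∈ A.filter (fun a => 0 < ∑ j, v j * Φ a j),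
      1 ≤ ((φ k : ℝ) + 1) * ∑ j, x (φ k) j * Φ a j := by
    rw [Filter.eventually_all_finset]
    exact h1
  obtain ⟨k, hk⟩ := h4.exists
  have h5 := hz (φ k)
  rw [← Finset.sum_filter_add_sum_filter_not A (fun a => 0 < ∑ j, v j * Φ a j)] at h5
  have h6 : ∑ a ∈ A.filter (fun a => 0 < ∑ j, v j * Φ a j),
      clamp (((φ k : ℝ) + 1) * ∑ j, x (φ k) j * Φ a j) =
        ((A.filter (fun a => 0 < ∑ j, v j * Φ a j)).card : ℝ) := by
    rw [Finset.sum_congr rfl (fun a ha => clamp_of_ge (hk a ha))]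
    simp
  have h7 : - ((A.filter (fun a => ¬ 0 < ∑ j, v j * Φ a j)).card : ℝ) ≤
      ∑ a ∈ A.filter (fun a => ¬ 0 < ∑ j, v j * Φ a j),
        clamp (((φ k : ℝ) + 1) * ∑ j, x (φ k) j * Φ a j) := by
    have h8 := Finset.card_nsmul_le_sum (A.filter (fun a => ¬ 0 < ∑ j, v j * Φ a j))
      (fun a => clamp (((φ k : ℝ) + 1) * ∑ j, x (φ k) j * Φ a j)) (-1)
      (fun a _ => clamp_ge _)
    rw [nsmul_eq_mul] at h8
    linarith
  have h9 : (A.filter (fun a => 0 < ∑ j, v j * Φ a j)).card +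
      (A.filter (fun a => ¬ 0 < ∑ j, v j * Φ a j)).card = A.card :=
    Finset.card_filter_add_card_filter_not _
  have h10 : ((A.filter (fun a => 0 < ∑ j, v j * Φ a j)).card : ℝ) ≤
      ((A.filter (fun a => ¬ 0 < ∑ j, v j * Φ a j)).card : ℝ) := by
    rw [h6] at h5
    linarith
  have h11 := Nat.cast_le.1 h10
  omega

end HSaux

open HSaux in
theorem HS_proof (h : BU) : HS := by
  classical
  intro ι s A Φ
  have h1 : ∀ k : ℕ, ∃ x : Fin (s + 1) → ℝ, ‖x‖ = 1 ∧
      (fun i => ∑ a ∈ A i, clamp (((k : ℝ) + 1) * ∑ j, x j * Φ a j)) = 0 := by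
    intro k
    apply h s (fun x i => ∑ a ∈ A i, clamp (((k : ℝ) + 1) * ∑ j, x j * Φ a j))
    · apply continuous_pi
      intro i
      apply continuous_finsetSum
      intro a _
      apply continuous_clamp.comp
      apply continuous_const.mul
      apply continuous_finsetSum
      intro j _
      exact (continuous_apply j).mul continuous_const
    · intro x
      funext i
      rw [Pi.neg_apply, ← Finset.sum_neg_distrib]
      apply Finset.sum_congr rfl
      intro a _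
      rw [← clamp_neg]
      congr 1
      rw [← mul_neg, ← Finset.sum_neg_distrib]
      congr 1
      apply Finset.sum_congr rfl
      intro j _
      rw [Pi.neg_apply, neg_mul]
  choose x hx1 hx2 using h1
  obtain ⟨v, hv, φ, hφ, ht⟩ := (isCompact_sphere (0 : Fin (s + 1) → ℝ) 1).tendsto_subseq
    (fun k => by rw [mem_sphere_zero_iff_norm]; exact hx1 k)
  rw [mem_sphere_zero_iff_norm] at hv
  refine ⟨v, ?_, ?_⟩
  · intro h0
    rw [h0, norm_zero] at hv
    exact zero_ne_one hv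
  · intro i
    have hz : ∀ k : ℕ, ∑ a ∈ A i, clamp (((k : ℝ) + 1) * ∑ j, x k j * Φ a j) = 0 :=
      fun k => congrFun (hx2 k) i
    constructor
    · exact key x φ hφ v ht (A i) Φ hz
    · have hz' : ∀ k : ℕ, ∑ a ∈ A i, clamp (((k : ℝ) + 1) * ∑ j, (-x k) j * Φ a j) = 0 := by
        intro k
        have h2 : ∀ a ∈ A i, clamp (((k : ℝ) + 1) * ∑ j, (-x k) j * Φ a j) =
            - clamp (((k : ℝ) + 1) * ∑ j, x k j * Φ a j) := by
          intro a _
          rw [← clamp_neg]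
          congr 1
          rw [← mul_neg, ← Finset.sum_neg_distrib]
          congr 1
          apply Finset.sum_congr rfl
          intro j _
          rw [Pi.neg_apply, neg_mul]
        rw [Finset.sum_congr rfl h2, Finset.sum_neg_distrib, hz k, neg_zero]
      have h3 := key (fun k => - x k) φ hφ (-v) (ht.neg) (A i) Φ hz'
      have h4 : (A i).filter (fun a => 0 < ∑ j, (-v) j * Φ a j) =
          (A i).filter (fun a => ∑ j, v j * Φ a j < 0) := by
        apply Finset.filter_congr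
        intro a _
        have h5 : ∑ j, (-v) j * Φ a j = - ∑ j, v j * Φ a j := by
          rw [← Finset.sum_neg_distrib]
          apply Finset.sum_congr rfl
          intro j _
          rw [Pi.neg_apply, neg_mul]
        rw [h5, neg_pos]
      rw [h4] at h3
      exact h3

end Pool.Agent.Work.MP_916cc8_co

end

section

/-!
Item KSTs: the Kovari-Sos-Turan count.
-/

set_option autoImplicit false

namespace Pool.Agent.Work.MP_916cc8_co

open scoped Classical in
theorem KSTs_proof : KSTs := by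
  intro α β R X Y h
  set D : α → ℕ := fun x => (Y.filter (fun y => R x y)).card with hD
  have hDsum : ∀ x, D x = ∑ y ∈ Y, if R x y then 1 else 0 := fun x => Finset.card_filter _ _
  have hI : ((X ×ˢ Y).filter (fun z => R z.1 z.2)).card = ∑ x ∈ X, D x := by
    rw [Finset.card_filter, Finset.sum_product]
    exact Finset.sum_congr rfl fun x _ => (hDsum x).symm
  have hI' : ∑ y ∈ Y, (X.filter (fun x => R x y)).card = ∑ x ∈ X, D x := by
    simp only [hDsum, Finset.card_filter]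
    exact Finset.sum_comm
  have hsq : ∑ x ∈ X, D x * D x =
      ∑ y₁ ∈ Y, ∑ y₂ ∈ Y, (X.filter (fun x => R x y₁ ∧ R x y₂)).card := by
    have e1 : ∀ x ∈ X, D x * D x = ∑ y₁ ∈ Y, ∑ y₂ ∈ Y, if R x y₁ ∧ R x y₂ then 1 else 0 := by
      intro x _
      rw [hDsum x, Finset.sum_mul_sum]
      refine Finset.sum_congr rfl fun y₁ _ => Finset.sum_congr rfl fun y₂ _ => ?_
      by_cases h1 : R x y₁ <;> by_cases h2 : R x y₂ <;> simp [h1, h2]
    rw [Finset.sum_congr rfl e1, Finset.sum_comm]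
    refine Finset.sum_congr rfl fun y₁ _ => ?_
    rw [Finset.sum_comm]
    refine Finset.sum_congr rfl fun y₂ _ => ?_
    rw [Finset.card_filter]
  have hle : ∑ x ∈ X, D x * D x ≤ 3 * Y.card ^ 2 + ∑ x ∈ X, D x := by
    rw [hsq, ← hI']
    have e2 : ∀ y₁ ∈ Y, ∑ y₂ ∈ Y, (X.filter (fun x => R x y₁ ∧ R x y₂)).card ≤
        3 * Y.card + (X.filter (fun x => R x y₁)).card := by
      intro y₁ h1
      rw [← Finset.add_sum_erase Y _ h1]
      have e3 : ∑ y₂ ∈ Y.erase y₁, (X.filter (fun x => R x y₁ ∧ R x y₂)).card ≤ 3 * Y.card := by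
        refine (Finset.sum_le_card_nsmul _ _ 3 fun y₂ h2 => ?_).trans ?_
        · exact h y₁ h1 y₂ (Finset.mem_of_mem_erase h2) (Finset.ne_of_mem_erase h2).symm
        · rw [smul_eq_mul, mul_comm]
          exact Nat.mul_le_mul_left 3 (Finset.card_le_card (Finset.erase_subset _ _))
      simp only [and_self]
      omega
    refine (Finset.sum_le_sum e2).trans ?_
    rw [Finset.sum_add_distrib, Finset.sum_const, smul_eq_mul]
    apply le_of_eq
    ring
  have hcs : (∑ x ∈ X, (D x : ℝ)) ^ 2 ≤ X.card * ∑ x ∈ X, (D x : ℝ) ^ 2 :=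
    sq_sum_le_card_mul_sum_sq
  rw [hI]
  push_cast
  set I : ℝ := ∑ x ∈ X, (D x : ℝ) with hIdef
  have hle' : ∑ x ∈ X, (D x : ℝ) ^ 2 ≤ 3 * (Y.card : ℝ) ^ 2 + I := by
    have : ((∑ x ∈ X, D x * D x : ℕ) : ℝ) ≤ ((3 * Y.card ^ 2 + ∑ x ∈ X, D x : ℕ) : ℝ) := by
      exact_mod_cast hle
    push_cast at this
    simpa only [sq] using this
  have hX : (0 : ℝ) ≤ X.card := Nat.cast_nonneg _
  have hY : (0 : ℝ) ≤ Y.card := Nat.cast_nonneg _
  have hs : Real.sqrt X.card ^ 2 = X.card := Real.sq_sqrt hX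
  have hs0 := Real.sqrt_nonneg (X.card : ℝ)
  by_contra hc
  have hc' : (X.card : ℝ) + 2 * Real.sqrt X.card * Y.card < I := not_le.1 hc
  have hsY : 0 ≤ 2 * Real.sqrt X.card * Y.card := by positivity
  have h1 : I ^ 2 ≤ X.card * (3 * (Y.card : ℝ) ^ 2 + I) :=
    hcs.trans (mul_le_mul_of_nonneg_left hle' hX)
  have h2 : (2 * Real.sqrt X.card * Y.card) * (2 * Real.sqrt X.card * Y.card) <
      I * (I - X.card) := by
    have g1 : 2 * Real.sqrt X.card * Y.card < I - X.card := by linarith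
    have g2 : 2 * Real.sqrt X.card * Y.card < I := by linarith
    exact mul_lt_mul'' g2 g1 hsY hsY
  have h3 : (2 * Real.sqrt X.card * Y.card) * (2 * Real.sqrt X.card * Y.card) =
      4 * X.card * (Y.card : ℝ) ^ 2 := by
    rw [← hs]
    rw [Real.sqrt_sq hs0]
    ring
  have h4 : 0 ≤ (X.card : ℝ) * (Y.card : ℝ) ^ 2 := by positivity
  nlinarith

end Pool.Agent.Work.MP_916cc8_co

end

section

/-!
# MP_916cc8_co: polynomial partitioning in dimension d from the ham sandwich theorem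
-/

set_option autoImplicit false

namespace Pool.Agent.Work.MP_916cc8_co

open MvPolynomial

namespace PartD

open scoped Classical

/-- sign of a boolean -/
def sg (b : Bool) : ℝ := if b then 1 else -1

/-- one step: a polynomial of small degree with given halving property -/
theorem exists_poly (h : HS) (d : ℕ) (M s : ℕ) (hM : s + 1 ≤ (M + 1) ^ d)
    (ι : Type) (pt : ι → Fin d → ℝ) (A : Fin s → Finset ι) :
    ∃ g : MvPolynomial (Fin d) ℝ, g ≠ 0 ∧ g.totalDegree ≤ d * M ∧ ∀ i,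
      2 * ((A i).filter (fun a => 0 < eval (pt a) g)).card ≤ (A i).card ∧
      2 * ((A i).filter (fun a => eval (pt a) g < 0)).card ≤ (A i).card := by
  have hcard : Fintype.card (Fin (s + 1)) ≤ Fintype.card (Fin d → Fin (M + 1)) := by
    rw [Fintype.card_fin, Fintype.card_fun, Fintype.card_fin, Fintype.card_fin]
    exact hM
  obtain ⟨m⟩ := Function.Embedding.nonempty_of_card_le hcard
  set mm : Fin (s + 1) → (Fin d →₀ ℕ) := fun j =>
    Finsupp.equivFunOnFinite.symm (fun i => ((m j i : Fin (M + 1)) : ℕ)) with hmm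
  have hinj : Function.Injective mm := by
    intro j k hjk
    apply m.injective
    funext i
    have := DFunLike.congr_fun hjk i
    simp only [hmm, Finsupp.equivFunOnFinite_symm_apply_apply] at this
    exact Fin.ext this
  obtain ⟨v, hv0, hv⟩ := h ι s A (fun a j => eval (pt a) (monomial (mm j) (1 : ℝ)))
  have heval : ∀ a : ι, eval (pt a) (∑ j, v j • monomial (mm j) (1 : ℝ)) =
      ∑ j, v j * eval (pt a) (monomial (mm j) (1 : ℝ)) := by
    intro a
    rw [map_sum]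
    refine Finset.sum_congr rfl fun j _ => ?_
    rw [smul_eval]
  refine ⟨∑ j, v j • monomial (mm j) (1 : ℝ), ?_, ?_, ?_⟩
  · intro h0
    apply hv0
    funext k
    have hk := congrArg (coeff (mm k)) h0
    rw [coeff_sum, coeff_zero] at hk
    rw [Finset.sum_eq_single k] at hk
    · rw [coeff_smul, coeff_monomial, if_pos rfl, smul_eq_mul, mul_one] at hk
      exact hk
    · intro j _ hjk
      rw [coeff_smul, coeff_monomial, if_neg (fun h => hjk (hinj h)), smul_zero]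
    · intro hk'
      exact absurd (Finset.mem_univ k) hk'
  · refine totalDegree_finsetSum_le fun j _ => ?_
    refine (totalDegree_smul_le _ _).trans ?_
    rw [totalDegree_monomial _ (one_ne_zero), Finsupp.sum_fintype _ _ (fun _ => rfl)]
    have : ∀ i ∈ (Finset.univ : Finset (Fin d)), mm j i ≤ M := by
      intro i _
      have := (m j i).2
      show ((m j i : Fin (M + 1)) : ℕ) ≤ M
      omega
    refine (Finset.sum_le_card_nsmul _ _ _ this).trans ?_
    rw [Finset.card_univ, Fintype.card_fin, smul_eq_mul]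
  · intro i
    obtain ⟨h1, h2⟩ := hv i
    constructor
    · have : (A i).filter (fun a => 0 < eval (pt a) (∑ j, v j • monomial (mm j) (1 : ℝ))) =
          (A i).filter (fun a => 0 < ∑ j, v j * eval (pt a) (monomial (mm j) (1 : ℝ))) := by
        refine Finset.filter_congr fun a _ => ?_
        rw [heval]
      rw [this]
      exact h1
    · have : (A i).filter (fun a => eval (pt a) (∑ j, v j • monomial (mm j) (1 : ℝ)) < 0) =
          (A i).filter (fun a => ∑ j, v j * eval (pt a) (monomial (mm j) (1 : ℝ)) < 0) := by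
        refine Finset.filter_congr fun a _ => ?_
        rw [heval]
      rw [this]
      exact h2

theorem mul_pos_trans {a b c : ℝ} (h1 : 0 < c * a) (h2 : 0 < c * b) : 0 < a * b := by
  rcases mul_pos_iff.1 h1 with ⟨hc, ha⟩ | ⟨hc, ha⟩
  · rcases mul_pos_iff.1 h2 with ⟨_, hb⟩ | ⟨hc', _⟩
    · exact mul_pos ha hb
    · exact absurd hc (not_lt.2 hc'.le)
  · rcases mul_pos_iff.1 h2 with ⟨hc', _⟩ | ⟨_, hb⟩
    · exact absurd hc' (not_lt.2 hc.le)
    · exact mul_pos_of_neg_of_neg ha hb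

theorem main (h : HS) (d : ℕ) (hd : 1 ≤ d) (ι : Type) (A : Finset ι) (pt : ι → Fin d → ℝ)
    (t : ℕ) : ∃ f : Fin t → MvPolynomial (Fin d) ℝ, (∀ j, f j ≠ 0) ∧
      (∀ j : Fin t, ((f j).totalDegree : ℝ) ≤ d * ((2 : ℝ) ^ ((1 : ℝ) / d)) ^ (j : ℕ)) ∧
      ∀ x : Fin d → ℝ, 2 ^ t * (A.filter (fun a => sameCl f x (pt a))).card ≤ A.card := by
  induction t with
  | zero =>
    refine ⟨fun j => j.elim0, fun j => j.elim0, fun j => j.elim0, fun x => ?_⟩
    rw [pow_zero, one_mul]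
    exact Finset.card_filter_le _ _
  | succ t ih =>
    obtain ⟨f, hf0, hfd, hf⟩ := ih
    set r : ℝ := (2 : ℝ) ^ ((1 : ℝ) / d) with hr
    have hr0 : 0 < r := Real.rpow_pos_of_pos (by norm_num) _
    have hrd : r ^ d = 2 := by
      rw [hr, ← Real.rpow_natCast, ← Real.rpow_mul (by norm_num)]
      have : (d : ℝ) ≠ 0 := by
        have : d ≠ 0 := by omega
        exact_mod_cast this
      rw [one_div, inv_mul_cancel₀ this, Real.rpow_one]
    -- the classes
    let e : (Fin t → Bool) ≃ Fin (2 ^ t) := Fintype.equivFinOfCardEq (by simp)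
    set cl : (Fin t → Bool) → Finset ι := fun σ =>
      A.filter (fun a => ∀ i, 0 < sg (σ i) * eval (pt a) (f i)) with hcl
    have hclc : ∀ σ, 2 ^ t * (cl σ).card ≤ A.card := by
      intro σ
      rcases (cl σ).eq_empty_or_nonempty with h0 | ⟨a0, ha0⟩
      · rw [h0, Finset.card_empty, mul_zero]
        exact Nat.zero_le _
      · refine le_trans (Nat.mul_le_mul_left _ (Finset.card_le_card ?_)) (hf (pt a0))
        intro a ha
        rw [hcl, Finset.mem_filter] at ha ha0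
        rw [Finset.mem_filter]
        exact ⟨ha.1, fun i => mul_pos_trans (ha0.2 i) (ha.2 i)⟩
    have hM : 2 ^ t + 1 ≤ (⌊r ^ t⌋₊ + 1) ^ d := by
      have h1 : r ^ t < (⌊r ^ t⌋₊ : ℝ) + 1 := Nat.lt_floor_add_one _
      have h2 : (r ^ t) ^ d < ((⌊r ^ t⌋₊ : ℝ) + 1) ^ d :=
        pow_lt_pow_left₀ h1 (by positivity) (by omega)
      have h3 : (r ^ t) ^ d = 2 ^ t := by
        rw [← pow_mul, mul_comm, pow_mul, hrd]
      rw [h3] at h2
      have h4 : ((2 ^ t : ℕ) : ℝ) < (((⌊r ^ t⌋₊ + 1) ^ d : ℕ) : ℝ) := by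
        push_cast
        exact h2
      have h5 : 2 ^ t < (⌊r ^ t⌋₊ + 1) ^ d := by exact_mod_cast h4
      omega
    obtain ⟨g, hg0, hgd, hg⟩ := exists_poly h d ⌊r ^ t⌋₊ (2 ^ t) hM ι pt
      (fun i => cl (e.symm i))
    refine ⟨Fin.snoc f g, ?_, ?_, ?_⟩
    · intro j
      refine Fin.lastCases ?_ (fun j => ?_) j
      · rw [Fin.snoc_last]
        exact hg0
      · rw [Fin.snoc_castSucc]
        exact hf0 j
    · intro j
      refine Fin.lastCases ?_ (fun j => ?_) j
      · rw [Fin.snoc_last, Fin.val_last]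
        have h1 : ((g.totalDegree : ℕ) : ℝ) ≤ ((d * ⌊r ^ t⌋₊ : ℕ) : ℝ) := by
          exact_mod_cast hgd
        refine h1.trans ?_
        push_cast
        exact mul_le_mul_of_nonneg_left (Nat.floor_le (by positivity)) (by positivity)
      · rw [Fin.snoc_castSucc]
        exact hfd j
    · intro x
      by_cases hx : (∀ i, eval x (f i) ≠ 0) ∧ eval x g ≠ 0
      · obtain ⟨hx1, hx2⟩ := hx
        have key : 2 * (A.filter (fun a => sameCl (Fin.snoc f g :
            Fin (t + 1) → MvPolynomial (Fin d) ℝ) x (pt a))).card ≤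
            (cl (fun i => decide (0 < eval x (f i)))).card := by
          obtain ⟨hp, hn⟩ := hg (e (fun i => decide (0 < eval x (f i))))
          rw [Equiv.symm_apply_apply] at hp hn
          have hsub : ∀ a ∈ A.filter (fun a => sameCl (Fin.snoc f g :
              Fin (t + 1) → MvPolynomial (Fin d) ℝ) x (pt a)),
              a ∈ cl (fun i => decide (0 < eval x (f i))) ∧ 0 < eval x g * eval (pt a) g := by
            intro a ha
            rw [Finset.mem_filter] at ha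
            obtain ⟨haA, hac⟩ := ha
            constructor
            · rw [hcl, Finset.mem_filter]
              refine ⟨haA, fun i => ?_⟩
              have := hac i.castSucc
              rw [Fin.snoc_castSucc] at this
              by_cases hs : 0 < eval x (f i)
              · simp only [sg, hs, decide_true, if_true, one_mul]
                exact (mul_pos_iff_of_pos_left hs).1 this
              · have hs' : eval x (f i) < 0 := lt_of_le_of_ne (not_lt.1 hs) (hx1 i)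
                simp only [sg, hs, decide_false, Bool.false_eq_true, if_false]
                nlinarith [(mul_pos_iff.1 this)]
            · have := hac (Fin.last t)
              rw [Fin.snoc_last] at this
              exact this
          rcases lt_or_gt_of_ne hx2 with hs | hs
          · refine le_trans (Nat.mul_le_mul_left 2 (Finset.card_le_card ?_)) hn
            intro a ha
            obtain ⟨h1, h2⟩ := hsub a ha
            rw [Finset.mem_filter]
            refine ⟨h1, ?_⟩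
            rcases mul_pos_iff.1 h2 with ⟨h3, _⟩ | ⟨_, h3⟩
            · exact absurd h3 (not_lt.2 hs.le)
            · exact h3
          · refine le_trans (Nat.mul_le_mul_left 2 (Finset.card_le_card ?_)) hp
            intro a ha
            obtain ⟨h1, h2⟩ := hsub a ha
            rw [Finset.mem_filter]
            exact ⟨h1, (mul_pos_iff_of_pos_left hs).1 h2⟩
        calc 2 ^ (t + 1) * (A.filter (fun a => sameCl (Fin.snoc f g :
              Fin (t + 1) → MvPolynomial (Fin d) ℝ) x (pt a))).card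
            = 2 ^ t * (2 * (A.filter (fun a => sameCl (Fin.snoc f g :
              Fin (t + 1) → MvPolynomial (Fin d) ℝ) x (pt a))).card) := by ring
          _ ≤ 2 ^ t * (cl (fun i => decide (0 < eval x (f i)))).card :=
              Nat.mul_le_mul_left _ key
          _ ≤ A.card := hclc _
      · have h0 : A.filter (fun a => sameCl (Fin.snoc f g :
            Fin (t + 1) → MvPolynomial (Fin d) ℝ) x (pt a)) = ∅ := by
          rw [Finset.filter_eq_empty_iff]
          intro a _ hac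
          apply hx
          constructor
          · intro i hi
            have := hac i.castSucc
            rw [Fin.snoc_castSucc, hi, zero_mul] at this
            exact lt_irrefl _ this
          · intro hi
            have := hac (Fin.last t)
            rw [Fin.snoc_last, hi, zero_mul] at this
            exact lt_irrefl _ this
        rw [h0, Finset.card_empty, mul_zero]
        exact Nat.zero_le _

end PartD

theorem Part_proof (h : HS) (d : ℕ) (hd : 1 ≤ d) : Part d := by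
  classical
  set r : ℝ := (2 : ℝ) ^ ((1 : ℝ) / d) with hr
  have hd0 : (0 : ℝ) < d := by
    have : 0 < d := hd
    exact_mod_cast this
  have hr1 : 1 < r := Real.one_lt_rpow (by norm_num) (by positivity)
  have hr1' : 0 < r - 1 := by linarith
  refine ⟨d / (r - 1), div_pos hd0 hr1', ?_⟩
  intro ι A pt t
  obtain ⟨f, hf0, hfd, hf⟩ := PartD.main h d hd ι A pt t
  refine ⟨f, hf0, ?_, ?_⟩
  · have h1 : ((∑ j, (f j).totalDegree : ℕ) : ℝ) ≤ ∑ j : Fin t, d * r ^ (j : ℕ) := by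
      push_cast
      exact Finset.sum_le_sum fun j _ => hfd j
    refine h1.trans ?_
    rw [← Finset.mul_sum, Fin.sum_univ_eq_sum_range (fun j => r ^ j) t,
      geom_sum_eq hr1.ne' t]
    have h2 : (2 : ℝ) ^ ((t : ℝ) / d) = r ^ t := by
      rw [hr, ← Real.rpow_natCast, ← Real.rpow_mul (by norm_num)]
      congr 1
      ring
    rw [h2, ← mul_div_assoc, div_mul_eq_mul_div]
    refine div_le_div_of_nonneg_right ?_ hr1'.le
    nlinarith
  · intro x
    convert hf x

end Pool.Agent.Work.MP_916cc8_co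

end

section

/-!
`A - c` is relatively prime to `K` for all but finitely many constants `c`.
-/

set_option autoImplicit false

namespace Pool.Agent.Work.MP_916cc8_co

open MvPolynomial

theorem RPS_proof : RPS := by
  intro A K hK
  have hex : ∀ c ∈ {c : ℝ | ¬ IsRelPrime (A - C c) K},
      ∃ q ∈ UniqueFactorizationMonoid.factors K, q ∣ A - C c := by
    intro c hc
    rw [Set.mem_ofPred_eq] at hc
    unfold IsRelPrime at hc
    push Not at hc
    obtain ⟨d, hd1, hd2, hd3⟩ := hc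
    have hd0 : d ≠ 0 := by
      rintro rfl
      exact hK (zero_dvd_iff.1 hd2)
    obtain ⟨i, hi, hid⟩ := WfDvdMonoid.exists_irreducible_factor hd3 hd0
    obtain ⟨q, hq, hiq⟩ := UniqueFactorizationMonoid.exists_mem_factors_of_dvd hK hi
      (hid.trans hd2)
    exact ⟨q, hq, hiq.symm.dvd.trans (hid.trans hd1)⟩
  choose! q hq1 hq2 using hex
  have hsub : q '' {c : ℝ | ¬ IsRelPrime (A - C c) K} ⊆
      {x | x ∈ UniqueFactorizationMonoid.factors K} := by
    rintro _ ⟨c, hc, rfl⟩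
    exact hq1 c hc
  refine Set.Finite.of_finite_image
    ((UniqueFactorizationMonoid.factors K).finite_toSet.subset hsub) ?_
  · intro c hc c' hc' h
    by_contra hne
    have h1 := hq2 c hc
    have h2 := hq2 c' hc'
    rw [← h] at h2
    have h3 : q c ∣ C (c' - c) := by
      have h4 := dvd_sub h1 h2
      have h5 : A - C c - (A - C c') = (C (c' - c) : MvPolynomial (Fin 2) ℝ) := by
        rw [map_sub]; ring
      rwa [h5] at h4
    have h6 : IsUnit (C (c' - c) : MvPolynomial (Fin 2) ℝ) := by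
      apply IsUnit.map
      exact (sub_ne_zero.2 (Ne.symm hne)).isUnit
    exact (UniqueFactorizationMonoid.irreducible_of_factor _ (hq1 c hc)).not_isUnit
      (isUnit_of_dvd_unit h3 h6)

end Pool.Agent.Work.MP_916cc8_co

end

section

/-! Sub-statements for MP_916cc8_co -/

set_option autoImplicit false

namespace Pool.Agent.Work.MP_916cc8_co

open MvPolynomial

section BadLines

/-- `P` in the coordinates `p = x (b,-a) + y (a,b)/(a^2+b^2)`; outer variable `x` (along the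
line `a x1 + b x2 = c`), inner variable `y = a x1 + b x2`. -/
noncomputable def lineP (P : MvPolynomial (Fin 2) ℝ) (a b : ℝ) : Polynomial (Polynomial ℝ) :=
  MvPolynomial.aeval
    ![Polynomial.C (Polynomial.C b) * Polynomial.X +
        Polynomial.C (Polynomial.C (a / (a ^ 2 + b ^ 2)) * Polynomial.X),
      -Polynomial.C (Polynomial.C a) * Polynomial.X +
        Polynomial.C (Polynomial.C (b / (a ^ 2 + b ^ 2)) * Polynomial.X)] P

/-- the line `a x1 + b x2 = c` is of asymptote type for `P` -/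
def Asym (P : MvPolynomial (Fin 2) ℝ) (a b c : ℝ) : Prop :=
  (lineP P a b).leadingCoeff.eval c = 0

/-- the bound for a line which is not of asymptote type -/
def BLa : Prop := ∀ (P : MvPolynomial (Fin 2) ℝ), P ≠ 0 → ∀ a b c : ℝ, (a ≠ 0 ∨ b ≠ 0) →
  ¬ Asym P a b c → ∀ Z : Finset (Pt × Pt),
    (∀ z ∈ Z, z.1 ≠ z.2 ∧ top z.1 z.2 = {x | a * x.1 + b * x.2 = c} ∧
      eval (v2 z.1) P = 0 ∧ eval (v2 z.2) P = 0 ∧
      ¬ (∀ w ∈ base z.1 z.2, eval (v2 w) P = 0)) →
    Z.card ≤ 2 * P.totalDegree ^ 2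

/-- number of lines of asymptote type (normalised) -/
def BLb : Prop := ∀ (P : MvPolynomial (Fin 2) ℝ), P ≠ 0 →
  ∃ 𝓐 : Finset (Set Pt), (∀ ℓ ∈ 𝓐, IsLine ℓ) ∧ 𝓐.card ≤ P.totalDegree ^ 2 ∧
    (∀ b c : ℝ, Asym P 1 b c → {x : Pt | 1 * x.1 + b * x.2 = c} ∈ 𝓐) ∧
    (∀ c : ℝ, Asym P 0 1 c → {x : Pt | 0 * x.1 + 1 * x.2 = c} ∈ 𝓐)

end BadLines

section Tangent

/-- the covector `(α,β)` kills the tangent plane at `y` of the surface of `x` -/
def TanEq (α β : Pt) (x y : Pt × Pt) : Prop := ∀ δ : Pt,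
  (1 + cr (y.1 - x.1) (x.1 - x.2) / 2) * (α.1 * δ.1 + α.2 * δ.2) +
    (β.1 * δ.1 + β.2 * δ.2) -
    (β.1 * (y.2.1 - x.2.1) + β.2 * (y.2.2 - x.2.2)) * cr δ (x.1 - x.2) / 2 = 0

def TanDer : Prop := ∀ (K : MvPolynomial (Fin 4) ℝ) (x y : Pt × Pt), Rel x y →
  (∀ z, Rel x z → eval (v4 z.1 z.2) K = 0) →
  TanEq (eval (v4 y.1 y.2) (pderiv 0 K), eval (v4 y.1 y.2) (pderiv 1 K))
    (eval (v4 y.1 y.2) (pderiv 2 K), eval (v4 y.1 y.2) (pderiv 3 K)) x y

def TanAlg : Prop := ∀ (y : Pt × Pt) (α β : Pt), (α ≠ 0 ∨ β ≠ 0) → ∀ X : Finset (Pt × Pt),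
  (∀ x ∈ X, NRel x y ∧ TanEq α β x y) → X.card ≤ 4

end Tangent

section Good

open scoped Classical in
/-- triangles with a very rich base line -/
def GSa : Prop := ∀ (S : Finset Pt),
  (((S ×ˢ S ×ˢ S).filter (fun z => cr (z.2.1 - z.1) (z.2.2 - z.1) = 2 ∧
    2 * Real.sqrt S.card ≤ rich S (base z.1 z.2.1))).card : ℝ) ≤ 2 * (S.card : ℝ) ^ 2

open scoped Classical in
/-- pairs weighted with the richness of their base line -/
def GSb : Prop := ∃ C₀ : ℝ, 0 < C₀ ∧ ∀ (S : Finset Pt),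
  ∑ z ∈ (S ×ˢ S).filter (fun z => z.1 ≠ z.2 ∧
    (rich S (base z.1 z.2) : ℝ) ≤ 2 * Real.sqrt S.card),
    (rich S (base z.1 z.2) : ℝ) ^ ((2 : ℝ) / 3) ≤ C₀ * (S.card : ℝ) ^ 2

end Good

section Inc

open scoped Classical in
/-- incidences outside the zero set of the partition polynomials in `ℝ^4` -/
def IncA : Prop := ∀ (X : Finset (Pt × Pt)) (t : ℕ) (f : Fin t → MvPolynomial (Fin 4) ℝ)
  (V : ℝ), V = (8 * (∑ j, (f j).totalDegree : ℕ) + 2) ^ 2 →
  (∀ v : Fin 4 → ℝ, 2 ^ t * (X.filter (fun a => sameCl f v (v4 a.1 a.2))).card ≤ X.card) →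
  (((X ×ˢ X).filter (fun z => NRel z.1 z.2 ∧
    ∀ j, eval (v4 z.2.1 z.2.2) (f j) ≠ 0)).card : ℝ) ≤
    X.card * V + 2 * (X.card / 2 ^ t) * Real.sqrt (2 ^ t * (X.card * V))

open scoped Classical in
/-- type B incidences -/
def IncB : Prop := ∀ (X : Finset (Pt × Pt)) (F : MvPolynomial (Fin 4) ℝ),
  ((X ×ˢ X).filter (fun z => NRel z.1 z.2 ∧ TypeB F z.1 z.2)).card ≤ 4 * X.card

open scoped Classical in
/-- incidences on curves, outside the zero set of the partition polynomials in `ℝ^3` -/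
def IncC : Prop := ∀ (X : Finset (Pt × Pt)) (t : ℕ) (f : Fin t → MvPolynomial (Fin 3) ℝ)
  (h : ℝ) (a : ℕ) (g : Pt × Pt → MvPolynomial (Fin 2) ℝ) (V : ℝ),
  V = 2 * a * (a + 8 * (∑ j, (f j).totalDegree : ℕ) + 2) →
  (∀ x ∈ X, g x ≠ 0 ∧ (g x).totalDegree ≤ a) →
  (∀ v : Fin 3 → ℝ,
    2 ^ t * (X.filter (fun y => sameCl f v (v3 y.1 (hh h y.2)))).card ≤ X.card) →
  (((X ×ˢ X).filter (fun z => NRel z.1 z.2 ∧ eval (v2 z.2.1) (g z.1) = 0 ∧
    ∀ j, eval (v3 z.2.1 (hh h z.2.2)) (f j) ≠ 0)).card : ℝ) ≤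
    X.card * V + 2 * (X.card / 2 ^ t) * Real.sqrt (2 ^ t * (X.card * V))

open scoped Classical in
/-- incidences on the zero set in `ℝ^3` -/
def IncD : Prop := ∀ (S : Finset Pt) (X : Finset (Pt × Pt)) (h : ℝ)
  (G : MvPolynomial (Fin 3) ℝ), G ≠ 0 → (∀ x ∈ X, x.1 ∈ S ∧ x.2 ∈ S) →
  (∀ p ∈ S, ∀ q ∈ S, hh h p = hh h q → p = q) →
  ∃ c : MvPolynomial (Fin 2) ℝ, c ≠ 0 ∧ c.totalDegree ≤ G.totalDegree ∧
    (((X ×ˢ X).filter (fun z => NRel z.1 z.2 ∧ eval (v2 z.2.1) c ≠ 0 ∧
      eval (v3 z.2.1 (hh h z.2.2)) G = 0)).card : ℝ) ≤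
      X.card + 2 * Real.sqrt X.card * (S.card * G.totalDegree)

/-- a generic linear functional is injective on a finite set -/
def HInj : Prop := ∀ S : Finset Pt, ∃ h : ℝ, ∀ p ∈ S, ∀ q ∈ S, hh h p = hh h q → p = q

end Inc

end Pool.Agent.Work.MP_916cc8_co

end

section

/-!
Borsuk-Ulam for `MP_916cc8_co`: Kuhn simplices, Ky Fan's lemma for cubes.
Coordinates of grid points are natural numbers `0..N`; the antipode of `z` is `N - z`.
-/

set_option autoImplicit false

namespace Pool.Agent.Work.MP_916cc8_co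

/-- Vertex `j` of the Kuhn simplex with base `x` and time function `τ` (`j = 0, ..., n`);
coordinate `c` is increased at time `n - τ c`. -/
def vert {n : ℕ} (x : Fin n → ℕ) (τ : Equiv.Perm (Fin n)) (j : ℕ) : Fin n → ℕ :=
  fun c => x c + if n ≤ j + (τ c : ℕ) then 1 else 0

/-- labels `±1, ..., ±m` -/
abbrev Lab (m : ℕ) := Fin m × Bool

def negL {m : ℕ} (l : Lab m) : Lab m := (l.1, !l.2)

/-- the labels `ℓ` have distinct absolute values and, ordered by absolute value, the signs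
alternate, beginning with `s` -/
def Alt {m k : ℕ} (s : Bool) (ℓ : Fin k → Lab m) : Prop :=
  ∃ π : Equiv.Perm (Fin k), StrictMono (fun i => (ℓ (π i)).1) ∧
    ∀ i : Fin k, (ℓ (π i)).2 = xor s (decide (i.val % 2 = 1))

/-- interior facets of the Kuhn triangulation of `[0,N]^(m+1)` cancel mod 2 -/
def CAN : Prop := ∀ (m N : ℕ) (w : (Fin (m + 1) → (Fin (m + 1) → ℕ)) → ZMod 2),
  ∑ τ : Equiv.Perm (Fin (m + 1)), ∑ x : Fin (m + 1) → Fin N, ∑ j : Fin (m + 2),
    w (fun i => vert (fun c => (x c : ℕ)) τ ((j.succAbove i : Fin (m + 2)) : ℕ)) =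
  ∑ τ : Equiv.Perm (Fin (m + 1)), ∑ y : Fin m → Fin N,
    (w (fun i => vert ((τ.symm 0).insertNth N (fun c => (y c : ℕ)) : Fin (m + 1) → ℕ) τ i) +
     w (fun i => vert ((τ.symm 0).insertNth 0 (fun c => (y c : ℕ)) : Fin (m + 1) → ℕ) τ i))

open scoped Classical in
/-- local identity: the number of positive alternating facets is congruent to the number of
alternating types of the simplex -/
def LOC : Prop := ∀ (m k : ℕ) (ℓ : Fin (k + 1) → Lab m), (∀ i j, ℓ i ≠ negL (ℓ j)) →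
  (∑ j : Fin (k + 1), (if Alt true (fun i => ℓ (j.succAbove i)) then (1 : ZMod 2) else 0)) =
    (if Alt true ℓ then 1 else 0) + (if Alt false ℓ then 1 else 0)

/-- Ky Fan's lemma for a compatible family of labelled cubes -/
def FANC : Prop := ∀ (m N n : ℕ) (L : (k : ℕ) → (Fin k → ℕ) → Lab m), 1 ≤ N →
  (∀ k < n, ∀ z : Fin k → ℕ, (∀ i, z i ≤ N) →
    L (k + 1) (Fin.cons N z : Fin (k + 1) → ℕ) = L k z) →
  (∀ k < n, ∀ z : Fin k → ℕ, (∀ i, z i ≤ N) →
    L (k + 1) (Fin.cons 0 z : Fin (k + 1) → ℕ) = negL (L k (fun i => N - z i))) →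
  (∀ k < n, ∀ z : Fin k → ℕ, (∀ i, z i ≤ N) → (∃ i, z i = 0 ∨ z i = N) → ∀ t ≤ N,
    L (k + 1) (Fin.cons t z : Fin (k + 1) → ℕ) = L k z) →
  (∀ k ≤ n, ∀ (x : Fin k → Fin N) (τ : Equiv.Perm (Fin k)), ∀ i ≤ k, ∀ j ≤ k,
    L k (vert (fun c => (x c : ℕ)) τ i) ≠ negL (L k (vert (fun c => (x c : ℕ)) τ j))) →
  n < m

end Pool.Agent.Work.MP_916cc8_co

end

section

/-! Dyadic sums over rich lines. -/

set_option autoImplicit false

namespace Pool.Agent.Work.MP_916cc8_co

open scoped Classical in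
theorem Sums_proof (h : ST) : Sums := by
  obtain ⟨C, hC, hST⟩ := h
  intro a ha0 ha3
  set r : ℝ := (2 : ℝ) ^ (a - 3) with hr
  have hr0 : 0 ≤ r := by positivity
  have hr1 : r < 1 := Real.rpow_lt_one_of_one_lt_of_neg (by norm_num) (by linarith)
  have h1r : 0 < 1 - r := by linarith
  refine ⟨5 * C * (2 : ℝ) ^ a * (1 - r)⁻¹, by positivity, ?_⟩
  intro S L k hk hL
  have hk0 : 0 < k := by linarith
  set n : ℝ := (S.card : ℝ) with hn
  have hn0 : 0 ≤ n := Nat.cast_nonneg _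
  -- the class of a line
  have hex : ∀ ℓ ∈ L, ∃ i : ℕ, (2 : ℝ) ^ i * k ≤ rich S ℓ ∧ (rich S ℓ : ℝ) ≤ 2 * ((2 : ℝ) ^ i * k) := by
    intro ℓ hℓ
    have h1 : 1 ≤ (rich S ℓ : ℝ) / k := (one_le_div hk0).2 (hL ℓ hℓ).2.1
    obtain ⟨i, h2, h3⟩ := exists_nat_pow_near h1 (by norm_num : (1 : ℝ) < 2)
    refine ⟨i, (le_div_iff₀ hk0).1 h2, ?_⟩
    have h4 := (div_lt_iff₀ hk0).1 h3
    rw [pow_succ] at h4
    linarith
  choose! idx hidx1 hidx2 using hex
  set N : ℕ := L.sup idx + 1 with hN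
  -- pointwise bound
  have hpt : ∀ ℓ ∈ L, (rich S ℓ : ℝ) ^ a ≤ ∑ i ∈ Finset.range N,
      if (2 : ℝ) ^ i * k ≤ rich S ℓ then (2 * ((2 : ℝ) ^ i * k)) ^ a else 0 := by
    intro ℓ hℓ
    have hi : idx ℓ ∈ Finset.range N := by
      rw [Finset.mem_range, hN]
      exact Nat.lt_succ_of_le (Finset.le_sup (f := idx) hℓ)
    have h1 : (rich S ℓ : ℝ) ^ a ≤
        if (2 : ℝ) ^ (idx ℓ) * k ≤ rich S ℓ then (2 * ((2 : ℝ) ^ (idx ℓ) * k)) ^ a else 0 := by
      rw [if_pos (hidx1 ℓ hℓ)]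
      exact Real.rpow_le_rpow (Nat.cast_nonneg _) (hidx2 ℓ hℓ) ha0
    refine le_trans h1 ?_
    refine Finset.single_le_sum (f := fun i => if (2 : ℝ) ^ i * k ≤ rich S ℓ then
      (2 * ((2 : ℝ) ^ i * k)) ^ a else 0) (fun i _ => ?_) hi
    split_ifs
    · positivity
    · exact le_rfl
  -- one class
  have hcl : ∀ i : ℕ, (∑ ℓ ∈ L, if (2 : ℝ) ^ i * k ≤ rich S ℓ then
      (2 * ((2 : ℝ) ^ i * k)) ^ a else 0) ≤ 5 * C * (2 : ℝ) ^ a * n ^ 2 * k ^ (a - 3) * r ^ i := by
    intro i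
    set κ : ℝ := (2 : ℝ) ^ i * k with hκ
    have hκ0 : 0 < κ := by positivity
    have hκ2 : 2 ≤ κ := by
      have : (1 : ℝ) ≤ 2 ^ i := one_le_pow₀ (by norm_num)
      nlinarith
    rw [← Finset.sum_filter, Finset.sum_const, nsmul_eq_mul]
    set L' := L.filter (fun ℓ => κ ≤ rich S ℓ) with hL'
    have hcard : (L'.card : ℝ) ≤ 5 * C * n ^ 2 / κ ^ 3 := by
      rcases L'.eq_empty_or_nonempty with h0 | ⟨ℓ, hℓ⟩
      · rw [h0]
        simp only [Finset.card_empty, Nat.cast_zero]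
        positivity
      · have h1 := hST S L' κ hκ2 (fun ℓ hℓ => by
          rw [hL', Finset.mem_filter] at hℓ
          exact ⟨(hL ℓ hℓ.1).1, hℓ.2⟩)
        rw [hL', Finset.mem_filter] at hℓ
        have h2 : κ ≤ 2 * Real.sqrt n := le_trans hℓ.2 (hL ℓ hℓ.1).2.2
        have h3 : κ ^ 2 ≤ 4 * n := by
          have h4 : κ ^ 2 ≤ (2 * Real.sqrt n) ^ 2 := pow_le_pow_left₀ hκ0.le h2 2
          have h4' : (2 * Real.sqrt n) ^ 2 = 4 * n := by
            rw [mul_pow, Real.sq_sqrt hn0]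
            norm_num
          rw [h4'] at h4
          exact h4
        have h5 : n / κ ≤ 4 * (n ^ 2 / κ ^ 3) := by
          rw [div_le_iff₀ hκ0]
          have h6 : 4 * (n ^ 2 / κ ^ 3) * κ = 4 * n ^ 2 / κ ^ 2 := by
            field_simp
          rw [h6, le_div_iff₀ (by positivity)]
          nlinarith
        calc (L'.card : ℝ) ≤ C * (n ^ 2 / κ ^ 3 + n / κ) := h1
          _ ≤ C * (n ^ 2 / κ ^ 3 + 4 * (n ^ 2 / κ ^ 3)) := by gcongr
          _ = 5 * C * n ^ 2 / κ ^ 3 := by ring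
    have hpow : (2 * κ) ^ a / κ ^ 3 = (2 : ℝ) ^ a * k ^ (a - 3) * r ^ i := by
      rw [Real.mul_rpow (by norm_num) hκ0.le, mul_div_assoc]
      have e1 : κ ^ a / κ ^ 3 = κ ^ (a - 3) := by
        rw [Real.rpow_sub hκ0]
        norm_num
      rw [e1, hκ, Real.mul_rpow (by positivity) hk0.le, hr]
      have e2 : ((2 : ℝ) ^ i) ^ (a - 3) = ((2 : ℝ) ^ (a - 3)) ^ i := by
        rw [← Real.rpow_natCast, ← Real.rpow_natCast, ← Real.rpow_mul (by norm_num),
          ← Real.rpow_mul (by norm_num), mul_comm]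
      rw [e2]
      ring
    calc (L'.card : ℝ) * (2 * κ) ^ a ≤ (5 * C * n ^ 2 / κ ^ 3) * (2 * κ) ^ a := by gcongr
      _ = 5 * C * n ^ 2 * ((2 * κ) ^ a / κ ^ 3) := by ring
      _ = 5 * C * n ^ 2 * ((2 : ℝ) ^ a * k ^ (a - 3) * r ^ i) := by rw [hpow]
      _ = 5 * C * (2 : ℝ) ^ a * n ^ 2 * k ^ (a - 3) * r ^ i := by ring
  have hgeo : ∑ i ∈ Finset.range N, r ^ i ≤ (1 - r)⁻¹ := by
    rw [← tsum_geometric_of_lt_one hr0 hr1]
    exact (summable_geometric_of_lt_one hr0 hr1).sum_le_tsum _ (fun i _ => pow_nonneg hr0 i)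
  calc (∑ ℓ ∈ L, (rich S ℓ : ℝ) ^ a)
      ≤ ∑ ℓ ∈ L, ∑ i ∈ Finset.range N,
        if (2 : ℝ) ^ i * k ≤ rich S ℓ then (2 * ((2 : ℝ) ^ i * k)) ^ a else 0 :=
        Finset.sum_le_sum hpt
    _ = ∑ i ∈ Finset.range N, ∑ ℓ ∈ L,
        if (2 : ℝ) ^ i * k ≤ rich S ℓ then (2 * ((2 : ℝ) ^ i * k)) ^ a else 0 :=
        Finset.sum_comm
    _ ≤ ∑ i ∈ Finset.range N, 5 * C * (2 : ℝ) ^ a * n ^ 2 * k ^ (a - 3) * r ^ i :=
        Finset.sum_le_sum fun i _ => hcl i
    _ = 5 * C * (2 : ℝ) ^ a * n ^ 2 * k ^ (a - 3) * ∑ i ∈ Finset.range N, r ^ i := by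
        rw [Finset.mul_sum]
    _ ≤ 5 * C * (2 : ℝ) ^ a * n ^ 2 * k ^ (a - 3) * (1 - r)⁻¹ := by gcongr
    _ = 5 * C * (2 : ℝ) ^ a * (1 - r)⁻¹ * n ^ 2 * k ^ (a - 3) := by ring

end Pool.Agent.Work.MP_916cc8_co

end

section

/-! Choice of the apex. -/

set_option autoImplicit false

namespace Pool.Agent.Work.MP_916cc8_co

open scoped Classical in
theorem Tri_proof : Tri := by
  intro S B hB
  set T : Finset Pt → Finset (Pt × Pt × Pt) := fun A =>
    (A ×ˢ A ×ˢ S).filter (fun z => cr (z.2.1 - z.1) (z.2.2 - z.1) = 2) with hT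
  have hmem : ∀ (A : Finset Pt) (p q r : Pt), p ∈ A → q ∈ A → r ∈ S →
      cr (q - p) (r - p) = 2 → (p, q, r) ∈ T A := by
    intro A p q r hp hq hr h
    rw [hT]
    simp only [Finset.mem_filter, Finset.mem_product]
    exact ⟨⟨hp, hq, hr⟩, h⟩
  have hcyc : ∀ p q r : Pt, cr (r - q) (p - q) = cr (q - p) (r - p) := by
    intro p q r
    simp only [cr, Prod.fst_sub, Prod.snd_sub]
    ring
  have hswap : ∀ p q r : Pt, cr (p - q) (r - q) = - cr (q - p) (r - p) := by
    intro p q r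
    simp only [cr, Prod.fst_sub, Prod.snd_sub]
    ring
  let f : Pt × Pt × Pt → Finset Pt := fun z => {z.1, z.2.1, z.2.2}
  have hsub : (S.powersetCard 3).filter
      (fun t => ∃ p q r : Pt, t = {p, q, r} ∧ |cr (q - p) (r - p)| / 2 = 1) ⊆
      (T B ∪ T (S \ B)).image f := by
    intro t ht
    rw [Finset.mem_filter, Finset.mem_powersetCard] at ht
    obtain ⟨⟨htS, -⟩, p, q, r, rfl, harea⟩ := ht
    have hkey : ∀ p q r : Pt, ({p, q, r} : Finset Pt) ⊆ S → cr (q - p) (r - p) = 2 →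
        ({p, q, r} : Finset Pt) ∈ (T B ∪ T (S \ B)).image f := by
      intro p q r htS h
      have hp : p ∈ S := htS (by simp)
      have hq : q ∈ S := htS (by simp)
      have hr : r ∈ S := htS (by simp)
      have h1 : cr (r - q) (p - q) = 2 := by rw [hcyc, h]
      have h2 : cr (p - r) (q - r) = 2 := by rw [hcyc, h1]
      have e1 : f (q, r, p) = {p, q, r} := by
        change ({q, r, p} : Finset Pt) = {p, q, r}
        ext x
        simp only [Finset.mem_insert, Finset.mem_singleton]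
        tauto
      have e2 : f (r, p, q) = {p, q, r} := by
        change ({r, p, q} : Finset Pt) = {p, q, r}
        ext x
        simp only [Finset.mem_insert, Finset.mem_singleton]
        tauto
      have m0 : ∀ A : Finset Pt, (A = B ∨ A = S \ B) → ∀ z, z ∈ T A → z ∈ T B ∪ T (S \ B) := by
        intro A hA z hz
        rcases hA with rfl | rfl
        · exact Finset.mem_union_left _ hz
        · exact Finset.mem_union_right _ hz
      have h3 : ∃ A : Finset Pt, (A = B ∨ A = S \ B) ∧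
          ((p ∈ A ∧ q ∈ A) ∨ (q ∈ A ∧ r ∈ A) ∨ (r ∈ A ∧ p ∈ A)) := by
        by_cases a : p ∈ B <;> by_cases b : q ∈ B <;> by_cases c : r ∈ B
        · exact ⟨B, Or.inl rfl, Or.inl ⟨a, b⟩⟩
        · exact ⟨B, Or.inl rfl, Or.inl ⟨a, b⟩⟩
        · exact ⟨B, Or.inl rfl, Or.inr (Or.inr ⟨c, a⟩)⟩
        · exact ⟨S \ B, Or.inr rfl, Or.inr (Or.inl
            ⟨Finset.mem_sdiff.2 ⟨hq, b⟩, Finset.mem_sdiff.2 ⟨hr, c⟩⟩)⟩
        · exact ⟨B, Or.inl rfl, Or.inr (Or.inl ⟨b, c⟩)⟩
        · exact ⟨S \ B, Or.inr rfl, Or.inr (Or.inr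
            ⟨Finset.mem_sdiff.2 ⟨hr, c⟩, Finset.mem_sdiff.2 ⟨hp, a⟩⟩)⟩
        · exact ⟨S \ B, Or.inr rfl, Or.inl
            ⟨Finset.mem_sdiff.2 ⟨hp, a⟩, Finset.mem_sdiff.2 ⟨hq, b⟩⟩⟩
        · exact ⟨S \ B, Or.inr rfl, Or.inl
            ⟨Finset.mem_sdiff.2 ⟨hp, a⟩, Finset.mem_sdiff.2 ⟨hq, b⟩⟩⟩
      obtain ⟨A, hA, h4 | h4 | h4⟩ := h3
      · exact Finset.mem_image.2 ⟨(p, q, r), m0 A hA _ (hmem A p q r h4.1 h4.2 hr h), rfl⟩
      · exact Finset.mem_image.2 ⟨(q, r, p), m0 A hA _ (hmem A q r p h4.1 h4.2 hp h1), e1⟩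
      · exact Finset.mem_image.2 ⟨(r, p, q), m0 A hA _ (hmem A r p q h4.1 h4.2 hq h2), e2⟩
    have habs : |cr (q - p) (r - p)| = 2 := by linarith
    rcases (abs_eq (by norm_num : (0 : ℝ) ≤ 2)).1 habs with h | h
    · exact hkey p q r htS h
    · have h5 : cr (p - q) (r - q) = 2 := by rw [hswap, h, neg_neg]
      have e3 : ({p, q, r} : Finset Pt) = {q, p, r} := by
        ext x
        simp only [Finset.mem_insert, Finset.mem_singleton]
        tauto
      rw [e3] at htS ⊢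
      exact hkey q p r htS h5
  calc uTri S ≤ ((T B ∪ T (S \ B)).image f).card := Finset.card_le_card hsub
    _ ≤ (T B ∪ T (S \ B)).card := Finset.card_image_le
    _ ≤ (T B).card + (T (S \ B)).card := Finset.card_union_le _ _
    _ = tri B S + tri (S \ B) S := rfl

end Pool.Agent.Work.MP_916cc8_co

end

section

set_option autoImplicit false

namespace Pool.Agent.Work.MP_916cc8_co

namespace BUAux

/-- unit vector number `k` -/
def ee (n k : ℕ) : Fin (n + 1) → ℝ := fun i => if i.val = k then 1 else 0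

noncomputable def nrm {n : ℕ} (v : Fin (n + 1) → ℝ) : Fin (n + 1) → ℝ := ‖v‖⁻¹ • v

noncomputable def vv (n k : ℕ) (φ : (Fin k → ℝ) → (Fin (n + 1) → ℝ)) (t : ℝ) (z : Fin k → ℝ) :
    Fin (n + 1) → ℝ :=
  ((1 + t) / 2) • φ z - ((1 - t) / 2) • φ (-z) +
    ((1 - t ^ 2) * ∏ i, (1 - z i ^ 2)) • ee n (k + 1)

noncomputable def phi (n : ℕ) : (k : ℕ) → (Fin k → ℝ) → (Fin (n + 1) → ℝ)
  | 0, _ => ee n 0
  | (k + 1), x => nrm (vv n k (phi n k) (x 0) (Fin.tail x))

def Cube (k : ℕ) : Set (Fin k → ℝ) := {x | ∀ i, |x i| ≤ 1}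

structure Good (n k : ℕ) (φ : (Fin k → ℝ) → (Fin (n + 1) → ℝ)) : Prop where
  cont : ContinuousOn φ (Cube k)
  norm : ∀ x ∈ Cube k, ‖φ x‖ = 1
  supp : ∀ x ∈ Cube k, ∀ j : Fin (n + 1), k < j.val → φ x j = 0
  anti : ∀ x ∈ Cube k, (∃ i, |x i| = 1) → φ (-x) = - φ x

theorem cube_neg {k : ℕ} {x : Fin k → ℝ} (hx : x ∈ Cube k) : -x ∈ Cube k := by
  intro i
  simpa using hx i

theorem cube_tail {k : ℕ} {x : Fin (k + 1) → ℝ} (hx : x ∈ Cube (k + 1)) :
    Fin.tail x ∈ Cube k := fun i => hx i.succ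

theorem isCompact_Cube (k : ℕ) : IsCompact (Cube k) := by
  have : Cube k = Metric.closedBall (0 : Fin k → ℝ) 1 := by
    ext x
    simp only [Cube, Metric.mem_closedBall, dist_zero_right]
    rw [pi_norm_le_iff_of_nonneg zero_le_one]
    simp [Real.norm_eq_abs]
  rw [this]
  exact isCompact_closedBall _ _

theorem nrm_of_norm_one {n : ℕ} {v : Fin (n + 1) → ℝ} (h : ‖v‖ = 1) : nrm v = v := by
  simp [nrm, h]

theorem norm_nrm {n : ℕ} {v : Fin (n + 1) → ℝ} (h : v ≠ 0) : ‖nrm v‖ = 1 := by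
  have : ‖v‖ ≠ 0 := norm_ne_zero_iff.2 h
  simp [nrm, norm_smul, this]

theorem vv_one {n k : ℕ} (φ : (Fin k → ℝ) → (Fin (n + 1) → ℝ)) (z : Fin k → ℝ) :
    vv n k φ 1 z = φ z := by
  simp [vv]

theorem vv_neg_one {n k : ℕ} (φ : (Fin k → ℝ) → (Fin (n + 1) → ℝ)) (z : Fin k → ℝ) :
    vv n k φ (-1) z = - φ (-z) := by
  simp only [vv]
  norm_num

theorem vv_bd {n k : ℕ} {φ : (Fin k → ℝ) → (Fin (n + 1) → ℝ)} (h : Good n k φ) (t : ℝ)
    {z : Fin k → ℝ} (hz : z ∈ Cube k) (hb : ∃ i, |z i| = 1) : vv n k φ t z = φ z := by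
  obtain ⟨i, hi⟩ := hb
  have h1 : ∏ i, (1 - z i ^ 2) = 0 := by
    apply Finset.prod_eq_zero (Finset.mem_univ i)
    rw [← sq_abs, hi]; norm_num
  simp only [vv, h1, mul_zero, zero_smul, add_zero, h.anti z hz ⟨i, hi⟩]
  rw [smul_neg, sub_neg_eq_add, ← add_smul]
  rw [show (1 + t) / 2 + (1 - t) / 2 = 1 by ring, one_smul]

theorem vv_ne {n k : ℕ} (hk : k + 1 ≤ n) {φ : (Fin k → ℝ) → (Fin (n + 1) → ℝ)}
    (h : Good n k φ) (t : ℝ)
    {z : Fin k → ℝ} (hz : z ∈ Cube k) : vv n k φ t z ≠ 0 := by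
  intro h0
  have h1 := congrFun h0 ⟨k + 1, by omega⟩
  simp only [vv, Pi.add_apply, Pi.sub_apply, Pi.smul_apply, smul_eq_mul, ee, Pi.zero_apply,
    h.supp z hz ⟨k + 1, by omega⟩ (Nat.lt_succ_self k),
    h.supp (-z) (cube_neg hz) ⟨k + 1, by omega⟩ (Nat.lt_succ_self k), if_true, mul_zero, sub_zero,
    zero_add, mul_one] at h1
  have hne : ∀ w ∈ Cube k, φ w ≠ 0 := by
    intro w hw h2
    have := h.norm w hw
    rw [h2] at this
    simp at this
  rcases mul_eq_zero.1 h1 with h2 | h2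
  · have h3 : t = 1 ∨ t = -1 := by
      have : t ^ 2 = 1 := by linarith
      rcases eq_or_eq_neg_of_sq_eq_sq t 1 (by rw [this]; norm_num) with h | h
      · exact Or.inl h
      · exact Or.inr h
    rcases h3 with h3 | h3
    · rw [h3, vv_one] at h0
      exact hne z hz h0
    · rw [h3, vv_neg_one, neg_eq_zero] at h0
      exact hne _ (cube_neg hz) h0
  · obtain ⟨i, -, hi⟩ := Finset.prod_eq_zero_iff.1 h2
    have h3 : |z i| = 1 := by
      have : z i ^ 2 = 1 := by linarith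
      rw [← sq_abs] at this
      nlinarith [abs_nonneg (z i)]
    rw [vv_bd h t hz ⟨i, h3⟩] at h0
    exact hne z hz h0

theorem phi_succ (n k : ℕ) (x : Fin (k + 1) → ℝ) :
    phi n (k + 1) x = nrm (vv n k (phi n k) (x 0) (Fin.tail x)) := rfl

theorem phi_cons (n k : ℕ) (t : ℝ) (z : Fin k → ℝ) :
    phi n (k + 1) (Fin.cons t z : Fin (k + 1) → ℝ) = nrm (vv n k (phi n k) t z) := by
  rw [phi_succ, Fin.cons_zero, Fin.tail_cons]

theorem good_zero (n : ℕ) : Good n 0 (phi n 0) := by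
  refine ⟨continuousOn_const, ?_, ?_, ?_⟩
  · intro x _
    apply le_antisymm
    · rw [pi_norm_le_iff_of_nonneg zero_le_one]
      intro i
      simp only [phi, ee]
      split_ifs <;> simp
    · have := norm_le_pi_norm (phi n 0 x) 0
      simpa [phi, ee] using this
  · intro x _ j hj
    simp only [phi, ee]
    rw [if_neg (by omega)]
  · rintro x _ ⟨i, _⟩
    exact i.elim0

theorem phi_one {n k : ℕ} (h : Good n k (phi n k)) {z : Fin k → ℝ} (hz : z ∈ Cube k) :
    phi n (k + 1) (Fin.cons 1 z : Fin (k + 1) → ℝ) = phi n k z := by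
  rw [phi_cons, vv_one, nrm_of_norm_one (h.norm z hz)]

theorem phi_neg_one {n k : ℕ} (h : Good n k (phi n k)) {z : Fin k → ℝ} (hz : z ∈ Cube k) :
    phi n (k + 1) (Fin.cons (-1) z : Fin (k + 1) → ℝ) = - phi n k (-z) := by
  rw [phi_cons, vv_neg_one, nrm_of_norm_one]
  rw [norm_neg]
  exact h.norm _ (cube_neg hz)

theorem phi_bd {n k : ℕ} (h : Good n k (phi n k)) (t : ℝ) {z : Fin k → ℝ} (hz : z ∈ Cube k)
    (hb : ∃ i, |z i| = 1) :
    phi n (k + 1) (Fin.cons t z : Fin (k + 1) → ℝ) = phi n k z := by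
  rw [phi_cons, vv_bd h t hz hb, nrm_of_norm_one (h.norm z hz)]

theorem neg_cons {k : ℕ} (t : ℝ) (z : Fin k → ℝ) :
    -(Fin.cons t z : Fin (k + 1) → ℝ) = Fin.cons (-t) (-z) := by
  funext i
  refine Fin.cases ?_ (fun j => ?_) i
  · simp
  · simp

theorem good_succ {n k : ℕ} (hk : k + 1 ≤ n) (h : Good n k (phi n k)) :
    Good n (k + 1) (phi n (k + 1)) := by
  have hne : ∀ x ∈ Cube (k + 1), vv n k (phi n k) (x 0) (Fin.tail x) ≠ 0 :=
    fun x hx => vv_ne hk h _ (cube_tail hx)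
  refine ⟨?_, ?_, ?_, ?_⟩
  · have htail : Continuous (fun x : Fin (k + 1) → ℝ => (Fin.tail x : Fin k → ℝ)) :=
      continuous_pi fun i => continuous_apply i.succ
    have h0 : Continuous (fun x : Fin (k + 1) → ℝ => x 0) := continuous_apply 0
    have hc1 : ContinuousOn (fun x : Fin (k + 1) → ℝ => phi n k (Fin.tail x)) (Cube (k + 1)) :=
      h.cont.comp htail.continuousOn (fun x hx => cube_tail hx)
    have hc2 : ContinuousOn (fun x : Fin (k + 1) → ℝ => phi n k (-Fin.tail x))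
        (Cube (k + 1)) :=
      h.cont.comp htail.neg.continuousOn (fun x hx => cube_neg (cube_tail hx))
    have hc3 : Continuous (fun x : Fin (k + 1) → ℝ =>
        ((1 - x 0 ^ 2) * ∏ i, (1 - (Fin.tail x : Fin k → ℝ) i ^ 2))) := by
      refine (continuous_const.sub (h0.pow 2)).mul ?_
      refine continuous_finsetProd _ fun i _ => ?_
      exact continuous_const.sub ((continuous_apply i.succ).pow 2)
    have hv : ContinuousOn (fun x : Fin (k + 1) → ℝ =>
        vv n k (phi n k) (x 0) (Fin.tail x)) (Cube (k + 1)) := by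
      refine ContinuousOn.add (ContinuousOn.sub ?_ ?_) ?_
      · exact ((continuous_const.add h0).div_const 2).continuousOn.smul hc1
      · exact ((continuous_const.sub h0).div_const 2).continuousOn.smul hc2
      · exact hc3.continuousOn.smul continuousOn_const
    exact (hv.norm.inv₀ (fun x hx => norm_ne_zero_iff.2 (hne x hx))).smul hv
  · intro x hx
    exact norm_nrm (hne x hx)
  · intro x hx j hj
    rw [phi_succ]
    simp only [nrm, vv, Pi.add_apply, Pi.sub_apply, Pi.smul_apply, smul_eq_mul, ee,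
      h.supp _ (cube_tail hx) j (by omega), h.supp _ (cube_neg (cube_tail hx)) j (by omega)]
    rw [if_neg (by omega)]
    simp
  · rintro x hx ⟨i, hi⟩
    obtain ⟨t, z, rfl⟩ : ∃ t z, x = (Fin.cons t z : Fin (k + 1) → ℝ) :=
      ⟨x 0, Fin.tail x, (Fin.cons_self_tail x).symm⟩
    have hz : z ∈ Cube k := by simpa using cube_tail hx
    rw [neg_cons]
    by_cases hb : ∃ j, |z j| = 1
    · rw [phi_bd h t hz hb, phi_bd h (-t) (cube_neg hz) (by simpa using hb), h.anti z hz hb]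
    · have ht : |t| = 1 := by
        revert hi
        refine Fin.cases ?_ (fun j => ?_) i
        · simp
        · intro hj
          exact absurd ⟨j, by simpa using hj⟩ hb
      rcases eq_or_eq_neg_of_abs_eq ht with rfl | rfl
      · rw [phi_neg_one h (cube_neg hz), phi_one h hz, neg_neg]
      · rw [neg_neg, phi_one h (cube_neg hz), phi_neg_one h hz, neg_neg]

theorem good (n : ℕ) : ∀ k ≤ n, Good n k (phi n k) := by
  intro k
  induction k with
  | zero => exact fun _ => good_zero n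
  | succ k ih => exact fun hk => good_succ hk (ih (by omega))

/-! ### labels -/

noncomputable def idx {n : ℕ} [NeZero n] (w : Fin n → ℝ) : Fin n :=
  (Finite.exists_max w).choose

theorem idx_spec {n : ℕ} [NeZero n] (w : Fin n → ℝ) (i : Fin n) : w i ≤ w (idx w) :=
  (Finite.exists_max w).choose_spec i

open scoped Classical in
noncomputable def lab {n : ℕ} [NeZero n] (v : Fin n → ℝ) : Lab n :=
  (idx (fun i => |v i|), decide (0 < v (idx (fun i => |v i|))))

theorem norm_le_idx {n : ℕ} [NeZero n] (v : Fin n → ℝ) : ‖v‖ ≤ |v (idx (fun i => |v i|))| := by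
  rw [pi_norm_le_iff_of_nonneg (abs_nonneg _)]
  intro i
  rw [Real.norm_eq_abs]
  exact idx_spec (fun i => |v i|) i

theorem lab_neg {n : ℕ} [NeZero n] (v : Fin n → ℝ) (hv : v ≠ 0) : lab (-v) = negL (lab v) := by
  have h1 : (fun i => |(-v) i|) = fun i => |v i| := by
    funext i; simp
  have h2 : v (idx (fun i => |v i|)) ≠ 0 := by
    intro h
    have := norm_le_idx v
    rw [h, abs_zero] at this
    exact hv (norm_le_zero_iff.1 this)
  unfold lab negL
  rw [h1]
  simp only [Pi.neg_apply, Prod.mk.injEq, true_and]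
  by_cases h3 : 0 < v (idx (fun i => |v i|))
  · simp [h3, h3.le]
  · have h4 : v (idx (fun i => |v i|)) < 0 := lt_of_le_of_ne (not_lt.1 h3) h2
    simp [h4, h3]

theorem lab_compl {n : ℕ} [NeZero n] (u v : Fin n → ℝ) (ε : ℝ) (hu : ε ≤ ‖u‖) (hv : ε ≤ ‖v‖)
    (hε : 0 < ε) (hd : dist u v < ε) : lab u ≠ negL (lab v) := by
  intro h
  unfold lab negL at h
  simp only [Prod.mk.injEq] at h
  obtain ⟨h1, h2⟩ := h
  have hu' := norm_le_idx u
  have hv' := norm_le_idx v
  rw [← h1] at h2 hv'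
  set i := idx (fun i => |u i|) with hi
  have hd' : |u i - v i| < ε := lt_of_le_of_lt (by
    rw [← Real.dist_eq]; exact dist_le_pi_dist u v i) hd
  by_cases h3 : 0 < v i
  · have h4 : ¬ 0 < u i := by
      intro h5
      simp [h3, h5] at h2
    have h5 : u i ≤ 0 := not_lt.1 h4
    rw [abs_of_nonpos h5] at hu'
    rw [abs_of_pos h3] at hv'
    have := (abs_lt.1 hd').1
    linarith
  · have h4 : 0 < u i := by
      by_contra h5
      simp [h3, h5] at h2
    rw [abs_of_pos h4] at hu'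
    have h5 : v i ≤ 0 := not_lt.1 h3
    rw [abs_of_nonpos h5] at hv'
    have := (abs_lt.1 hd').2
    linarith

/-- grid point to cube point -/
noncomputable def pp (N : ℕ) {k : ℕ} (z : Fin k → ℕ) : Fin k → ℝ :=
  fun i => 2 * (z i : ℝ) / N - 1

theorem pp_mem {N k : ℕ} (hN : 1 ≤ N) {z : Fin k → ℕ} (hz : ∀ i, z i ≤ N) : pp N z ∈ Cube k := by
  intro i
  have hN' : (0 : ℝ) < N := by exact_mod_cast hN
  have h1 : (z i : ℝ) ≤ N := by exact_mod_cast hz i
  have h2 : (0 : ℝ) ≤ z i := Nat.cast_nonneg _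
  have h3 : 2 * (z i : ℝ) / N ≤ 2 := by
    rw [div_le_iff₀ hN']; linarith
  have h4 : 0 ≤ 2 * (z i : ℝ) / N := by positivity
  simp only [pp]
  rw [abs_le]
  constructor <;> linarith

theorem pp_cons {N k : ℕ} (t : ℕ) (z : Fin k → ℕ) :
    pp N (Fin.cons t z : Fin (k + 1) → ℕ) = Fin.cons (2 * (t : ℝ) / N - 1) (pp N z) := by
  funext i
  refine Fin.cases ?_ (fun j => ?_) i
  · simp [pp]
  · simp [pp]

theorem pp_compl {N k : ℕ} (hN : 1 ≤ N) {z : Fin k → ℕ} (hz : ∀ i, z i ≤ N) :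
    pp N (fun i => N - z i) = - pp N z := by
  funext i
  have hN' : (N : ℝ) ≠ 0 := by
    have : (0 : ℝ) < N := by exact_mod_cast hN
    exact this.ne'
  simp only [pp, Pi.neg_apply]
  rw [Nat.cast_sub (hz i)]
  field_simp
  ring

end BUAux

open BUAux in
theorem BU_proof (h : FANC) : BU := by
  intro n g hg hodd
  rcases Nat.eq_zero_or_pos n with rfl | hn
  · refine ⟨fun _ => 1, ?_, Subsingleton.elim _ _⟩
    apply le_antisymm
    · rw [pi_norm_le_iff_of_nonneg zero_le_one]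
      simp
    · simp
  have : NeZero n := ⟨hn.ne'⟩
  by_contra hcon
  have hne : ∀ x, ‖x‖ = 1 → g x ≠ 0 := fun x hx h0 => hcon ⟨x, hx, h0⟩
  -- lower bound
  obtain ⟨ε, hε, hεb⟩ : ∃ ε : ℝ, 0 < ε ∧ ∀ x, ‖x‖ = 1 → ε ≤ ‖g x‖ := by
    have hcomp : IsCompact (Metric.sphere (0 : Fin (n + 1) → ℝ) 1) := isCompact_sphere _ _
    have hnon : (Metric.sphere (0 : Fin (n + 1) → ℝ) 1).Nonempty := by
      refine ⟨phi n 0 0, ?_⟩
      rw [mem_sphere_zero_iff_norm]
      exact (good_zero n).norm 0 (fun i => i.elim0)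
    obtain ⟨x0, hx0, hmin⟩ := hcomp.exists_isMinOn hnon (hg.norm.continuousOn)
    rw [mem_sphere_zero_iff_norm] at hx0
    refine ⟨‖g x0‖, norm_pos_iff.2 (hne x0 hx0), fun x hx => ?_⟩
    exact hmin (by rw [mem_sphere_zero_iff_norm]; exact hx)
  have hG := good n
  -- uniform continuity
  have hev : ∀ᶠ N : ℕ in Filter.atTop, ∀ k ∈ Finset.range (n + 1), ∀ x ∈ Cube k, ∀ y ∈ Cube k,
      dist x y ≤ 2 / (N : ℝ) → dist (g (phi n k x)) (g (phi n k y)) < ε := by
    rw [Filter.eventually_all_finset]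
    intro k hk
    have hk' : k ≤ n := by
      have := Finset.mem_range.1 hk
      omega
    have huc : UniformContinuousOn (fun x => g (phi n k x)) (Cube k) :=
      (isCompact_Cube k).uniformContinuousOn_of_continuous
        (hg.comp_continuousOn (hG k hk').cont)
    rw [Metric.uniformContinuousOn_iff] at huc
    obtain ⟨δ, hδ, hδ'⟩ := huc ε hε
    have h1 : Filter.Tendsto (fun N : ℕ => 2 / (N : ℝ)) Filter.atTop (nhds 0) :=
      tendsto_const_div_atTop_nhds_zero_nat 2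
    filter_upwards [h1.eventually (gt_mem_nhds hδ)] with N hN x hx y hy hxy
    exact hδ' x hx y hy (lt_of_le_of_lt hxy hN)
  obtain ⟨N, hN, hN1⟩ := (hev.and (Filter.eventually_ge_atTop 1)).exists
  have hN0 : (0 : ℝ) < N := by exact_mod_cast hN1
  have hNN : 2 * (N : ℝ) / N - 1 = 1 := by field_simp; norm_num
  have h00 : 2 * ((0 : ℕ) : ℝ) / N - 1 = -1 := by simp
  have hfin := h n N n (fun k z => lab (g (phi n k (pp N z)))) hN1 ?_ ?_ ?_ ?_
  · exact lt_irrefl _ hfin
  · intro k hk z hz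
    rw [pp_cons, hNN, phi_one (hG k hk.le) (pp_mem hN1 hz)]
  · intro k hk z hz
    rw [pp_cons, h00, phi_neg_one (hG k hk.le) (pp_mem hN1 hz), pp_compl hN1 hz, hodd]
    apply lab_neg
    exact hne _ ((hG k hk.le).norm _ (cube_neg (pp_mem hN1 hz)))
  · intro k hk z hz hb t ht
    rw [pp_cons, phi_bd (hG k hk.le) _ (pp_mem hN1 hz)]
    obtain ⟨i, hi⟩ := hb
    refine ⟨i, ?_⟩
    rcases hi with hi | hi
    · simp [pp, hi]
    · simp only [pp, hi, hNN]
      simp
  · intro k hk x τ i hi j hj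
    have hle : ∀ (j : ℕ) (c : Fin k), vert (fun c => (x c : ℕ)) τ j c ≤ N := by
      intro j c
      have := (x c).isLt
      simp only [vert]
      split_ifs <;> omega
    have hm : ∀ j, pp N (vert (fun c => (x c : ℕ)) τ j) ∈ Cube k := fun j => pp_mem hN1 (hle j)
    have hd : dist (pp N (vert (fun c => (x c : ℕ)) τ i)) (pp N (vert (fun c => (x c : ℕ)) τ j)) ≤
        2 / (N : ℝ) := by
      rw [dist_pi_le_iff (by positivity)]
      intro c
      rw [Real.dist_eq]
      have : pp N (vert (fun c => (x c : ℕ)) τ i) c - pp N (vert (fun c => (x c : ℕ)) τ j) c =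
          2 / N * ((if k ≤ i + (τ c : ℕ) then (1 : ℝ) else 0) -
            (if k ≤ j + (τ c : ℕ) then (1 : ℝ) else 0)) := by
        simp only [pp, vert]
        push_cast
        ring
      rw [this, abs_mul, abs_of_pos (by positivity : (0 : ℝ) < 2 / N)]
      have h2 : |(if k ≤ i + (τ c : ℕ) then (1 : ℝ) else 0) -
            (if k ≤ j + (τ c : ℕ) then (1 : ℝ) else 0)| ≤ 1 := by
        split_ifs <;> norm_num
      calc 2 / (N : ℝ) * _ ≤ 2 / (N : ℝ) * 1 := by
            apply mul_le_mul_of_nonneg_left h2 (by positivity)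
        _ = 2 / N := mul_one _
    exact lab_compl _ _ ε (hεb _ ((hG k hk).norm _ (hm i))) (hεb _ ((hG k hk).norm _ (hm j))) hε
      (hN k (Finset.mem_range.2 (by omega)) _ (hm i) _ (hm j) hd)

end Pool.Agent.Work.MP_916cc8_co

end

section

/-!
Interior facets of the Kuhn triangulation cancel mod 2 (adapted from the team's proof of
Sperner's lemma in `MP_476501_co/Brouwer.lean`).
-/

set_option autoImplicit false

namespace Pool.Agent.Work.MP_916cc8_co

namespace CANx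

open Finset

theorem add_self_zmod2 (a : ZMod 2) : a + a = 0 := by
  revert a; decide

/-- the value of `w` on facet `j` -/
def fw {n : ℕ} (w : (Fin n → (Fin n → ℕ)) → ZMod 2) (x : Fin n → ℕ)
    (τ : Equiv.Perm (Fin n)) (j : Fin (n + 1)) : ZMod 2 :=
  w (fun i => vert x τ ((j.succAbove i : Fin (n + 1)) : ℕ))

theorem fw_congr {n : ℕ} (w : (Fin n → (Fin n → ℕ)) → ZMod 2) (x x' : Fin n → ℕ)
    (τ τ' : Equiv.Perm (Fin n)) (j j' : Fin (n + 1))
    (h : ∀ i : Fin n, vert x τ ((j.succAbove i : Fin (n + 1)) : ℕ)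
      = vert x' τ' ((j'.succAbove i : Fin (n + 1)) : ℕ)) :
    fw w x τ j = fw w x' τ' j' := by
  unfold fw
  congr 1
  funext i
  exact h i

/-- Interior facets cancel. -/
theorem sum_mid {n : ℕ} (w : (Fin n → (Fin n → ℕ)) → ZMod 2) (x : Fin n → ℕ) (j : Fin (n + 1))
    (h0 : j ≠ 0) (hn : j ≠ Fin.last n) :
    ∑ τ : Equiv.Perm (Fin n), fw w x τ j = 0 := by
  have hj0 : 0 < (j : ℕ) := by
    rcases Nat.eq_zero_or_pos (j : ℕ) with h | h
    · exact absurd (Fin.ext h) h0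
    · exact h
  have hjn : (j : ℕ) < n := by
    have h1 := j.is_lt
    have h2 : (j : ℕ) ≠ n := fun h => hn (Fin.ext h)
    omega
  let p : Fin n := ⟨n - j, by omega⟩
  let q : Fin n := ⟨n - j - 1, by omega⟩
  have hpq : p ≠ q := by
    intro h
    have := congrArg Fin.val h
    simp only [p, q] at this
    omega
  refine Finset.sum_involution (fun τ _ => Equiv.swap p q * τ) ?_ ?_ ?_ ?_
  · intro τ _
    have h : fw w x (Equiv.swap p q * τ) j = fw w x τ j := by
      refine fw_congr w _ _ _ _ _ _ fun i => ?_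
      have hne : ((j.succAbove i : Fin (n + 1)) : ℕ) ≠ j := fun h =>
        Fin.succAbove_ne j i (Fin.ext h)
      unfold vert
      funext c
      congr 1
      have hiff : n ≤ ((j.succAbove i : Fin (n + 1)) : ℕ) + ((Equiv.swap p q * τ) c : ℕ) ↔
          n ≤ ((j.succAbove i : Fin (n + 1)) : ℕ) + (τ c : ℕ) := by
        rw [Equiv.Perm.mul_apply]
        by_cases h1 : τ c = p
        · rw [h1, Equiv.swap_apply_left]
          simp only [p, q]
          omega
        · by_cases h2 : τ c = q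
          · rw [h2, Equiv.swap_apply_right]
            simp only [p, q]
            omega
          · rw [Equiv.swap_apply_of_ne_of_ne h1 h2]
      simp only [hiff]
    rw [h]
    exact add_self_zmod2 _
  · intro τ _ _ h
    have h1 : Equiv.swap p q = 1 := by
      have := congrArg (fun s => s * τ⁻¹) h
      simpa using this
    exact hpq (Equiv.swap_eq_one_iff.mp h1)
  · intro τ _
    exact Finset.mem_univ _
  · intro τ _
    rw [← mul_assoc, Equiv.swap_mul_self, one_mul]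

theorem vert_rot {m : ℕ} (x : Fin (m + 1) → ℕ) (τ : Equiv.Perm (Fin (m + 1))) (i : Fin (m + 1)) :
    vert x τ ((i : ℕ) + 1) =
      vert (fun c => x c + if (finRotate (m + 1) * τ) c = 0 then 1 else 0)
        (finRotate (m + 1) * τ) i := by
  funext c
  unfold vert
  simp only [Equiv.Perm.mul_apply, finRotate_apply]
  by_cases h : τ c = Fin.last m
  · rw [h, Fin.last_add_one]
    have hi := i.is_lt
    have hl : ((Fin.last m : Fin (m + 1)) : ℕ) = m := rfl
    have hz : ((0 : Fin (m + 1)) : ℕ) = 0 := rfl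
    rw [if_pos (by omega), if_pos rfl, if_neg (by omega)]
  · have h1 : ((τ c + 1 : Fin (m + 1)) : ℕ) = (τ c : ℕ) + 1 := by
      rw [Fin.val_add_one]
      simp [h]
    have h2 : (τ c + 1 : Fin (m + 1)) ≠ 0 := by
      intro h3
      have := congrArg Fin.val h3
      rw [h1] at this
      simp at this
    rw [if_neg h2, h1]
    have h3 : (m + 1 ≤ (i : ℕ) + 1 + (τ c : ℕ)) ↔ (m + 1 ≤ (i : ℕ) + ((τ c : ℕ) + 1)) := by
      omega
    simp only [h3, add_zero]

theorem sum_first {m N : ℕ} (w : (Fin (m + 1) → (Fin (m + 1) → ℕ)) → ZMod 2) :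
    ∑ τ : Equiv.Perm (Fin (m + 1)), ∑ x : Fin (m + 1) → Fin N,
      fw w (fun c => (x c : ℕ)) τ 0 =
    ∑ τ : Equiv.Perm (Fin (m + 1)), ∑ x : Fin (m + 1) → Fin N,
      fw w (fun c => (x c : ℕ) + if τ c = 0 then 1 else 0) τ (Fin.last (m + 1)) := by
  rw [← Equiv.sum_comp (Equiv.mulLeft (finRotate (m + 1)))
    (fun τ : Equiv.Perm (Fin (m + 1)) => ∑ x : Fin (m + 1) → Fin N,
      fw w (fun c => (x c : ℕ) + if τ c = 0 then 1 else 0) τ (Fin.last (m + 1)))]
  refine Finset.sum_congr rfl fun τ _ => Finset.sum_congr rfl fun x _ => ?_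
  refine fw_congr w _ _ _ _ _ _ fun i => ?_
  rw [Fin.succAbove_zero, Fin.succAbove_last, Fin.val_succ, Fin.val_castSucc]
  exact vert_rot _ _ _

theorem telescope (G : ℕ → ZMod 2) (N : ℕ) :
    ∑ t ∈ Finset.range N, (G (t + 1) + G t) = G N + G 0 := by
  induction N with
  | zero => simp [add_self_zmod2]
  | succ N ih =>
    rw [Finset.sum_range_succ, ih]
    have := add_self_zmod2 (G N)
    linear_combination this

theorem insertNth_coe {m N : ℕ} (a : Fin (m + 1)) (t : Fin N) (y : Fin m → Fin N) :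
    (fun c => ((a.insertNth t y : Fin (m + 1) → Fin N) c : ℕ)) =
      (a.insertNth (t : ℕ) (fun c => (y c : ℕ)) : Fin (m + 1) → ℕ) := by
  funext c
  refine Fin.succAboveCases a ?_ (fun i => ?_) c
  · rw [Fin.insertNth_apply_same, Fin.insertNth_apply_same]
  · rw [Fin.insertNth_apply_succAbove, Fin.insertNth_apply_succAbove]

theorem insertNth_coe_add {m N : ℕ} (τ : Equiv.Perm (Fin (m + 1))) (t : Fin N)
    (y : Fin m → Fin N) :
    (fun c => (((τ.symm 0).insertNth t y : Fin (m + 1) → Fin N) c : ℕ)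
      + if τ c = 0 then 1 else 0) =
      ((τ.symm 0).insertNth ((t : ℕ) + 1) (fun c => (y c : ℕ)) : Fin (m + 1) → ℕ) := by
  funext c
  refine Fin.succAboveCases (τ.symm 0) ?_ (fun i => ?_) c
  · rw [Fin.insertNth_apply_same, Fin.insertNth_apply_same, Equiv.apply_symm_apply, if_pos rfl]
  · rw [Fin.insertNth_apply_succAbove, Fin.insertNth_apply_succAbove, if_neg, add_zero]
    intro h
    have : τ.symm 0 = (τ.symm 0).succAbove i := by
      rw [Equiv.symm_apply_eq]
      exact h.symm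
    exact Fin.succAbove_ne _ _ this.symm

/-- Boundary terms. -/
theorem sum_boundary {m N : ℕ} (w : (Fin (m + 1) → (Fin (m + 1) → ℕ)) → ZMod 2)
    (τ : Equiv.Perm (Fin (m + 1))) :
    ∑ x : Fin (m + 1) → Fin N,
      fw w (fun c => (x c : ℕ) + if τ c = 0 then 1 else 0) τ (Fin.last (m + 1)) +
    ∑ x : Fin (m + 1) → Fin N, fw w (fun c => (x c : ℕ)) τ (Fin.last (m + 1)) =
    ∑ y : Fin m → Fin N,
      (fw w ((τ.symm 0).insertNth N (fun c => (y c : ℕ)) : Fin (m + 1) → ℕ) τ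
          (Fin.last (m + 1)) +
       fw w ((τ.symm 0).insertNth 0 (fun c => (y c : ℕ)) : Fin (m + 1) → ℕ) τ
          (Fin.last (m + 1))) := by
  rw [← Finset.sum_add_distrib,
    ← Equiv.sum_comp (Fin.insertNthEquiv (fun _ => Fin N) (τ.symm 0)), Fintype.sum_prod_type,
    Finset.sum_comm]
  refine Finset.sum_congr rfl fun y _ => ?_
  simp only [Fin.insertNthEquiv_apply]
  simp only [insertNth_coe_add, insertNth_coe]
  rw [← telescope (fun t => fw w ((τ.symm 0).insertNth t (fun c => (y c : ℕ)) :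
    Fin (m + 1) → ℕ) τ (Fin.last (m + 1))) N]
  rw [Finset.sum_range]

end CANx

open CANx in
theorem CAN_proof : CAN := by
  intro m N w
  have hlast : ∀ (τ : Equiv.Perm (Fin (m + 1))) (x : Fin (m + 1) → ℕ),
      fw w x τ (Fin.last (m + 1)) = w (fun i => vert x τ i) := by
    intro τ x
    unfold fw
    congr 1
    funext i
    rw [Fin.succAbove_last, Fin.val_castSucc]
  change ∑ τ : Equiv.Perm (Fin (m + 1)), ∑ x : Fin (m + 1) → Fin N, ∑ j : Fin (m + 2),
    fw w (fun c => (x c : ℕ)) τ j = _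
  have hcomm : ∑ τ : Equiv.Perm (Fin (m + 1)), ∑ x : Fin (m + 1) → Fin N,
      ∑ j : Fin (m + 2), fw w (fun c => (x c : ℕ)) τ j =
      ∑ j : Fin (m + 2), ∑ x : Fin (m + 1) → Fin N, ∑ τ : Equiv.Perm (Fin (m + 1)),
        fw w (fun c => (x c : ℕ)) τ j := by
    rw [Finset.sum_comm]
    rw [Finset.sum_congr rfl fun x _ => Finset.sum_comm]
    rw [Finset.sum_comm]
  rw [hcomm, Fin.sum_univ_succ, Fin.sum_univ_castSucc]
  have hmid : ∑ j : Fin m, ∑ x : Fin (m + 1) → Fin N, ∑ τ : Equiv.Perm (Fin (m + 1)),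
      fw w (fun c => (x c : ℕ)) τ j.castSucc.succ = 0 := by
    refine Finset.sum_eq_zero fun j _ => Finset.sum_eq_zero fun x _ => ?_
    refine sum_mid w _ _ (Fin.succ_ne_zero _) ?_
    intro h
    have := congrArg Fin.val h
    simp at this
    have := j.is_lt
    omega
  rw [hmid, zero_add, Fin.succ_last]
  rw [Finset.sum_comm, sum_first, Finset.sum_comm (s := (Finset.univ : Finset
    (Fin (m + 1) → Fin N))), ← Finset.sum_add_distrib]
  simp only [sum_boundary]
  simp only [hlast]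

end Pool.Agent.Work.MP_916cc8_co

end

section

/-! Triangles with a very rich base line. -/

set_option autoImplicit false

namespace Pool.Agent.Work.MP_916cc8_co

open scoped Classical in
theorem GSa_proof (hv : VeryRich) : GSa := by
  intro S
  set T := (S ×ˢ S ×ˢ S).filter (fun z => cr (z.2.1 - z.1) (z.2.2 - z.1) = 2 ∧
    2 * Real.sqrt S.card ≤ rich S (base z.1 z.2.1)) with hT
  have hmem : ∀ z ∈ T, (z.1 ∈ S ∧ z.2.1 ∈ S ∧ z.2.2 ∈ S) ∧
      cr (z.2.1 - z.1) (z.2.2 - z.1) = 2 ∧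
      2 * Real.sqrt S.card ≤ rich S (base z.1 z.2.1) := by
    intro z hz
    rw [hT, Finset.mem_filter, Finset.mem_product, Finset.mem_product] at hz
    exact ⟨hz.1, hz.2⟩
  have hne : ∀ z ∈ T, z.1 ≠ z.2.1 := by
    intro z hz h
    have h1 := (hmem z hz).2.1
    rw [← h, sub_self] at h1
    simp [cr] at h1
  set L := T.image (fun z => base z.1 z.2.1) with hL
  have hL1 : ∀ ℓ ∈ L, IsLine ℓ ∧ 2 * Real.sqrt S.card ≤ rich S ℓ := by
    intro ℓ hℓ
    rw [hL, Finset.mem_image] at hℓ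
    obtain ⟨z, hz, rfl⟩ := hℓ
    exact ⟨isLine_base (hne z hz), (hmem z hz).2.2⟩
  have hsum := hv S L hL1
  have hcard : T.card ≤ (L.sigma (fun ℓ => (S.filter (fun x => x ∈ ℓ)) ×ˢ S)).card := by
    refine Finset.card_le_card_of_injOn
      (fun z => (⟨base z.1 z.2.1, (z.1, z.2.2)⟩ : Σ _ : Set Pt, Pt × Pt)) ?_ ?_
    · intro z hz
      have hz' : z ∈ T := hz
      have h1 := hmem z hz'
      simp only [Finset.coe_sigma, Set.mem_sigma_iff, Finset.mem_coe, Finset.mem_product,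
        Finset.mem_filter]
      refine ⟨Finset.mem_image_of_mem _ hz', ⟨h1.1.1, ?_⟩, h1.1.2.2⟩
      rw [mem_base, sub_self]
      simp [cr]
    · intro z hz w hw h
      have hz' : z ∈ T := hz
      have hw' : w ∈ T := hw
      obtain ⟨p, q, r⟩ := z
      obtain ⟨p', q', r'⟩ := w
      simp only [Sigma.mk.injEq, heq_eq_eq, Prod.mk.injEq] at h
      obtain ⟨h1, h2, h3⟩ := h
      subst h2
      subst h3
      have e1 := (hmem _ hz').2.1
      have e2 := (hmem _ hw').2.1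
      have hq : q' ∈ base p q := by
        rw [h1, mem_base]
        exact cr_self _
      rw [mem_base] at hq
      simp only [cr, Prod.fst_sub, Prod.snd_sub] at e1 e2 hq
      have h4 : q = q' := by
        have e3 : (q.1 - q'.1) * 2 = 0 := by
          linear_combination (q'.1 - p.1) * e1 - (q.1 - p.1) * e2 - (r.1 - p.1) * hq
        have e4 : (q.2 - q'.2) * 2 = 0 := by
          linear_combination (q'.2 - p.2) * e1 - (q.2 - p.2) * e2 - (r.2 - p.2) * hq
        ext <;> linarith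
      rw [h4]
  have hcard2 : ((L.sigma (fun ℓ => (S.filter (fun x => x ∈ ℓ)) ×ˢ S)).card : ℝ) =
      (∑ ℓ ∈ L, (rich S ℓ : ℝ)) * S.card := by
    rw [Finset.card_sigma, Nat.cast_sum, Finset.sum_mul]
    refine Finset.sum_congr rfl fun ℓ _ => ?_
    rw [Finset.card_product, Nat.cast_mul]
    rfl
  calc (T.card : ℝ) ≤ ((L.sigma (fun ℓ => (S.filter (fun x => x ∈ ℓ)) ×ˢ S)).card : ℝ) := by
        exact_mod_cast hcard
    _ = (∑ ℓ ∈ L, (rich S ℓ : ℝ)) * S.card := hcard2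
    _ ≤ (2 * S.card) * S.card := mul_le_mul_of_nonneg_right hsum (Nat.cast_nonneg _)
    _ = 2 * (S.card : ℝ) ^ 2 := by ring

end Pool.Agent.Work.MP_916cc8_co

end

section

/-! Item GSb: pairs weighted with the richness of their base line. -/

set_option autoImplicit false

namespace Pool.Agent.Work.MP_916cc8_co

open scoped Classical

theorem gsb_left (p q : Pt) : p ∈ base p q := by
  rw [mem_base]
  unfold cr
  simp

theorem gsb_right (p q : Pt) : q ∈ base p q := by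
  rw [mem_base]
  unfold cr
  ring

theorem GSb_proof (hs : Sums) : GSb := by
  obtain ⟨C, hC, h⟩ := hs (8 / 3) (by norm_num) (by norm_num)
  refine ⟨C * (2 : ℝ) ^ ((8 : ℝ) / 3 - 3), by positivity, ?_⟩
  intro S
  set Z := (S ×ˢ S).filter (fun z : Pt × Pt => z.1 ≠ z.2 ∧
    (rich S (base z.1 z.2) : ℝ) ≤ 2 * Real.sqrt S.card) with hZ
  set L := Z.image (fun z => base z.1 z.2) with hL
  have hmem : ∀ z ∈ Z, z.1 ∈ S ∧ z.2 ∈ S ∧ z.1 ≠ z.2 ∧
      (rich S (base z.1 z.2) : ℝ) ≤ 2 * Real.sqrt S.card := by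
    intro z hz
    rw [hZ, Finset.mem_filter, Finset.mem_product] at hz
    exact ⟨hz.1.1, hz.1.2, hz.2.1, hz.2.2⟩
  have hLm : ∀ ℓ ∈ L, IsLine ℓ ∧ (2 : ℝ) ≤ rich S ℓ ∧
      (rich S ℓ : ℝ) ≤ 2 * Real.sqrt S.card := by
    intro ℓ hℓ
    obtain ⟨z, hz, rfl⟩ := Finset.mem_image.mp hℓ
    obtain ⟨h1, h2, h3, h4⟩ := hmem z hz
    refine ⟨isLine_base h3, ?_, h4⟩
    have : 2 ≤ rich S (base z.1 z.2) := by
      unfold rich
      have hsub : ({z.1, z.2} : Finset Pt) ⊆ S.filter (fun x => x ∈ base z.1 z.2) := by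
        intro x hx
        rw [Finset.mem_insert, Finset.mem_singleton] at hx
        rw [Finset.mem_filter]
        rcases hx with rfl | rfl
        · exact ⟨h1, gsb_left _ _⟩
        · exact ⟨h2, gsb_right _ _⟩
      calc 2 = ({z.1, z.2} : Finset Pt).card := (Finset.card_pair h3).symm
        _ ≤ _ := Finset.card_le_card hsub
    exact_mod_cast this
  have hsum := h S L 2 le_rfl hLm
  calc ∑ z ∈ Z, (rich S (base z.1 z.2) : ℝ) ^ ((2 : ℝ) / 3)
      = ∑ ℓ ∈ L, ∑ z ∈ Z.filter (fun z => base z.1 z.2 = ℓ),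
          (rich S (base z.1 z.2) : ℝ) ^ ((2 : ℝ) / 3) :=
        (Finset.sum_fiberwise_of_maps_to (fun z hz => Finset.mem_image_of_mem _ hz) _).symm
    _ ≤ ∑ ℓ ∈ L, (rich S ℓ : ℝ) ^ ((8 : ℝ) / 3) := by
        refine Finset.sum_le_sum fun ℓ hℓ => ?_
        have e1 : ∑ z ∈ Z.filter (fun z => base z.1 z.2 = ℓ),
            (rich S (base z.1 z.2) : ℝ) ^ ((2 : ℝ) / 3) =
            ((Z.filter (fun z => base z.1 z.2 = ℓ)).card : ℝ) *
              (rich S ℓ : ℝ) ^ ((2 : ℝ) / 3) := by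
          rw [← nsmul_eq_mul, ← Finset.sum_const]
          refine Finset.sum_congr rfl fun z hz => ?_
          rw [(Finset.mem_filter.mp hz).2]
        have hpos : (0 : ℝ) < rich S ℓ := by linarith [(hLm ℓ hℓ).2.1]
        have e2 : (rich S ℓ : ℝ) ^ ((8 : ℝ) / 3) =
            ((rich S ℓ : ℝ) ^ 2) * (rich S ℓ : ℝ) ^ ((2 : ℝ) / 3) := by
          rw [← Real.rpow_natCast (rich S ℓ : ℝ) 2, ← Real.rpow_add hpos]
          norm_num
        rw [e1, e2]
        refine mul_le_mul_of_nonneg_right ?_ (Real.rpow_nonneg hpos.le _)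
        have e3 : (Z.filter (fun z => base z.1 z.2 = ℓ)).card ≤ rich S ℓ * rich S ℓ := by
          unfold rich
          rw [← Finset.card_product]
          refine Finset.card_le_card fun z hz => ?_
          rw [Finset.mem_filter] at hz
          obtain ⟨hz1, rfl⟩ := hz
          obtain ⟨h1, h2, -, -⟩ := hmem z hz1
          rw [Finset.mem_product, Finset.mem_filter, Finset.mem_filter]
          exact ⟨⟨h1, gsb_left _ _⟩, ⟨h2, gsb_right _ _⟩⟩
        have : ((Z.filter (fun z => base z.1 z.2 = ℓ)).card : ℝ) ≤ (rich S ℓ : ℝ) * rich S ℓ := by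
          exact_mod_cast e3
        linarith [this, sq (rich S ℓ : ℝ)]
    _ ≤ C * (S.card : ℝ) ^ 2 * (2 : ℝ) ^ ((8 : ℝ) / 3 - 3) := hsum
    _ = C * (2 : ℝ) ^ ((8 : ℝ) / 3 - 3) * (S.card : ℝ) ^ 2 := by ring

end Pool.Agent.Work.MP_916cc8_co

end

section

/-! Triangles with both base points good. -/

set_option autoImplicit false

namespace Pool.Agent.Work.MP_916cc8_co

open MvPolynomial

open scoped Classical in
theorem gs_tri_eq (G S : Finset Pt) : tri G S =
    ∑ z ∈ (G ×ˢ G).filter (fun z => z.1 ≠ z.2), rich S (top z.1 z.2) := by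
  unfold tri
  rw [Finset.card_filter, Finset.sum_product, Finset.sum_filter, Finset.sum_product]
  apply Finset.sum_congr rfl
  intro p hp
  rw [Finset.sum_product]
  apply Finset.sum_congr rfl
  intro q hq
  simp only
  split_ifs with h
  · rw [rich, Finset.card_filter]
    apply Finset.sum_congr rfl
    intro r hr
    simp only [mem_top]
  · push Not at h
    subst h
    simp [cr]

open scoped Classical in
theorem gs_fiber_card {S : Finset Pt} {Q : Finset (Pt × Pt)}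
    (hQ : ∀ z ∈ Q, z.1 ∈ S ∧ z.1 ≠ z.2) (ℓ : Set Pt) :
    (Q.filter (fun z => top z.1 z.2 = ℓ)).card ≤ S.card := by
  apply Finset.card_le_card_of_injOn (fun z => z.1)
  · intro z hz
    have hz' := Finset.mem_filter.1 (Finset.mem_coe.1 hz)
    exact Finset.mem_coe.2 (hQ z hz'.1).1
  · intro z hz w hw h
    have hz' := Finset.mem_filter.1 (Finset.mem_coe.1 hz)
    have hw' := Finset.mem_filter.1 (Finset.mem_coe.1 hw)
    simp only at h
    have h2 : top z.1 z.2 = top z.1 w.2 := by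
      rw [hz'.2, h, hw'.2]
    exact Prod.ext h (top_unique (hQ z hz'.1).2 h2)

open scoped Classical in
theorem gs_fiber_sum (S : Finset Pt) (Q : Finset (Pt × Pt)) :
    ∑ z ∈ Q, (rich S (top z.1 z.2) : ℝ) =
      ∑ ℓ ∈ Q.image (fun z => top z.1 z.2),
        ((Q.filter (fun z => top z.1 z.2 = ℓ)).card : ℝ) * rich S ℓ := by
  rw [← Finset.sum_fiberwise_of_maps_to (s := Q) (t := Q.image (fun z => top z.1 z.2))
    (g := fun z => top z.1 z.2) (fun z hz => Finset.mem_image_of_mem _ hz)]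
  apply Finset.sum_congr rfl
  intro ℓ hℓ
  rw [← nsmul_eq_mul, ← Finset.sum_const]
  apply Finset.sum_congr rfl
  intro z hz
  rw [(Finset.mem_filter.1 hz).2]

open scoped Classical in
/-- pairs with a very rich top line -/
theorem gs_part2 (hv : VeryRich) (S : Finset Pt) (Q : Finset (Pt × Pt))
    (hQ : ∀ z ∈ Q, z.1 ∈ S ∧ z.1 ≠ z.2)
    (hQ2 : ∀ z ∈ Q, 2 * Real.sqrt S.card ≤ rich S (top z.1 z.2)) :
    ∑ z ∈ Q, (rich S (top z.1 z.2) : ℝ) ≤ 2 * (S.card : ℝ) ^ 2 := by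
  rw [gs_fiber_sum]
  have h1 := hv S (Q.image (fun z => top z.1 z.2)) (by
    intro ℓ hℓ
    obtain ⟨z, hz, rfl⟩ := Finset.mem_image.1 hℓ
    exact ⟨isLine_top (hQ z hz).2, hQ2 z hz⟩)
  calc ∑ ℓ ∈ Q.image (fun z => top z.1 z.2),
        ((Q.filter (fun z => top z.1 z.2 = ℓ)).card : ℝ) * rich S ℓ
      ≤ ∑ ℓ ∈ Q.image (fun z => top z.1 z.2), (S.card : ℝ) * rich S ℓ := by
        apply Finset.sum_le_sum
        intro ℓ hℓ
        apply mul_le_mul_of_nonneg_right _ (Nat.cast_nonneg _)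
        exact_mod_cast gs_fiber_card hQ ℓ
    _ = (S.card : ℝ) * ∑ ℓ ∈ Q.image (fun z => top z.1 z.2), (rich S ℓ : ℝ) := by
        rw [Finset.mul_sum]
    _ ≤ (S.card : ℝ) * (2 * S.card) := mul_le_mul_of_nonneg_left h1 (Nat.cast_nonneg _)
    _ = 2 * (S.card : ℝ) ^ 2 := by ring

open scoped Classical in
/-- pairs with a very rich base line -/
theorem gs_part3 (ha : GSa) (S : Finset Pt) (Q : Finset (Pt × Pt))
    (hQ : ∀ z ∈ Q, z.1 ∈ S ∧ z.2 ∈ S)
    (hQ2 : ∀ z ∈ Q, 2 * Real.sqrt S.card ≤ rich S (base z.1 z.2)) :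
    ∑ z ∈ Q, (rich S (top z.1 z.2) : ℝ) ≤ 2 * (S.card : ℝ) ^ 2 := by
  refine le_trans ?_ (ha S)
  have h1 : ∑ z ∈ Q, (rich S (top z.1 z.2) : ℝ) =
      (((Q ×ˢ S).filter (fun y => y.2 ∈ top y.1.1 y.1.2)).card : ℝ) := by
    rw [Finset.card_filter, Finset.sum_product]
    push_cast
    apply Finset.sum_congr rfl
    intro z hz
    rw [rich, Finset.card_filter]
    push_cast
    rfl
  rw [h1]
  have h2 : ((Q ×ˢ S).filter (fun y => y.2 ∈ top y.1.1 y.1.2)).card ≤
      ((S ×ˢ S ×ˢ S).filter (fun z => cr (z.2.1 - z.1) (z.2.2 - z.1) = 2 ∧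
    2 * Real.sqrt S.card ≤ rich S (base z.1 z.2.1))).card := by
    apply Finset.card_le_card_of_injOn (fun y => (y.1.1, y.1.2, y.2))
    · intro y hy
      have hy' := Finset.mem_filter.1 (Finset.mem_coe.1 hy)
      have hy2 := Finset.mem_product.1 hy'.1
      apply Finset.mem_coe.2
      rw [Finset.mem_filter, Finset.mem_product, Finset.mem_product]
      exact ⟨⟨(hQ y.1 hy2.1).1, (hQ y.1 hy2.1).2, hy2.2⟩, hy'.2, hQ2 y.1 hy2.1⟩
    · intro y hy w hw h
      simp only [Prod.mk.injEq] at h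
      exact Prod.ext (Prod.ext h.1 h.2.1) h.2.2
  exact_mod_cast h2

open scoped Classical in
/-- pairs with `rich (top) ≤ k₀ rich(base)^(2/3)` -/
theorem gs_part4 {C : ℝ} (S : Finset Pt) (hb : ∑ z ∈ (S ×ˢ S).filter (fun z => z.1 ≠ z.2 ∧
    (rich S (base z.1 z.2) : ℝ) ≤ 2 * Real.sqrt S.card),
    (rich S (base z.1 z.2) : ℝ) ^ ((2 : ℝ) / 3) ≤ C * (S.card : ℝ) ^ 2)
    (Q : Finset (Pt × Pt)) (k₀ : ℝ) (hk : 0 ≤ k₀)
    (hQ : ∀ z ∈ Q, z.1 ∈ S ∧ z.2 ∈ S ∧ z.1 ≠ z.2 ∧
      (rich S (base z.1 z.2) : ℝ) ≤ 2 * Real.sqrt S.card)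
    (hQ2 : ∀ z ∈ Q, (rich S (top z.1 z.2) : ℝ) ≤
      k₀ * (rich S (base z.1 z.2) : ℝ) ^ ((2 : ℝ) / 3)) :
    ∑ z ∈ Q, (rich S (top z.1 z.2) : ℝ) ≤ k₀ * (C * (S.card : ℝ) ^ 2) := by
  calc ∑ z ∈ Q, (rich S (top z.1 z.2) : ℝ)
      ≤ ∑ z ∈ Q, k₀ * (rich S (base z.1 z.2) : ℝ) ^ ((2 : ℝ) / 3) := Finset.sum_le_sum hQ2
    _ = k₀ * ∑ z ∈ Q, (rich S (base z.1 z.2) : ℝ) ^ ((2 : ℝ) / 3) := by rw [Finset.mul_sum]
    _ ≤ k₀ * (C * (S.card : ℝ) ^ 2) := by
        apply mul_le_mul_of_nonneg_left _ hk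
        refine le_trans ?_ hb
        apply Finset.sum_le_sum_of_subset_of_nonneg
        · intro z hz
          obtain ⟨h1, h2, h3, h4⟩ := hQ z hz
          rw [Finset.mem_filter, Finset.mem_product]
          exact ⟨⟨h1, h2⟩, h3, h4⟩
        · intro z _ _
          positivity

/-- in a non-degenerate relation the second components are distinct -/
theorem nrel_ne {p p' q q' : Pt} (h : NRel (p, p') (q, q')) : p ≠ p' ∧ q ≠ q' := by
  obtain ⟨hR, hc⟩ := h
  simp only at hc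
  constructor
  · intro h0
    subst h0
    apply hc
    simp [cr]
  · intro h0
    subst h0
    have h1 := rel_den hR
    obtain ⟨h2, h3, h4, h5⟩ := rel_iff.1 hR
    simp only at h1 h2 h3 h4 h5
    apply hc
    set s := 2 + cr (q - p) (p - p') with hs
    have h6 : s * cr (q - p) (p' - p) = 0 := by
      simp only [cr, Prod.fst_sub, Prod.snd_sub]
      linear_combination (q.2 - p.2) * h4 - (q.1 - p.1) * h5
    exact (mul_eq_zero.1 h6).resolve_left h1

open scoped Classical in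
/-- the collisions are counted in `closeP × closeP` -/
theorem gs_coll {t : ℕ} (f : Fin t → MvPolynomial (Fin 2) ℝ) (G : Finset Pt)
    (Q : Finset (Pt × Pt)) (hQ : ∀ z ∈ Q, z.1 ∈ G ∧ z.2 ∈ G) (L : Finset (Set Pt)) :
    ∑ ℓ ∈ L, ((((Q.filter (fun z => top z.1 z.2 = ℓ)) ×ˢ
      (Q.filter (fun z => top z.1 z.2 = ℓ))).filter (fun s =>
        sameCl f (v2 s.1.1) (v2 s.2.1) ∧ sameCl f (v2 s.1.2) (v2 s.2.2) ∧
        NRel (s.1.1, s.2.1) (s.1.2, s.2.2))).card) ≤
    ((closeP f G ×ˢ closeP f G).filter (fun z => NRel z.1 z.2)).card := by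
  rw [← Finset.card_sigma]
  apply Finset.card_le_card_of_injOn
    (fun u => ((u.2.1.1, u.2.2.1), (u.2.1.2, u.2.2.2)))
  · rintro ⟨ℓ, s⟩ hu
    have h1 := Finset.mem_sigma.1 (Finset.mem_coe.1 hu)
    simp only at h1
    have h2 := Finset.mem_filter.1 h1.2
    have h3 := Finset.mem_product.1 h2.1
    have h4 := Finset.mem_filter.1 h3.1
    have h5 := Finset.mem_filter.1 h3.2
    obtain ⟨h6, h7, h8⟩ := h2.2
    have h9 := nrel_ne h8
    apply Finset.mem_coe.2
    rw [Finset.mem_filter, Finset.mem_product]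
    refine ⟨⟨?_, ?_⟩, h8⟩
    · rw [closeP, Finset.mem_filter, Finset.mem_product]
      exact ⟨⟨(hQ _ h4.1).1, (hQ _ h5.1).1⟩, h9.1, h6⟩
    · rw [closeP, Finset.mem_filter, Finset.mem_product]
      exact ⟨⟨(hQ _ h4.1).2, (hQ _ h5.1).2⟩, h9.2, h7⟩
  · rintro ⟨ℓ, s⟩ hu ⟨ℓ', s'⟩ hu' h
    have h1 := Finset.mem_sigma.1 (Finset.mem_coe.1 hu)
    have h1' := Finset.mem_sigma.1 (Finset.mem_coe.1 hu')
    simp only at h1 h1'
    have h2 := Finset.mem_filter.1 h1.2
    have h2' := Finset.mem_filter.1 h1'.2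
    have h3 := Finset.mem_product.1 h2.1
    have h3' := Finset.mem_product.1 h2'.1
    have h4 := Finset.mem_filter.1 h3.1
    have h4' := Finset.mem_filter.1 h3'.1
    simp only [Prod.mk.injEq] at h
    obtain ⟨⟨e1, e2⟩, e3, e4⟩ := h
    have es : s = s' := Prod.ext (Prod.ext e1 e3) (Prod.ext e2 e4)
    subst es
    have : ℓ = ℓ' := by rw [← h4.2, ← h4'.2]
    subst this
    rfl

open scoped Classical in
/-- the remaining pairs: collisions -/
theorem gs_part5 (hc : Col) {C2 C52 : ℝ} (S G : Finset Pt) (t : ℕ)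
    (f : Fin t → MvPolynomial (Fin 2) ℝ) (k₀ I : ℝ) (hk : 2 ≤ k₀) (hGS : G ⊆ S)
    (hG : ∀ p ∈ G, ∀ j, eval (v2 p) (f j) ≠ 0)
    (hI : (((closeP f G ×ˢ closeP f G).filter (fun z => NRel z.1 z.2)).card : ℝ) ≤ I)
    (hC2 : 0 < C2)
    (hS2 : ∀ L : Finset (Set Pt), (∀ ℓ ∈ L, IsLine ℓ ∧ k₀ ≤ rich S ℓ ∧
      (rich S ℓ : ℝ) ≤ 2 * Real.sqrt S.card) →
      (∑ ℓ ∈ L, (rich S ℓ : ℝ) ^ (2 : ℝ)) ≤ C2 * (S.card : ℝ) ^ 2 * k₀ ^ ((2 : ℝ) - 3))
    (hS52 : ∀ L : Finset (Set Pt), (∀ ℓ ∈ L, IsLine ℓ ∧ k₀ ≤ rich S ℓ ∧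
      (rich S ℓ : ℝ) ≤ 2 * Real.sqrt S.card) →
      (∑ ℓ ∈ L, (rich S ℓ : ℝ) ^ ((5 : ℝ) / 2)) ≤
        C52 * (S.card : ℝ) ^ 2 * k₀ ^ ((5 : ℝ) / 2 - 3))
    (Q : Finset (Pt × Pt)) (hQ : ∀ z ∈ Q, z.1 ∈ G ∧ z.2 ∈ G ∧ z.1 ≠ z.2)
    (hQ2 : ∀ z ∈ Q, k₀ ≤ rich S (top z.1 z.2) ∧
      (rich S (top z.1 z.2) : ℝ) ≤ 2 * Real.sqrt S.card)
    (hQ3 : ∀ z ∈ Q, k₀ * (rich S (base z.1 z.2) : ℝ) ^ ((2 : ℝ) / 3) ≤
      rich S (top z.1 z.2)) :
    ∑ z ∈ Q, (rich S (top z.1 z.2) : ℝ) ≤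
      2 * C52 * ((VV f : ℝ) * (S.card : ℝ) ^ 2 / k₀ ^ 2) +
      Real.sqrt (2 * C2) * ((S.card : ℝ) * Real.sqrt ((VV f : ℝ) * I / k₀)) := by
  have hk0 : (0 : ℝ) < k₀ := by linarith
  rw [gs_fiber_sum]
  set L := Q.image (fun z => top z.1 z.2) with hL
  set V : ℝ := (VV f : ℝ) with hV
  have hV0 : 0 ≤ V := Nat.cast_nonneg _
  set coll : Set Pt → ℕ := fun ℓ => ((((Q.filter (fun z => top z.1 z.2 = ℓ)) ×ˢ
      (Q.filter (fun z => top z.1 z.2 = ℓ))).filter (fun s =>
        sameCl f (v2 s.1.1) (v2 s.2.1) ∧ sameCl f (v2 s.1.2) (v2 s.2.2) ∧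
        NRel (s.1.1, s.2.1) (s.1.2, s.2.2))).card) with hcoll
  have hLin : ∀ ℓ ∈ L, IsLine ℓ ∧ k₀ ≤ rich S ℓ ∧ (rich S ℓ : ℝ) ≤ 2 * Real.sqrt S.card := by
    intro ℓ hℓ
    obtain ⟨z, hz, rfl⟩ := Finset.mem_image.1 hℓ
    exact ⟨isLine_top (hQ z hz).2.2, hQ2 z hz⟩
  -- the bound for one line
  have hone : ∀ ℓ ∈ L, ((Q.filter (fun z => top z.1 z.2 = ℓ)).card : ℝ) ≤
      2 * ((rich S ℓ : ℝ) / k₀) ^ ((3 : ℝ) / 2) * V + Real.sqrt (2 * V * coll ℓ) := by
    intro ℓ hℓ
    have hk1 : (0 : ℝ) ≤ (rich S ℓ : ℝ) / k₀ := by positivity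
    have h1 := hc t f ℓ (Q.filter (fun z => top z.1 z.2 = ℓ))
      (((rich S ℓ : ℝ) / k₀) ^ ((3 : ℝ) / 2)) (by
        intro z hz
        obtain ⟨hz1, hz2⟩ := Finset.mem_filter.1 hz
        obtain ⟨h2, h3, h4⟩ := hQ z hz1
        exact ⟨h4, hz2, fun j => ⟨hG _ h2 j, hG _ h3 j⟩⟩) (by
        intro z hz
        obtain ⟨hz1, hz2⟩ := Finset.mem_filter.1 hz
        have h5 : ((Q.filter (fun z => top z.1 z.2 = ℓ)).filter
            (fun w => w.1 ∈ base z.1 z.2)).card ≤ rich S (base z.1 z.2) := by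
          apply Finset.card_le_card_of_injOn (fun z => z.1)
          · intro w hw
            obtain ⟨hw1, hw2⟩ := Finset.mem_filter.1 (Finset.mem_coe.1 hw)
            obtain ⟨hw3, hw4⟩ := Finset.mem_filter.1 hw1
            exact Finset.mem_coe.2 (Finset.mem_filter.2 ⟨hGS (hQ w hw3).1, hw2⟩)
          · intro w hw u hu h
            obtain ⟨hw1, hw2⟩ := Finset.mem_filter.1 (Finset.mem_coe.1 hw)
            obtain ⟨hw3, hw4⟩ := Finset.mem_filter.1 hw1
            obtain ⟨hu1, hu2⟩ := Finset.mem_filter.1 (Finset.mem_coe.1 hu)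
            obtain ⟨hu3, hu4⟩ := Finset.mem_filter.1 hu1
            simp only at h
            have h2 : top w.1 w.2 = top w.1 u.2 := by
              rw [hw4, h, hu4]
            exact Prod.ext h (top_unique (hQ w hw3).2.2 h2)
        have h6 : (rich S (base z.1 z.2) : ℝ) ≤ ((rich S ℓ : ℝ) / k₀) ^ ((3 : ℝ) / 2) := by
          have h7 := hQ3 z hz1
          rw [hz2] at h7
          have h8 : (rich S (base z.1 z.2) : ℝ) ^ ((2 : ℝ) / 3) ≤ (rich S ℓ : ℝ) / k₀ := by
            rw [le_div_iff₀ hk0]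
            linarith
          have h9 : ((rich S (base z.1 z.2) : ℝ) ^ ((2 : ℝ) / 3)) ^ ((3 : ℝ) / 2) =
              (rich S (base z.1 z.2) : ℝ) := by
            rw [← Real.rpow_mul (Nat.cast_nonneg _)]
            norm_num
          rw [← h9]
          exact Real.rpow_le_rpow (by positivity) h8 (by norm_num)
        exact le_trans (by exact_mod_cast h5) h6)
    have hs0 : 0 ≤ Real.sqrt (2 * V * coll ℓ) := Real.sqrt_nonneg _
    rcases h1 with h1 | h1
    · linarith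
    · have h2 : ((Q.filter (fun z => top z.1 z.2 = ℓ)).card : ℝ) ≤
          Real.sqrt (2 * V * coll ℓ) := by
        apply Real.le_sqrt_of_sq_le
        exact h1
      have h3 : 0 ≤ 2 * ((rich S ℓ : ℝ) / k₀) ^ ((3 : ℝ) / 2) * V := by positivity
      linarith
  have hsum1 : ∑ ℓ ∈ L, ((Q.filter (fun z => top z.1 z.2 = ℓ)).card : ℝ) * rich S ℓ ≤
      (2 * V * (k₀ ^ ((3 : ℝ) / 2))⁻¹) * (∑ ℓ ∈ L, (rich S ℓ : ℝ) ^ ((5 : ℝ) / 2)) +
      ∑ ℓ ∈ L, (rich S ℓ : ℝ) * Real.sqrt (2 * V * coll ℓ) := by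
    rw [Finset.mul_sum, ← Finset.sum_add_distrib]
    apply Finset.sum_le_sum
    intro ℓ hℓ
    have hr0 : (0 : ℝ) < rich S ℓ := lt_of_lt_of_le hk0 (hLin ℓ hℓ).2.1
    have h1 : ((rich S ℓ : ℝ) / k₀) ^ ((3 : ℝ) / 2) * rich S ℓ =
        (k₀ ^ ((3 : ℝ) / 2))⁻¹ * (rich S ℓ : ℝ) ^ ((5 : ℝ) / 2) := by
      rw [Real.div_rpow hr0.le hk0.le]
      have h2 : (rich S ℓ : ℝ) ^ ((5 : ℝ) / 2) = (rich S ℓ : ℝ) ^ ((3 : ℝ) / 2) * rich S ℓ := by
        have : ((5 : ℝ) / 2) = (3 : ℝ) / 2 + 1 := by norm_num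
        rw [this, Real.rpow_add hr0, Real.rpow_one]
      rw [h2]
      ring
    calc ((Q.filter (fun z => top z.1 z.2 = ℓ)).card : ℝ) * rich S ℓ
        ≤ (2 * ((rich S ℓ : ℝ) / k₀) ^ ((3 : ℝ) / 2) * V + Real.sqrt (2 * V * coll ℓ)) *
          rich S ℓ := mul_le_mul_of_nonneg_right (hone ℓ hℓ) hr0.le
      _ = 2 * V * (((rich S ℓ : ℝ) / k₀) ^ ((3 : ℝ) / 2) * rich S ℓ) +
          (rich S ℓ : ℝ) * Real.sqrt (2 * V * coll ℓ) := by ring
      _ = _ := by rw [h1]; ring
  have hA : (2 * V * (k₀ ^ ((3 : ℝ) / 2))⁻¹) * (∑ ℓ ∈ L, (rich S ℓ : ℝ) ^ ((5 : ℝ) / 2)) ≤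
      2 * C52 * (V * (S.card : ℝ) ^ 2 / k₀ ^ 2) := by
    have h1 := hS52 L hLin
    have h2 : (2 * V * (k₀ ^ ((3 : ℝ) / 2))⁻¹) * (∑ ℓ ∈ L, (rich S ℓ : ℝ) ^ ((5 : ℝ) / 2)) ≤
        (2 * V * (k₀ ^ ((3 : ℝ) / 2))⁻¹) *
          (C52 * (S.card : ℝ) ^ 2 * k₀ ^ ((5 : ℝ) / 2 - 3)) :=
      mul_le_mul_of_nonneg_left h1 (by positivity)
    refine h2.trans (le_of_eq ?_)
    have h3 : (k₀ ^ ((3 : ℝ) / 2))⁻¹ * k₀ ^ ((5 : ℝ) / 2 - 3) = (k₀ ^ 2)⁻¹ := by
      rw [← Real.rpow_neg hk0.le, ← Real.rpow_add hk0, ← Real.rpow_natCast, ← Real.rpow_neg hk0.le]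
      congr 1
      norm_num
    calc (2 * V * (k₀ ^ ((3 : ℝ) / 2))⁻¹) *
          (C52 * (S.card : ℝ) ^ 2 * k₀ ^ ((5 : ℝ) / 2 - 3))
        = 2 * C52 * (V * (S.card : ℝ) ^ 2) *
          ((k₀ ^ ((3 : ℝ) / 2))⁻¹ * k₀ ^ ((5 : ℝ) / 2 - 3)) := by ring
      _ = _ := by rw [h3]; ring
  have hB : ∑ ℓ ∈ L, (rich S ℓ : ℝ) * Real.sqrt (2 * V * coll ℓ) ≤
      Real.sqrt (2 * C2) * ((S.card : ℝ) * Real.sqrt (V * I / k₀)) := by
    have h1 := Real.sum_mul_le_sqrt_mul_sqrt L (fun ℓ => (rich S ℓ : ℝ))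
      (fun ℓ => Real.sqrt (2 * V * coll ℓ))
    refine h1.trans ?_
    have h2 : ∑ ℓ ∈ L, (rich S ℓ : ℝ) ^ 2 ≤ C2 * (S.card : ℝ) ^ 2 * k₀⁻¹ := by
      have h3 := hS2 L hLin
      have h4 : k₀ ^ ((2 : ℝ) - 3) = k₀⁻¹ := by
        rw [show ((2 : ℝ) - 3) = -1 by norm_num, Real.rpow_neg_one]
      rw [h4] at h3
      refine le_trans (le_of_eq ?_) h3
      apply Finset.sum_congr rfl
      intro ℓ hℓ
      rw [Real.rpow_two]
    have h5 : ∑ ℓ ∈ L, (Real.sqrt (2 * V * coll ℓ)) ^ 2 ≤ 2 * V * I := by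
      have h6 : ∑ ℓ ∈ L, (Real.sqrt (2 * V * coll ℓ)) ^ 2 = 2 * V * ∑ ℓ ∈ L, (coll ℓ : ℝ) := by
        rw [Finset.mul_sum]
        apply Finset.sum_congr rfl
        intro ℓ hℓ
        rw [Real.sq_sqrt (by positivity)]
      rw [h6]
      apply mul_le_mul_of_nonneg_left _ (by positivity)
      refine le_trans ?_ hI
      have h7 := gs_coll f G Q (fun z hz => ⟨(hQ z hz).1, (hQ z hz).2.1⟩) L
      exact_mod_cast h7
    have hI0 : 0 ≤ I := le_trans (Nat.cast_nonneg _) hI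
    calc Real.sqrt (∑ ℓ ∈ L, (rich S ℓ : ℝ) ^ 2) *
          Real.sqrt (∑ ℓ ∈ L, (Real.sqrt (2 * V * coll ℓ)) ^ 2)
        ≤ Real.sqrt (C2 * (S.card : ℝ) ^ 2 * k₀⁻¹) * Real.sqrt (2 * V * I) :=
          mul_le_mul (Real.sqrt_le_sqrt h2) (Real.sqrt_le_sqrt h5) (Real.sqrt_nonneg _)
            (Real.sqrt_nonneg _)
      _ = Real.sqrt ((C2 * (S.card : ℝ) ^ 2 * k₀⁻¹) * (2 * V * I)) := by
          rw [← Real.sqrt_mul (show 0 ≤ C2 * (S.card : ℝ) ^ 2 * k₀⁻¹ by positivity)]
      _ = Real.sqrt (2 * C2) * ((S.card : ℝ) * Real.sqrt (V * I / k₀)) := by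
          have h8 : (C2 * (S.card : ℝ) ^ 2 * k₀⁻¹) * (2 * V * I) =
              (2 * C2) * ((S.card : ℝ) ^ 2 * (V * I / k₀)) := by
            field_simp
          rw [h8, Real.sqrt_mul (show 0 ≤ 2 * C2 by positivity),
            Real.sqrt_mul (show 0 ≤ (S.card : ℝ) ^ 2 by positivity),
            Real.sqrt_sq (Nat.cast_nonneg _)]
  linarith

open scoped Classical in
theorem GoodSum_proof (hc : Col) (hs : Sums) (hv : VeryRich) (ha : GSa) (hb : GSb) :
    GoodSum := by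
  obtain ⟨C2, hC2, hS2⟩ := hs 2 (by norm_num) (by norm_num)
  obtain ⟨C52, hC52, hS52⟩ := hs (5 / 2) (by norm_num) (by norm_num)
  obtain ⟨Cb, hCb, hSb⟩ := hb
  refine ⟨3 + Cb + 2 * C52 + Real.sqrt (2 * C2), ?_, ?_⟩
  · have := Real.sqrt_nonneg (2 * C2)
    linarith
  intro S G t f k₀ I hk hGS hG hI
  have hk0 : (0 : ℝ) < k₀ := by linarith
  have hI0 : 0 ≤ I := le_trans (Nat.cast_nonneg _) hI
  set P := (G ×ˢ G).filter (fun z => z.1 ≠ z.2) with hP
  have hPm : ∀ z ∈ P, z.1 ∈ G ∧ z.2 ∈ G ∧ z.1 ≠ z.2 := by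
    intro z hz
    obtain ⟨h1, h2⟩ := Finset.mem_filter.1 hz
    obtain ⟨h3, h4⟩ := Finset.mem_product.1 h1
    exact ⟨h3, h4, h2⟩
  set F : Pt × Pt → ℝ := fun z => (rich S (top z.1 z.2) : ℝ) with hF
  set B : Pt × Pt → ℝ := fun z => (rich S (base z.1 z.2) : ℝ) with hB
  have hF0 : ∀ z, 0 ≤ F z := fun z => Nat.cast_nonneg _
  set r := 2 * Real.sqrt S.card with hr
  set Q1 := P.filter (fun z => F z < k₀) with hQ1
  set Q2 := P.filter (fun z => r ≤ F z) with hQ2
  set Q3 := P.filter (fun z => r ≤ B z) with hQ3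
  set Q4 := P.filter (fun z => B z ≤ r ∧ F z ≤ k₀ * B z ^ ((2 : ℝ) / 3)) with hQ4
  set Q5 := P.filter (fun z => k₀ ≤ F z ∧ F z ≤ r ∧ k₀ * B z ^ ((2 : ℝ) / 3) ≤ F z) with hQ5
  have htri : (tri G S : ℝ) = ∑ z ∈ P, F z := by
    rw [gs_tri_eq]
    push_cast
    rfl
  have hsplit : ∑ z ∈ P, F z ≤ ∑ z ∈ Q1, F z + ∑ z ∈ Q2, F z + ∑ z ∈ Q3, F z + ∑ z ∈ Q4, F z +
      ∑ z ∈ Q5, F z := by
    rw [hQ1, hQ2, hQ3, hQ4, hQ5]
    simp only [Finset.sum_filter (s := P)]
    rw [← Finset.sum_add_distrib, ← Finset.sum_add_distrib, ← Finset.sum_add_distrib,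
      ← Finset.sum_add_distrib]
    apply Finset.sum_le_sum
    intro z hz
    have h0 := hF0 z
    have hi : ∀ (p : Prop) [Decidable p], 0 ≤ (if p then F z else 0) := by
      intro p _
      split_ifs
      · exact h0
      · exact le_rfl
    by_cases c1 : F z < k₀
    · rw [if_pos c1]
      have := hi (r ≤ F z)
      have := hi (r ≤ B z)
      have := hi (B z ≤ r ∧ F z ≤ k₀ * B z ^ ((2 : ℝ) / 3))
      have := hi (k₀ ≤ F z ∧ F z ≤ r ∧ k₀ * B z ^ ((2 : ℝ) / 3) ≤ F z)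
      linarith
    by_cases c2 : r ≤ F z
    · rw [if_pos c2]
      have := hi (F z < k₀)
      have := hi (r ≤ B z)
      have := hi (B z ≤ r ∧ F z ≤ k₀ * B z ^ ((2 : ℝ) / 3))
      have := hi (k₀ ≤ F z ∧ F z ≤ r ∧ k₀ * B z ^ ((2 : ℝ) / 3) ≤ F z)
      linarith
    by_cases c3 : r ≤ B z
    · rw [if_pos c3]
      have := hi (F z < k₀)
      have := hi (r ≤ F z)
      have := hi (B z ≤ r ∧ F z ≤ k₀ * B z ^ ((2 : ℝ) / 3))
      have := hi (k₀ ≤ F z ∧ F z ≤ r ∧ k₀ * B z ^ ((2 : ℝ) / 3) ≤ F z)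
      linarith
    by_cases c4 : F z ≤ k₀ * B z ^ ((2 : ℝ) / 3)
    · have c4' : B z ≤ r ∧ F z ≤ k₀ * B z ^ ((2 : ℝ) / 3) := ⟨(not_le.1 c3).le, c4⟩
      rw [if_pos c4']
      have := hi (F z < k₀)
      have := hi (r ≤ F z)
      have := hi (r ≤ B z)
      have := hi (k₀ ≤ F z ∧ F z ≤ r ∧ k₀ * B z ^ ((2 : ℝ) / 3) ≤ F z)
      linarith
    · have c5' : k₀ ≤ F z ∧ F z ≤ r ∧ k₀ * B z ^ ((2 : ℝ) / 3) ≤ F z :=
        ⟨not_lt.1 c1, (not_le.1 c2).le, (not_le.1 c4).le⟩
      rw [if_pos c5']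
      have := hi (F z < k₀)
      have := hi (r ≤ F z)
      have := hi (r ≤ B z)
      have := hi (B z ≤ r ∧ F z ≤ k₀ * B z ^ ((2 : ℝ) / 3))
      linarith
  have hn0 : (0 : ℝ) ≤ S.card := Nat.cast_nonneg _
  have b1 : ∑ z ∈ Q1, F z ≤ k₀ * (S.card : ℝ) ^ 2 := by
    calc ∑ z ∈ Q1, F z ≤ ∑ z ∈ Q1, k₀ := by
          apply Finset.sum_le_sum
          intro z hz
          exact (Finset.mem_filter.1 hz).2.le
      _ = (Q1.card : ℝ) * k₀ := by rw [Finset.sum_const, nsmul_eq_mul]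
      _ ≤ (S.card : ℝ) ^ 2 * k₀ := by
          apply mul_le_mul_of_nonneg_right _ hk0.le
          have h1 : Q1.card ≤ (G ×ˢ G).card :=
            Finset.card_le_card ((Finset.filter_subset _ _).trans (Finset.filter_subset _ _))
          rw [Finset.card_product] at h1
          have h2 := Finset.card_le_card hGS
          have h3 : Q1.card ≤ S.card ^ 2 := by
            rw [sq]
            exact h1.trans (Nat.mul_le_mul h2 h2)
          exact_mod_cast h3
      _ = k₀ * (S.card : ℝ) ^ 2 := by ring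
  have b2 : ∑ z ∈ Q2, F z ≤ 2 * (S.card : ℝ) ^ 2 := by
    apply gs_part2 hv S Q2
    · intro z hz
      obtain ⟨h1, h2, h3⟩ := hPm z (Finset.mem_filter.1 hz).1
      exact ⟨hGS h1, h3⟩
    · intro z hz
      exact (Finset.mem_filter.1 hz).2
  have b3 : ∑ z ∈ Q3, F z ≤ 2 * (S.card : ℝ) ^ 2 := by
    apply gs_part3 ha S Q3
    · intro z hz
      obtain ⟨h1, h2, h3⟩ := hPm z (Finset.mem_filter.1 hz).1
      exact ⟨hGS h1, hGS h2⟩
    · intro z hz
      exact (Finset.mem_filter.1 hz).2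
  have b4 : ∑ z ∈ Q4, F z ≤ k₀ * (Cb * (S.card : ℝ) ^ 2) := by
    apply gs_part4 S (hSb S) Q4 k₀ hk0.le
    · intro z hz
      obtain ⟨h1, h2, h3⟩ := hPm z (Finset.mem_filter.1 hz).1
      exact ⟨hGS h1, hGS h2, h3, (Finset.mem_filter.1 hz).2.1⟩
    · intro z hz
      exact (Finset.mem_filter.1 hz).2.2
  have b5 := gs_part5 hc (C2 := C2) (C52 := C52) S G t f k₀ I hk hGS hG hI hC2
    (fun L hL => hS2 S L k₀ hk hL) (fun L hL => hS52 S L k₀ hk hL) Q5
    (fun z hz => hPm z (Finset.mem_filter.1 hz).1)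
    (fun z hz => ⟨(Finset.mem_filter.1 hz).2.1, (Finset.mem_filter.1 hz).2.2.1⟩)
    (fun z hz => (Finset.mem_filter.1 hz).2.2.2)
  rw [htri]
  have hV0 : (0 : ℝ) ≤ VV f := Nat.cast_nonneg _
  set T1 := k₀ * (S.card : ℝ) ^ 2 with hT1
  set T2 := (VV f : ℝ) * (S.card : ℝ) ^ 2 / k₀ ^ 2 with hT2
  set T3 := (S.card : ℝ) * Real.sqrt ((VV f : ℝ) * I / k₀) with hT3
  have t1 : 0 ≤ T1 := by positivity
  have t2 : 0 ≤ T2 := by positivity
  have t3 : 0 ≤ T3 := by positivity
  have t4 : 2 * (S.card : ℝ) ^ 2 ≤ T1 := mul_le_mul_of_nonneg_right hk (by positivity)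
  have hq := Real.sqrt_nonneg (2 * C2)
  have b5' : ∑ z ∈ Q5, F z ≤ 2 * C52 * T2 + Real.sqrt (2 * C2) * T3 := b5
  have b4' : ∑ z ∈ Q4, F z ≤ Cb * T1 := by
    refine b4.trans (le_of_eq ?_)
    rw [hT1]; ring
  have m1 : 0 ≤ (2 * C52 + Real.sqrt (2 * C2)) * T1 := by positivity
  have m2 : 0 ≤ (3 + Cb + Real.sqrt (2 * C2)) * T2 := by positivity
  have m3 : 0 ≤ (3 + Cb + 2 * C52) * T3 := by positivity
  nlinarith

end Pool.Agent.Work.MP_916cc8_co

end

section

/-! A generic linear functional is injective on a finite set. -/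

set_option autoImplicit false

namespace Pool.Agent.Work.MP_916cc8_co

open scoped Classical in
theorem HInj_proof : HInj := by
  intro S
  obtain ⟨h, hh'⟩ := Infinite.exists_notMem_finset
    ((S ×ˢ S).image fun z : Pt × Pt => -(z.1.1 - z.2.1) / (z.1.2 - z.2.2))
  refine ⟨h, fun p hp q hq hpq => ?_⟩
  unfold hh at hpq
  by_cases h2 : p.2 = q.2
  · rw [h2] at hpq
    exact Prod.ext (by linarith) h2
  · exfalso
    apply hh'
    rw [Finset.mem_image]
    refine ⟨(p, q), Finset.mem_product.2 ⟨hp, hq⟩, ?_⟩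
    have h3 : p.2 - q.2 ≠ 0 := sub_ne_zero.2 h2
    simp only
    rw [div_eq_iff h3]
    linarith

end Pool.Agent.Work.MP_916cc8_co

end
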